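import Pool.Agent.H779R2.Nu.NDef
import Pool.Agent.H779R2.An.CQC

set_option autoImplicit false

namespace Pool.Agent.H779R2.Nu

open Pool.Agent.H721R2 Pool.Agent.H779R2.An Pool.Agent.H779R2.Li Filter Topology MeasureTheory
open scoped BigOperators

variable {X E : Type*} [MetricSpace X] [CompactSpace X] [NormedAddCommGroup E]
  [InnerProductSpace ℝ E] [FiniteDimensional ℝ E]

variable {S : HypSys X E} {D : ℕ}

/-- the upper bound of the conformal structure -/
theorem N01.upper (B : CS0 S) : ∃ C > 0, ∀ x, ∀ v ∈ S.Vu x, B.B x v v ≤ C * ‖v‖ ^ 2 := by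
  obtain ⟨r, hr, h⟩ := B.cont 1 one_pos
  set t := min r 1 with ht
  have ht0 : 0 < t := lt_min hr one_pos
  have ht1 : t ≤ 1 := min_le_right _ _
  have htr : t ≤ r := min_le_left _ _
  refine ⟨1 / t, by positivity, fun x v hv => ?_⟩
  have h1 := h x x (by simpa using hr) v hv ((1 - t) • v) (Submodule.smul_mem _ _ hv) (by
    have e1 : v - (1 - t) • v = t • v := by rw [sub_smul, one_smul, sub_sub_cancel]
    rw [e1, norm_smul, Real.norm_of_nonneg ht0.le]
    exact mul_le_mul_of_nonneg_right htr (norm_nonneg _))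
  simp only [map_smul, LinearMap.smul_apply, smul_eq_mul] at h1
  have h2 : B.B x v v - (1 - t) * ((1 - t) * B.B x v v) = (2 * t - t ^ 2) * B.B x v v := by ring
  rw [h2] at h1
  have h3 := (abs_le.mp h1).2
  have h0 : 0 ≤ B.B x v v := by
    by_cases hv0 : v = 0
    · rw [hv0]; simp
    · exact (B.pos x v hv hv0).le
  have h4 : t * B.B x v v ≤ (2 * t - t ^ 2) * B.B x v v :=
    mul_le_mul_of_nonneg_right (by nlinarith) h0
  rw [one_div, inv_mul_eq_div, le_div_iff₀ ht0]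
  linarith

/-- the lower bound of the conformal structure -/
theorem N01.lower (B : CS0 S) : ∃ C > 0, ∀ x, ∀ v ∈ S.Vu x, ‖v‖ ^ 2 ≤ C * B.B x v v := by
  by_contra hcon
  push Not at hcon
  have h1 : ∀ n : ℕ, ∃ p : X × E, p.2 ∈ S.Vu p.1 ∧ ‖p.2‖ = 1 ∧
      ((n : ℝ) + 1) * B.B p.1 p.2 p.2 < 1 := by
    intro n
    obtain ⟨x, v, hv, hlt⟩ := hcon ((n : ℝ) + 1) (by positivity)
    have hv0 : v ≠ 0 := by
      rintro rfl
      simp at hlt
    have hn : 0 < ‖v‖ := norm_pos_iff.mpr hv0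
    refine ⟨(x, (‖v‖⁻¹) • v), Submodule.smul_mem _ _ hv, ?_, ?_⟩
    · change ‖(‖v‖⁻¹) • v‖ = 1
      rw [norm_smul, norm_inv, norm_norm, inv_mul_cancel₀ hn.ne']
    · change ((n : ℝ) + 1) * B.B x ((‖v‖⁻¹) • v) ((‖v‖⁻¹) • v) < 1
      simp only [map_smul, LinearMap.smul_apply, smul_eq_mul]
      have e1 : ((n : ℝ) + 1) * (‖v‖⁻¹ * (‖v‖⁻¹ * B.B x v v)) =
          (((n : ℝ) + 1) * B.B x v v) / ‖v‖ ^ 2 := by
        field_simp
      rw [e1, div_lt_one (by positivity)]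
      exact hlt
  choose p hp1 hp2 hp3 using h1
  have hK : IsCompact ((Set.univ : Set X) ×ˢ Metric.sphere (0 : E) 1) :=
    isCompact_univ.prod (isCompact_sphere _ _)
  obtain ⟨q, hq, φ, hφ, hlim⟩ := hK.tendsto_subseq (x := p) (fun n => by
    refine ⟨Set.mem_univ _, ?_⟩
    rw [mem_sphere_zero_iff_norm]
    exact hp2 n)
  have hq2 : ‖q.2‖ = 1 := by
    have := hq.2
    rwa [mem_sphere_zero_iff_norm] at this
  have hlim1 : Tendsto (fun n => (p (φ n)).1) atTop (𝓝 q.1) :=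
    (continuous_fst.tendsto q).comp hlim
  have hlim2 : Tendsto (fun n => (p (φ n)).2) atTop (𝓝 q.2) :=
    (continuous_snd.tendsto q).comp hlim
  have hq0 : q.2 ≠ 0 := by
    intro h
    rw [h, norm_zero] at hq2
    exact zero_ne_one hq2
  -- the limit vector lies in the limit space
  have hmem : q.2 ∈ S.Vu q.1 := by
    have hcl : IsClosed ((S.Vu q.1 : Submodule ℝ E) : Set E) :=
      Submodule.closed_of_finiteDimensional _
    rw [← SetLike.mem_coe, ← hcl.closure_eq, Metric.mem_closure_iff]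
    intro ε hε
    obtain ⟨r, hr, h⟩ := S.A3' (ε / 2) (by positivity)
    have hev1 := (Metric.tendsto_atTop.mp hlim1) r hr
    have hev2 := (Metric.tendsto_atTop.mp hlim2) (ε / 2) (by positivity)
    obtain ⟨N1, hN1⟩ := hev1
    obtain ⟨N2, hN2⟩ := hev2
    have k1 := hN1 (max N1 N2) (le_max_left _ _)
    have k2 := hN2 (max N1 N2) (le_max_right _ _)
    obtain ⟨u', hu', hu2⟩ := h _ _ k1 _ (hp1 (φ (max N1 N2)))
    refine ⟨u', hu', ?_⟩
    rw [hp2, mul_one] at hu2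
    calc dist q.2 u' ≤ dist q.2 (p (φ (max N1 N2))).2 + dist (p (φ (max N1 N2))).2 u' :=
          dist_triangle _ _ _
      _ < ε / 2 + ε / 2 := by
          apply add_lt_add_of_lt_of_le
          · rw [dist_comm]; exact k2
          · rw [dist_eq_norm]; exact hu2
      _ = ε := by ring
  have hpos := B.pos q.1 q.2 hmem hq0
  set m := B.B q.1 q.2 q.2 with hm
  obtain ⟨r, hr, h⟩ := B.cont (m / 2) (by positivity)
  obtain ⟨N1, hN1⟩ := (Metric.tendsto_atTop.mp hlim1) r hr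
  obtain ⟨N2, hN2⟩ := (Metric.tendsto_atTop.mp hlim2) r hr
  obtain ⟨N3, hN3⟩ := exists_nat_gt (2 / m)
  set n := max (max N1 N2) N3 with hn
  have k1 := hN1 n ((le_max_left _ _).trans (le_max_left _ _))
  have k2 := hN2 n ((le_max_right _ _).trans (le_max_left _ _))
  have k3 : 2 / m < ((φ n : ℕ) : ℝ) + 1 := by
    have : N3 ≤ φ n := (le_max_right _ _).trans hφ.le_apply
    have : (N3 : ℝ) ≤ ((φ n : ℕ) : ℝ) := by exact_mod_cast this
    linarith
  have k4 := h (p (φ n)).1 q.1 k1 _ (hp1 _) _ hmem (by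
    rw [hp2, mul_one, ← dist_eq_norm]; exact k2.le)
  rw [hp2, one_pow, mul_one] at k4
  have k5 := (abs_le.mp k4).1
  have k6 := hp3 (φ n)
  have k7 : m / 2 ≤ B.B (p (φ n)).1 (p (φ n)).2 (p (φ n)).2 := by linarith
  have k8 : 1 < (((φ n : ℕ) : ℝ) + 1) * (m / 2) := by
    have : 2 / m * (m / 2) < (((φ n : ℕ) : ℝ) + 1) * (m / 2) :=
      mul_lt_mul_of_pos_right k3 (by positivity)
    have e : 2 / m * (m / 2) = 1 := by field_simp
    linarith
  have k9 : (((φ n : ℕ) : ℝ) + 1) * (m / 2) ≤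
      (((φ n : ℕ) : ℝ) + 1) * B.B (p (φ n)).1 (p (φ n)).2 (p (φ n)).2 :=
    mul_le_mul_of_nonneg_left k7 (by positivity)
  linarith

/-- iterated conformality -/
theorem N01.iter (B : CS0 S) (n : ℕ) (x : X) : ∃ P > 0, ∀ v ∈ S.Vu x, ∀ w ∈ S.Vu x,
    B.B (S.g^[n] x) (Dn S n x v) (Dn S n x w) = P * B.B x v w := by
  induction n with
  | zero => exact ⟨1, one_pos, fun v _ w _ => by simp⟩
  | succ n ih =>
    obtain ⟨P, hP, h⟩ := ih
    refine ⟨B.a (S.g^[n] x) * P, mul_pos (B.a_pos _) hP, fun v hv w hw => ?_⟩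
    rw [Dn_succ, Dn_succ, Function.iterate_succ_apply',
      B.conf _ _ (Dn_mem S n x hv) _ (Dn_mem S n x hw), h v hv w hw, mul_assoc]

theorem N01.nonneg (B : CS0 S) (x : X) {v : E} (hv : v ∈ S.Vu x) : 0 ≤ B.B x v v := by
  by_cases hv0 : v = 0
  · rw [hv0]; simp
  · exact (B.pos x v hv hv0).le

/-- Conformality implies uniform quasiconformality. -/
theorem qc_of_cs0 (B : CS0 S) : ∃ K, QC S K := by
  obtain ⟨C, hC, hup⟩ := N01.upper B
  obtain ⟨c, hc, hlo⟩ := N01.lower B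
  refine ⟨c * C, fun n x v hv w hw => ?_⟩
  obtain ⟨P, hP, hit⟩ := N01.iter B n x
  have a1 := hlo _ _ (Dn_mem S n x hv)
  have a2 := hup _ _ (Dn_mem S n x hw)
  have a3 := hup x v hv
  have a4 := hlo x w hw
  rw [hit v hv v hv] at a1
  rw [hit w hw w hw] at a2
  set p := ‖v‖ with hp
  set q := ‖w‖ with hq
  set P' := ‖Dn S n x v‖ with hP'
  set Q' := ‖Dn S n x w‖ with hQ'
  have p0 : 0 ≤ p := norm_nonneg _
  have q0 : 0 ≤ q := norm_nonneg _
  have P0 : 0 ≤ P' := norm_nonneg _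
  have Q0 : 0 ≤ Q' := norm_nonneg _
  have b1 := N01.nonneg B x hv
  have b2 := N01.nonneg B x hw
  have key : (P' * q) ^ 2 ≤ ((c * C) * (Q' * p)) ^ 2 := by
    have k1 : P' ^ 2 * q ^ 2 ≤ (c * (P * B.B x v v)) * (c * B.B x w w) :=
      mul_le_mul a1 a4 (by positivity) (by positivity)
    have k2 : (P * B.B x w w) * B.B x v v ≤ (C * Q' ^ 2) * (C * p ^ 2) :=
      mul_le_mul a2 a3 b1 (by positivity)
    calc (P' * q) ^ 2 = P' ^ 2 * q ^ 2 := by ring
      _ ≤ _ := k1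
      _ = c ^ 2 * ((P * B.B x w w) * B.B x v v) := by ring
      _ ≤ c ^ 2 * ((C * Q' ^ 2) * (C * p ^ 2)) := mul_le_mul_of_nonneg_left k2 (by positivity)
      _ = _ := by ring
  exact (pow_le_pow_iff_left₀ (by positivity) (by positivity) two_ne_zero).1 key

/-- abstract comparison of ratios -/
theorem N01.ratio_eq (bv bw bv' bw' : ℝ)
    (h : ∀ η > 0, ∃ P > 0, ∃ P' > 0, ∃ pv pw qv qw : ℝ, 0 ≤ pv ∧ 0 ≤ pw ∧ bv = P * pv ∧
      bw = P * pw ∧ bv' = P' * qv ∧ bw' = P' * qw ∧ |pv - qv| ≤ η * pv ∧ |pw - qw| ≤ η * pw) :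
    bv' * bw = bw' * bv := by
  by_contra hne
  have hd : 0 < |bv' * bw - bw' * bv| := abs_pos.mpr (sub_ne_zero.mpr hne)
  set d := |bv' * bw - bw' * bv| with hdd
  set M := |bv| * |bw'| + 1 with hM
  have hM0 : 0 < M := by positivity
  obtain ⟨P, hP, P', hP', pv, pw, qv, qw, h1, h2, e1, e2, e3, e4, h3, h4⟩ :=
    h (min (1 / 2) (d / (8 * M))) (lt_min (by norm_num) (by positivity))
  set η := min (1 / 2) (d / (8 * M)) with hη
  have hη0 : 0 < η := lt_min (by norm_num) (by positivity)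
  have hη1 : η ≤ 1 / 2 := min_le_left _ _
  have hη2 : η ≤ d / (8 * M) := min_le_right _ _
  have h3' := abs_le.mp h3
  have h4' := abs_le.mp h4
  -- pw ≤ 2 qw
  have f1 : η * pw ≤ 1 / 2 * pw := mul_le_mul_of_nonneg_right hη1 h2
  have f2 : pw ≤ 2 * qw := by linarith [h4'.2]
  have f3 : |qv * pw - pv * qw| ≤ 2 * η * (pv * pw) := by
    have e5 : qv * pw - pv * qw = (pw - qw) * pv - (pv - qv) * pw := by ring
    rw [e5]
    calc |(pw - qw) * pv - (pv - qv) * pw| ≤ |(pw - qw) * pv| + |(pv - qv) * pw| := abs_sub _ _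
      _ = |pw - qw| * pv + |pv - qv| * pw := by
          rw [abs_mul, abs_mul, abs_of_nonneg h1, abs_of_nonneg h2]
      _ ≤ (η * pw) * pv + (η * pv) * pw :=
          add_le_add (mul_le_mul_of_nonneg_right h4 h1) (mul_le_mul_of_nonneg_right h3 h2)
      _ = _ := by ring
  have f4 : d = P * P' * |qv * pw - pv * qw| := by
    rw [hdd, e1, e2, e3, e4]
    have : P' * qv * (P * pw) - P' * qw * (P * pv) = (P * P') * (qv * pw - pv * qw) := by ring
    rw [this, abs_mul, abs_of_pos (mul_pos hP hP')]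
  have f5 : d ≤ 4 * η * (bv * bw') := by
    rw [f4]
    calc P * P' * |qv * pw - pv * qw| ≤ P * P' * (2 * η * (pv * pw)) :=
          mul_le_mul_of_nonneg_left f3 (by positivity)
      _ ≤ P * P' * (2 * η * (pv * (2 * qw))) := by
          apply mul_le_mul_of_nonneg_left _ (by positivity)
          apply mul_le_mul_of_nonneg_left _ (by positivity)
          exact mul_le_mul_of_nonneg_left f2 h1
      _ = 4 * η * ((P * pv) * (P' * qw)) := by ring
      _ = 4 * η * (bv * bw') := by rw [← e1, ← e4]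
  have f6 : bv * bw' ≤ M := by
    have : bv * bw' ≤ |bv| * |bw'| := by rw [← abs_mul]; exact le_abs_self _
    linarith
  have f7 : 4 * η * (bv * bw') ≤ 4 * (d / (8 * M)) * M := by
    have g1 : 4 * η * (bv * bw') ≤ 4 * η * M := mul_le_mul_of_nonneg_left f6 (by positivity)
    have g2 : 4 * η * M ≤ 4 * (d / (8 * M)) * M :=
      mul_le_mul_of_nonneg_right (by linarith) hM0.le
    linarith
  have f8 : 4 * (d / (8 * M)) * M = d / 2 := by field_simp; ring
  linarith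

/-- two proportional quadratic forms -/
theorem N01.polar (B : CS0 S) (x y : X) (T : E →ₗ[ℝ] E) (hT : ∀ v ∈ S.Vu x, T v ∈ S.Vu y)
    (hinj : ∀ v ∈ S.Vu x, v ≠ 0 → T v ≠ 0)
    (h : ∀ v ∈ S.Vu x, ∀ w ∈ S.Vu x, B.B y (T v) (T v) * B.B x w w =
      B.B y (T w) (T w) * B.B x v v) :
    ∃ κ > 0, ∀ v ∈ S.Vu x, ∀ w ∈ S.Vu x, B.B y (T v) (T w) = κ * B.B x v w := by
  by_cases hz : ∃ w₀ ∈ S.Vu x, w₀ ≠ 0
  · obtain ⟨w₀, hw, hw0⟩ := hz
    have b0 := B.pos x w₀ hw hw0
    have b1 := B.pos y (T w₀) (hT _ hw) (hinj _ hw hw0)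
    refine ⟨B.B y (T w₀) (T w₀) / B.B x w₀ w₀, div_pos b1 b0, ?_⟩
    set κ := B.B y (T w₀) (T w₀) / B.B x w₀ w₀ with hκ
    have hq : ∀ v ∈ S.Vu x, B.B y (T v) (T v) = κ * B.B x v v := by
      intro v hv
      have := h v hv w₀ hw
      rw [hκ, div_mul_eq_mul_div, eq_div_iff b0.ne']
      exact this
    intro v hv w hw'
    have q1 := hq (v + w) (Submodule.add_mem _ hv hw')
    have q2 := hq v hv
    have q3 := hq w hw'
    have s1 := B.symm x v hv w hw'
    have s2 := B.symm y (T v) (hT v hv) (T w) (hT w hw')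
    simp only [map_add, LinearMap.add_apply] at q1
    rw [← s1, ← s2] at q1
    linarith
  · push Not at hz
    refine ⟨1, one_pos, fun v hv w hw => ?_⟩
    rw [hz v hv]
    simp

/-- The linear holonomy and the transport are conformal. -/
theorem cs0_tau (B : CS0 S) (F : Flat S) : ∀ x y, UAsym S x y → ∃ κ > 0, ∀ v ∈ S.Vu x,
    ∀ w ∈ S.Vu x, B.B y (F.τ x y v) (F.τ x y w) = κ * B.B x v w := by
  intro x y hxy
  obtain ⟨c, hc, hlo⟩ := N01.lower B
  refine N01.polar B x y (F.τ x y) (fun v hv => F.τ_mem x y hxy v hv) ?_ ?_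
  · intro v hv hv0 h0
    apply hv0
    have h1 := F.τ_comp x y x hxy hxy.symm v hv
    rw [F.τ_self x v hv, h0, map_zero] at h1
    exact h1.symm
  · intro v hv w hw
    apply N01.ratio_eq
    intro η hη
    obtain ⟨r, hr, h1⟩ := B.cont (η / c) (by positivity)
    obtain ⟨ε₂, hε₂, h3⟩ := F.τ_near r hr
    have hε : 0 < min ε₂ (r / 2) := lt_min hε₂ (by positivity)
    obtain ⟨n, hn⟩ := hxy.eventually hε
    have hU := hn n le_rfl
    obtain ⟨P, hP, hP1⟩ := N01.iter B n (S.g.symm^[n] x)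
    obtain ⟨P', hP', hP1'⟩ := N01.iter B n (S.g.symm^[n] y)
    have hmm : UAsym S (S.g.symm^[n] x) (S.g.symm^[n] y) := hxy.symm_iter n
    have kd : dist (S.g.symm^[n] x) (S.g.symm^[n] y) < r := by
      have := hU.dist_le
      have h5 : min ε₂ (r / 2) ≤ r / 2 := min_le_right _ _
      linarith
    have main : ∀ u ∈ S.Vu x, ∃ pu qu : ℝ, 0 ≤ pu ∧ B.B x u u = P * pu ∧
        B.B y (F.τ x y u) (F.τ x y u) = P' * qu ∧ |pu - qu| ≤ η * pu := by
      intro u hu
      have hum := Dn_symm_mem S n x hu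
      have hum' := Dn_symm_mem S n y (F.τ_mem x y hxy u hu)
      refine ⟨B.B (S.g.symm^[n] x) (Dn S.symm n x u) (Dn S.symm n x u),
        B.B (S.g.symm^[n] y) (Dn S.symm n y (F.τ x y u)) (Dn S.symm n y (F.τ x y u)),
        N01.nonneg B _ hum, ?_, ?_, ?_⟩
      · rw [← hP1 _ hum _ hum, iter_iter_symm, Dn_Dn_symm S n x hu]
      · rw [← hP1' _ hum' _ hum', iter_iter_symm, Dn_Dn_symm S n y (F.τ_mem x y hxy u hu)]
      · rw [← F.τ_back hxy n hu]
        have k2 := h3 _ _ (hU.mono (min_le_left _ _)) _ hum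
        have k5 := h1 _ _ kd _ hum _ (F.τ_mem _ _ hmm _ hum) (by
          rw [norm_sub_rev]; exact k2)
        have k6 := hlo _ _ hum
        calc _ ≤ _ := k5
          _ ≤ η / c * (c * B.B (S.g.symm^[n] x) (Dn S.symm n x u) (Dn S.symm n x u)) :=
              mul_le_mul_of_nonneg_left k6 (by positivity)
          _ = _ := by field_simp
    obtain ⟨pv, qv, a1, a2, a3, a4⟩ := main v hv
    obtain ⟨pw, qw, b1, b2, b3, b4⟩ := main w hw
    exact ⟨P, hP, P', hP', pv, pw, qv, qw, a1, b1, a2, b2, a3, b3, a4, b4⟩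

theorem cs0_hol (B : CS0 S) (F : Flat S) : ∀ x y, SAsym S x y → ∃ κ > 0, ∀ v ∈ S.Vu x,
    ∀ w ∈ S.Vu x, B.B y (F.H x y v) (F.H x y w) = κ * B.B x v w := by
  intro x y hxy
  obtain ⟨c, hc, hlo⟩ := N01.lower B
  refine N01.polar B x y (F.H x y) (fun v hv => F.H_mem x y hxy v hv) ?_ ?_
  · intro v hv hv0 h0
    apply hv0
    have h1 := F.H_comp x y x hxy hxy.symm v hv
    rw [F.H_self x v hv, h0, map_zero] at h1
    exact h1.symm
  · intro v hv w hw
    apply N01.ratio_eq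
    intro η hη
    obtain ⟨r, hr, h1⟩ := B.cont (η / c) (by positivity)
    obtain ⟨ε₂, hε₂, h3⟩ := F.H_near r hr
    have hε : 0 < min ε₂ (r / 2) := lt_min hε₂ (by positivity)
    obtain ⟨n, hn⟩ := hxy.eventually hε
    have hU := hn n le_rfl
    obtain ⟨P, hP, hP1⟩ := N01.iter B n x
    obtain ⟨P', hP', hP1'⟩ := N01.iter B n y
    have hmm : SAsym S (S.g^[n] x) (S.g^[n] y) := hxy.iter n
    have kd : dist (S.g^[n] x) (S.g^[n] y) < r := by
      have := hU.dist_le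
      have h5 : min ε₂ (r / 2) ≤ r / 2 := min_le_right _ _
      linarith
    have main : ∀ u ∈ S.Vu x, ∃ pu qu : ℝ, 0 ≤ pu ∧ B.B x u u = P⁻¹ * pu ∧
        B.B y (F.H x y u) (F.H x y u) = P'⁻¹ * qu ∧ |pu - qu| ≤ η * pu := by
      intro u hu
      have hum := Dn_mem S n x hu
      have hum' := Dn_mem S n y (F.H_mem x y hxy u hu)
      have hHu := F.H_mem x y hxy u hu
      refine ⟨B.B (S.g^[n] x) (Dn S n x u) (Dn S n x u),
        B.B (S.g^[n] y) (Dn S n y (F.H x y u)) (Dn S n y (F.H x y u)),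
        N01.nonneg B _ hum, ?_, ?_, ?_⟩
      · rw [hP1 _ hu _ hu, inv_mul_cancel_left₀ hP.ne']
      · rw [hP1' _ hHu _ hHu, inv_mul_cancel_left₀ hP'.ne']
      · rw [← F.H_iter hxy n hu]
        have k2 := h3 _ _ (hU.mono (min_le_left _ _)) _ hum
        have k5 := h1 _ _ kd _ hum _ (F.H_mem _ _ hmm _ hum) (by
          rw [norm_sub_rev]; exact k2)
        have k6 := hlo _ _ hum
        calc _ ≤ _ := k5
          _ ≤ η / c * (c * B.B (S.g^[n] x) (Dn S n x u) (Dn S n x u)) :=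
              mul_le_mul_of_nonneg_left k6 (by positivity)
          _ = _ := by field_simp
    obtain ⟨pv, qv, a1, a2, a3, a4⟩ := main v hv
    obtain ⟨pw, qw, b1, b2, b3, b4⟩ := main w hw
    exact ⟨P⁻¹, inv_pos.mpr hP, P'⁻¹, inv_pos.mpr hP', pv, pw, qv, qw, a1, b1, a2, b2, a3, b3,
      a4, b4⟩

end Pool.Agent.H779R2.Nu
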