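import Pool.Agent.H779R2.Nu.N00

set_option autoImplicit false

namespace Pool.Agent.H779R2.Nu

open Pool.Agent.H721R2 Pool.Agent.H779R2.An Pool.Agent.H779R2.Li Filter Topology MeasureTheory
open scoped BigOperators

namespace N05aux

variable {D : ℕ}

theorem mobD_map (L A : Ve D →L[ℝ] Ve D) (b u : Ve D) :
    L (mobD A b u) = mobD (L.comp A) b u := by
  unfold mobD
  rw [map_smul]
  rfl

theorem den_zero (u : Ve D) : den 0 u = 1 := by
  simp [den]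

theorem mobD_zero (A : Ve D →L[ℝ] Ve D) (u : Ve D) : mobD A 0 u = A u := by
  simp [mobD, den_zero]

theorem sq_le_den (b u : Ve D) : (1 - ‖b‖ * ‖u‖) ^ 2 ≤ den b u := by
  unfold den
  have h := real_inner_le_norm b u
  nlinarith

/-- the vector `b` of a Moebius map is determined by one value -/
theorem uniq {A : Ve D →L[ℝ] Ve D} (hA : Conf A) (hA0 : 0 < ‖A‖) {b b' u : Ve D} (hu : u ≠ 0)
    (h : den b u ≠ 0) (h' : den b' u ≠ 0) (he : mobD A b u = mobD A b' u) : b = b' := by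
  have hu0 : 0 < ‖u‖ := norm_pos_iff.2 hu
  have hd : 0 < den b u := lt_of_le_of_ne (den_nonneg b u) (Ne.symm h)
  have hd' : 0 < den b' u := lt_of_le_of_ne (den_nonneg b' u) (Ne.symm h')
  have h1 := mobD_norm hA b u h
  rw [he, mobD_norm hA b' u h'] at h1
  have hs := Real.sqrt_pos.2 hd
  have hs' := Real.sqrt_pos.2 hd'
  have h2 : Real.sqrt (den b u) = Real.sqrt (den b' u) := by
    rw [div_eq_div_iff hs'.ne' hs.ne'] at h1
    exact mul_left_cancel₀ (mul_pos hA0 hu0).ne' h1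
  have h3 : den b u = den b' u := by
    have h4 := congrArg (fun t => t ^ 2) h2
    simp only [Real.sq_sqrt hd.le, Real.sq_sqrt hd'.le] at h4
    exact h4
  unfold mobD at he
  rw [h3] at he
  have h4 := smul_right_injective (Ve D) (inv_ne_zero h') he
  have h5 : A (‖u‖ ^ 2 • (b' - b)) = 0 := by
    have h6 : ‖u‖ ^ 2 • (b' - b) = (u - ‖u‖ ^ 2 • b) - (u - ‖u‖ ^ 2 • b') := by
      rw [smul_sub]
      abel
    rw [h6, map_sub]
    exact sub_eq_zero.2 h4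
  have h7 : ‖‖u‖ ^ 2 • (b' - b)‖ = 0 := by
    have h8 := hA (‖u‖ ^ 2 • (b' - b))
    rw [h5, norm_zero] at h8
    rcases mul_eq_zero.1 h8.symm with h9 | h9
    · exact absurd h9 hA0.ne'
    · exact h9
  rw [norm_smul, mul_eq_zero] at h7
  rcases h7 with h7 | h7
  · rw [norm_pow, norm_norm] at h7
    exact absurd h7 (by positivity)
  · exact (sub_eq_zero.1 (norm_eq_zero.1 h7)).symm

theorem exists_vec (hD : 2 ≤ D) (r : ℝ) (hr : 0 < r) : ∃ u : Ve D, u ≠ 0 ∧ ‖u‖ = r := by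
  have hn : ‖(EuclideanSpace.single (⟨0, by omega⟩ : Fin D) r : Ve D)‖ = r := by
    rw [EuclideanSpace.norm_single, Real.norm_of_nonneg hr.le]
  refine ⟨EuclideanSpace.single (⟨0, by omega⟩ : Fin D) r, ?_, hn⟩
  intro h
  rw [h, norm_zero] at hn
  exact hr.ne hn

variable {X E : Type*} [MetricSpace X] [CompactSpace X] [NormedAddCommGroup E]
  [InnerProductSpace ℝ E] [FiniteDimensional ℝ E]

variable {S : HypSys X E}

/-- exact local data -/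
structure Loc (c : CFD S D) (ρ₀ ε₁ : ℝ) (thl : X → X → Ve D) : Prop where
  ρ_pos : 0 < ρ₀
  ε_pos : 0 < ε₁
  ε_le : ε₁ ≤ c.ε₀
  le : ∀ z z', S.SRel ε₁ z z' → ‖thl z z'‖ ≤ 1 / ρ₀
  mob : ∀ z z' p p', S.SRel ε₁ z z' → S.URel ε₁ z p → S.SRel ε₁ p p' → S.URel ε₁ z' p' →
    den (thl z z') (c.lc z p) ≠ 0 ∧ c.lc z' p' = mobD (c.eta z z') (thl z z') (c.lc z p)

theorem exists_loc (c : CFD S D)
    (hol : ∃ ρ₀ > 0, ∃ ε > 0, ε ≤ c.ε₀ ∧ ∀ z z', S.SRel ε z z' →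
      ∃ h : Ve D → Ve D, CM ρ₀ h ∧ h 0 = 0 ∧ fderiv ℝ h 0 = c.eta z z' ∧
        ∀ p p', S.URel ε z p → S.SRel ε p p' → S.URel ε z' p' →
          ‖c.lc z p‖ < ρ₀ ∧ c.lc z' p' = h (c.lc z p))
    (liou : ∀ (r : ℝ) (h : Ve D → Ve D), 0 < r → CM r h → h 0 = 0 →
      ∃ b : Ve D, ‖b‖ ≤ 1 / r ∧ ∀ x ∈ Metric.ball (0 : Ve D) r, den b x ≠ 0 ∧
        h x = mobD (fderiv ℝ h 0) b x) :
    ∃ ρ₀ ε₁ thl, Loc c ρ₀ ε₁ thl := by
  obtain ⟨ρ₀, hρ₀, ε, hε, hle, hh⟩ := hol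
  have key : ∀ z z', ∃ t : Ve D, S.SRel ε z z' → ‖t‖ ≤ 1 / ρ₀ ∧
      ∀ p p', S.URel ε z p → S.SRel ε p p' → S.URel ε z' p' →
        den t (c.lc z p) ≠ 0 ∧ c.lc z' p' = mobD (c.eta z z') t (c.lc z p) := by
    intro z z'
    by_cases hz : S.SRel ε z z'
    · obtain ⟨h, h1, h2, h3, h4⟩ := hh z z' hz
      obtain ⟨b, hb, hb'⟩ := liou ρ₀ h hρ₀ h1 h2
      refine ⟨b, fun _ => ⟨hb, fun p p' h5 h6 h7 => ?_⟩⟩
      obtain ⟨h8, h9⟩ := h4 p p' h5 h6 h7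
      obtain ⟨h10, h11⟩ := hb' (c.lc z p) (mem_ball_zero_iff.2 h8)
      refine ⟨h10, ?_⟩
      rw [h9, h11, h3]
    · exact ⟨0, fun h' => absurd h' hz⟩
  choose thl hthl using key
  exact ⟨ρ₀, ε, thl, hρ₀, hε, hle, fun z z' hz => (hthl z z' hz).1,
    fun z z' p p' h1 h2 h3 h4 => (hthl z z' h1).2 p p' h2 h3 h4⟩

theorem mob_norm_le (c : CFD S D) {ρ₀ ε₁ : ℝ} {thl : X → X → Ve D} (L : Loc c ρ₀ ε₁ thl)
    {z z' p p' : X} (h1 : S.SRel ε₁ z z') (h2 : S.URel ε₁ z p) (h3 : S.SRel ε₁ p p')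
    (h4 : S.URel ε₁ z' p') (h5 : ‖c.lc z p‖ ≤ ρ₀ / 2) :
    ‖c.lc z' p'‖ ≤ 2 * c.M * ‖c.lc z p‖ := by
  obtain ⟨h6, h7⟩ := L.mob z z' p p' h1 h2 h3 h4
  have hs : SAsym S z z' := c.geo.sasym z z' (h1.mono L.ε_le)
  have hM : 0 < c.M := lt_of_lt_of_le one_pos c.one_le_M
  rw [h7, mobD_norm (c.eta_conf z z' hs) _ _ h6]
  have h8 := sq_le_den (thl z z') (c.lc z p)
  have h9 := L.le z z' h1
  have h10 : ‖thl z z'‖ * ‖c.lc z p‖ ≤ 1 / 2 := by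
    calc ‖thl z z'‖ * ‖c.lc z p‖ ≤ 1 / ρ₀ * (ρ₀ / 2) :=
          mul_le_mul h9 h5 (norm_nonneg _) (by have := L.ρ_pos; positivity)
      _ = 1 / 2 := by
          have := L.ρ_pos
          field_simp
  have h11 : (1 / 2 : ℝ) ≤ Real.sqrt (den (thl z z') (c.lc z p)) := by
    apply Real.le_sqrt_of_sq_le
    refine le_trans ?_ h8
    nlinarith
  have h12 := c.eta_le z z' (h1.mono L.ε_le)
  rw [div_le_iff₀ (by linarith)]
  have h13 : ‖c.eta z z'‖ * ‖c.lc z p‖ ≤ c.M * ‖c.lc z p‖ :=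
    mul_le_mul_of_nonneg_right h12 (norm_nonneg _)
  have h14 : 2 * c.M * ‖c.lc z p‖ * (1 / 2) ≤
      2 * c.M * ‖c.lc z p‖ * Real.sqrt (den (thl z z') (c.lc z p)) :=
    mul_le_mul_of_nonneg_left h11 (by positivity)
  linarith

/-- Corners, with small sides. -/
theorem corner (c : CFD S D) {ρ₀ ε₁ : ℝ} {thl : X → X → Ve D} (L : Loc c ρ₀ ε₁ thl)
    (κ : ℝ) (hκ : 0 < κ) (hκ1 : κ ≤ ε₁) :
    ∃ ε₂ > 0, ε₂ ≤ κ ∧ ∀ z z', S.SRel ε₂ z z' → ∀ δ > 0, ∃ ρ > 0, ∀ p,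
      UAsym S z p → ‖c.lc z p‖ ≤ ρ → S.URel δ z p ∧ ∃ p', UAsym S z' p' ∧ S.SRel κ p p' ∧
        S.URel δ z' p' ∧ ‖c.lc z' p'‖ ≤ 2 * c.M * ‖c.lc z p‖ := by
  obtain ⟨ε, hε, hc⟩ := exists_corner S κ hκ
  have hM : 0 < c.M := lt_of_lt_of_le one_pos c.one_le_M
  have hκε : κ ≤ c.ε₀ := hκ1.trans L.ε_le
  have hρ₀ := L.ρ_pos
  refine ⟨min ε κ, lt_min hε hκ, min_le_right _ _, fun z z' hz δ hδ => ?_⟩
  obtain ⟨ρ₁, hρ₁, h3⟩ := c.small (min δ (min ε κ)) (lt_min hδ (lt_min hε hκ))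
  refine ⟨min (ρ₀ / 2) (min ρ₁ (ρ₁ / (2 * c.M))),
    lt_min (by positivity) (lt_min hρ₁ (by positivity)), fun p hp hlp => ?_⟩
  have hp1 : ‖c.lc z p‖ ≤ ρ₀ / 2 := hlp.trans (min_le_left _ _)
  have hp2 : ‖c.lc z p‖ ≤ ρ₁ := hlp.trans ((min_le_right _ _).trans (min_le_left _ _))
  have hp3 : ‖c.lc z p‖ ≤ ρ₁ / (2 * c.M) :=
    hlp.trans ((min_le_right _ _).trans (min_le_right _ _))
  have hU := h3 z p hp hp2
  refine ⟨hU.mono (min_le_left _ _), ?_⟩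
  obtain ⟨p', h4, h5⟩ := hc z z' p (hz.mono (min_le_left _ _))
    (hU.mono ((min_le_right _ _).trans (min_le_left _ _)))
  have h6 : ‖c.lc z' p'‖ ≤ 2 * c.M * ‖c.lc z p‖ :=
    mob_norm_le c L (hz.mono ((min_le_right _ _).trans hκ1))
      (hU.mono ((min_le_right _ _).trans ((min_le_right _ _).trans hκ1))) (h5.mono hκ1)
      (h4.mono hκ1) hp1
  have h7 : UAsym S z' p' := c.geo.uasym z' p' (h4.mono hκε)
  have h8 : ‖c.lc z' p'‖ ≤ ρ₁ := by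
    refine h6.trans ?_
    rw [le_div_iff₀ (by positivity)] at hp3
    linarith
  exact ⟨p', h7, h5, (h3 z' p' h7 h8).mono (min_le_left _ _), h6⟩

theorem local_equi (c : CFD S D) {ρ₀ ε₁ : ℝ} {thl : X → X → Ve D} (L : Loc c ρ₀ ε₁ thl)
    (κ : ℝ) (hκ1 : κ ≤ ε₁) (ε₂ : ℝ) (hε₂κ : ε₂ ≤ κ)
    (hc : ∀ z z', S.SRel ε₂ z z' → ∀ δ > 0, ∃ ρ > 0, ∀ p,
      UAsym S z p → ‖c.lc z p‖ ≤ ρ → S.URel δ z p ∧ ∃ p', UAsym S z' p' ∧ S.SRel κ p p' ∧
        S.URel δ z' p' ∧ ‖c.lc z' p'‖ ≤ 2 * c.M * ‖c.lc z p‖)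
    (z z' : X) (hz : S.SRel ε₂ z z') :
    ContinuousLinearMap.adjoint (c.lam z) (thl (S.g z) (S.g z')) = thl z z' := by
  have hM : 0 < c.M := lt_of_lt_of_le one_pos c.one_le_M
  have hsas : SAsym S z z' := c.geo.sasym z z' (hz.mono (hε₂κ.trans (hκ1.trans L.ε_le)))
  obtain ⟨ρ₁, hρ₁, h3⟩ := hc z z' hz ε₁ L.ε_pos
  obtain ⟨ρ₂, hρ₂, h4⟩ := c.surj c.ε₀ c.geo.pos
  obtain ⟨ρ₃, hρ₃, h5⟩ := c.small ε₁ L.ε_pos
  obtain ⟨u, hu, hun⟩ := exists_vec c.hD (min ρ₁ (min ρ₂ (ρ₃ / (c.M * (1 + 2 * c.M)))))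
    (lt_min hρ₁ (lt_min hρ₂ (by positivity)))
  have hu1 : ‖u‖ ≤ ρ₁ := hun.le.trans (min_le_left _ _)
  have hu2 : ‖u‖ ≤ ρ₂ := hun.le.trans ((min_le_right _ _).trans (min_le_left _ _))
  have hu3 : ‖u‖ ≤ ρ₃ / (c.M * (1 + 2 * c.M)) :=
    hun.le.trans ((min_le_right _ _).trans (min_le_right _ _))
  rw [le_div_iff₀ (by positivity)] at hu3
  obtain ⟨p, hp, hpu⟩ := h4 z u hu2
  have hpa := c.geo.uasym z p hp
  obtain ⟨h6, p', h7, h8, h9, h10⟩ := h3 p hpa (by rw [hpu]; exact hu1)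
  have e1 : c.lc (S.g z) (S.g p) = c.lam z u := by rw [c.lc_equi z p hpa, hpu]
  have e2 : c.lc (S.g z') (S.g p') = c.lam z' (c.lc z' p') := c.lc_equi z' p' h7
  have hu0 : 0 ≤ ‖u‖ := norm_nonneg _
  have hn1 : ‖c.lc (S.g z) (S.g p)‖ ≤ c.M * ‖u‖ := by
    rw [e1, c.lam_conf z u]
    exact mul_le_mul_of_nonneg_right (c.lam_le z) (norm_nonneg _)
  have hn2 : ‖c.lc (S.g z') (S.g p')‖ ≤ c.M * (2 * c.M * ‖u‖) := by
    rw [e2, c.lam_conf z']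
    rw [hpu] at h10
    exact mul_le_mul (c.lam_le z') h10 (norm_nonneg _) hM.le
  have hMu : 0 ≤ c.M * ‖u‖ := by positivity
  have hMDu : 0 ≤ c.M * (2 * c.M * ‖u‖) := by positivity
  have h11 : S.URel ε₁ (S.g z) (S.g p) := h5 _ _ hpa.map (by nlinarith)
  have h12 : S.URel ε₁ (S.g z') (S.g p') := h5 _ _ h7.map (by nlinarith)
  obtain ⟨hA1, hA2⟩ := L.mob z z' p p' (hz.mono (hε₂κ.trans hκ1)) h6 (h8.mono hκ1) h9
  obtain ⟨hB1, hB2⟩ := L.mob (S.g z) (S.g z') (S.g p) (S.g p') (hz.mono (hε₂κ.trans hκ1)).map h11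
    (h8.mono hκ1).map h12
  rw [hpu] at hA1 hA2
  rw [e1] at hB1 hB2
  rw [e2, hA2, mobD_map, ← mobD_zero (c.lam z) u,
    mobD_comp (c.lam_conf z) 0 _ u (by rw [den_zero]; exact one_ne_zero), zero_add] at hB2
  have hB3 : den (ContinuousLinearMap.adjoint (c.lam z) (thl (S.g z) (S.g z'))) u ≠ 0 := by
    have h13 := den_mobD (c.lam_conf z) 0 (thl (S.g z) (S.g z')) u
      (by rw [den_zero]; exact one_ne_zero)
    rw [zero_add, den_zero, one_mul, mobD_zero] at h13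
    rw [h13]
    exact hB1
  have heq := c.eta_equi z z' hsas
  rw [show (c.eta (S.g z) (S.g z')) ∘L c.lam z = (c.lam z').comp (c.eta z z') from heq] at hB2
  have hconf : Conf ((c.lam z').comp (c.eta z z')) := by
    have h14 := c.eta_conf z z' hsas
    have h15 := c.lam_conf z'
    have h16 : ∀ v, ‖((c.lam z').comp (c.eta z z')) v‖ = ‖c.lam z'‖ * ‖c.eta z z'‖ * ‖v‖ := by
      intro v
      rw [ContinuousLinearMap.comp_apply, h15, h14, mul_assoc]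
    have h17 : ‖(c.lam z').comp (c.eta z z')‖ = ‖c.lam z'‖ * ‖c.eta z z'‖ := by
      have h18 := h16 u
      apply le_antisymm (ContinuousLinearMap.opNorm_comp_le _ _)
      have h19 := ((c.lam z').comp (c.eta z z')).le_opNorm u
      rw [h18] at h19
      exact le_of_mul_le_mul_right h19 (norm_pos_iff.2 hu)
    intro v
    rw [h17]
    exact h16 v
  have hpos : 0 < ‖(c.lam z').comp (c.eta z z')‖ := by
    have h14 := hconf u
    have h15 : ‖((c.lam z').comp (c.eta z z')) u‖ = ‖c.lam z'‖ * (‖c.eta z z'‖ * ‖u‖) := by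
      rw [ContinuousLinearMap.comp_apply, c.lam_conf z', c.eta_conf z z' hsas]
    have h16 : 0 < ‖c.lam z'‖ := by have := c.lam_ge z'; linarith
    have h17 := c.eta_pos hsas
    have h18 : 0 < ‖u‖ := norm_pos_iff.2 hu
    rw [h15] at h14
    have h19 : 0 < ‖(c.lam z').comp (c.eta z z')‖ * ‖u‖ := by
      rw [← h14]; positivity
    exact (mul_pos_iff_of_pos_right h18).1 h19
  exact (uniq hconf hpos hu hA1 hB3 hB2).symm

theorem local_comp (c : CFD S D) {ρ₀ ε₁ : ℝ} {thl : X → X → Ve D} (L : Loc c ρ₀ ε₁ thl)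
    (κ : ℝ) (hκ : 0 < κ) (hκ1 : κ + κ ≤ ε₁) (ε₂ : ℝ) (hε₂κ : ε₂ ≤ κ)
    (hc : ∀ z z', S.SRel ε₂ z z' → ∀ δ > 0, ∃ ρ > 0, ∀ p,
      UAsym S z p → ‖c.lc z p‖ ≤ ρ → S.URel δ z p ∧ ∃ p', UAsym S z' p' ∧ S.SRel κ p p' ∧
        S.URel δ z' p' ∧ ‖c.lc z' p'‖ ≤ 2 * c.M * ‖c.lc z p‖)
    (x y z : X) (hxy : S.SRel ε₂ x y) (hyz : S.SRel ε₂ y z) (hxz : S.SRel ε₂ x z) :
    thl x z = thl x y + ContinuousLinearMap.adjoint (c.eta x y) (thl y z) := by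
  have hM : 0 < c.M := lt_of_lt_of_le one_pos c.one_le_M
  have hκ1' : κ ≤ ε₁ := by linarith
  have hsxy : SAsym S x y := c.geo.sasym x y (hxy.mono (hε₂κ.trans (hκ1'.trans L.ε_le)))
  have hsyz : SAsym S y z := c.geo.sasym y z (hyz.mono (hε₂κ.trans (hκ1'.trans L.ε_le)))
  have hsxz : SAsym S x z := hsxy.trans hsyz
  obtain ⟨ρ₁, hρ₁, h3⟩ := hc x y hxy ε₁ L.ε_pos
  obtain ⟨ρ₂, hρ₂, h4⟩ := hc y z hyz ε₁ L.ε_pos
  obtain ⟨ρ₃, hρ₃, h5⟩ := c.surj c.ε₀ c.geo.pos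
  obtain ⟨u, hu, hun⟩ := exists_vec c.hD (min ρ₁ (min (ρ₂ / (2 * c.M)) ρ₃))
    (lt_min hρ₁ (lt_min (by positivity) hρ₃))
  have hu1 : ‖u‖ ≤ ρ₁ := hun.le.trans (min_le_left _ _)
  have hu2 : ‖u‖ ≤ ρ₂ / (2 * c.M) := hun.le.trans ((min_le_right _ _).trans (min_le_left _ _))
  have hu3 : ‖u‖ ≤ ρ₃ := hun.le.trans ((min_le_right _ _).trans (min_le_right _ _))
  rw [le_div_iff₀ (by positivity)] at hu2
  obtain ⟨p, hp, hpu⟩ := h5 x u hu3
  have hpa := c.geo.uasym x p hp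
  obtain ⟨h6, p', h7, h8, h9, h10⟩ := h3 p hpa (by rw [hpu]; exact hu1)
  rw [hpu] at h10
  obtain ⟨h11, p'', h12, h13, h14, h15⟩ := h4 p' h7 (by linarith)
  obtain ⟨hA1, hA2⟩ := L.mob x y p p' (hxy.mono (hε₂κ.trans hκ1')) h6 (h8.mono hκ1') h9
  obtain ⟨hB1, hB2⟩ := L.mob y z p' p'' (hyz.mono (hε₂κ.trans hκ1')) h11 (h13.mono hκ1') h14
  obtain ⟨hC1, hC2⟩ := L.mob x z p p'' (hxz.mono (hε₂κ.trans hκ1')) h6
    ((h8.trans h13).mono hκ1) h14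
  rw [hpu] at hA1 hA2 hC1 hC2
  rw [hA2] at hB1 hB2
  have hconf := c.eta_conf x y hsxy
  rw [mobD_comp hconf _ _ u hA1,
    show (c.eta y z) ∘L (c.eta x y) = c.eta x z from c.eta_comp x y z hsxy hsyz] at hB2
  have hD1 : den (thl x y + ContinuousLinearMap.adjoint (c.eta x y) (thl y z)) u ≠ 0 := by
    rw [den_mobD hconf _ _ u hA1]
    exact mul_ne_zero hA1 hB1
  exact uniq (c.eta_conf x z hsxz) (c.eta_pos hsxz) hu hC1 hD1 (hC2.symm.trans hB2)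

theorem adj_id (v : Ve D) :
    ContinuousLinearMap.adjoint (ContinuousLinearMap.id ℝ (Ve D)) v = v := by
  refine ext_inner_right ℝ fun w => ?_
  rw [ContinuousLinearMap.adjoint_inner_left]
  rfl

theorem adj_comp (A B : Ve D →L[ℝ] Ve D) (v : Ve D) :
    ContinuousLinearMap.adjoint (A.comp B) v =
      ContinuousLinearMap.adjoint B (ContinuousLinearMap.adjoint A v) := by
  rw [ContinuousLinearMap.adjoint_comp]
  rfl

theorem Lp_zero (c : CFD S D) (x : X) : c.Lp 0 x = ContinuousLinearMap.id ℝ (Ve D) := rfl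

theorem Lp_succ_r (c : CFD S D) (n : ℕ) (x : X) :
    c.Lp (n + 1) x = (c.lam (S.g^[n] x)).comp (c.Lp n x) := rfl

theorem Lp_succ_l (c : CFD S D) (n : ℕ) (x : X) :
    c.Lp (n + 1) x = (c.Lp n (S.g x)).comp (c.lam x) := by
  induction n with
  | zero =>
    rw [Lp_succ_r, Lp_zero, Lp_zero]
    rfl
  | succ n ih =>
    rw [Lp_succ_r, ih, Lp_succ_r c n (S.g x), Function.iterate_succ_apply,
      ContinuousLinearMap.comp_assoc]

theorem SRel_le {ε : ℝ} {x y : X} {n m : ℕ} (hnm : n ≤ m)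
    (h : S.SRel ε (S.g^[n] x) (S.g^[n] y)) : S.SRel ε (S.g^[m] x) (S.g^[m] y) := by
  obtain ⟨k, rfl⟩ := Nat.exists_eq_add_of_le hnm
  rw [add_comm, Function.iterate_add_apply, Function.iterate_add_apply]
  exact h.iter k

end N05aux

variable {X E : Type*} [MetricSpace X] [CompactSpace X] [NormedAddCommGroup E]
  [InnerProductSpace ℝ E] [FiniteDimensional ℝ E]

variable {S : HypSys X E} {D : ℕ}

open N05aux in
/-- Existence of the nonlinearity cocycle, from Liouville's theorem. -/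
theorem exists_thd (c : CFD S D)
    (hol : ∃ ρ₀ > 0, ∃ ε > 0, ε ≤ c.ε₀ ∧ ∀ z z', S.SRel ε z z' →
      ∃ h : Ve D → Ve D, CM ρ₀ h ∧ h 0 = 0 ∧ fderiv ℝ h 0 = c.eta z z' ∧
        ∀ p p', S.URel ε z p → S.SRel ε p p' → S.URel ε z' p' →
          ‖c.lc z p‖ < ρ₀ ∧ c.lc z' p' = h (c.lc z p))
    (liou : ∀ (r : ℝ) (h : Ve D → Ve D), 0 < r → CM r h → h 0 = 0 →
      ∃ b : Ve D, ‖b‖ ≤ 1 / r ∧ ∀ x ∈ Metric.ball (0 : Ve D) r, den b x ≠ 0 ∧
        h x = mobD (fderiv ℝ h 0) b x) : Nonempty (THD c) := by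
  classical
  obtain ⟨ρ₀, ε₁, thl, L⟩ := exists_loc c hol liou
  have hε₁ := L.ε_pos
  have hρ₀ := L.ρ_pos
  have hκ : 0 < ε₁ / 2 := by positivity
  obtain ⟨ε₂, hε₂, hε₂κ, hc⟩ := corner c L (ε₁ / 2) hκ (by linarith)
  have hequi := local_equi c L (ε₁ / 2) (by linarith) ε₂ hε₂κ hc
  have hcomp := local_comp c L (ε₁ / 2) hκ (by linarith) ε₂ hε₂κ hc
  have hM : 0 < c.M := lt_of_lt_of_le one_pos c.one_le_M
  have hε₂1 : ε₂ ≤ ε₁ := by linarith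
  set F : ℕ → X → X → Ve D := fun n x y =>
    ContinuousLinearMap.adjoint (c.Lp n x) (thl (S.g^[n] x) (S.g^[n] y)) with hF
  have hFs : ∀ n x y, S.SRel ε₂ (S.g^[n] x) (S.g^[n] y) → F (n + 1) x y = F n x y := by
    intro n x y h
    have h3 := hequi _ _ h
    simp only [hF]
    rw [Lp_succ_r, adj_comp, Function.iterate_succ_apply', Function.iterate_succ_apply', h3]
  have hFm : ∀ n m x y, n ≤ m → S.SRel ε₂ (S.g^[n] x) (S.g^[n] y) → F m x y = F n x y := by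
    intro n m x y hnm h
    induction m, hnm using Nat.le_induction with
    | base => rfl
    | succ m hm ih => rw [hFs m x y (SRel_le hm h), ih]
  set T : X → X → Ve D := fun x y =>
    if h : ∃ n, S.SRel ε₂ (S.g^[n] x) (S.g^[n] y) then F h.choose x y else 0 with hT
  have hTe : ∀ n x y, S.SRel ε₂ (S.g^[n] x) (S.g^[n] y) → T x y = F n x y := by
    intro n x y h
    have hex : ∃ n, S.SRel ε₂ (S.g^[n] x) (S.g^[n] y) := ⟨n, h⟩
    have h3 : T x y = F hex.choose x y := by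
      simp only [hT]
      rw [dif_pos hex]
    rw [h3, ← hFm _ (max n hex.choose) x y (le_max_right _ _) hex.choose_spec,
      hFm n (max n hex.choose) x y (le_max_left _ _) h]
  have hT0 : ∀ x y, S.SRel ε₂ x y → T x y = thl x y := by
    intro x y h
    rw [hTe 0 x y h]
    simp only [hF]
    rw [Lp_zero, adj_id]
    rfl
  set ε' : ℝ := min ε₂ (ρ₀ / (2 * c.M)) with hε'
  have hε'0 : 0 < ε' := lt_min hε₂ (by positivity)
  have hε'2 : ε' ≤ ε₂ := min_le_left _ _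
  refine ⟨{
    ε := ε'
    ε_pos := hε'0
    ε_le := hε'2.trans (hε₂1.trans L.ε_le)
    C := 1 / ρ₀
    C_pos := by positivity
    th := T
    th_self := ?_
    th_equi := ?_
    th_comp := ?_
    th_le := ?_
    half := ?_
    mob := ?_ }⟩
  · intro x
    have hr : S.SRel ε₂ x x := fun k => by rw [dist_self]; exact hε₂.le
    have h3 := hcomp x x x hr hr hr
    rw [c.eta_self, adj_id] at h3
    rw [hT0 x x hr]
    exact left_eq_add.1 h3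
  · intro x y h
    obtain ⟨N, hN⟩ := h.map.eventually hε₂
    have h3 := hN N le_rfl
    rw [hTe N _ _ h3, hTe (N + 1) x y (by
      rw [Function.iterate_succ_apply, Function.iterate_succ_apply]; exact h3)]
    simp only [hF]
    rw [Lp_succ_l, adj_comp, Function.iterate_succ_apply, Function.iterate_succ_apply]
  · intro x y z hxy hyz
    obtain ⟨N1, hN1⟩ := hxy.eventually hε₂
    obtain ⟨N2, hN2⟩ := hyz.eventually hε₂
    obtain ⟨N3, hN3⟩ := (hxy.trans hyz).eventually hε₂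
    set N := max N1 (max N2 N3) with hN
    have h3 := hN1 N (le_max_left _ _)
    have h4 := hN2 N ((le_max_left _ _).trans (le_max_right _ _))
    have h5 := hN3 N ((le_max_right _ _).trans (le_max_right _ _))
    rw [hTe N x z h5, hTe N x y h3, hTe N y z h4]
    simp only [hF]
    rw [hcomp _ _ _ h3 h4 h5, map_add, ← adj_comp, ← adj_comp, c.eta_iter hxy N]
  · intro x y h
    rw [hT0 x y (h.mono hε'2)]
    exact L.le x y (h.mono (hε'2.trans hε₂1))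
  · intro z z' p h h'
    rw [hT0 z z' (h.mono hε'2)]
    have h3 := L.le z z' (h.mono (hε'2.trans hε₂1))
    have h4 := c.lc_le z p (h'.mono (hε'2.trans (hε₂1.trans L.ε_le)))
    have h5 := h'.dist_le
    have h6 : ε' ≤ ρ₀ / (2 * c.M) := min_le_right _ _
    rw [le_div_iff₀ (by positivity)] at h6
    have h7 : c.M * dist z p ≤ ρ₀ / 2 := by
      have : c.M * dist z p ≤ c.M * ε' := mul_le_mul_of_nonneg_left h5 hM.le
      linarith
    calc ‖thl z z'‖ * ‖c.lc z p‖ ≤ 1 / ρ₀ * (ρ₀ / 2) :=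
          mul_le_mul h3 (h4.trans h7) (norm_nonneg _) (by positivity)
      _ = 1 / 2 := by field_simp
  · intro z z' p p' h3 h4 h5 h6
    rw [hT0 z z' (h3.mono hε'2)]
    exact (L.mob z z' p p' (h3.mono (hε'2.trans hε₂1)) (h4.mono (hε'2.trans hε₂1))
      (h5.mono (hε'2.trans hε₂1)) (h6.mono (hε'2.trans hε₂1))).2

end Pool.Agent.H779R2.Nu
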