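import Pool.Agent.H779R2.Nu.PDef

set_option autoImplicit false

namespace Pool.Agent.H779R2.Nu

open Pool.Agent.H721R2 Pool.Agent.H779R2.An Pool.Agent.H779R2.Li Filter Topology MeasureTheory
open scoped BigOperators

variable {X E : Type*} [MetricSpace X] [CompactSpace X] [NormedAddCommGroup E]
  [InnerProductSpace ℝ E] [FiniteDimensional ℝ E]

namespace P0Aux

theorem dslope_bd (G : ℂ → ℂ) (ρ M : ℝ) (hρ : 0 < ρ)
    (hG : DifferentiableOn ℂ G (Metric.ball 0 ρ)) (hM : ∀ z ∈ Metric.ball (0 : ℂ) ρ, ‖G z‖ ≤ M) :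
    DifferentiableOn ℂ (dslope G 0) (Metric.ball 0 ρ) ∧
      ∀ z ∈ Metric.ball (0 : ℂ) ρ, ‖dslope G 0 z‖ ≤ 2 * M / ρ := by
  refine ⟨(Complex.differentiableOn_dslope (Metric.ball_mem_nhds _ hρ)).2 hG, fun z hz => ?_⟩
  refine Complex.norm_dslope_le_div_of_mapsTo_ball hG (fun w hw => ?_) hz
  rw [Metric.mem_closedBall, dist_eq_norm]
  have h1 := hM w hw
  have h2 := hM 0 (Metric.mem_ball_self hρ)
  have h3 := norm_sub_le (G w) (G 0)
  linarith

theorem taylor2 (F : ℂ → ℂ) (ρ M : ℝ) (hρ : 0 < ρ)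
    (hF : DifferentiableOn ℂ F (Metric.ball 0 ρ)) (hM : ∀ z ∈ Metric.ball (0 : ℂ) ρ, ‖F z‖ ≤ M)
    (h0 : F 0 = 0) : ‖deriv F 0‖ ≤ 2 * M / ρ ∧ ∃ a : ℂ, ‖a‖ ≤ 4 * M / ρ ^ 2 ∧
      ∀ u ∈ Metric.ball (0 : ℂ) ρ,
      ‖F u - deriv F 0 * u - a * u ^ 2‖ ≤ 8 * M / ρ ^ 3 * ‖u‖ ^ 3 := by
  obtain ⟨d1, b1⟩ := dslope_bd F ρ M hρ hF hM
  obtain ⟨d2, b2⟩ := dslope_bd (dslope F 0) ρ _ hρ d1 b1
  obtain ⟨d3, b3⟩ := dslope_bd (dslope (dslope F 0) 0) ρ _ hρ d2 b2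
  refine ⟨?_, dslope (dslope F 0) 0 0, ?_, fun u hu => ?_⟩
  · rw [← dslope_same F 0]
    exact b1 0 (Metric.mem_ball_self hρ)
  · refine (b2 0 (Metric.mem_ball_self hρ)).trans (le_of_eq ?_)
    field_simp
    ring
  · have e1 := sub_smul_dslope F 0 u
    have e2 := sub_smul_dslope (dslope F 0) 0 u
    have e3 := sub_smul_dslope (dslope (dslope F 0) 0) 0 u
    rw [sub_zero, smul_eq_mul] at e1 e2 e3
    have e4 : F u - deriv F 0 * u - dslope (dslope F 0) 0 0 * u ^ 2 =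
        dslope (dslope (dslope F 0) 0) 0 u * u ^ 3 := by
      have e5 : dslope F 0 0 = deriv F 0 := dslope_same F 0
      rw [e5] at e2
      rw [h0, sub_zero] at e1
      rw [← e1]
      linear_combination (-u) * e2 - u ^ 2 * e3
    rw [e4, norm_mul, norm_pow]
    refine mul_le_mul_of_nonneg_right ((b3 u hu).trans (le_of_eq ?_)) (by positivity)
    field_simp
    ring

/-- the Moebius map and its 2-jet -/
theorem mob_jet (M A : ℝ) (η θ u : ℂ) (hη : ‖η‖ ≤ M) (hθ : ‖θ‖ ≤ A) (hu : ‖θ * u‖ ≤ 1 / 2) :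
    ‖η * u / (1 - θ * u) - (η * u + η * θ * u ^ 2)‖ ≤ 2 * M * A ^ 2 * ‖u‖ ^ 3 := by
  have h1 : (1 : ℝ) / 2 ≤ ‖1 - θ * u‖ := by
    have := norm_sub_norm_le (1 : ℂ) (θ * u)
    rw [norm_one] at this
    linarith
  have h0 : (1 : ℂ) - θ * u ≠ 0 := by
    intro h
    rw [h, norm_zero] at h1
    norm_num at h1
  have e : η * u / (1 - θ * u) - (η * u + η * θ * u ^ 2) = (η * θ ^ 2 * u ^ 3) / (1 - θ * u) := by
    rw [eq_div_iff h0, sub_mul, div_mul_cancel₀ _ h0]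
    ring
  rw [e, norm_div, div_le_iff₀ (by linarith), norm_mul, norm_mul, norm_pow, norm_pow]
  have hM : 0 ≤ M := (norm_nonneg _).trans hη
  have hA : 0 ≤ A := (norm_nonneg _).trans hθ
  have h2 : ‖η‖ * ‖θ‖ ^ 2 * ‖u‖ ^ 3 ≤ M * A ^ 2 * ‖u‖ ^ 3 := by
    gcongr
  have h3 : 2 * M * A ^ 2 * ‖u‖ ^ 3 * (1 / 2) ≤ 2 * M * A ^ 2 * ‖u‖ ^ 3 * ‖1 - θ * u‖ :=
    mul_le_mul_of_nonneg_left h1 (by positivity)
  linarith

/-- holomorphic case, complex form -/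
theorem hol_cubic (r Λ : ℝ) (hr : 0 < r) (hΛ : 1 ≤ Λ) : ∃ C : ℝ, 0 < C ∧ ∀ G : ℂ → ℂ,
    DifferentiableOn ℂ G (Metric.ball 0 r) → G 0 = 0 →
    (∀ z ∈ Metric.ball (0 : ℂ) r, ‖G z‖ ≤ Λ) → Λ⁻¹ ≤ ‖deriv G 0‖ →
    ∃ θ : ℂ, ‖θ‖ ≤ C ∧ ∀ u ∈ Metric.ball (0 : ℂ) r, ‖u‖ ≤ C⁻¹ →
      (1 : ℂ) - θ * u ≠ 0 ∧ ‖G u - deriv G 0 * u / (1 - θ * u)‖ ≤ C * ‖u‖ ^ 3 := by
  have hΛ0 : 0 < Λ := by linarith
  set T : ℝ := 4 * Λ / r ^ 2 * Λ with hT
  have hT0 : 0 < T := by positivity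
  set K : ℝ := 8 * Λ / r ^ 3 + 2 * (2 * Λ / r) * T ^ 2 with hK
  have hK0 : 0 < K := by positivity
  refine ⟨K + 2 * T, by positivity, fun G hG h0 hM hd => ?_⟩
  obtain ⟨b1, a, ha, hau⟩ := taylor2 G r Λ hr hG hM h0
  set d := deriv G 0 with hddef
  have hd0 : 0 < ‖d‖ := lt_of_lt_of_le (by positivity) hd
  have hdne : d ≠ 0 := norm_pos_iff.1 hd0
  have hθ : ‖a / d‖ ≤ T := by
    rw [norm_div, div_le_iff₀ hd0, hT]
    have h1 : Λ * Λ⁻¹ ≤ Λ * ‖d‖ := mul_le_mul_of_nonneg_left hd hΛ0.le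
    rw [mul_inv_cancel₀ hΛ0.ne'] at h1
    have h2 : 4 * Λ / r ^ 2 * 1 ≤ 4 * Λ / r ^ 2 * (Λ * ‖d‖) :=
      mul_le_mul_of_nonneg_left h1 (by positivity)
    nlinarith
  refine ⟨a / d, by linarith, fun u hu huC => ?_⟩
  have hsm : ‖a / d * u‖ ≤ 1 / 2 := by
    rw [norm_mul]
    have h1 : ‖a / d‖ * ‖u‖ ≤ T * (K + 2 * T)⁻¹ :=
      mul_le_mul hθ huC (norm_nonneg _) hT0.le
    have h2 : T * (K + 2 * T)⁻¹ ≤ 1 / 2 := by
      rw [← div_eq_mul_inv, div_le_iff₀ (by positivity)]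
      linarith
    linarith
  constructor
  · intro h
    have h1 : a / d * u = 1 := by linear_combination -h
    rw [h1, norm_one] at hsm
    norm_num at hsm
  · have h1 := mob_jet _ T d (a / d) u b1 hθ hsm
    have h2 := hau u hu
    have h3 : G u - d * u / (1 - a / d * u) = (G u - d * u - a * u ^ 2) -
        (d * u / (1 - a / d * u) - (d * u + d * (a / d) * u ^ 2)) := by
      have : d * (a / d) = a := by field_simp
      rw [this]
      ring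
    rw [h3]
    refine (norm_sub_le _ _).trans ?_
    have h4 : 0 ≤ 2 * T * ‖u‖ ^ 3 := by positivity
    have h5 : (K + 2 * T) * ‖u‖ ^ 3 = 8 * Λ / r ^ 3 * ‖u‖ ^ 3 + 2 * (2 * Λ / r) * T ^ 2 * ‖u‖ ^ 3
      + 2 * T * ‖u‖ ^ 3 := by rw [hK]; ring
    rw [h5]
    linarith

/-- conformal linear maps of the plane -/
theorem conf_sq (L : ℂ →L[ℝ] ℂ) (c : ℝ) (hc : 0 < c) (h : ∀ v, ‖L v‖ = c * ‖v‖) :
    (L Complex.I) ^ 2 = (Complex.I * L 1) ^ 2 := by
  have h1 := h 1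
  have h2 := h Complex.I
  have h3 := h (1 + Complex.I)
  rw [norm_one, mul_one] at h1
  rw [Complex.norm_I, mul_one] at h2
  rw [map_add] at h3
  have e1 : Complex.normSq (L 1) = c ^ 2 := by rw [Complex.normSq_eq_norm_sq, h1]
  have e2 : Complex.normSq (L Complex.I) = c ^ 2 := by rw [Complex.normSq_eq_norm_sq, h2]
  have e3 : Complex.normSq (L 1 + L Complex.I) = c ^ 2 * 2 := by
    rw [Complex.normSq_eq_norm_sq, h3, mul_pow, ← Complex.normSq_eq_norm_sq]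
    norm_num [Complex.normSq_apply]
  generalize L 1 = a at *
  generalize L Complex.I = b at *
  rw [Complex.normSq_apply] at e1 e2 e3
  simp only [Complex.add_re, Complex.add_im] at e3
  have e4 : a.re * b.re + a.im * b.im = 0 := by nlinarith
  have e5 : c ^ 2 * (b.re * b.im + a.re * a.im) = 0 := by
    have : c ^ 2 * (b.re * b.im + a.re * a.im) =
      (a.re * b.re + a.im * b.im) * (a.re * b.im + a.im * b.re) := by
      have h5 : c ^ 2 * (b.re * b.im + a.re * a.im) =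
        c ^ 2 * (b.re * b.im) + c ^ 2 * (a.re * a.im) := by ring
      rw [h5]
      nth_rw 1 [← e1]
      nth_rw 1 [← e2]
      ring
    rw [this, e4, zero_mul]
  have e6 : c ^ 2 * (b.re ^ 2 - b.im ^ 2 + a.re ^ 2 - a.im ^ 2) = 0 := by
    have : c ^ 2 * (b.re ^ 2 - b.im ^ 2 + a.re ^ 2 - a.im ^ 2) =
      (a.re * b.re + a.im * b.im) * (2 * (a.re * b.re - a.im * b.im)) := by
      have h5 : c ^ 2 * (b.re ^ 2 - b.im ^ 2 + a.re ^ 2 - a.im ^ 2) =
        c ^ 2 * (b.re ^ 2 - b.im ^ 2) + c ^ 2 * (a.re ^ 2 - a.im ^ 2) := by ring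
      rw [h5]
      nth_rw 1 [← e1]
      nth_rw 1 [← e2]
      ring
    rw [this, e4, zero_mul]
  have hc2 : c ^ 2 ≠ 0 := by positivity
  have e7 := (mul_eq_zero.1 e5).resolve_left hc2
  have e8 := (mul_eq_zero.1 e6).resolve_left hc2
  apply Complex.ext
  · simp [pow_two, Complex.mul_re, Complex.mul_im]
    nlinarith
  · simp [pow_two, Complex.mul_re, Complex.mul_im]
    nlinarith

/-- complex form of the normalized Moebius map -/
theorem mob_form (θ u : ℂ) (h : (1 : ℂ) - θ * u ≠ 0) :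
    ((Complex.normSq (1 - θ * u) : ℂ))⁻¹ * (u - (‖u‖ : ℂ) ^ 2 * (starRingEnd ℂ) θ) =
      u / (1 - θ * u) := by
  have h1 : (Complex.normSq (1 - θ * u) : ℂ) = (1 - θ * u) * (starRingEnd ℂ) (1 - θ * u) :=
    (Complex.mul_conj _).symm
  have h2 : (starRingEnd ℂ) (1 - θ * u) ≠ 0 := (map_ne_zero (starRingEnd ℂ)).2 h
  have h3 : ((‖u‖ : ℂ)) ^ 2 = u * (starRingEnd ℂ) u := by
    rw [Complex.mul_conj, Complex.normSq_eq_norm_sq]
    push_cast
    rfl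
  rw [h1, h3]
  have h4 : (starRingEnd ℂ) (1 - θ * u) = 1 - (starRingEnd ℂ) θ * (starRingEnd ℂ) u := by
    rw [map_sub, map_mul, map_one]
  rw [h4] at h2 ⊢
  field_simp

/-- complex form of the statement -/
theorem plane_cubic_C (r Λ : ℝ) (hr : 0 < r) (hΛ : 1 ≤ Λ) : ∃ C : ℝ, 0 < C ∧
    ∀ (F : ℂ → ℂ) (c : ℂ → ℝ), (∀ z ∈ Metric.ball (0 : ℂ) r, DifferentiableAt ℝ F z) →
      ContinuousOn (fderiv ℝ F) (Metric.ball 0 r) →
      (∀ z ∈ Metric.ball (0 : ℂ) r, 0 < c z ∧ ∀ v, ‖fderiv ℝ F z v‖ = c z * ‖v‖) →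
      F 0 = 0 → (∀ z ∈ Metric.ball (0 : ℂ) r, ‖F z‖ ≤ Λ) → Λ⁻¹ ≤ c 0 →
      ∃ θ : ℂ, ‖θ‖ ≤ C ∧ ∀ u ∈ Metric.ball (0 : ℂ) r, ‖u‖ ≤ C⁻¹ →
        ‖F u - (Complex.normSq (1 - θ * u))⁻¹ •
          fderiv ℝ F 0 (u - ‖u‖ ^ 2 • (starRingEnd ℂ) θ)‖ ≤ C * ‖u‖ ^ 3 := by
  obtain ⟨C, hC, H⟩ := hol_cubic r Λ hr hΛ
  refine ⟨C, hC, fun F c hF hcont hc h0 hM hc0 => ?_⟩
  have hball0 : (0 : ℂ) ∈ Metric.ball (0 : ℂ) r := Metric.mem_ball_self hr
  have hpre : IsPreconnected (Metric.ball (0 : ℂ) r) := (convex_ball (0 : ℂ) r).isPreconnected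
  have hcf : ContinuousOn (fun z => fderiv ℝ F z Complex.I) (Metric.ball 0 r) :=
    hcont.clm_apply continuousOn_const
  have hcg : ContinuousOn (fun z => Complex.I * fderiv ℝ F z 1) (Metric.ball 0 r) :=
    continuousOn_const.mul (hcont.clm_apply continuousOn_const)
  have hdich := hpre.eq_or_eq_neg_of_sq_eq hcf hcg
    (fun z hz => by
      have := conf_sq (fderiv ℝ F z) (c z) (hc z hz).1 (hc z hz).2
      simpa using this)
    (fun {z} hz => by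
      have h1 := (hc z hz).2 1
      rw [norm_one, mul_one] at h1
      intro h2
      have h3 : fderiv ℝ F z 1 = 0 := by
        rcases mul_eq_zero.1 h2 with h | h
        · exact absurd h Complex.I_ne_zero
        · exact h
      rw [h3, norm_zero] at h1
      exact (hc z hz).1.ne h1)
  have hnorm1 : ‖fderiv ℝ F 0 1‖ = c 0 := by
    rw [(hc 0 hball0).2 1, norm_one, mul_one]
  rcases hdich with hp | hm
  · -- holomorphic
    have hhol : ∀ z ∈ Metric.ball (0 : ℂ) r, DifferentiableAt ℂ F z := fun z hz =>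
      differentiableAt_complex_iff_differentiableAt_real.2 ⟨hF z hz, by
        have := hp hz
        simpa [smul_eq_mul] using this⟩
    have hlin : ∀ v, fderiv ℝ F 0 v = deriv F 0 * v := by
      intro v
      have h1 := ((hhol 0 hball0).hasDerivAt.hasFDerivAt.restrictScalars ℝ).fderiv
      rw [h1]
      simp [mul_comm]
    obtain ⟨θ, hθ, hθu⟩ := H F (fun z hz => (hhol z hz).differentiableWithinAt) h0 hM (by
      rw [← mul_one (deriv F 0), ← hlin, hnorm1]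
      exact hc0)
    refine ⟨θ, hθ, fun u hu huC => ?_⟩
    obtain ⟨h1, h2⟩ := hθu u hu huC
    rw [hlin]
    have h3 := mob_form θ u h1
    have h4 : (Complex.normSq (1 - θ * u))⁻¹ • (deriv F 0 * (u - ‖u‖ ^ 2 • (starRingEnd ℂ) θ)) =
        deriv F 0 * u / (1 - θ * u) := by
      rw [Complex.real_smul, Complex.real_smul]
      push_cast
      rw [mul_div_assoc, ← h3]
      ring
    rw [h4]
    exact h2
  · -- antiholomorphic
    set G : ℂ → ℂ := fun z => (starRingEnd ℂ) (F z) with hG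
    have hGd : ∀ z ∈ Metric.ball (0 : ℂ) r,
        HasFDerivAt G ((Complex.conjCLE : ℂ →L[ℝ] ℂ).comp (fderiv ℝ F z)) z := fun z hz =>
      (Complex.conjCLE : ℂ →L[ℝ] ℂ).hasFDerivAt.comp z (hF z hz).hasFDerivAt
    have hhol : ∀ z ∈ Metric.ball (0 : ℂ) r, DifferentiableAt ℂ G z := fun z hz =>
      differentiableAt_complex_iff_differentiableAt_real.2 ⟨(hGd z hz).differentiableAt, by
        rw [(hGd z hz).fderiv]
        have := hm hz
        simp only [Pi.neg_apply] at this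
        simp [this, smul_eq_mul]⟩
    have hlin : ∀ v, fderiv ℝ F 0 v = (starRingEnd ℂ) (deriv G 0 * v) := by
      intro v
      have h1 := ((hhol 0 hball0).hasDerivAt.hasFDerivAt.restrictScalars ℝ).fderiv
      rw [(hGd 0 hball0).fderiv] at h1
      have h2 := congrArg (fun L : ℂ →L[ℝ] ℂ => (starRingEnd ℂ) (L v)) h1
      simp only [ContinuousLinearMap.comp_apply] at h2
      simp at h2
      rw [h2]
      simp [mul_comm]
    obtain ⟨θ, hθ, hθu⟩ := H G (fun z hz => (hhol z hz).differentiableWithinAt)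
      (by simp [hG, h0]) (fun z hz => by
        have := hM z hz
        simpa [hG] using this) (by
      have h5 := hlin 1
      rw [mul_one] at h5
      have h6 : ‖fderiv ℝ F 0 1‖ = ‖deriv G 0‖ := by rw [h5, RCLike.norm_conj]
      rw [← h6, hnorm1]
      exact hc0)
    refine ⟨θ, hθ, fun u hu huC => ?_⟩
    obtain ⟨h1, h2⟩ := hθu u hu huC
    rw [hlin]
    have h3 := mob_form θ u h1
    have h4 : (Complex.normSq (1 - θ * u))⁻¹ •
        (starRingEnd ℂ) (deriv G 0 * (u - ‖u‖ ^ 2 • (starRingEnd ℂ) θ)) =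
        (starRingEnd ℂ) (deriv G 0 * u / (1 - θ * u)) := by
      rw [Complex.real_smul, Complex.real_smul, mul_div_assoc, ← h3]
      simp only [map_mul, map_inv₀, map_sub, Complex.conj_ofReal, Complex.conj_conj, map_pow]
      push_cast
      ring
    rw [h4]
    have h5 : F u - (starRingEnd ℂ) (deriv G 0 * u / (1 - θ * u)) =
        (starRingEnd ℂ) (G u - deriv G 0 * u / (1 - θ * u)) := by
      rw [map_sub]
      simp [hG]
    rw [h5, RCLike.norm_conj]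
    exact h2

end P0Aux

/-- P0: `C¹` conformal maps of a disc of the plane: the cubic Moebius estimate. -/
theorem plane_cubic (r : ℝ) (hr : 0 < r) (Λ : ℝ) (hΛ : 1 ≤ Λ) : ∃ C : ℝ, 0 < C ∧
    ∀ h : Ve 2 → Ve 2, CM r h → h 0 = 0 → (∀ x ∈ Metric.ball (0 : Ve 2) r, ‖h x‖ ≤ Λ) →
      Λ⁻¹ ≤ ‖fderiv ℝ h 0‖ →
      ∃ b : Ve 2, ‖b‖ ≤ C ∧ ∀ x ∈ Metric.ball (0 : Ve 2) (r / 2), ‖x‖ ≤ C⁻¹ →
        ‖h x - mobD (fderiv ℝ h 0) b x‖ ≤ C * ‖x‖ ^ 3 := by
  obtain ⟨C, hC, H⟩ := P0Aux.plane_cubic_C r Λ hr hΛ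
  refine ⟨C, hC, fun h hcm h0 hb hd => ?_⟩
  set Φ : ℂ ≃ₗᵢ[ℝ] Ve 2 := Complex.orthonormalBasisOneI.repr with hΦ
  have hopen : IsOpen (Metric.ball (0 : Ve 2) r) := Metric.isOpen_ball
  have hmem : ∀ z ∈ Metric.ball (0 : ℂ) r, Φ z ∈ Metric.ball (0 : Ve 2) r := fun z hz => by
    rw [mem_ball_zero_iff] at hz ⊢
    rwa [Φ.norm_map]
  set F : ℂ → ℂ := fun z => Φ.symm (h (Φ z)) with hF
  set P : ℂ →L[ℝ] Ve 2 := (Φ.toContinuousLinearEquiv : ℂ →L[ℝ] Ve 2) with hP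
  set Q : Ve 2 →L[ℝ] ℂ := (Φ.symm.toContinuousLinearEquiv : Ve 2 →L[ℝ] ℂ) with hQ
  have hPa : ∀ z, P z = Φ z := fun z => rfl
  have hQa : ∀ z, Q z = Φ.symm z := fun z => rfl
  have hdiff : ∀ x ∈ Metric.ball (0 : Ve 2) r, DifferentiableAt ℝ h x := fun x hx =>
    (hcm.c1.differentiableOn one_ne_zero).differentiableAt (hopen.mem_nhds hx)
  have hFd : ∀ z ∈ Metric.ball (0 : ℂ) r, HasFDerivAt F (Q.comp ((fderiv ℝ h (Φ z)).comp P)) z := by
    intro z hz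
    have h1 : HasFDerivAt h (fderiv ℝ h (Φ z)) (P z) := (hdiff _ (hmem z hz)).hasFDerivAt
    exact Q.hasFDerivAt.comp z (h1.comp z P.hasFDerivAt)
  have hcont : ContinuousOn (fderiv ℝ F) (Metric.ball 0 r) := by
    have h1 : ContinuousOn (fderiv ℝ h) (Metric.ball 0 r) :=
      hcm.c1.continuousOn_fderiv_of_isOpen hopen le_rfl
    have h2 : ContinuousOn (fun z => fderiv ℝ h (Φ z)) (Metric.ball 0 r) :=
      h1.comp Φ.continuous.continuousOn hmem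
    have h3 : ContinuousOn (fun z => Q.comp ((fderiv ℝ h (Φ z)).comp P)) (Metric.ball 0 r) :=
      continuousOn_const.clm_comp (h2.clm_comp continuousOn_const)
    exact h3.congr fun z hz => (hFd z hz).fderiv
  obtain ⟨θ, hθ, hθu⟩ := H F (fun z => ‖fderiv ℝ h (Φ z)‖)
    (fun z hz => (hFd z hz).differentiableAt) hcont
    (fun z hz => ⟨norm_pos_iff.2 (hcm.ne _ (hmem z hz)), fun v => by
      rw [(hFd z hz).fderiv]
      simp only [ContinuousLinearMap.comp_apply, hPa, hQa]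
      rw [Φ.symm.norm_map, hcm.conf _ (hmem z hz), Φ.norm_map]⟩)
    (by simp [hF, h0])
    (fun z hz => by
      have := hb _ (hmem z hz)
      simpa [hF] using this)
    (by simpa using hd)
  refine ⟨Φ ((starRingEnd ℂ) θ), by rw [Φ.norm_map, RCLike.norm_conj]; exact hθ,
    fun x hx hxC => ?_⟩
  obtain ⟨u, rfl⟩ := Φ.surjective x
  rw [Φ.norm_map] at hxC ⊢
  have hu : u ∈ Metric.ball (0 : ℂ) r := by
    rw [mem_ball_zero_iff, Φ.norm_map] at hx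
    rw [mem_ball_zero_iff]
    linarith
  have h1 := hθu u hu hxC
  have hden : den (Φ ((starRingEnd ℂ) θ)) (Φ u) = Complex.normSq (1 - θ * u) := by
    unfold den
    rw [Φ.inner_map_map, Φ.norm_map, Φ.norm_map, Complex.inner, Complex.conj_conj,
      RCLike.norm_conj, ← Complex.normSq_eq_norm_sq, ← Complex.normSq_eq_norm_sq,
      ← Complex.normSq_mul]
    rw [Complex.normSq_apply, Complex.normSq_apply]
    simp only [Complex.sub_re, Complex.sub_im, Complex.one_re, Complex.one_im]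
    ring_nf
  have hfd : ∀ v, Φ (fderiv ℝ F 0 v) = fderiv ℝ h 0 (Φ v) := by
    intro v
    rw [(hFd 0 (Metric.mem_ball_self hr)).fderiv]
    simp only [ContinuousLinearMap.comp_apply, hPa, hQa, LinearIsometryEquiv.apply_symm_apply,
      map_zero]
  have hmob : mobD (fderiv ℝ h 0) (Φ ((starRingEnd ℂ) θ)) (Φ u) =
      Φ ((Complex.normSq (1 - θ * u))⁻¹ • fderiv ℝ F 0 (u - ‖u‖ ^ 2 • (starRingEnd ℂ) θ)) := by
    unfold mobD
    rw [hden, Φ.map_smul, hfd, Φ.norm_map, Φ.map_sub, Φ.map_smul]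
  have hhF : h (Φ u) = Φ (F u) := by simp [hF]
  rw [hmob, hhF, ← map_sub, Φ.norm_map]
  exact h1

end Pool.Agent.H779R2.Nu
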