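import Pool.Agent.H779R2.Nu.PDef
import Pool.Agent.H779R2.Nu.P0
import Pool.Agent.H779R2.Nu.N05

set_option autoImplicit false

namespace Pool.Agent.H779R2.Nu

open Pool.Agent.H721R2 Pool.Agent.H779R2.An Pool.Agent.H779R2.Li Filter Topology MeasureTheory
open scoped BigOperators

namespace P1aux

open N05aux

variable {D : ℕ}

theorem sqrt_den_ge {b u : Ve D} (h : ‖b‖ * ‖u‖ ≤ 1 / 2) : (1 / 2 : ℝ) ≤ Real.sqrt (den b u) := by
  apply Real.le_sqrt_of_sq_le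
  refine le_trans ?_ (sq_le_den b u)
  nlinarith

theorem den_ne {b u : Ve D} (h : ‖b‖ * ‖u‖ ≤ 1 / 2) : den b u ≠ 0 := by
  have h1 := sqrt_den_ge h
  intro h0
  rw [h0, Real.sqrt_zero] at h1
  norm_num at h1

theorem den_le {b u : Ve D} (h : ‖b‖ * ‖u‖ ≤ 1 / 2) : den b u ≤ 9 / 4 := by
  unfold den
  have h1 := neg_le_of_abs_le (abs_real_inner_le_norm b u)
  have h2 : 0 ≤ ‖b‖ * ‖u‖ := by positivity
  nlinarith

theorem sqrt_den_le {b u : Ve D} (h : ‖b‖ * ‖u‖ ≤ 1 / 2) : Real.sqrt (den b u) ≤ 3 / 2 := by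
  rw [Real.sqrt_le_iff]
  refine ⟨by norm_num, ?_⟩
  have h1 := den_le h
  norm_num
  exact h1

theorem mobD_lip {A : Ve D →L[ℝ] Ve D} (hA : Conf A) {b u u' : Ve D} (h : ‖b‖ * ‖u‖ ≤ 1 / 2)
    (h' : ‖b‖ * ‖u'‖ ≤ 1 / 2) : ‖mobD A b u - mobD A b u'‖ ≤ 4 * ‖A‖ * ‖u - u'‖ := by
  rw [mobD_dist hA b u u' (den_ne h) (den_ne h')]
  have h1 := sqrt_den_ge h
  have h2 := sqrt_den_ge h'
  have h3 : (1 / 4 : ℝ) ≤ Real.sqrt (den b u) * Real.sqrt (den b u') := by nlinarith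
  rw [div_le_iff₀ (by linarith)]
  have h4 : 0 ≤ ‖A‖ * ‖u - u'‖ := by positivity
  nlinarith

theorem mobD_norm_le {A : Ve D →L[ℝ] Ve D} (hA : Conf A) {b u : Ve D} (h : ‖b‖ * ‖u‖ ≤ 1 / 2) :
    ‖mobD A b u‖ ≤ 2 * ‖A‖ * ‖u‖ := by
  rw [mobD_norm hA b u (den_ne h)]
  have h1 := sqrt_den_ge h
  rw [div_le_iff₀ (by linarith)]
  have h4 : 0 ≤ ‖A‖ * ‖u‖ := by positivity
  nlinarith

/-- the vector `b` of a Moebius map is determined by its jet of order two -/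
theorem uniqq {A : Ve D →L[ℝ] Ve D} (hA : Conf A) (hA0 : 0 < ‖A‖) {b b' : Ve D} {K ρ : ℝ}
    (hρ : 0 < ρ) (hK0 : 0 ≤ K)
    (hK : ∀ u : Ve D, ‖u‖ ≤ ρ → ‖mobD A b u - mobD A b' u‖ ≤ K * ‖u‖ ^ 3) : b = b' := by
  by_contra hne
  obtain ⟨w, hw⟩ : ∃ w, w = b - b' := ⟨_, rfl⟩
  have hw0 : 0 < ‖w‖ := by rw [hw]; exact norm_pos_iff.2 (sub_ne_zero.2 hne)
  obtain ⟨B, hB⟩ : ∃ B : ℝ, B = ‖b‖ + ‖b'‖ + 1 := ⟨_, rfl⟩
  have hb0 := norm_nonneg b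
  have hb0' := norm_nonneg b'
  have hB0 : 0 < B := by rw [hB]; positivity
  obtain ⟨Q, hQ⟩ : ∃ Q : ℝ, Q = B ^ 2 + 7 * K / ‖A‖ := ⟨_, rfl⟩
  have hQ0 : 0 < Q := by rw [hQ]; positivity
  obtain ⟨t, ht⟩ : ∃ t : ℝ, t = min (ρ / ‖w‖) (min (1 / (2 * B * ‖w‖)) (1 / Q)) := ⟨_, rfl⟩
  have ht0 : 0 < t := by
    rw [ht]; exact lt_min (by positivity) (lt_min (by positivity) (by positivity))
  have ht1 : t * ‖w‖ ≤ ρ := by
    have h : t ≤ ρ / ‖w‖ := by rw [ht]; exact min_le_left _ _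
    rwa [le_div_iff₀ hw0] at h
  have ht2 : B * (t * ‖w‖) ≤ 1 / 2 := by
    have h : t ≤ 1 / (2 * B * ‖w‖) := by
      rw [ht]; exact (min_le_right _ _).trans (min_le_left _ _)
    rw [le_div_iff₀ (by positivity)] at h
    linarith
  have ht3 : t * Q ≤ 1 := by
    have h : t ≤ 1 / Q := by rw [ht]; exact (min_le_right _ _).trans (min_le_right _ _)
    rwa [le_div_iff₀ hQ0] at h
  obtain ⟨u, hu⟩ : ∃ u : Ve D, u = t • w := ⟨_, rfl⟩
  have hun : ‖u‖ = t * ‖w‖ := by rw [hu, norm_smul, Real.norm_of_nonneg ht0.le]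
  have hu0 : 0 < ‖u‖ := by rw [hun]; positivity
  have hbu : ‖b‖ * ‖u‖ ≤ 1 / 2 := by
    rw [hun]
    exact le_trans (mul_le_mul_of_nonneg_right (by linarith) (by positivity)) ht2
  have hbu' : ‖b'‖ * ‖u‖ ≤ 1 / 2 := by
    rw [hun]
    exact le_trans (mul_le_mul_of_nonneg_right (by linarith) (by positivity)) ht2
  have h1 := hK u (by rw [hun]; exact ht1)
  have h2 := abs_norm_sub_norm_le (mobD A b u) (mobD A b' u)
  rw [mobD_norm hA b u (den_ne hbu), mobD_norm hA b' u (den_ne hbu')] at h2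
  have h2' := h2.trans h1
  have hs := sqrt_den_ge hbu
  have hs' := sqrt_den_ge hbu'
  have hsle := sqrt_den_le hbu
  have hsle' := sqrt_den_le hbu'
  have hss : Real.sqrt (den b u) ^ 2 = den b u := Real.sq_sqrt (den_nonneg _ _)
  have hss' : Real.sqrt (den b' u) ^ 2 = den b' u := Real.sq_sqrt (den_nonneg _ _)
  have hden : den b u - den b' u = -2 * (t * ‖w‖ ^ 2) + (‖b‖ ^ 2 - ‖b'‖ ^ 2) * ‖u‖ ^ 2 := by
    have h3 : inner ℝ b u - inner ℝ b' u = t * ‖w‖ ^ 2 := by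
      rw [← inner_sub_left, ← hw, hu, real_inner_smul_right, real_inner_self_eq_norm_sq]
    unfold den
    linear_combination (-2) * h3
  generalize Real.sqrt (den b u) = s at *
  generalize Real.sqrt (den b' u) = s' at *
  have hs0 : 0 < s := by linarith
  have hs0' : 0 < s' := by linarith
  have h3 : ‖A‖ * ‖u‖ / s - ‖A‖ * ‖u‖ / s' = ‖A‖ * ‖u‖ * (s' - s) / (s * s') := by
    field_simp
  rw [h3, abs_div, abs_mul, abs_of_pos (mul_pos hA0 hu0), abs_of_pos (mul_pos hs0 hs0'),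
    div_le_iff₀ (mul_pos hs0 hs0')] at h2'
  have h4 : ‖A‖ * |s' - s| ≤ K * ‖u‖ ^ 2 * (9 / 4) := by
    have h5 : s * s' ≤ 9 / 4 := by
      calc s * s' ≤ (3 / 2) * (3 / 2) := mul_le_mul hsle hsle' hs0'.le (by norm_num)
        _ = 9 / 4 := by norm_num
    have h6 : K * ‖u‖ ^ 3 * (s * s') ≤ K * ‖u‖ ^ 3 * (9 / 4) :=
      mul_le_mul_of_nonneg_left h5 (by positivity)
    have h7 : ‖u‖ * (‖A‖ * |s' - s|) ≤ ‖u‖ * (K * ‖u‖ ^ 2 * (9 / 4)) := by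
      calc ‖u‖ * (‖A‖ * |s' - s|) = ‖A‖ * ‖u‖ * |s' - s| := by ring
        _ ≤ K * ‖u‖ ^ 3 * (9 / 4) := h2'.trans h6
        _ = ‖u‖ * (K * ‖u‖ ^ 2 * (9 / 4)) := by ring
    exact le_of_mul_le_mul_left h7 hu0
  have h5 : ‖A‖ * |den b u - den b' u| ≤ K * ‖u‖ ^ 2 * (27 / 4) := by
    rw [← hss, ← hss', show s ^ 2 - s' ^ 2 = -(s' - s) * (s + s') by ring, abs_mul, abs_neg,
      abs_of_pos (by linarith : 0 < s + s')]
    calc ‖A‖ * (|s' - s| * (s + s')) = (‖A‖ * |s' - s|) * (s + s') := by ring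
      _ ≤ (K * ‖u‖ ^ 2 * (9 / 4)) * 3 :=
        mul_le_mul h4 (by linarith) (by positivity) (by positivity)
      _ = _ := by ring
  rw [hden] at h5
  have h6 : 2 * (t * ‖w‖ ^ 2) - B ^ 2 * ‖u‖ ^ 2 ≤
      |-2 * (t * ‖w‖ ^ 2) + (‖b‖ ^ 2 - ‖b'‖ ^ 2) * ‖u‖ ^ 2| := by
    have h7 : (‖b‖ ^ 2 - ‖b'‖ ^ 2) * ‖u‖ ^ 2 ≤ B ^ 2 * ‖u‖ ^ 2 :=
      mul_le_mul_of_nonneg_right (by rw [hB]; nlinarith [hb0, hb0']) (by positivity)
    have h8 := neg_abs_le (-2 * (t * ‖w‖ ^ 2) + (‖b‖ ^ 2 - ‖b'‖ ^ 2) * ‖u‖ ^ 2)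
    linarith
  have h8 : ‖A‖ * (2 * (t * ‖w‖ ^ 2) - B ^ 2 * ‖u‖ ^ 2) ≤ K * ‖u‖ ^ 2 * (27 / 4) :=
    (mul_le_mul_of_nonneg_left h6 hA0.le).trans h5
  rw [hun] at h8
  have h9 : ‖A‖ * (2 - B ^ 2 * t) ≤ K * t * (27 / 4) := by
    have h10 : 0 < t * ‖w‖ ^ 2 := by positivity
    have h11 : (t * ‖w‖ ^ 2) * (‖A‖ * (2 - B ^ 2 * t)) ≤ (t * ‖w‖ ^ 2) * (K * t * (27 / 4)) := by
      calc (t * ‖w‖ ^ 2) * (‖A‖ * (2 - B ^ 2 * t))
          = ‖A‖ * (2 * (t * ‖w‖ ^ 2) - B ^ 2 * (t * ‖w‖) ^ 2) := by ring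
        _ ≤ K * (t * ‖w‖) ^ 2 * (27 / 4) := h8
        _ = (t * ‖w‖ ^ 2) * (K * t * (27 / 4)) := by ring
    exact le_of_mul_le_mul_left h11 h10
  have h11 : t * (B ^ 2 * ‖A‖ + 7 * K) ≤ ‖A‖ := by
    have h12 : t * Q * ‖A‖ ≤ 1 * ‖A‖ := mul_le_mul_of_nonneg_right ht3 hA0.le
    have h13 : t * Q * ‖A‖ = t * (B ^ 2 * ‖A‖ + 7 * K) := by
      rw [hQ]
      field_simp
    rw [h13, one_mul] at h12
    exact h12
  have h12 : 0 ≤ t * K := mul_nonneg ht0.le hK0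
  nlinarith

variable {X E : Type*} [MetricSpace X] [CompactSpace X] [NormedAddCommGroup E]
  [InnerProductSpace ℝ E] [FiniteDimensional ℝ E]

variable {S : HypSys X E}

/-- local data -/
structure LocQ (c : CFD S D) (C ε₁ : ℝ) (thl : X → X → Ve D) : Prop where
  C_pos : 0 < C
  ε_pos : 0 < ε₁
  ε_le : ε₁ ≤ c.ε₀
  sm : C * (c.M * ε₁) ≤ 1 / 2
  le : ∀ z z', S.SRel ε₁ z z' → ‖thl z z'‖ ≤ C
  cub : ∀ z z' p p', S.SRel ε₁ z z' → S.URel ε₁ z p → S.SRel ε₁ p p' → S.URel ε₁ z' p' →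
    ‖c.lc z' p' - mobD (c.eta z z') (thl z z') (c.lc z p)‖ ≤ C * ‖c.lc z p‖ ^ 3

theorem lc_small (c : CFD S D) {ε₁ : ℝ} (h0 : ε₁ ≤ c.ε₀) {z p : X} (h : S.URel ε₁ z p) :
    ‖c.lc z p‖ ≤ c.M * ε₁ := by
  have hM : 0 < c.M := lt_of_lt_of_le one_pos c.one_le_M
  exact (c.lc_le z p (h.mono h0)).trans (mul_le_mul_of_nonneg_left h.dist_le hM.le)

theorem exists_locq (c : CFD S 2)
    (hol : ∃ ρ₀ > 0, ∃ ε > 0, ε ≤ c.ε₀ ∧ ∀ z z', S.SRel ε z z' →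
      ∃ h : Ve 2 → Ve 2, CM ρ₀ h ∧ h 0 = 0 ∧ fderiv ℝ h 0 = c.eta z z' ∧
        ∀ p p', S.URel ε z p → S.SRel ε p p' → S.URel ε z' p' →
          ‖c.lc z p‖ < ρ₀ ∧ c.lc z' p' = h (c.lc z p)) :
    ∃ C ε₁ thl, LocQ c C ε₁ thl := by
  obtain ⟨ρ₀, hρ₀, ε, hε, hle, hh⟩ := hol
  have hM : 0 < c.M := lt_of_lt_of_le one_pos c.one_le_M
  obtain ⟨εc, hεc, hcor⟩ := exists_corner S ε hε
  obtain ⟨ρs, hρs, hsur⟩ := c.surj (min εc ε) (lt_min hεc hε)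
  obtain ⟨r, hr⟩ : ∃ r, r = min ρs ρ₀ := ⟨_, rfl⟩
  have hr0 : 0 < r := by rw [hr]; exact lt_min hρs hρ₀
  have hrs : r ≤ ρs := by rw [hr]; exact min_le_left _ _
  have hrρ : r ≤ ρ₀ := by rw [hr]; exact min_le_right _ _
  have hΛ : 1 ≤ c.M * (1 + ε) := by nlinarith [c.one_le_M]
  obtain ⟨C, hC, hP⟩ := plane_cubic r hr0 (c.M * (1 + ε)) hΛ
  obtain ⟨ε₁, hε₁⟩ : ∃ ε₁, ε₁ = min (min εc ε) (min (r / (4 * c.M)) (1 / (2 * C * c.M))) :=
    ⟨_, rfl⟩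
  have hε₁0 : 0 < ε₁ := by
    rw [hε₁]
    exact lt_min (lt_min hεc hε) (lt_min (by positivity) (by positivity))
  have hε₁c : ε₁ ≤ εc := by rw [hε₁]; exact (min_le_left _ _).trans (min_le_left _ _)
  have hε₁ε : ε₁ ≤ ε := by rw [hε₁]; exact (min_le_left _ _).trans (min_le_right _ _)
  have hε₁r : c.M * ε₁ ≤ r / 4 := by
    have h : ε₁ ≤ r / (4 * c.M) := by
      rw [hε₁]; exact (min_le_right _ _).trans (min_le_left _ _)
    rw [le_div_iff₀ (by positivity)] at h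
    linarith
  have hε₁C : C * (c.M * ε₁) ≤ 1 / 2 := by
    have h : ε₁ ≤ 1 / (2 * C * c.M) := by
      rw [hε₁]; exact (min_le_right _ _).trans (min_le_right _ _)
    rw [le_div_iff₀ (by positivity)] at h
    linarith
  have key : ∀ z z', ∃ t : Ve 2, S.SRel ε₁ z z' → ‖t‖ ≤ C ∧
      ∀ p p', S.URel ε₁ z p → S.SRel ε₁ p p' → S.URel ε₁ z' p' →
        ‖c.lc z' p' - mobD (c.eta z z') t (c.lc z p)‖ ≤ C * ‖c.lc z p‖ ^ 3 := by
    intro z z'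
    by_cases hz : S.SRel ε₁ z z'
    · obtain ⟨h, h1, h2, h3, h4⟩ := hh z z' (hz.mono hε₁ε)
      have hsub : Metric.ball (0 : Ve 2) r ⊆ Metric.ball 0 ρ₀ := Metric.ball_subset_ball hrρ
      have hCM : CM r h := ⟨h1.c1.mono hsub, fun x hx => h1.conf x (hsub hx),
        fun x hx => h1.ne x (hsub hx)⟩
      have hbd : ∀ x ∈ Metric.ball (0 : Ve 2) r, ‖h x‖ ≤ c.M * (1 + ε) := by
        intro x hx
        have hx' : ‖x‖ < r := mem_ball_zero_iff.1 hx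
        obtain ⟨p, hp, hpx⟩ := hsur z x (hx'.le.trans hrs)
        obtain ⟨p', hp', hpp'⟩ := hcor z z' p (hz.mono hε₁c) (hp.mono (min_le_left _ _))
        have h5 := (h4 p p' (hp.mono (min_le_right _ _)) hpp' hp').2
        rw [hpx] at h5
        rw [← h5]
        refine (lc_small c hle hp').trans ?_
        nlinarith
      have hη : (c.M * (1 + ε))⁻¹ ≤ ‖fderiv ℝ h 0‖ := by
        rw [h3]
        have h5 := c.one_le_eta (hz.mono (hε₁ε.trans hle))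
        rw [inv_le_iff_one_le_mul₀' (by positivity)]
        have h6 := norm_nonneg (c.eta z z')
        have h7 : 0 ≤ c.M * ‖c.eta z z'‖ * ε := by positivity
        nlinarith
      obtain ⟨b, hb, hb'⟩ := hP h hCM h2 hbd hη
      refine ⟨b, fun _ => ⟨hb, fun p p' h5 h6 h7 => ?_⟩⟩
      have h8 := (h4 p p' (h5.mono hε₁ε) (h6.mono hε₁ε) (h7.mono hε₁ε)).2
      have h9 := lc_small c (hε₁ε.trans hle) h5
      have h10 := hb' (c.lc z p) (mem_ball_zero_iff.2 (by linarith)) (by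
        rw [← one_div, le_div_iff₀ hC]
        have h11 : ‖c.lc z p‖ * C ≤ (c.M * ε₁) * C := mul_le_mul_of_nonneg_right h9 hC.le
        linarith)
      rw [← h8, h3] at h10
      exact h10
    · exact ⟨0, fun h' => absurd h' hz⟩
  choose thl hthl using key
  exact ⟨C, ε₁, thl, hC, hε₁0, hε₁ε.trans hle, hε₁C, fun z z' hz => (hthl z z' hz).1,
    fun z z' p p' h1 h2 h3 h4 => (hthl z z' h1).2 p p' h2 h3 h4⟩

theorem th_lc (c : CFD S D) {C ε₁ : ℝ} {thl : X → X → Ve D} (L : LocQ c C ε₁ thl)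
    {z z' p q : X} (h1 : S.SRel ε₁ z z') (h2 : S.URel ε₁ p q) :
    ‖thl z z'‖ * ‖c.lc p q‖ ≤ 1 / 2 :=
  (mul_le_mul (L.le z z' h1) (lc_small c L.ε_le h2) (norm_nonneg _) L.C_pos.le).trans L.sm

theorem norm_le (c : CFD S D) {C ε₁ : ℝ} {thl : X → X → Ve D} (L : LocQ c C ε₁ thl)
    {z z' p p' : X} (h1 : S.SRel ε₁ z z') (h2 : S.URel ε₁ z p) (h3 : S.SRel ε₁ p p')
    (h4 : S.URel ε₁ z' p') (h5 : ‖c.lc z p‖ ≤ 1) :
    ‖c.lc z' p'‖ ≤ (2 * c.M + 1) * ‖c.lc z p‖ := by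
  have h6 := L.cub z z' p p' h1 h2 h3 h4
  have hs : SAsym S z z' := c.geo.sasym z z' (h1.mono L.ε_le)
  have h7 := mobD_norm_le (c.eta_conf z z' hs) (th_lc c L h1 h2)
  have h8 := norm_le_norm_add_norm_sub' (c.lc z' p') (mobD (c.eta z z') (thl z z') (c.lc z p))
  have h9 := lc_small c L.ε_le h2
  have h10 : C * ‖c.lc z p‖ ≤ 1 / 2 := (mul_le_mul_of_nonneg_left h9 L.C_pos.le).trans L.sm
  have h11 := c.eta_le z z' (h1.mono L.ε_le)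
  have h12 := norm_nonneg (c.lc z p)
  have h13 : C * ‖c.lc z p‖ ^ 3 ≤ ‖c.lc z p‖ := by
    have h14 : C * ‖c.lc z p‖ * ‖c.lc z p‖ ^ 2 ≤ 1 / 2 * ‖c.lc z p‖ ^ 2 :=
      mul_le_mul_of_nonneg_right h10 (by positivity)
    nlinarith
  have h15 : ‖c.eta z z'‖ * ‖c.lc z p‖ ≤ c.M * ‖c.lc z p‖ :=
    mul_le_mul_of_nonneg_right h11 h12
  nlinarith

/-- Corners, with small sides. -/
theorem corner (c : CFD S D) {C ε₁ : ℝ} {thl : X → X → Ve D} (L : LocQ c C ε₁ thl)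
    (κ : ℝ) (hκ : 0 < κ) (hκ1 : κ ≤ ε₁) :
    ∃ ε₂ > 0, ε₂ ≤ κ ∧ ∀ z z', S.SRel ε₂ z z' → ∀ δ > 0, ∃ ρ > 0, ∀ p,
      UAsym S z p → ‖c.lc z p‖ ≤ ρ → S.URel δ z p ∧ ∃ p', UAsym S z' p' ∧ S.SRel κ p p' ∧
        S.URel δ z' p' ∧ ‖c.lc z' p'‖ ≤ (2 * c.M + 1) * ‖c.lc z p‖ := by
  obtain ⟨ε, hε, hc⟩ := exists_corner S κ hκ
  have hM : 0 < c.M := lt_of_lt_of_le one_pos c.one_le_M
  have hκε : κ ≤ c.ε₀ := hκ1.trans L.ε_le
  refine ⟨min ε κ, lt_min hε hκ, min_le_right _ _, fun z z' hz δ hδ => ?_⟩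
  obtain ⟨ρ₁, hρ₁, h3⟩ := c.small (min δ (min ε κ)) (lt_min hδ (lt_min hε hκ))
  refine ⟨min 1 (min ρ₁ (ρ₁ / (2 * c.M + 1))),
    lt_min one_pos (lt_min hρ₁ (by positivity)), fun p hp hlp => ?_⟩
  have hp1 : ‖c.lc z p‖ ≤ 1 := hlp.trans (min_le_left _ _)
  have hp2 : ‖c.lc z p‖ ≤ ρ₁ := hlp.trans ((min_le_right _ _).trans (min_le_left _ _))
  have hp3 : ‖c.lc z p‖ ≤ ρ₁ / (2 * c.M + 1) :=
    hlp.trans ((min_le_right _ _).trans (min_le_right _ _))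
  have hU := h3 z p hp hp2
  refine ⟨hU.mono (min_le_left _ _), ?_⟩
  obtain ⟨p', h4, h5⟩ := hc z z' p (hz.mono (min_le_left _ _))
    (hU.mono ((min_le_right _ _).trans (min_le_left _ _)))
  have h6 : ‖c.lc z' p'‖ ≤ (2 * c.M + 1) * ‖c.lc z p‖ :=
    norm_le c L (hz.mono ((min_le_right _ _).trans hκ1))
      (hU.mono ((min_le_right _ _).trans ((min_le_right _ _).trans hκ1))) (h5.mono hκ1)
      (h4.mono hκ1) hp1
  have h7 : UAsym S z' p' := c.geo.uasym z' p' (h4.mono hκε)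
  have h8 : ‖c.lc z' p'‖ ≤ ρ₁ := by
    refine h6.trans ?_
    rw [le_div_iff₀ (by positivity)] at hp3
    linarith
  exact ⟨p', h7, h5, (h3 z' p' h7 h8).mono (min_le_left _ _), h6⟩

theorem local_equi (c : CFD S D) {C ε₁ : ℝ} {thl : X → X → Ve D} (L : LocQ c C ε₁ thl)
    (κ : ℝ) (hκ1 : κ ≤ ε₁) (ε₂ : ℝ) (hε₂κ : ε₂ ≤ κ)
    (hc : ∀ z z', S.SRel ε₂ z z' → ∀ δ > 0, ∃ ρ > 0, ∀ p,
      UAsym S z p → ‖c.lc z p‖ ≤ ρ → S.URel δ z p ∧ ∃ p', UAsym S z' p' ∧ S.SRel κ p p' ∧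
        S.URel δ z' p' ∧ ‖c.lc z' p'‖ ≤ (2 * c.M + 1) * ‖c.lc z p‖)
    (z z' : X) (hz : S.SRel ε₂ z z') :
    ContinuousLinearMap.adjoint (c.lam z) (thl (S.g z) (S.g z')) = thl z z' := by
  have hM : 0 < c.M := lt_of_lt_of_le one_pos c.one_le_M
  have hC := L.C_pos
  have hsas : SAsym S z z' := c.geo.sasym z z' (hz.mono (hε₂κ.trans (hκ1.trans L.ε_le)))
  obtain ⟨ρ₁, hρ₁, h3⟩ := hc z z' hz ε₁ L.ε_pos
  obtain ⟨ρ₂, hρ₂, h4⟩ := c.surj c.ε₀ c.geo.pos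
  obtain ⟨ρ₃, hρ₃, h5⟩ := c.small ε₁ L.ε_pos
  have hconf : Conf ((c.lam z').comp (c.eta z z')) :=
    N00_conf_comp c.N00_D1 (c.lam_conf z') (c.eta_conf z z' hsas)
  have hpos : 0 < ‖(c.lam z').comp (c.eta z z')‖ := by
    rw [N00_comp c.N00_D1 (c.lam_conf z') (c.eta_conf z z' hsas)]
    exact mul_pos (lt_of_lt_of_le (by norm_num) (c.lam_ge z')) (c.eta_pos hsas)
  refine (uniqq hconf hpos (K := c.M * C + C * c.M ^ 3)
    (ρ := min ρ₁ (min ρ₂ (ρ₃ / (c.M * (1 + (2 * c.M + 1))))))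
    (lt_min hρ₁ (lt_min hρ₂ (by positivity))) (by positivity) fun u hun => ?_).symm
  have hu1 : ‖u‖ ≤ ρ₁ := hun.trans (min_le_left _ _)
  have hu2 : ‖u‖ ≤ ρ₂ := hun.trans ((min_le_right _ _).trans (min_le_left _ _))
  have hu3 : ‖u‖ ≤ ρ₃ / (c.M * (1 + (2 * c.M + 1))) :=
    hun.trans ((min_le_right _ _).trans (min_le_right _ _))
  rw [le_div_iff₀ (by positivity)] at hu3
  obtain ⟨p, hp, hpu⟩ := h4 z u hu2
  have hpa := c.geo.uasym z p hp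
  obtain ⟨h6, p', h7, h8, h9, h10⟩ := h3 p hpa (by rw [hpu]; exact hu1)
  have e1 : c.lc (S.g z) (S.g p) = c.lam z u := by rw [c.lc_equi z p hpa, hpu]
  have e2 : c.lc (S.g z') (S.g p') = c.lam z' (c.lc z' p') := c.lc_equi z' p' h7
  have hu0 : 0 ≤ ‖u‖ := norm_nonneg _
  have hn1 : ‖c.lc (S.g z) (S.g p)‖ ≤ c.M * ‖u‖ := by
    rw [e1, c.lam_conf z u]
    exact mul_le_mul_of_nonneg_right (c.lam_le z) (norm_nonneg _)
  have hn2 : ‖c.lc (S.g z') (S.g p')‖ ≤ c.M * ((2 * c.M + 1) * ‖u‖) := by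
    rw [e2, c.lam_conf z']
    rw [hpu] at h10
    exact mul_le_mul (c.lam_le z') h10 (norm_nonneg _) hM.le
  have hMu : 0 ≤ c.M * ‖u‖ := by positivity
  have hMDu : 0 ≤ c.M * ((2 * c.M + 1) * ‖u‖) := by positivity
  have h11 : S.URel ε₁ (S.g z) (S.g p) := h5 _ _ hpa.map (by nlinarith)
  have h12 : S.URel ε₁ (S.g z') (S.g p') := h5 _ _ h7.map (by nlinarith)
  have hA := L.cub z z' p p' (hz.mono (hε₂κ.trans hκ1)) h6 (h8.mono hκ1) h9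
  have hB := L.cub (S.g z) (S.g z') (S.g p) (S.g p') (hz.mono (hε₂κ.trans hκ1)).map h11
    (h8.mono hκ1).map h12
  rw [hpu] at hA
  have hB' := hB.trans (mul_le_mul_of_nonneg_left
    (pow_le_pow_left₀ (norm_nonneg _) hn1 3) hC.le)
  rw [e1, e2, ← mobD_zero (c.lam z) u,
    mobD_comp (c.lam_conf z) 0 _ u (by rw [den_zero]; exact one_ne_zero), zero_add,
    show (c.eta (S.g z) (S.g z')) ∘L c.lam z = (c.lam z').comp (c.eta z z') from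
      c.eta_equi z z' hsas] at hB'
  have hA' : ‖c.lam z' (c.lc z' p') - mobD ((c.lam z').comp (c.eta z z')) (thl z z') u‖ ≤
      c.M * (C * ‖u‖ ^ 3) := by
    rw [← mobD_map, ← map_sub, c.lam_conf z']
    exact mul_le_mul (c.lam_le z') hA (norm_nonneg _) hM.le
  have h13 := norm_sub_le_norm_sub_add_norm_sub
    (mobD ((c.lam z').comp (c.eta z z')) (thl z z') u) (c.lam z' (c.lc z' p'))
    (mobD ((c.lam z').comp (c.eta z z'))
      (ContinuousLinearMap.adjoint (c.lam z) (thl (S.g z) (S.g z'))) u)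
  rw [norm_sub_rev (mobD ((c.lam z').comp (c.eta z z')) (thl z z') u)
    (c.lam z' (c.lc z' p'))] at h13
  calc _ ≤ _ := h13
    _ ≤ c.M * (C * ‖u‖ ^ 3) + C * (c.M * ‖u‖) ^ 3 := add_le_add hA' hB'
    _ = (c.M * C + C * c.M ^ 3) * ‖u‖ ^ 3 := by ring

theorem local_comp (c : CFD S D) {C ε₁ : ℝ} {thl : X → X → Ve D} (L : LocQ c C ε₁ thl)
    (κ : ℝ) (hκ : 0 < κ) (hκ1 : κ + κ ≤ ε₁) (ε₂ : ℝ) (hε₂κ : ε₂ ≤ κ)
    (hc : ∀ z z', S.SRel ε₂ z z' → ∀ δ > 0, ∃ ρ > 0, ∀ p,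
      UAsym S z p → ‖c.lc z p‖ ≤ ρ → S.URel δ z p ∧ ∃ p', UAsym S z' p' ∧ S.SRel κ p p' ∧
        S.URel δ z' p' ∧ ‖c.lc z' p'‖ ≤ (2 * c.M + 1) * ‖c.lc z p‖)
    (x y z : X) (hxy : S.SRel ε₂ x y) (hyz : S.SRel ε₂ y z) (hxz : S.SRel ε₂ x z) :
    thl x z = thl x y + ContinuousLinearMap.adjoint (c.eta x y) (thl y z) := by
  have hM : 0 < c.M := lt_of_lt_of_le one_pos c.one_le_M
  have hC := L.C_pos
  have hκ1' : κ ≤ ε₁ := by linarith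
  have hsxy : SAsym S x y := c.geo.sasym x y (hxy.mono (hε₂κ.trans (hκ1'.trans L.ε_le)))
  have hsyz : SAsym S y z := c.geo.sasym y z (hyz.mono (hε₂κ.trans (hκ1'.trans L.ε_le)))
  have hsxz : SAsym S x z := hsxy.trans hsyz
  obtain ⟨ρ₁, hρ₁, h3⟩ := hc x y hxy ε₁ L.ε_pos
  obtain ⟨ρ₂, hρ₂, h4⟩ := hc y z hyz ε₁ L.ε_pos
  obtain ⟨ρ₃, hρ₃, h5⟩ := c.surj c.ε₀ c.geo.pos
  refine uniqq (c.eta_conf x z hsxz) (c.eta_pos hsxz)
    (K := C + C * (2 * c.M + 1) ^ 3 + 4 * c.M * C)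
    (ρ := min ρ₁ (min (ρ₂ / (2 * c.M + 1)) (min ρ₃ (1 / (4 * c.M * C)))))
    (lt_min hρ₁ (lt_min (by positivity) (lt_min hρ₃ (by positivity)))) (by positivity)
    fun u hun => ?_
  have hu1 : ‖u‖ ≤ ρ₁ := hun.trans (min_le_left _ _)
  have hu2 : ‖u‖ ≤ ρ₂ / (2 * c.M + 1) :=
    hun.trans ((min_le_right _ _).trans (min_le_left _ _))
  have hu3 : ‖u‖ ≤ ρ₃ := hun.trans ((min_le_right _ _).trans ((min_le_right _ _).trans
    (min_le_left _ _)))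
  have hu4 : ‖u‖ ≤ 1 / (4 * c.M * C) := hun.trans ((min_le_right _ _).trans
    ((min_le_right _ _).trans (min_le_right _ _)))
  rw [le_div_iff₀ (by positivity)] at hu2 hu4
  obtain ⟨p, hp, hpu⟩ := h5 x u hu3
  have hpa := c.geo.uasym x p hp
  obtain ⟨h6, p', h7, h8, h9, h10⟩ := h3 p hpa (by rw [hpu]; exact hu1)
  rw [hpu] at h10
  obtain ⟨h11, p'', h12, h13, h14, h15⟩ := h4 p' h7 (by linarith)
  have hxy1 := hxy.mono (hε₂κ.trans hκ1')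
  have hyz1 := hyz.mono (hε₂κ.trans hκ1')
  have hxz1 := hxz.mono (hε₂κ.trans hκ1')
  have hA := L.cub x y p p' hxy1 h6 (h8.mono hκ1') h9
  have hB := L.cub y z p' p'' hyz1 h11 (h13.mono hκ1') h14
  have hD := L.cub x z p p'' hxz1 h6 ((h8.trans h13).mono hκ1) h14
  have hbu := th_lc c L hxy1 h6
  have hbv := th_lc c L hyz1 h11
  rw [hpu] at hA hD hbu
  have hηxy := c.eta_conf x y hsxy
  have hηyz := c.eta_conf y z hsyz
  have hηle := c.eta_le x y (hxy1.mono L.ε_le)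
  have hηle' := c.eta_le y z (hyz1.mono L.ε_le)
  have hu0 : 0 ≤ ‖u‖ := norm_nonneg _
  -- the second Moebius map at the approximate point
  have hn1 := mobD_norm_le hηxy hbu
  have hbv' : ‖thl y z‖ * ‖mobD (c.eta x y) (thl x y) u‖ ≤ 1 / 2 := by
    have h16 : ‖mobD (c.eta x y) (thl x y) u‖ ≤ 2 * c.M * ‖u‖ := by
      refine hn1.trans ?_
      have : ‖c.eta x y‖ * ‖u‖ ≤ c.M * ‖u‖ := mul_le_mul_of_nonneg_right hηle hu0
      linarith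
    calc ‖thl y z‖ * ‖mobD (c.eta x y) (thl x y) u‖ ≤ C * (2 * c.M * ‖u‖) :=
          mul_le_mul (L.le y z hyz1) h16 (norm_nonneg _) hC.le
      _ ≤ 1 / 2 := by linarith
  have hlip := mobD_lip hηyz hbv hbv'
  have hcomp : mobD (c.eta y z) (thl y z) (mobD (c.eta x y) (thl x y) u) =
      mobD (c.eta x z) (thl x y + ContinuousLinearMap.adjoint (c.eta x y) (thl y z)) u := by
    rw [mobD_comp hηxy _ _ u (den_ne hbu),
      show (c.eta y z) ∘L (c.eta x y) = c.eta x z from c.eta_comp x y z hsxy hsyz]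
  rw [hcomp] at hlip
  have h16 : 4 * ‖c.eta y z‖ * ‖c.lc y p' - mobD (c.eta x y) (thl x y) u‖ ≤
      4 * c.M * (C * ‖u‖ ^ 3) :=
    mul_le_mul (by linarith) hA (norm_nonneg _) (by positivity)
  have h17 : C * ‖c.lc y p'‖ ^ 3 ≤ C * ((2 * c.M + 1) * ‖u‖) ^ 3 :=
    mul_le_mul_of_nonneg_left (pow_le_pow_left₀ (norm_nonneg _) h10 3) hC.le
  have h18 := norm_sub_le_norm_sub_add_norm_sub (mobD (c.eta x z) (thl x z) u) (c.lc z p'')
    (mobD (c.eta x z) (thl x y + ContinuousLinearMap.adjoint (c.eta x y) (thl y z)) u)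
  rw [norm_sub_rev (mobD (c.eta x z) (thl x z) u) (c.lc z p'')] at h18
  have h19 := norm_sub_le_norm_sub_add_norm_sub (c.lc z p'')
    (mobD (c.eta y z) (thl y z) (c.lc y p'))
    (mobD (c.eta x z) (thl x y + ContinuousLinearMap.adjoint (c.eta x y) (thl y z)) u)
  have e3 : (C + C * (2 * c.M + 1) ^ 3 + 4 * c.M * C) * ‖u‖ ^ 3 =
      C * ‖u‖ ^ 3 + (C * ((2 * c.M + 1) * ‖u‖) ^ 3 + 4 * c.M * (C * ‖u‖ ^ 3)) := by ring
  rw [e3]
  linarith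

end P1aux

variable {X E : Type*} [MetricSpace X] [CompactSpace X] [NormedAddCommGroup E]
  [InnerProductSpace ℝ E] [FiniteDimensional ℝ E]

variable {S : HypSys X E}

open P1aux N05aux in
/-- P1: existence of the nonlinearity cocycle in rank two. -/
theorem exists_thq (c : CFD S 2)
    (hol : ∃ ρ₀ > 0, ∃ ε > 0, ε ≤ c.ε₀ ∧ ∀ z z', S.SRel ε z z' →
      ∃ h : Ve 2 → Ve 2, CM ρ₀ h ∧ h 0 = 0 ∧ fderiv ℝ h 0 = c.eta z z' ∧
        ∀ p p', S.URel ε z p → S.SRel ε p p' → S.URel ε z' p' →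
          ‖c.lc z p‖ < ρ₀ ∧ c.lc z' p' = h (c.lc z p)) : Nonempty (THQ c) := by
  classical
  obtain ⟨C, ε₁, thl, L⟩ := exists_locq c hol
  have hε₁ := L.ε_pos
  have hκ : 0 < ε₁ / 2 := by positivity
  obtain ⟨ε₂, hε₂, hε₂κ, hc⟩ := P1aux.corner c L (ε₁ / 2) hκ (by linarith)
  have hequi := P1aux.local_equi c L (ε₁ / 2) (by linarith) ε₂ hε₂κ hc
  have hcomp := P1aux.local_comp c L (ε₁ / 2) hκ (by linarith) ε₂ hε₂κ hc
  have hM : 0 < c.M := lt_of_lt_of_le one_pos c.one_le_M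
  have hε₂1 : ε₂ ≤ ε₁ := by linarith
  set F : ℕ → X → X → Ve 2 := fun n x y =>
    ContinuousLinearMap.adjoint (c.Lp n x) (thl (S.g^[n] x) (S.g^[n] y)) with hF
  have hFs : ∀ n x y, S.SRel ε₂ (S.g^[n] x) (S.g^[n] y) → F (n + 1) x y = F n x y := by
    intro n x y h
    have h3 := hequi _ _ h
    simp only [hF]
    rw [Lp_succ_r, adj_comp, Function.iterate_succ_apply', Function.iterate_succ_apply', h3]
  have hFm : ∀ n m x y, n ≤ m → S.SRel ε₂ (S.g^[n] x) (S.g^[n] y) → F m x y = F n x y := by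
    intro n m x y hnm h
    induction m, hnm using Nat.le_induction with
    | base => rfl
    | succ m hm ih => rw [hFs m x y (SRel_le hm h), ih]
  set T : X → X → Ve 2 := fun x y =>
    if h : ∃ n, S.SRel ε₂ (S.g^[n] x) (S.g^[n] y) then F h.choose x y else 0 with hT
  have hTe : ∀ n x y, S.SRel ε₂ (S.g^[n] x) (S.g^[n] y) → T x y = F n x y := by
    intro n x y h
    have hex : ∃ n, S.SRel ε₂ (S.g^[n] x) (S.g^[n] y) := ⟨n, h⟩
    have h3 : T x y = F hex.choose x y := by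
      simp only [hT]
      rw [dif_pos hex]
    rw [h3, ← hFm _ (max n hex.choose) x y (le_max_right _ _) hex.choose_spec,
      hFm n (max n hex.choose) x y (le_max_left _ _) h]
  have hT0 : ∀ x y, S.SRel ε₂ x y → T x y = thl x y := by
    intro x y h
    rw [hTe 0 x y h]
    simp only [hF]
    rw [Lp_zero, adj_id]
    rfl
  refine ⟨{
    ε := ε₂
    ε_pos := hε₂
    ε_le := hε₂1.trans L.ε_le
    C := C
    C_pos := L.C_pos
    th := T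
    th_self := ?_
    th_equi := ?_
    th_comp := ?_
    th_le := ?_
    half := ?_
    cubic := ?_ }⟩
  · intro x
    have hr : S.SRel ε₂ x x := fun k => by rw [dist_self]; exact hε₂.le
    have h3 := hcomp x x x hr hr hr
    rw [c.eta_self, adj_id] at h3
    rw [hT0 x x hr]
    exact left_eq_add.1 h3
  · intro x y h
    obtain ⟨N, hN⟩ := h.map.eventually hε₂
    have h3 := hN N le_rfl
    rw [hTe N _ _ h3, hTe (N + 1) x y (by
      rw [Function.iterate_succ_apply, Function.iterate_succ_apply]; exact h3)]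
    simp only [hF]
    rw [Lp_succ_l, adj_comp, Function.iterate_succ_apply, Function.iterate_succ_apply]
  · intro x y z hxy hyz
    obtain ⟨N1, hN1⟩ := hxy.eventually hε₂
    obtain ⟨N2, hN2⟩ := hyz.eventually hε₂
    obtain ⟨N3, hN3⟩ := (hxy.trans hyz).eventually hε₂
    set N := max N1 (max N2 N3) with hN
    have h3 := hN1 N (le_max_left _ _)
    have h4 := hN2 N ((le_max_left _ _).trans (le_max_right _ _))
    have h5 := hN3 N ((le_max_right _ _).trans (le_max_right _ _))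
    rw [hTe N x z h5, hTe N x y h3, hTe N y z h4]
    simp only [hF]
    rw [hcomp _ _ _ h3 h4 h5, map_add, ← adj_comp, ← adj_comp, c.eta_iter hxy N]
  · intro x y h
    rw [hT0 x y h]
    exact L.le x y (h.mono hε₂1)
  · intro z z' p h h'
    rw [hT0 z z' h]
    exact th_lc c L (h.mono hε₂1) (h'.mono hε₂1)
  · intro z z' p p' h3 h4 h5 h6
    rw [hT0 z z' h3]
    exact L.cub z z' p p' (h3.mono hε₂1) (h4.mono hε₂1) (h5.mono hε₂1) (h6.mono hε₂1)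

end Pool.Agent.H779R2.Nu
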