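import Pool.Agent.H779R2.Nu.PDef

set_option autoImplicit false

namespace Pool.Agent.H779R2.Nu

open Pool.Agent.H721R2 Pool.Agent.H779R2.An Pool.Agent.H779R2.Li Filter Topology MeasureTheory
open scoped BigOperators

variable {X E : Type*} [MetricSpace X] [CompactSpace X] [NormedAddCommGroup E]
  [InnerProductSpace ℝ E] [FiniteDimensional ℝ E]

variable {S : HypSys X E} {D : ℕ}

private theorem p2_mob_comp {A L : Ve D →L[ℝ] Ve D} (hL : Conf L) (b u : Ve D) :
    mobD A b (L u) = mobD (A.comp L) (ContinuousLinearMap.adjoint L b) u := by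
  have h0 : den (0 : Ve D) u = 1 := by simp [den]
  have h1 : mobD L 0 u = L u := by simp [mobD, h0]
  have h2 := mobD_comp (A' := A) hL 0 b u (by rw [h0]; exact one_ne_zero)
  rw [h1, zero_add] at h2
  exact h2

private theorem p2_comp_mob (A L : Ve D →L[ℝ] Ve D) (b u : Ve D) :
    mobD (L.comp A) b u = L (mobD A b u) := by
  unfold mobD
  rw [map_smul, ContinuousLinearMap.comp_apply]

theorem THQ.p2_th_iter {c : CFD S D} (T : THQ c) {x y : X} (h : SAsym S x y) (n : ℕ) :
    ContinuousLinearMap.adjoint (c.Lp n x) (T.th (S.g^[n] x) (S.g^[n] y)) = T.th x y := by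
  induction n with
  | zero =>
    show ContinuousLinearMap.adjoint (ContinuousLinearMap.id ℝ (Ve D)) (T.th x y) = T.th x y
    apply ext_inner_left ℝ
    intro v
    rw [ContinuousLinearMap.adjoint_inner_right]
    rfl
  | succ n ih =>
    rw [Function.iterate_succ_apply', Function.iterate_succ_apply']
    show ContinuousLinearMap.adjoint ((c.lam (S.g^[n] x)).comp (c.Lp n x)) _ = _
    rw [ContinuousLinearMap.adjoint_comp, ContinuousLinearMap.comp_apply, T.th_equi _ _ (h.iter n),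
      ih]

/-- P2: level-`k` estimates. -/
theorem lev_q {c : CFD S D} (T : THQ c) : LevQ T := by
  have hM := c.one_le_M
  have hC := T.C_pos
  have hε := T.ε_pos
  have hε₀ := T.ε_le
  have hCM : T.C ≤ T.C * c.M ^ 2 := by
    have : (1 : ℝ) ≤ c.M ^ 2 := one_le_pow₀ hM
    nlinarith
  refine ⟨T.C * c.M ^ 2, by positivity, T.ε / 3, by positivity, by linarith, ?_, ?_⟩
  · intro k y y' h
    have h1 : S.SRel T.ε (S.g.symm^[k] y) (S.g.symm^[k] y') := h.mono (by linarith)
    have hs : SAsym S (S.g.symm^[k] y) (S.g.symm^[k] y') := c.geo.sasym _ _ (h1.mono hε₀)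
    have h2 := T.p2_th_iter hs k
    rw [iter_iter_symm, iter_iter_symm] at h2
    have h3 := T.th_le _ _ h1
    rw [← h2, (c.Lp_conf _ _).norm_adjoint_apply] at h3
    have hL := c.Lp_pos k (S.g.symm^[k] y)
    have h4 : ‖T.th y y'‖ ≤ T.C * c.cw k y := by
      unfold CFD.cw
      rw [← div_eq_mul_inv, le_div_iff₀ hL, mul_comm]
      exact h3
    exact h4.trans (mul_le_mul_of_nonneg_right hCM (c.cw_pos k y).le)
  · intro k y y' q q' h hq hq' hqq
    set z := S.g.symm^[k] y with hz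
    set z' := S.g.symm^[k] y' with hz'
    set p := S.g.symm^[k] q with hp
    set p' := S.g.symm^[k] q' with hp'
    have hgz : S.g^[k] z = y := iter_iter_symm S k y
    have hgz' : S.g^[k] z' = y' := iter_iter_symm S k y'
    have hgp : S.g^[k] p = q := iter_iter_symm S k q
    have hgp' : S.g^[k] p' = q' := iter_iter_symm S k q'
    have hzp : S.URel T.ε z p := (hq.iter k).mono (by linarith)
    have hzp' : S.URel T.ε z' p' := (hq'.iter k).mono (by linarith)
    have hzz : S.SRel T.ε z z' := h.mono (by linarith)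
    have hpp : S.SRel T.ε p p' := by
      refine SRel_back k (hqq.mono (by linarith)) (fun j hj => ?_)
      have h1 := hq j
      have h2 := hq' j
      have h3 := h (k - j)
      rw [hz, hz', iter_symm_iter_le S (Nat.sub_le k j), iter_symm_iter_le S (Nat.sub_le k j),
        Nat.sub_sub_self hj] at h3
      have t1 := dist_triangle (S.g.symm^[j] q) (S.g.symm^[j] y) (S.g.symm^[j] q')
      have t2 := dist_triangle (S.g.symm^[j] y) (S.g.symm^[j] y') (S.g.symm^[j] q')
      rw [dist_comm (S.g.symm^[j] q) (S.g.symm^[j] y)] at t1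
      linarith
    have hcub := T.cubic z z' p p' hzz hzp hpp hzp'
    have hsz : SAsym S z z' := c.geo.sasym _ _ (hzz.mono hε₀)
    have huz : UAsym S z p := c.geo.uasym _ _ (hzp.mono hε₀)
    have huz' : UAsym S z' p' := c.geo.uasym _ _ (hzp'.mono hε₀)
    have l1 := c.lc_iter huz k
    have l2 := c.lc_iter huz' k
    have l3 := c.eta_iter hsz k
    have l3' := c.norm_eta_iter hsz k
    have l4 := T.p2_th_iter hsz k
    rw [hgz, hgp] at l1
    rw [hgz', hgp'] at l2
    rw [hgz, hgz'] at l3 l3' l4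
    have hLc : Conf (c.Lp k z) := c.Lp_conf k z
    have hLc' : Conf (c.Lp k z') := c.Lp_conf k z'
    have hLpos : 0 < ‖c.Lp k z‖ := c.Lp_pos _ _
    have hmob : mobD (c.eta y y') (T.th y y') (c.lc y q) =
        c.Lp k z' (mobD (c.eta z z') (T.th z z') (c.lc z p)) := by
      rw [l1, p2_mob_comp hLc, l4, l3, p2_comp_mob]
    have hdiff : c.lc y' q' - mobD (c.eta y y') (T.th y y') (c.lc y q) =
        c.Lp k z' (c.lc z' p' - mobD (c.eta z z') (T.th z z') (c.lc z p)) := by
      rw [hmob, l2, map_sub]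
    have hratio : ‖c.Lp k z'‖ ≤ c.M ^ 2 * ‖c.Lp k z‖ := by
      have h1 := c.one_le_eta (hzz.mono hε₀)
      have hyy : S.SRel c.ε₀ y y' := (SRel_fwd k h).mono (by linarith)
      have h2 := c.eta_le y y' hyy
      have h4 : ‖c.Lp k z'‖ * 1 ≤ ‖c.Lp k z'‖ * (c.M * ‖c.eta z z'‖) :=
        mul_le_mul_of_nonneg_left h1 (norm_nonneg _)
      have h5 : ‖c.eta y y'‖ * ‖c.Lp k z‖ ≤ c.M * ‖c.Lp k z‖ :=
        mul_le_mul_of_nonneg_right h2 hLpos.le
      have h6 : c.M * (‖c.eta y y'‖ * ‖c.Lp k z‖) ≤ c.M * (c.M * ‖c.Lp k z‖) :=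
        mul_le_mul_of_nonneg_left h5 (by linarith)
      calc ‖c.Lp k z'‖ = ‖c.Lp k z'‖ * 1 := (mul_one _).symm
        _ ≤ ‖c.Lp k z'‖ * (c.M * ‖c.eta z z'‖) := h4
        _ = c.M * (‖c.Lp k z'‖ * ‖c.eta z z'‖) := by ring
        _ = c.M * (‖c.eta y y'‖ * ‖c.Lp k z‖) := by rw [l3']
        _ ≤ _ := h6
        _ = _ := by ring
    have hn : ‖c.lc y q‖ = ‖c.Lp k z‖ * ‖c.lc z p‖ := by rw [l1, hLc]
    rw [hdiff, hLc']
    have hcw : c.cw k y = ‖c.Lp k z‖⁻¹ := rfl
    rw [hcw, hn]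
    have h7 : ‖c.Lp k z'‖ * ‖c.lc z' p' - mobD (c.eta z z') (T.th z z') (c.lc z p)‖ ≤
        (c.M ^ 2 * ‖c.Lp k z‖) * (T.C * ‖c.lc z p‖ ^ 3) :=
      mul_le_mul hratio hcub (norm_nonneg _) (by positivity)
    refine h7.trans (le_of_eq ?_)
    field_simp

end Pool.Agent.H779R2.Nu
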