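import Pool.Agent.H779R2.Nu.PDef

set_option autoImplicit false

namespace Pool.Agent.H779R2.Nu

open Pool.Agent.H721R2 Pool.Agent.H779R2.An Pool.Agent.H779R2.Li Filter Topology MeasureTheory
open scoped BigOperators

variable {X E : Type*} [MetricSpace X] [CompactSpace X] [NormedAddCommGroup E]
  [InnerProductSpace ℝ E] [FiniteDimensional ℝ E]

variable {S : HypSys X E} {D : ℕ}

omit [CompactSpace X] [FiniteDimensional ℝ E] in
/-- the cell of `e` at time `-k` is closed -/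
private theorem yp3_closed (S : HypSys X E) (κ : ℝ) (k : ℕ) (γ : ℝ → X)
    (hγ : ContinuousOn γ (Set.Icc 0 1)) (e : X) :
    IsClosed (Set.Icc (0 : ℝ) 1 ∩ γ ⁻¹' {y | S.SRel κ (S.g.symm^[k] y) (S.g.symm^[k] e)}) := by
  refine hγ.preimage_isClosed_of_isClosed isClosed_Icc ?_
  have h : {y | S.SRel κ (S.g.symm^[k] y) (S.g.symm^[k] e)} =
      ⋂ n : ℕ, {y | dist (S.g^[n] (S.g.symm^[k] y)) (S.g^[n] (S.g.symm^[k] e)) ≤ κ} := by
    ext y
    simp only [Set.mem_iInter]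
    rfl
  rw [h]
  refine isClosed_iInter fun n => isClosed_le ?_ continuous_const
  exact Continuous.dist ((S.g.continuous.iterate n).comp (S.g.symm.continuous.iterate k))
    continuous_const

omit [CompactSpace X] [FiniteDimensional ℝ E] in
/-- a chain of distinct cells along an arc -/
private theorem yp3_chain (S : HypSys X E) (κ : ℝ) (k : ℕ) (γ : ℝ → X) (A : Finset X)
    (hγ : ContinuousOn γ (Set.Icc 0 1))
    (hA : ∀ t ∈ Set.Icc (0 : ℝ) 1, ∃ e ∈ A, S.SRel κ (S.g.symm^[k] (γ t)) (S.g.symm^[k] e)) :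
    ∃ (L : ℕ) (b : ℕ → X), S.SRel κ (S.g.symm^[k] (γ 0)) (S.g.symm^[k] (b 0)) ∧
      S.SRel κ (S.g.symm^[k] (γ 1)) (S.g.symm^[k] (b L)) ∧ (∀ i ≤ L, b i ∈ A) ∧
      (∀ i < L, S.SRel (κ + κ) (S.g.symm^[k] (b i)) (S.g.symm^[k] (b (i + 1)))) ∧
      Set.InjOn b {i | i ≤ L} := by
  classical
  obtain ⟨e₀, he₀, h₀⟩ := hA 0 ⟨le_rfl, zero_le_one⟩
  obtain ⟨e₁, he₁, h₁⟩ := hA 1 ⟨zero_le_one, le_rfl⟩
  set G : SimpleGraph X := SimpleGraph.fromRel (fun y y' => y ∈ A ∧ y' ∈ A ∧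
    S.SRel (κ + κ) (S.g.symm^[k] y) (S.g.symm^[k] y')) with hG
  set F : X → Set ℝ := fun e =>
    Set.Icc (0 : ℝ) 1 ∩ γ ⁻¹' {y | S.SRel κ (S.g.symm^[k] y) (S.g.symm^[k] e)} with hF
  have hFc : ∀ e, IsClosed (F e) := fun e => yp3_closed S κ k γ hγ e
  have hreach : G.Reachable e₀ e₁ := by
    by_contra hcon
    set U : Set ℝ := ⋃ e ∈ A.filter (fun e => G.Reachable e₀ e), F e with hU
    set V : Set ℝ := ⋃ e ∈ A.filter (fun e => ¬ G.Reachable e₀ e), F e with hV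
    have hUc : IsClosed U := isClosed_biUnion_finset fun e _ => hFc e
    have hVc : IsClosed V := isClosed_biUnion_finset fun e _ => hFc e
    have hcov : Set.Icc (0 : ℝ) 1 ⊆ U ∪ V := by
      intro t ht
      obtain ⟨e, he, h⟩ := hA t ht
      by_cases hr : G.Reachable e₀ e
      · left
        rw [hU, Set.mem_iUnion₂]
        exact ⟨e, Finset.mem_filter.2 ⟨he, hr⟩, ht, h⟩
      · right
        rw [hV, Set.mem_iUnion₂]
        exact ⟨e, Finset.mem_filter.2 ⟨he, hr⟩, ht, h⟩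
    have h0U : (Set.Icc (0 : ℝ) 1 ∩ U).Nonempty := by
      refine ⟨0, ⟨le_rfl, zero_le_one⟩, ?_⟩
      rw [hU, Set.mem_iUnion₂]
      exact ⟨e₀, Finset.mem_filter.2 ⟨he₀, SimpleGraph.Reachable.refl _⟩,
        ⟨le_rfl, zero_le_one⟩, h₀⟩
    have h1V : (Set.Icc (0 : ℝ) 1 ∩ V).Nonempty := by
      refine ⟨1, ⟨zero_le_one, le_rfl⟩, ?_⟩
      rw [hV, Set.mem_iUnion₂]
      exact ⟨e₁, Finset.mem_filter.2 ⟨he₁, hcon⟩, ⟨zero_le_one, le_rfl⟩, h₁⟩
    obtain ⟨t, -, htU, htV⟩ := isPreconnected_closed_iff.1 (isPreconnected_Icc (a := (0 : ℝ))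
      (b := 1)) U V hUc hVc hcov h0U h1V
    rw [hU, Set.mem_iUnion₂] at htU
    rw [hV, Set.mem_iUnion₂] at htV
    obtain ⟨e, he, -, he3⟩ := htU
    obtain ⟨e', he', -, he3'⟩ := htV
    rw [Finset.mem_filter] at he he'
    apply he'.2
    refine he.2.trans (SimpleGraph.Adj.reachable ?_)
    rw [hG, SimpleGraph.fromRel_adj]
    refine ⟨fun hee => ?_, Or.inl ⟨he.1, he'.1, ?_⟩⟩
    · rw [← hee] at he'
      exact he'.2 he.2
    · have h5 : S.SRel κ (S.g.symm^[k] (γ t)) (S.g.symm^[k] e) := he3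
      have h6 : S.SRel κ (S.g.symm^[k] (γ t)) (S.g.symm^[k] e') := he3'
      exact h5.symm.trans h6
  obtain ⟨p, hp⟩ := hreach.exists_isPath
  have hadj : ∀ i < p.length, p.getVert i ∈ A ∧
      S.SRel (κ + κ) (S.g.symm^[k] (p.getVert i)) (S.g.symm^[k] (p.getVert (i + 1))) := by
    intro i hi
    have h1 := p.adj_getVert_succ hi
    have h1' := (SimpleGraph.fromRel_adj _ _ _).1 h1
    rcases h1'.2 with h | h
    · exact ⟨h.1, h.2.2⟩
    · exact ⟨h.2.1, h.2.2.symm⟩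
  refine ⟨p.length, p.getVert, ?_, ?_, ?_, fun i hi => (hadj i hi).2, hp.getVert_injOn⟩
  · rw [p.getVert_zero]
    exact h₀
  · rw [p.getVert_length]
    exact h₁
  · intro i hi
    rcases Nat.lt_or_ge i p.length with h | h
    · exact (hadj i h).1
    · have : i = p.length := le_antisymm hi h
      rw [this, p.getVert_length]
      exact he₁

/-- sizes of neighbouring cells -/
private theorem yp3_cw (c : CFD S D) (k : ℕ) (y y' : X)
    (h : S.SRel c.ε₀ (S.g.symm^[k] y) (S.g.symm^[k] y')) : c.cw k y ≤ c.M ^ 2 * c.cw k y' := by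
  have h4 := c.norm_eta_iter (c.geo.sasym _ _ h) k
  have hk : S.SRel c.ε₀ (S.g^[k] (S.g.symm^[k] y)) (S.g^[k] (S.g.symm^[k] y')) := h.iter k
  have h2 := c.eta_le _ _ hk
  have h3 := c.one_le_eta h
  have hy := c.Lp_pos k (S.g.symm^[k] y)
  have hy' := c.Lp_pos k (S.g.symm^[k] y')
  have hM : 0 < c.M := lt_of_lt_of_le one_pos c.one_le_M
  have h5 : ‖c.Lp k (S.g.symm^[k] y')‖ ≤ c.M ^ 2 * ‖c.Lp k (S.g.symm^[k] y)‖ := by
    calc ‖c.Lp k (S.g.symm^[k] y')‖ = ‖c.Lp k (S.g.symm^[k] y')‖ * 1 := (mul_one _).symm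
      _ ≤ ‖c.Lp k (S.g.symm^[k] y')‖ * (c.M * ‖c.eta (S.g.symm^[k] y) (S.g.symm^[k] y')‖) :=
        mul_le_mul_of_nonneg_left h3 hy'.le
      _ = c.M * (‖c.Lp k (S.g.symm^[k] y')‖ * ‖c.eta (S.g.symm^[k] y) (S.g.symm^[k] y')‖) := by
        ring
      _ = c.M * (‖c.eta (S.g^[k] (S.g.symm^[k] y)) (S.g^[k] (S.g.symm^[k] y'))‖ *
          ‖c.Lp k (S.g.symm^[k] y)‖) := by rw [h4]
      _ ≤ c.M * (c.M * ‖c.Lp k (S.g.symm^[k] y)‖) :=
        mul_le_mul_of_nonneg_left (mul_le_mul_of_nonneg_right h2 hy.le) hM.le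
      _ = c.M ^ 2 * ‖c.Lp k (S.g.symm^[k] y)‖ := by ring
  unfold CFD.cw
  rw [inv_le_iff_one_le_mul₀ hy, mul_right_comm, ← div_eq_mul_inv, one_le_div hy']
  exact h5

/-- P3: chains with small square sums. -/
theorem chain_q (c : CFD S D) (h : ArcD c 2) : ChainQ c := by
  classical
  intro ε hε ρ hρ
  have hε₀ : 0 < c.ε₀ := c.geo.pos
  set κ : ℝ := min (ε / 2) c.ε₀ with hκ
  have hκ0 : 0 < κ := lt_min (by positivity) hε₀
  obtain ⟨ρ', hρ', harc⟩ := h κ hκ0 ρ hρ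
  refine ⟨ρ', hρ', fun x x' hxx' δ hδ => ?_⟩
  have hM1 : 0 < c.M ^ 4 + 1 := by positivity
  obtain ⟨k, γ, A, hγ, hγ0, hγ1, hγρ, hAρ, hcov, hsum⟩ := harc x x' hxx' (δ / (c.M ^ 4 + 1))
    (by positivity)
  obtain ⟨L, b, hb0, hbL, hbA, hbrel, hbinj⟩ := yp3_chain S κ k γ A hγ hcov
  rw [hγ0] at hb0
  rw [hγ1] at hbL
  have hκε : κ ≤ ε := (min_le_left _ _).trans (by linarith)
  have hκε2 : κ + κ ≤ ε := by
    have : κ ≤ ε / 2 := min_le_left _ _
    linarith
  obtain ⟨f, hf0, hf1⟩ : ∃ f : ℕ → X, f 0 = x ∧ ∀ j, f (j + 1) = if j ≤ L then b j else x' :=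
    ⟨fun i => Nat.casesOn i x (fun j => if j ≤ L then b j else x'), rfl, fun _ => rfl⟩
  have hxx'ρ : S.SRel ρ x x' := by
    have h1 := hγρ 1 ⟨zero_le_one, le_rfl⟩
    rwa [hγ1] at h1
  refine ⟨k, L + 2, f, hf0, ?_, ?_, ?_, ?_⟩
  · rw [hf1]; simp
  · intro i hi
    cases i with
    | zero =>
      intro m
      rw [hf0, dist_self]
      exact hρ.le
    | succ j =>
      rw [hf1]
      split_ifs with h
      · exact hAρ _ (hbA j h)
      · exact hxx'ρ
  · intro i hi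
    cases i with
    | zero =>
      rw [hf0, hf1, if_pos (Nat.zero_le _)]
      exact hb0.mono hκε
    | succ j =>
      rw [hf1, hf1]
      rcases Nat.lt_or_ge j L with h | h
      · rw [if_pos h.le, if_pos (show j + 1 ≤ L from h)]
        exact (hbrel j h).mono hκε2
      · have h0 : j = L := by omega
        subst h0
        rw [if_pos le_rfl, if_neg (by omega)]
        exact hbL.symm.mono hκε
  · rw [Finset.sum_range_succ' _ (L + 1)]
    simp only [hf0, hf1]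
    have hcw0 : ∀ y, 0 ≤ c.cw k y := fun y => (c.cw_pos k y).le
    have hsum2 : ∑ e ∈ A, c.cw k e ^ 2 ≤ δ / (c.M ^ 4 + 1) := by
      simpa only [Real.rpow_two] using hsum
    have hx2 : c.cw k x ^ 2 ≤ c.M ^ 4 * (δ / (c.M ^ 4 + 1)) := by
      have h1 := yp3_cw c k x (b 0) (hb0.mono (min_le_right _ _))
      calc c.cw k x ^ 2 ≤ (c.M ^ 2 * c.cw k (b 0)) ^ 2 := pow_le_pow_left₀ (hcw0 x) h1 2
        _ = c.M ^ 4 * c.cw k (b 0) ^ 2 := by ring
        _ ≤ c.M ^ 4 * ∑ e ∈ A, c.cw k e ^ 2 :=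
          mul_le_mul_of_nonneg_left (Finset.single_le_sum (f := fun e => c.cw k e ^ 2)
            (fun y _ => sq_nonneg _) (hbA 0 (Nat.zero_le _))) (by positivity)
        _ ≤ _ := mul_le_mul_of_nonneg_left hsum2 (by positivity)
    have hsumle : ∑ j ∈ Finset.range (L + 1), c.cw k (if j ≤ L then b j else x') ^ 2 ≤
        δ / (c.M ^ 4 + 1) := by
      have h1 : ∑ j ∈ Finset.range (L + 1), c.cw k (if j ≤ L then b j else x') ^ 2
          = ∑ j ∈ Finset.range (L + 1), c.cw k (b j) ^ 2 := by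
        refine Finset.sum_congr rfl fun j hj => ?_
        have : j ≤ L := by have := Finset.mem_range.1 hj; omega
        rw [if_pos this]
      rw [h1]
      have hinj : Set.InjOn b (Finset.range (L + 1) : Finset ℕ) := by
        intro i hi j hj h
        have hi' := Finset.mem_range.1 (Finset.mem_coe.1 hi)
        have hj' := Finset.mem_range.1 (Finset.mem_coe.1 hj)
        exact hbinj (show i ≤ L by omega) (show j ≤ L by omega) h
      rw [← Finset.sum_image (f := fun y => c.cw k y ^ 2) hinj]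
      have hsub : (Finset.range (L + 1)).image b ⊆ A := by
        intro y hy
        obtain ⟨j, hj, rfl⟩ := Finset.mem_image.1 hy
        exact hbA j (by have := Finset.mem_range.1 hj; omega)
      exact (Finset.sum_le_sum_of_subset_of_nonneg hsub fun y _ _ => sq_nonneg _).trans hsum2
    have h3 : c.M ^ 4 * (δ / (c.M ^ 4 + 1)) + δ / (c.M ^ 4 + 1) = δ := by
      field_simp
    linarith

end Pool.Agent.H779R2.Nu
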