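import Pool.Agent.H779R2.Nu.PDef

set_option autoImplicit false

namespace Pool.Agent.H779R2.Nu

open Pool.Agent.H721R2 Pool.Agent.H779R2.An Pool.Agent.H779R2.Li Filter Topology MeasureTheory
open scoped BigOperators

namespace P4aux

variable {D : ℕ}

theorem den_zero (u : Ve D) : den 0 u = 1 := by
  simp [den]

theorem mobD_id_zero (u : Ve D) : mobD (ContinuousLinearMap.id ℝ (Ve D)) 0 u = u := by
  simp [mobD, den_zero]

theorem sq_le_den (b u : Ve D) : (1 - ‖b‖ * ‖u‖) ^ 2 ≤ den b u := by
  unfold den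
  have h := real_inner_le_norm b u
  nlinarith

theorem den_le_sq (b u : Ve D) : den b u ≤ (1 + ‖b‖ * ‖u‖) ^ 2 := by
  unfold den
  have h := abs_le.1 (abs_real_inner_le_norm b u)
  nlinarith [h.1]

theorem half_ge {b u : Ve D} (h : ‖b‖ * ‖u‖ ≤ 1 / 2) : 1 / 4 ≤ den b u := by
  have h1 := sq_le_den b u
  have h2 : 0 ≤ ‖b‖ * ‖u‖ := by positivity
  nlinarith

theorem half_le {b u : Ve D} (h : ‖b‖ * ‖u‖ ≤ 1 / 2) : den b u ≤ 9 / 4 := by
  have h1 := den_le_sq b u
  have h2 : 0 ≤ ‖b‖ * ‖u‖ := by positivity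
  nlinarith

/-- Lipschitz estimate for normalized Moebius maps. -/
theorem mob_lip {A : Ve D →L[ℝ] Ve D} (hA : Conf A) {b u v : Ve D} {M : ℝ} (hη : ‖A‖ ≤ M)
    (hu : 1 / 4 ≤ den b u) (hv : 1 / 9 ≤ den b v) :
    ‖mobD A b u - mobD A b v‖ ≤ 6 * M * ‖u - v‖ := by
  have hM : 0 ≤ M := (norm_nonneg _).trans hη
  have hu0 : den b u ≠ 0 := by intro h; rw [h] at hu; linarith
  have hv0 : den b v ≠ 0 := by intro h; rw [h] at hv; linarith
  rw [mobD_dist hA b u v hu0 hv0]
  have h1 : (1 / 2 : ℝ) ≤ Real.sqrt (den b u) := by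
    apply Real.le_sqrt_of_sq_le
    linarith
  have h2 : (1 / 3 : ℝ) ≤ Real.sqrt (den b v) := by
    apply Real.le_sqrt_of_sq_le
    linarith
  have h3 : 1 / 6 ≤ Real.sqrt (den b u) * Real.sqrt (den b v) := by
    have := mul_le_mul h1 h2 (by norm_num) (Real.sqrt_nonneg _)
    linarith
  rw [div_le_iff₀ (by linarith)]
  have h4 : ‖A‖ * ‖u - v‖ ≤ M * ‖u - v‖ := mul_le_mul_of_nonneg_right hη (norm_nonneg _)
  have h5 : 0 ≤ M * ‖u - v‖ := by positivity
  nlinarith

end P4aux

variable {X E : Type*} [MetricSpace X] [CompactSpace X] [NormedAddCommGroup E]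
  [InnerProductSpace ℝ E] [FiniteDimensional ℝ E]

variable {S : HypSys X E} {D : ℕ}

open P4aux in
/-- P4: the stable holonomy is exactly Moebius. -/
theorem mob_q {c : CFD S D} (T : THQ c) (hlev : LevQ T) (hch : ChainQ c) : Nonempty (THD c) := by
  obtain ⟨C, hC, εL, hεL, hεLT, -, hlv⟩ := hlev
  have hTε := T.ε_le
  have hM := c.one_le_M
  have hε₀ := c.geo.pos
  obtain ⟨εc, hεc, hcor⟩ := exists_corner S (εL / 4) (by positivity)
  obtain ⟨ρ', hρ', hchain⟩ := hch εL hεL (min εc (εL / 4)) (lt_min hεc (by positivity))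
  set ε' : ℝ := min (min ρ' εc) (εL / 4) with hε'
  have hε'0 : 0 < ε' := lt_min (lt_min hρ' hεc) (by positivity)
  have hε'T : ε' ≤ T.ε := (min_le_right _ _).trans (by linarith)
  have main : ∀ x x' p p', S.SRel ε' x x' → S.URel ε' x p → S.SRel ε' p p' → S.URel ε' x' p' →
      c.lc x' p' = mobD (c.eta x x') (T.th x x') (c.lc x p) := by
    intro x x' p p' hxx hxp hpp hxp'
    set C' : ℝ := 6 * c.M * (C * (c.M * c.ε₀) ^ 3) with hC'
    have hC'0 : 0 < C' := by positivity
    have key : ∀ δ > 0, ‖c.lc x' p' - mobD (c.eta x x') (T.th x x') (c.lc x p)‖ ≤ C' * δ := by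
      intro δ hδ
      obtain ⟨k, m, e, he0, hem, hei, hek, hsum⟩ := hchain x x'
        (hxx.mono ((min_le_left _ _).trans (min_le_left _ _))) δ hδ
      have hcorner : ∀ i, ∃ q, i ≤ m → S.URel (εL / 4) (e i) q ∧ S.SRel (εL / 4) p q := by
        intro i
        by_cases hi : i ≤ m
        · obtain ⟨q, h1, h2⟩ := hcor x (e i) p ((hei i hi).mono (min_le_left _ _))
            (hxp.mono ((min_le_left _ _).trans (min_le_right _ _)))
          exact ⟨q, fun _ => ⟨h1, h2⟩⟩
        · exact ⟨p, fun h => absurd h hi⟩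
      choose q hq using hcorner
      have hq0 : q 0 = p := by
        obtain ⟨h1, h2⟩ := hq 0 (Nat.zero_le _)
        rw [he0] at h1
        have h3 : S.URel c.ε₀ p (q 0) := ((hxp.mono (min_le_right _ _)).symm.trans h1).mono
          (by linarith)
        exact (c.geo.uniq p (q 0) (h2.mono (by linarith)) h3).symm
      have hqm : q m = p' := by
        obtain ⟨h1, h2⟩ := hq m le_rfl
        rw [hem] at h1
        have h3 : S.URel c.ε₀ p' (q m) := ((hxp'.mono (min_le_right _ _)).symm.trans h1).mono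
          (by linarith)
        have h4 : S.SRel c.ε₀ p' (q m) := ((hpp.mono (min_le_right _ _)).symm.trans h2).mono
          (by linarith)
        exact (c.geo.uniq p' (q m) h4 h3).symm
      -- relations along the chain
      have hee : ∀ i ≤ m, ∀ j ≤ m, S.SRel T.ε (e i) (e j) := fun i hi j hj =>
        ((((hei i hi).mono (min_le_right _ _)).symm).trans
          ((hei j hj).mono (min_le_right _ _))).mono (by linarith)
      have hsa : ∀ i ≤ m, ∀ j ≤ m, SAsym S (e i) (e j) := fun i hi j hj =>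
        c.geo.sasym _ _ ((hee i hi j hj).mono hTε)
      have heq : ∀ i ≤ m, S.URel T.ε (e i) (q i) := fun i hi => (hq i hi).1.mono (by linarith)
      have hlcle : ∀ i ≤ m, ‖c.lc (e i) (q i)‖ ≤ c.M * c.ε₀ := fun i hi => by
        have h1 := c.lc_le _ _ ((heq i hi).mono hTε)
        have h2 := (heq i hi).dist_le
        exact h1.trans (mul_le_mul_of_nonneg_left (h2.trans hTε) (by linarith))
      let W : ℕ → Ve D := fun i => mobD (c.eta (e i) x') (T.th (e i) x') (c.lc (e i) (q i))
      have hstep : ∀ {i}, i < m → dist (W i) (W (i + 1)) ≤ C' * c.cw k (e i) ^ 2 := by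
        intro i hi
        have hi1 : i + 1 ≤ m := hi
        have hi0 : i ≤ m := hi.le
        have h1 := hlv k (e i) (e (i + 1)) (q i) (q (i + 1)) (hek i hi)
          ((hq i hi0).1.mono (by linarith)) ((hq (i + 1) hi1).1.mono (by linarith))
          (((hq i hi0).2.symm.trans (hq (i + 1) hi1).2).mono (by linarith))
        have hS1 : SAsym S (e i) (e (i + 1)) := hsa i hi0 (i + 1) hi1
        have hS2 : SAsym S (e (i + 1)) x' := by
          have := hsa (i + 1) hi1 m le_rfl
          rwa [hem] at this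
        have ha := T.half (e i) (e (i + 1)) (q i) (hee i hi0 (i + 1) hi1) (heq i hi0)
        have hb := T.half (e i) x' (q i) (by
          have := hee i hi0 m le_rfl
          rwa [hem] at this) (heq i hi0)
        have hcc := T.half (e (i + 1)) x' (q (i + 1)) (by
          have := hee (i + 1) hi1 m le_rfl
          rwa [hem] at this) (heq (i + 1) hi1)
        have ha1 := half_ge ha
        have ha2 := half_le ha
        have hb1 := half_ge hb
        have hne : den (T.th (e i) (e (i + 1))) (c.lc (e i) (q i)) ≠ 0 := by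
          intro h
          rw [h] at ha1
          linarith
        have hcomp := mobD_comp (A' := c.eta (e (i + 1)) x') (c.eta_conf _ _ hS1)
          (T.th (e i) (e (i + 1))) (T.th (e (i + 1)) x') (c.lc (e i) (q i)) hne
        rw [show (c.eta (e (i + 1)) x') ∘L (c.eta (e i) (e (i + 1))) = c.eta (e i) x' from
          c.eta_comp _ _ _ hS1 hS2, ← T.th_comp _ _ _ hS1 hS2] at hcomp
        have hden := den_mobD (c.eta_conf _ _ hS1) (T.th (e i) (e (i + 1)))
          (T.th (e (i + 1)) x') (c.lc (e i) (q i)) hne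
        rw [← T.th_comp _ _ _ hS1 hS2] at hden
        have hv : 1 / 9 ≤ den (T.th (e (i + 1)) x')
            (mobD (c.eta (e i) (e (i + 1))) (T.th (e i) (e (i + 1))) (c.lc (e i) (q i))) := by
          have h5 := den_nonneg (T.th (e (i + 1)) x')
            (mobD (c.eta (e i) (e (i + 1))) (T.th (e i) (e (i + 1))) (c.lc (e i) (q i)))
          rw [hden] at hb1
          nlinarith
        have hlip := mob_lip (c.eta_conf _ _ hS2) (b := T.th (e (i + 1)) x')
          (u := c.lc (e (i + 1)) (q (i + 1)))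
          (v := mobD (c.eta (e i) (e (i + 1))) (T.th (e i) (e (i + 1))) (c.lc (e i) (q i)))
          (M := c.M) (c.eta_le _ _ (by
            have := (hee (i + 1) hi1 m le_rfl).mono hTε
            rwa [hem] at this)) (half_ge hcc) hv
        rw [hcomp] at hlip
        rw [dist_comm, dist_eq_norm]
        refine hlip.trans ?_
        have h9 : ‖c.lc (e i) (q i)‖ ^ 3 ≤ (c.M * c.ε₀) ^ 3 :=
          pow_le_pow_left₀ (norm_nonneg _) (hlcle i hi0) 3
        have h10 : C * c.cw k (e i) ^ 2 * ‖c.lc (e i) (q i)‖ ^ 3 ≤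
            C * c.cw k (e i) ^ 2 * (c.M * c.ε₀) ^ 3 := mul_le_mul_of_nonneg_left h9 (by positivity)
        have h11 : 6 * c.M * ‖c.lc (e (i + 1)) (q (i + 1)) -
            mobD (c.eta (e i) (e (i + 1))) (T.th (e i) (e (i + 1))) (c.lc (e i) (q i))‖ ≤
            6 * c.M * (C * c.cw k (e i) ^ 2 * (c.M * c.ε₀) ^ 3) :=
          mul_le_mul_of_nonneg_left (h1.trans h10) (by positivity)
        refine h11.trans (le_of_eq ?_)
        rw [hC']
        ring
      have htel := dist_le_range_sum_of_dist_le (f := W) m (d := fun i => C' * c.cw k (e i) ^ 2)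
        hstep
      rw [← Finset.mul_sum] at htel
      have hW0 : W 0 = mobD (c.eta x x') (T.th x x') (c.lc x p) := by
        simp only [W]
        rw [he0, hq0]
      have hWm : W m = c.lc x' p' := by
        simp only [W]
        rw [hem, hqm, c.eta_self, T.th_self, mobD_id_zero]
      rw [hW0, hWm, dist_comm, dist_eq_norm] at htel
      exact htel.trans (mul_le_mul_of_nonneg_left hsum hC'0.le)
    have h0 : ‖c.lc x' p' - mobD (c.eta x x') (T.th x x') (c.lc x p)‖ ≤ 0 := by
      refine le_of_forall_pos_le_add fun δ hδ => ?_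
      have := key (δ / C') (by positivity)
      rw [mul_div_cancel₀ _ hC'0.ne'] at this
      linarith
    exact sub_eq_zero.1 (norm_le_zero_iff.1 h0)
  exact ⟨{
    ε := ε'
    ε_pos := hε'0
    ε_le := hε'T.trans hTε
    C := T.C
    C_pos := T.C_pos
    th := T.th
    th_self := T.th_self
    th_equi := T.th_equi
    th_comp := T.th_comp
    th_le := fun x y h => T.th_le x y (h.mono hε'T)
    half := fun z z' p h h' => T.half z z' p (h.mono hε'T) (h'.mono hε'T)
    mob := main }⟩

end Pool.Agent.H779R2.Nu
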