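import Pool.Agent.H779R2.Nu.PDef

set_option autoImplicit false

namespace Pool.Agent.H779R2.Nu

open Pool.Agent.H721R2 Pool.Agent.H779R2.An Pool.Agent.H779R2.Li Filter Topology MeasureTheory
open scoped BigOperators

variable {X E : Type*} [MetricSpace X] [CompactSpace X] [NormedAddCommGroup E]
  [InnerProductSpace ℝ E] [FiniteDimensional ℝ E]

variable {S : HypSys X E} {D : ℕ}

private theorem p5_mobD_zero (A : Ve D →L[ℝ] Ve D) (u : Ve D) : mobD A 0 u = A u := by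
  unfold mobD den
  simp

private theorem p5_den_ge (b u : Ve D) (h : ‖b‖ * ‖u‖ ≤ 1 / 2) : 1 / 4 ≤ den b u := by
  have h1 : inner ℝ b u ≤ ‖b‖ * ‖u‖ := real_inner_le_norm b u
  have h0 : 0 ≤ ‖b‖ * ‖u‖ := by positivity
  unfold den
  nlinarith [sq_nonneg (‖b‖ * ‖u‖)]

private theorem p5_mobD_sub (A : Ve D →L[ℝ] Ve D) (b u : Ve D) (h : ‖b‖ * ‖u‖ ≤ 1 / 2) :
    ‖mobD A b u - A u‖ ≤ 14 * ‖A‖ * ‖b‖ * ‖u‖ ^ 2 := by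
  have hd := p5_den_ge b u h
  have hd0 : 0 < den b u := by linarith
  have e1 : mobD A b u - A u =
      (den b u)⁻¹ • A ((2 * inner ℝ b u - ‖b‖ ^ 2 * ‖u‖ ^ 2) • u - ‖u‖ ^ 2 • b) := by
    unfold mobD
    have e2 : A u = (den b u)⁻¹ • A (den b u • u) := by
      rw [map_smul, smul_smul, inv_mul_cancel₀ hd0.ne', one_smul]
    conv_lhs => rw [e2]
    rw [← smul_sub, ← map_sub]
    congr 2
    unfold den
    module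
  rw [e1, norm_smul, norm_inv, Real.norm_of_nonneg hd0.le]
  have h2 : ‖(2 * inner ℝ b u - ‖b‖ ^ 2 * ‖u‖ ^ 2) • u - ‖u‖ ^ 2 • b‖ ≤
      7 / 2 * ‖b‖ * ‖u‖ ^ 2 := by
    have h3 : |2 * inner ℝ b u - ‖b‖ ^ 2 * ‖u‖ ^ 2| ≤ 5 / 2 * (‖b‖ * ‖u‖) := by
      have h4 : |inner ℝ b u| ≤ ‖b‖ * ‖u‖ := abs_real_inner_le_norm b u
      have h5 := abs_le.mp h4
      have h0 : 0 ≤ ‖b‖ * ‖u‖ := by positivity
      rw [abs_le]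
      constructor <;> nlinarith
    calc ‖(2 * inner ℝ b u - ‖b‖ ^ 2 * ‖u‖ ^ 2) • u - ‖u‖ ^ 2 • b‖
        ≤ ‖(2 * inner ℝ b u - ‖b‖ ^ 2 * ‖u‖ ^ 2) • u‖ + ‖‖u‖ ^ 2 • b‖ := norm_sub_le _ _
      _ = |2 * inner ℝ b u - ‖b‖ ^ 2 * ‖u‖ ^ 2| * ‖u‖ + ‖u‖ ^ 2 * ‖b‖ := by
          rw [norm_smul, norm_smul, Real.norm_eq_abs, Real.norm_of_nonneg (sq_nonneg ‖u‖)]
      _ ≤ 5 / 2 * (‖b‖ * ‖u‖) * ‖u‖ + ‖u‖ ^ 2 * ‖b‖ := by gcongr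
      _ = 7 / 2 * ‖b‖ * ‖u‖ ^ 2 := by ring
  have h6 : (den b u)⁻¹ ≤ 4 := by
    rw [inv_le_comm₀ hd0 (by norm_num)]
    linarith
  calc (den b u)⁻¹ * ‖A ((2 * inner ℝ b u - ‖b‖ ^ 2 * ‖u‖ ^ 2) • u - ‖u‖ ^ 2 • b)‖
      ≤ 4 * (‖A‖ * (7 / 2 * ‖b‖ * ‖u‖ ^ 2)) := by
        have h7 := A.le_opNorm ((2 * inner ℝ b u - ‖b‖ ^ 2 * ‖u‖ ^ 2) • u - ‖u‖ ^ 2 • b)
        have h8 : ‖A‖ * ‖(2 * inner ℝ b u - ‖b‖ ^ 2 * ‖u‖ ^ 2) • u - ‖u‖ ^ 2 • b‖ ≤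
            ‖A‖ * (7 / 2 * ‖b‖ * ‖u‖ ^ 2) := by gcongr
        exact mul_le_mul h6 (h7.trans h8) (norm_nonneg _) (by norm_num)
    _ = 14 * ‖A‖ * ‖b‖ * ‖u‖ ^ 2 := by ring

/-- P5: the quadratic estimate. -/
theorem qe_of_thq (F : Flat S) {c : CFD S D} (T : THQ c) (C : ℝ) (hC : 0 < C)
    (ξ : X → Ve D → E) (h1 : ∀ x y, UAsym S x y → ξ x (c.lc x y) = F.Lc x y)
    (h2 : ∀ x y, SAsym S x y → ∀ z, ξ y (c.eta x y z) = F.H x y (ξ x z))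
    (h3 : ∀ x z z', ‖ξ x z - ξ x z'‖ ≤ C * ‖z - z'‖)
    (h4 : ∀ x z z', ‖z - z'‖ ≤ C * ‖ξ x z - ξ x z'‖) : QEProp F := by
  have hM : 0 < c.M := lt_of_lt_of_le one_pos c.one_le_M
  have hT := T.C_pos
  set B : ℝ := c.M * Metric.diam (Set.univ : Set X) with hB
  have hB0 : 0 ≤ B := mul_nonneg hM.le Metric.diam_nonneg
  refine ⟨C * (14 * c.M * T.C + T.C * B) * C ^ 2, by positivity, T.ε, T.ε_pos, ?_⟩
  intro z z' p p' hzz hzp hpp hzp'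
  have hs : SAsym S z z' := c.geo.sasym z z' (hzz.mono T.ε_le)
  have hu : UAsym S z p := c.geo.uasym z p (hzp.mono T.ε_le)
  have hu' : UAsym S z' p' := c.geo.uasym z' p' (hzp'.mono T.ε_le)
  have e1 := T.cubic z z' p p' hzz hzp hpp hzp'
  have e2 := T.half z z' p hzz hzp
  have e3 := p5_mobD_sub (c.eta z z') (T.th z z') (c.lc z p) e2
  have hA : ‖c.eta z z'‖ ≤ c.M := c.eta_le z z' (hzz.mono T.ε_le)
  have hb : ‖T.th z z'‖ ≤ T.C := T.th_le z z' hzz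
  have hlB : ‖c.lc z p‖ ≤ B := by
    refine (c.lc_le z p (hzp.mono T.ε_le)).trans ?_
    exact mul_le_mul_of_nonneg_left
      (Metric.dist_le_diam_of_mem isCompact_univ.isBounded (Set.mem_univ _) (Set.mem_univ _)) hM.le
  have e6 : ‖c.lc z' p' - c.eta z z' (c.lc z p)‖ ≤ (14 * c.M * T.C + T.C * B) * ‖c.lc z p‖ ^ 2 := by
    have t := norm_sub_le_norm_sub_add_norm_sub (c.lc z' p')
      (mobD (c.eta z z') (T.th z z') (c.lc z p)) (c.eta z z' (c.lc z p))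
    have e7 : T.C * ‖c.lc z p‖ ^ 3 ≤ T.C * B * ‖c.lc z p‖ ^ 2 := by
      have : ‖c.lc z p‖ ^ 3 = ‖c.lc z p‖ * ‖c.lc z p‖ ^ 2 := by ring
      rw [this, mul_assoc]
      gcongr
    have e8 : 14 * ‖c.eta z z'‖ * ‖T.th z z'‖ * ‖c.lc z p‖ ^ 2 ≤
        14 * c.M * T.C * ‖c.lc z p‖ ^ 2 := by gcongr
    calc ‖c.lc z' p' - c.eta z z' (c.lc z p)‖
        ≤ T.C * ‖c.lc z p‖ ^ 3 + 14 * ‖c.eta z z'‖ * ‖T.th z z'‖ * ‖c.lc z p‖ ^ 2 :=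
          t.trans (add_le_add e1 e3)
      _ ≤ T.C * B * ‖c.lc z p‖ ^ 2 + 14 * c.M * T.C * ‖c.lc z p‖ ^ 2 := add_le_add e7 e8
      _ = _ := by ring
  have e4 : ‖F.Lc z' p' - F.H z z' (F.Lc z p)‖ ≤ C * ‖c.lc z' p' - c.eta z z' (c.lc z p)‖ := by
    rw [← h1 z' p' hu', ← h1 z p hu, ← h2 z z' hs]
    exact h3 _ _ _
  have e5 : ‖c.lc z p‖ ≤ C * ‖F.Lc z p‖ := by
    have h5 := h4 z (c.lc z p) (c.lc z z)
    rw [h1 z p hu, h1 z z (UAsym.refl S z), F.Lc_self, c.lc_self, sub_zero, sub_zero] at h5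
    exact h5
  calc ‖F.Lc z' p' - F.H z z' (F.Lc z p)‖
      ≤ C * ‖c.lc z' p' - c.eta z z' (c.lc z p)‖ := e4
    _ ≤ C * ((14 * c.M * T.C + T.C * B) * ‖c.lc z p‖ ^ 2) := by gcongr
    _ ≤ C * ((14 * c.M * T.C + T.C * B) * (C * ‖F.Lc z p‖) ^ 2) := by gcongr
    _ = C * (14 * c.M * T.C + T.C * B) * C ^ 2 * ‖F.Lc z p‖ ^ 2 := by ring

end Pool.Agent.H779R2.Nu
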