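import Pool.Agent.H779R2.Nu.NData
import Pool.Agent.H779R2.Nu.P1
import Pool.Agent.H779R2.Nu.P2
import Pool.Agent.H779R2.Nu.P3
import Pool.Agent.H779R2.Nu.P4
import Pool.Agent.H779R2.Nu.P5
import Pool.Agent.H779R2.Li.VMain

set_option autoImplicit false

namespace Pool.Agent.H779R2.Nu

open Pool.Agent.H721R2 Pool.Agent.H779R2.An Pool.Agent.H779R2.Li Filter Topology MeasureTheory
open scoped BigOperators

variable {X E : Type*} [MetricSpace X] [CompactSpace X] [NormedAddCommGroup E]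
  [InnerProductSpace ℝ E] [FiniteDimensional ℝ E]

open Pool.Agent.H789R2.GP Pool.Agent.H789R2.AN

/-- Conformal unstable bundle of rank at least two: all stable holonomies are affine. -/
theorem exists_lin_d [PreconnectedSpace X] [Nonempty X] (S : HypSys X E) {Q r : ℝ}
    (hQ : Quad S Q r) (B₀ : CS0 S) (D d : ℕ) (hD : 2 ≤ D) (hd : 2 ≤ d)
    (hfu : ∀ x, Module.finrank ℝ (S.Vu x) = D) (hfs : ∀ x, Module.finrank ℝ (S.Vs x) = d) :
    ∃ F : Flat S, LinProp F Set.univ ∧ CommLoc F ∧ QuadGlob F := by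
  obtain ⟨K, hK⟩ := qc_of_cs0 B₀
  have hflat : Nonempty (Flat S) := by
    obtain ⟨Lc, a1, a2, a3⟩ := hasLc S hQ hK
    obtain ⟨τ, b1, b2, b3⟩ := hasTau S hQ hK
    obtain ⟨H, c1, c2, c3⟩ := hasHol S hQ hK
    obtain ⟨L⟩ := exists_lin1 (S := S) ⟨K, hK, Lc, a1, a2, a3, τ, b1, b2, b3, H, c1, c2, c3⟩
    exact exists_flat L
  have hunit : Nonempty (UV S) := by
    have : ∀ x, ∃ b ∈ S.Vu x, ‖b‖ = 1 := by
      intro x
      have hpos : 0 < Module.finrank ℝ (S.Vu x) := by rw [hfu]; omega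
      have : Nontrivial (S.Vu x) := Module.finrank_pos_iff.mp hpos
      obtain ⟨v, hv⟩ := exists_ne (0 : S.Vu x)
      have hv' : ‖(v : E)‖ ≠ 0 := by
        rw [norm_ne_zero_iff]
        exact fun h => hv (Subtype.ext h)
      refine ⟨‖(v : E)‖⁻¹ • (v : E), Submodule.smul_mem _ _ v.2, ?_⟩
      rw [norm_smul, norm_inv, norm_norm, inv_mul_cancel₀ hv']
    choose b hb1 hb2 using this
    exact ⟨⟨b, hb1, hb2⟩⟩
  obtain ⟨F⟩ := hflat
  obtain ⟨B⟩ := hunit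
  obtain ⟨c, hc, ξ, C, hC, hξ1, hξ2, hξ3, hξ4⟩ := exists_cfd hD F B₀ (cs0_tau B₀ F) (cs0_hol B₀ F)
    (cd_unif F) hfu
  have key : SumB S B D ∧ Nonempty (THD c) := by
    by_cases h3 : 3 ≤ D
    · obtain ⟨T⟩ := exists_thd c (hol_d c) (fun r h hr hh h0 => liouville h3 hr hh h0)
      exact ⟨sum_bdd F B (qe_of_thd F T C hC ξ hξ1 hξ2 hξ3 hξ4) D hfu, ⟨T⟩⟩
    · obtain rfl : D = 2 := by omega
      obtain ⟨T⟩ := exists_thq c (hol_d c)
      have hsum := sum_bdd F B (qe_of_thq F T C hC ξ hξ1 hξ2 hξ3 hξ4) 2 hfu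
      refine ⟨hsum, mob_q T (lev_q T) (chain_q c ?_)⟩
      obtain ⟨s₀, hs₀, harc⟩ := arc_prop_d c d hd (chart_prop S d hfs)
        (Pool.Agent.H779R2.Mo.arc_choice d hd) (sum_near_d c B (hc B) hsum)
        (Pool.Agent.H779R2.Mo.back_lip S)
      norm_num at hs₀ harc
      exact harc 2 hs₀ le_rfl
  obtain ⟨hsum, ⟨T⟩⟩ := key
  exact ⟨F, lin_of_data hD hd hfs F B c (hc B) hsum ξ hξ1 hξ2 T⟩

/-- Transitivity. -/
theorem abstract_trans_d [PreconnectedSpace X] (S : HypSys X E) {Q r : ℝ}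
    (hQ : Quad S Q r) (B₀ : CS0 S) (D d : ℕ) (hD : 2 ≤ D) (hd : 2 ≤ d)
    (hfu : ∀ x, Module.finrank ℝ (S.Vu x) = D) (hfs : ∀ x, Module.finrank ℝ (S.Vs x) = d)
    (U V : Set X) (hU : IsOpen U) (hUn : U.Nonempty) (hV : IsOpen V) (hVn : V.Nonempty) :
    ∃ n : ℕ, (S.g^[n] '' U ∩ V).Nonempty := by
  haveI : Nonempty X := hUn.to_type
  obtain ⟨F, hlin, hcomm, hglob⟩ := exists_lin_d S hQ B₀ D d hD hd hfu hfs
  exact trans_of_meet F (meet_all F hglob) U V hU hUn hV hVn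

/-- Covering by a vector space. -/
theorem abstract_cov_d {E' : Type*} [NormedAddCommGroup E'] [NormedSpace ℝ E']
    [ProperSpace E'] [ChartedSpace E' X] [ConnectedSpace X] (S : HypSys X E) {Q r : ℝ}
    (hQ : Quad S Q r) (B₀ : CS0 S) (D d : ℕ) (hD : 2 ≤ D) (hd : 2 ≤ d)
    (hfu : ∀ x, Module.finrank ℝ (S.Vu x) = D) (hfs : ∀ x, Module.finrank ℝ (S.Vs x) = d) :
    ∃ q₀ : E' → X, IsCoveringMap q₀ := by
  obtain ⟨F, hlin, hcomm, hglob⟩ := exists_lin_d S hQ B₀ D d hD hd hfu hfs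
  obtain ⟨c', hc', T', hT'⟩ := exists_qs F hlin hcomm hglob
  obtain ⟨c₀, hLP⟩ := exists_LP S
  obtain ⟨q, hq, p, hp⟩ := S.exists_periodic
  exact exists_covering hLP hc' T' p q hq hp

end Pool.Agent.H779R2.Nu
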