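import Pool.Agent.H779R2.Nu.NM
import Pool.Agent.H779R2.Nu.NMain
import Pool.Agent.H779R2.An.MainL
import Pool.Agent.H779R2.An.MainC

set_option autoImplicit false
set_option linter.unusedSectionVars false

open scoped Manifold ContDiff Topology Bundle
open Set Filter Bundle

namespace Pool.Agent.H779R2.Nu

open Pool.Agent.H721R2 Pool.Agent.H789R2.AN Pool.Agent.H789R2.GP Pool.Agent.H779R2.An

/-- Transitivity and covering for Anosov diffeomorphisms with a conformal bundle of rank at least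
three. -/
theorem main_confD (E : Type*) [NormedAddCommGroup E] [NormedSpace ℝ E] [FiniteDimensional ℝ E]
    (M : Type*) [TopologicalSpace M] [T2Space M] [CompactSpace M] [ConnectedSpace M]
    [ChartedSpace E M] [IsManifold 𝓘(ℝ, E) ∞ M] (f : Diffeomorph 𝓘(ℝ, E) 𝓘(ℝ, E) M M 1)
    (hf2 : ContMDiff 𝓘(ℝ, E) 𝓘(ℝ, E) 2 f) (hf2' : ContMDiff 𝓘(ℝ, E) 𝓘(ℝ, E) 2 f.symm)
    (Es Eu : ∀ x : M, Submodule ℝ (TangentSpace 𝓘(ℝ, E) x)) (hA : IsAnosov f Es Eu)
    (ds du : ℕ) (hds : ∀ x, Module.finrank ℝ (Es x) = ds)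
    (hdu : ∀ x, Module.finrank ℝ (Eu x) = du)
    (hJ : (2 ≤ du ∧ 2 ≤ ds ∧ ∃ G, InvConfOn f Eu G) ∨
      (2 ≤ ds ∧ 2 ≤ du ∧ ∃ G, InvConfOn f Es G)) :
    TopTransitive f ∧ ∃ q : E → M, IsCoveringMap q ∧ Function.Surjective q := by
  obtain ⟨m, e, he, hemb, hinj⟩ := exists_embedding_euclidean_of_compact (I := 𝓘(ℝ, E)) (M := M)
  let _ : MetricSpace M := hemb.isEmbedding.comapMetricSpace e
  have hiso : ∀ x y : M, dist x y = ‖e x - e y‖ := fun x y => dist_eq_norm (e x) (e y)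
  have he1 : ContMDiff 𝓘(ℝ, E) (𝓡 m) 1 e := he.of_le (by simp)
  have he2 : ContMDiff 𝓘(ℝ, E) (𝓡 m) 2 e := he.of_le (by
    exact_mod_cast (ENat.LEInfty.out : (2 : WithTop ℕ∞) ≤ ∞))
  obtain ⟨C', a, b, Ls, Lu, hE⟩ := eanosov_of_isAnosov e he1 hinj f Es Eu hA
  obtain ⟨K, hK, hang⟩ := hE.angle he1 hinj
  have t1 : Tendsto (fun n : ℕ => K * (C' * a ^ n)) atTop (𝓝 0) := by
    have := ((tendsto_pow_atTop_nhds_zero_of_lt_one hE.a_pos.le hE.a_lt).const_mul C').const_mul K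
    simpa using this
  have t2 : Tendsto (fun n : ℕ => K * (C' * b ^ n)) atTop (𝓝 0) := by
    have := ((tendsto_pow_atTop_nhds_zero_of_lt_one hE.b_pos.le hE.b_lt).const_mul C').const_mul K
    simpa using this
  obtain ⟨n, hn1, hn2⟩ := (((tendsto_order.mp t1).2 (1 / 16) (by norm_num)).and
    ((tendsto_order.mp t2).2 (1 / 16) (by norm_num))).exists
  obtain ⟨S, hS⟩ := exists_realizes hiso he1 hinj hE K hK hang n hn1.le hn2.le
  obtain ⟨Q, r, hQ⟩ := quad_of_realizes hiso he2 hinj hE hf2 hf2' hS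
  have hfin : ∀ (x : M) (V : Submodule ℝ E),
      Module.finrank ℝ (V.map (dm E e x).toLinearMap) = Module.finrank ℝ V := fun x V =>
    (LinearEquiv.finrank_eq (Submodule.equivMapOfInjective (dm E e x).toLinearMap (hinj x) V)).symm
  have hfs : ∀ x, Module.finrank ℝ (S.Vs x) = ds := fun x => by
    rw [hS.Vs_eq, hfin]; exact hds x
  have hfu : ∀ x, Module.finrank ℝ (S.Vu x) = du := fun x => by
    rw [hS.Vu_eq, hfin]; exact hdu x
  have hgn : ∀ (k : ℕ) (x : M), (S.g^[k]) x = f^[n * k] x := by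
    intro k x
    rw [hS.g_eq, Function.iterate_mul]
    rfl
  have key : TopTransitive f ∧ ∃ q : E → M, IsCoveringMap q := by
    rcases hJ with ⟨h2, hle, G, hG⟩ | ⟨h2, hle, G, hG⟩
    · obtain ⟨B₀⟩ := cs0_of_realizes hiso he1 hinj hE G hG hS
      refine ⟨?_, abstract_cov_d (E' := E) S hQ B₀ du ds h2 hle hfu hfs⟩
      intro U V hU hUn hV hVn
      obtain ⟨k, hk⟩ := abstract_trans_d S hQ B₀ du ds h2 hle hfu hfs U V hU hUn hV hVn
      refine ⟨n * k, ?_⟩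
      have : (S.g^[k]) = (f^[n * k]) := funext (hgn k)
      rwa [this] at hk
    · obtain ⟨B₀⟩ := cs0_of_realizes hiso he1 hinj hE.symm G (invConfOn_symm hE hG) hS.symm
      refine ⟨?_, abstract_cov_d (E' := E) S.symm hQ.symm B₀ ds du h2 hle hfs hfu⟩
      intro U V hU hUn hV hVn
      obtain ⟨k, hk⟩ := abstract_trans_d S.symm hQ.symm B₀ ds du h2 hle hfs hfu V U hV hVn hU hUn
      refine ⟨n * k, ?_⟩
      obtain ⟨y, ⟨x, hx, hxy⟩, hy⟩ := hk
      refine ⟨x, ⟨y, hy, ?_⟩, hx⟩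
      rw [← hgn, ← hxy]
      exact iter_iter_symm S k x
  obtain ⟨hT, q, hq⟩ := key
  exact ⟨hT, q, hq, covering_surj hq⟩

end Pool.Agent.H779R2.Nu
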