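import Pool.Agent.H779R2.Nu.NDef
import Pool.Agent.H779R2.Li.V13
import Pool.Agent.H779R2.An.CCount

set_option autoImplicit false

namespace Pool.Agent.H779R2.Nu

open Pool.Agent.H721R2 Pool.Agent.H779R2.An Pool.Agent.H779R2.Li Filter Topology MeasureTheory
open scoped BigOperators

variable {X E : Type*} [MetricSpace X] [CompactSpace X] [NormedAddCommGroup E]
  [InnerProductSpace ℝ E] [FiniteDimensional ℝ E]

variable {S : HypSys X E} {D : ℕ}

/-! auxiliary facts on conformal maps -/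

theorem N00_nt (hD : 1 ≤ D) : Nontrivial (Ve D) := by
  have : Nonempty (Fin D) := ⟨⟨0, hD⟩⟩
  infer_instance

theorem N00_comp (hD : 1 ≤ D) {A B : Ve D →L[ℝ] Ve D} (hA : Conf A) (hB : Conf B) :
    ‖A.comp B‖ = ‖A‖ * ‖B‖ := by
  have := N00_nt hD
  obtain ⟨v, hv⟩ := exists_ne (0 : Ve D)
  have hv' : 0 < ‖v‖ := norm_pos_iff.2 hv
  apply le_antisymm (ContinuousLinearMap.opNorm_comp_le _ _)
  have h1 := (A.comp B).le_opNorm v
  rw [ContinuousLinearMap.comp_apply, hA, hB, ← mul_assoc] at h1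
  exact le_of_mul_le_mul_right h1 hv'

theorem N00_conf_comp (hD : 1 ≤ D) {A B : Ve D →L[ℝ] Ve D} (hA : Conf A) (hB : Conf B) :
    Conf (A.comp B) := by
  intro v
  rw [N00_comp hD hA hB, ContinuousLinearMap.comp_apply, hA, hB, mul_assoc]

theorem N00_conf_id (hD : 1 ≤ D) : Conf (ContinuousLinearMap.id ℝ (Ve D)) := by
  have := N00_nt hD
  intro v
  rw [ContinuousLinearMap.norm_id, one_mul]
  rfl

namespace CFD

theorem N00_D1 (c : CFD S D) : 1 ≤ D := le_trans (by norm_num) c.hD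

theorem N00_norm_id (c : CFD S D) : ‖ContinuousLinearMap.id ℝ (Ve D)‖ = 1 := by
  have := N00_nt c.N00_D1
  exact ContinuousLinearMap.norm_id

theorem Lp_conf (c : CFD S D) (n : ℕ) (x : X) : Conf (c.Lp n x) := by
  induction n with
  | zero => exact N00_conf_id c.N00_D1
  | succ n ih => exact N00_conf_comp c.N00_D1 (c.lam_conf _) ih

theorem Lp_add (c : CFD S D) (m n : ℕ) (x : X) :
    c.Lp (m + n) x = (c.Lp m (S.g^[n] x)).comp (c.Lp n x) := by
  induction m with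
  | zero =>
    rw [Nat.zero_add]
    rfl
  | succ m ih =>
    have e : m + 1 + n = (m + n) + 1 := by omega
    rw [e]
    show (c.lam (S.g^[m + n] x)).comp (c.Lp (m + n) x) =
      ((c.lam (S.g^[m] (S.g^[n] x))).comp (c.Lp m (S.g^[n] x))).comp (c.Lp n x)
    rw [ih, Function.iterate_add_apply]
    rfl

theorem norm_Lp_add (c : CFD S D) (m n : ℕ) (x : X) :
    ‖c.Lp (m + n) x‖ = ‖c.Lp m (S.g^[n] x)‖ * ‖c.Lp n x‖ := by
  rw [c.Lp_add, N00_comp c.N00_D1 (c.Lp_conf _ _) (c.Lp_conf _ _)]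

theorem N00_Lp_succ (c : CFD S D) (n : ℕ) (x : X) :
    ‖c.Lp (n + 1) x‖ = ‖c.lam (S.g^[n] x)‖ * ‖c.Lp n x‖ :=
  N00_comp c.N00_D1 (c.lam_conf _) (c.Lp_conf _ _)

theorem Lp_ge (c : CFD S D) (n : ℕ) (x : X) : 16 ^ n ≤ ‖c.Lp n x‖ := by
  induction n with
  | zero => exact (c.N00_norm_id.symm ▸ by norm_num : (16 : ℝ) ^ 0 ≤ ‖ContinuousLinearMap.id ℝ (Ve D)‖)
  | succ n ih =>
    rw [N00_Lp_succ, pow_succ, mul_comm]
    exact mul_le_mul (c.lam_ge _) ih (by positivity) (norm_nonneg _)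

theorem Lp_le (c : CFD S D) (n : ℕ) (x : X) : ‖c.Lp n x‖ ≤ c.M ^ n := by
  induction n with
  | zero => exact (c.N00_norm_id.symm ▸ by norm_num : ‖ContinuousLinearMap.id ℝ (Ve D)‖ ≤ c.M ^ 0)
  | succ n ih =>
    rw [N00_Lp_succ, pow_succ, mul_comm]
    exact mul_le_mul ih (c.lam_le _) (norm_nonneg _) (pow_nonneg (zero_le_one.trans c.one_le_M) _)

theorem Lp_pos (c : CFD S D) (n : ℕ) (x : X) : 0 < ‖c.Lp n x‖ :=
  lt_of_lt_of_le (by positivity) (c.Lp_ge n x)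

theorem cw_pos (c : CFD S D) (k : ℕ) (y : X) : 0 < c.cw k y := inv_pos.2 (c.Lp_pos _ _)

theorem lc_iter (c : CFD S D) {x y : X} (h : UAsym S x y) (n : ℕ) :
    c.lc (S.g^[n] x) (S.g^[n] y) = c.Lp n x (c.lc x y) := by
  induction n with
  | zero => rfl
  | succ n ih =>
    rw [Function.iterate_succ_apply', Function.iterate_succ_apply', c.lc_equi _ _ (h.iter n), ih]
    rfl

theorem tau_iter (c : CFD S D) {x y : X} (h : UAsym S x y) (n : ℕ) :
    (c.tau (S.g^[n] x) (S.g^[n] y)).comp (c.Lp n x) = (c.Lp n y).comp (c.tau x y) := by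
  induction n with
  | zero => rfl
  | succ n ih =>
    rw [Function.iterate_succ_apply', Function.iterate_succ_apply']
    show (c.tau (S.g (S.g^[n] x)) (S.g (S.g^[n] y))).comp ((c.lam (S.g^[n] x)).comp (c.Lp n x)) =
      ((c.lam (S.g^[n] y)).comp (c.Lp n y)).comp (c.tau x y)
    rw [← ContinuousLinearMap.comp_assoc, c.tau_equi _ _ (h.iter n),
      ContinuousLinearMap.comp_assoc, ih, ContinuousLinearMap.comp_assoc]

theorem norm_tau_iter (c : CFD S D) {x y : X} (h : UAsym S x y) (n : ℕ) :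
    ‖c.tau (S.g^[n] x) (S.g^[n] y)‖ * ‖c.Lp n x‖ = ‖c.Lp n y‖ * ‖c.tau x y‖ := by
  rw [← N00_comp c.N00_D1 (c.tau_conf _ _ (h.iter n)) (c.Lp_conf _ _), c.tau_iter h,
    N00_comp c.N00_D1 (c.Lp_conf _ _) (c.tau_conf _ _ h)]

theorem eta_iter (c : CFD S D) {x y : X} (h : SAsym S x y) (n : ℕ) :
    (c.eta (S.g^[n] x) (S.g^[n] y)).comp (c.Lp n x) = (c.Lp n y).comp (c.eta x y) := by
  induction n with
  | zero => rfl
  | succ n ih =>
    rw [Function.iterate_succ_apply', Function.iterate_succ_apply']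
    show (c.eta (S.g (S.g^[n] x)) (S.g (S.g^[n] y))).comp ((c.lam (S.g^[n] x)).comp (c.Lp n x)) =
      ((c.lam (S.g^[n] y)).comp (c.Lp n y)).comp (c.eta x y)
    rw [← ContinuousLinearMap.comp_assoc, c.eta_equi _ _ (h.iter n),
      ContinuousLinearMap.comp_assoc, ih, ContinuousLinearMap.comp_assoc]

theorem norm_eta_iter (c : CFD S D) {x y : X} (h : SAsym S x y) (n : ℕ) :
    ‖c.eta (S.g^[n] x) (S.g^[n] y)‖ * ‖c.Lp n x‖ = ‖c.Lp n y‖ * ‖c.eta x y‖ := by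
  rw [← N00_comp c.N00_D1 (c.eta_conf _ _ (h.iter n)) (c.Lp_conf _ _), c.eta_iter h,
    N00_comp c.N00_D1 (c.Lp_conf _ _) (c.eta_conf _ _ h)]

theorem norm_tau_symm (c : CFD S D) {x y : X} (h : UAsym S x y) :
    ‖c.tau y x‖ * ‖c.tau x y‖ = 1 := by
  rw [← N00_comp c.N00_D1 (c.tau_conf _ _ h.symm) (c.tau_conf _ _ h), c.tau_comp x y x h h.symm,
    c.tau_self, c.N00_norm_id]

theorem norm_eta_symm (c : CFD S D) {x y : X} (h : SAsym S x y) :
    ‖c.eta y x‖ * ‖c.eta x y‖ = 1 := by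
  rw [← N00_comp c.N00_D1 (c.eta_conf _ _ h.symm) (c.eta_conf _ _ h), c.eta_comp x y x h h.symm,
    c.eta_self, c.N00_norm_id]

theorem tau_pos (c : CFD S D) {x y : X} (h : UAsym S x y) : 0 < ‖c.tau x y‖ := by
  have h1 := c.norm_tau_symm h
  rcases (norm_nonneg (c.tau x y)).lt_or_eq with h2 | h2
  · exact h2
  · rw [← h2, mul_zero] at h1
    norm_num at h1

theorem eta_pos (c : CFD S D) {x y : X} (h : SAsym S x y) : 0 < ‖c.eta x y‖ := by
  have h1 := c.norm_eta_symm h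
  rcases (norm_nonneg (c.eta x y)).lt_or_eq with h2 | h2
  · exact h2
  · rw [← h2, mul_zero] at h1
    norm_num at h1

theorem one_le_eta (c : CFD S D) {x y : X} (h : S.SRel c.ε₀ x y) : 1 ≤ c.M * ‖c.eta x y‖ := by
  have h2 := c.eta_le y x h.symm
  have h3 := c.norm_eta_symm (c.geo.sasym _ _ h)
  have h4 : ‖c.eta y x‖ * ‖c.eta x y‖ ≤ c.M * ‖c.eta x y‖ :=
    mul_le_mul_of_nonneg_right h2 (norm_nonneg _)
  linarith

theorem one_le_tau (c : CFD S D) {x y : X} (h : S.URel c.ε₀ x y) : 1 ≤ c.M * ‖c.tau x y‖ := by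
  have h2 := c.tau_le y x h.symm
  have h3 := c.norm_tau_symm (c.geo.uasym _ _ h)
  have h4 : ‖c.tau y x‖ * ‖c.tau x y‖ ≤ c.M * ‖c.tau x y‖ :=
    mul_le_mul_of_nonneg_right h2 (norm_nonneg _)
  linarith

end CFD

/-- The transport is bounded on bounded parts of unstable leaves. -/
theorem tau_bound_d (c : CFD S D) (A : ℝ) : ∃ C : ℝ, 1 ≤ C ∧ ∀ x y, UAsym S x y →
    ‖c.lc x y‖ ≤ A → ‖c.tau x y‖ ≤ C ∧ 1 ≤ C * ‖c.tau x y‖ := by
  obtain ⟨ρ, hρ, hsmall⟩ := c.small c.ε₀ c.geo.pos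
  have hM := c.one_le_M
  obtain ⟨n, hn⟩ : ∃ n : ℕ, A / 16 ^ n ≤ ρ := by
    obtain ⟨n, hn⟩ := exists_nat_ge (A / ρ)
    refine ⟨n, ?_⟩
    rw [div_le_iff₀ (by positivity)]
    have h1 : (n : ℝ) ≤ 16 ^ n := by
      have : n < 16 ^ n := Nat.lt_pow_self (by norm_num)
      exact_mod_cast this.le
    rw [div_le_iff₀ hρ] at hn
    nlinarith
  refine ⟨c.M ^ (n + 1), one_le_pow₀ hM, ?_⟩
  intro x y hxy hA
  set xn := S.g.symm^[n] x with hxn
  set yn := S.g.symm^[n] y with hyn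
  have hu : UAsym S xn yn := hxy.symm_iter n
  have h1 := c.lc_iter hu n
  have h2 := c.norm_tau_iter hu n
  rw [hxn, hyn, iter_iter_symm, iter_iter_symm, ← hxn, ← hyn] at h1 h2
  have hLx := c.Lp_ge n xn
  have hLy := c.Lp_ge n yn
  have hLx' := c.Lp_le n xn
  have hLy' := c.Lp_le n yn
  have h16 : (1 : ℝ) ≤ 16 ^ n := one_le_pow₀ (by norm_num)
  have h16' : (0 : ℝ) < 16 ^ n := by positivity
  have hlcn : ‖c.lc xn yn‖ ≤ ρ := by
    refine le_trans ?_ hn
    rw [le_div_iff₀ h16']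
    rw [h1, c.Lp_conf n xn] at hA
    calc ‖c.lc xn yn‖ * 16 ^ n ≤ ‖c.lc xn yn‖ * ‖c.Lp n xn‖ := by gcongr
      _ = ‖c.Lp n xn‖ * ‖c.lc xn yn‖ := mul_comm _ _
      _ ≤ A := hA
  have hrel := hsmall xn yn hu hlcn
  have h3 := c.tau_le xn yn hrel
  have h6 := c.one_le_tau hrel
  have h7 := h2
  have ht0 := norm_nonneg (c.tau x y)
  have hM0 : 0 ≤ c.M := zero_le_one.trans hM
  have hMn : (0 : ℝ) < c.M ^ n := by positivity
  constructor
  · calc ‖c.tau x y‖ ≤ ‖c.tau x y‖ * ‖c.Lp n xn‖ := by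
          have : 1 ≤ ‖c.Lp n xn‖ := h16.trans hLx
          nlinarith
      _ = ‖c.Lp n yn‖ * ‖c.tau xn yn‖ := h7
      _ ≤ c.M ^ n * c.M := by gcongr
      _ = c.M ^ (n + 1) := (pow_succ _ _).symm
  · have h8 : 1 ≤ c.M * (‖c.tau x y‖ * ‖c.Lp n xn‖) := by
      rw [h7]
      calc 1 ≤ c.M * ‖c.tau xn yn‖ := h6
        _ = 1 * (c.M * ‖c.tau xn yn‖) := (one_mul _).symm
        _ ≤ ‖c.Lp n yn‖ * (c.M * ‖c.tau xn yn‖) := by
            gcongr
            exact h16.trans hLy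
        _ = c.M * (‖c.Lp n yn‖ * ‖c.tau xn yn‖) := by ring
    calc 1 ≤ c.M * (‖c.tau x y‖ * ‖c.Lp n xn‖) := h8
      _ ≤ c.M * (‖c.tau x y‖ * c.M ^ n) := by gcongr
      _ = c.M ^ (n + 1) * ‖c.tau x y‖ := by ring

theorem THD.th_iter {c : CFD S D} (T : THD c) {x y : X} (h : SAsym S x y) (n : ℕ) :
    ContinuousLinearMap.adjoint (c.Lp n x) (T.th (S.g^[n] x) (S.g^[n] y)) = T.th x y := by
  induction n with
  | zero =>
    show ContinuousLinearMap.adjoint (ContinuousLinearMap.id ℝ (Ve D)) (T.th x y) = T.th x y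
    apply ext_inner_left ℝ
    intro v
    rw [ContinuousLinearMap.adjoint_inner_right]
    rfl
  | succ n ih =>
    rw [Function.iterate_succ_apply', Function.iterate_succ_apply']
    show ContinuousLinearMap.adjoint ((c.lam (S.g^[n] x)).comp (c.Lp n x)) _ = _
    rw [ContinuousLinearMap.adjoint_comp, ContinuousLinearMap.comp_apply, T.th_equi _ _ (h.iter n),
      ih]

/-- level-`k` bound -/
theorem THD.lev {c : CFD S D} (T : THD c) (k : ℕ) (y y' : X)
    (h : S.SRel T.ε (S.g.symm^[k] y) (S.g.symm^[k] y')) : ‖T.th y y'‖ ≤ T.C * c.cw k y := by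
  have hs : SAsym S (S.g.symm^[k] y) (S.g.symm^[k] y') :=
    c.geo.sasym _ _ (h.mono T.ε_le)
  have h1 := T.th_iter hs k
  rw [iter_iter_symm, iter_iter_symm] at h1
  have h2 := congrArg norm h1
  rw [(c.Lp_conf _ _).norm_adjoint_apply] at h2
  have h3 := T.th_le _ _ h
  rw [← h2] at h3
  unfold CFD.cw
  rw [← div_eq_mul_inv, le_div_iff₀ (c.Lp_pos _ _), mul_comm]
  exact h3

/-- Surjectivity of the linearizing coordinate on the whole unstable leaf. -/
theorem surj_all_d (c : CFD S D) (x : X) (u : Ve D) : ∃ y, UAsym S x y ∧ c.lc x y = u := by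
  obtain ⟨ρ, hρ, hs⟩ := c.surj c.ε₀ c.geo.pos
  obtain ⟨m, hm⟩ := pow_unbounded_of_one_lt (‖u‖ / ρ) (by norm_num : (1 : ℝ) < 16)
  have hx : S.g^[m] (S.g.symm^[m] x) = x := iter_iter_symm S m x
  set x' := S.g.symm^[m] x with hx'
  have hL := c.Lp_ge m x'
  have hLp := c.Lp_pos m x'
  obtain ⟨i1, -, i3⟩ := (c.Lp_conf m x').inverse_apply (norm_pos_iff.1 hLp) u
  have hv : ‖(c.Lp m x').inverse u‖ ≤ ρ := by
    rw [i3, inv_mul_eq_div, div_le_iff₀ hLp]
    rw [div_lt_iff₀ hρ] at hm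
    nlinarith
  obtain ⟨z, hz, hzl⟩ := hs x' _ hv
  have hza := c.geo.uasym x' z hz
  refine ⟨S.g^[m] z, ?_, ?_⟩
  · have := hza.iter m
    rwa [hx] at this
  · have := c.lc_iter hza m
    rw [hx, hzl, i1] at this
    exact this

/-- A time at which the disc at `x` has a given size. -/
theorem pick_k_d (c : CFD S D) (x : X) (t : ℝ) (ht : 0 < t) (ht1 : t ≤ 1) :
    ∃ k : ℕ, t ≤ frD c k x ∧ frD c k x ≤ c.M * t ∧ (16 : ℝ) ^ k ≤ 1 / t := by
  classical
  have hex : ∃ n, frD c n x < t := by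
    obtain ⟨m, hm⟩ := pow_unbounded_of_one_lt t⁻¹ (by norm_num : (1 : ℝ) < 16)
    refine ⟨m, ?_⟩
    unfold frD
    have hL := c.Lp_ge m x
    rw [inv_lt_comm₀ (c.Lp_pos m x) ht]
    linarith
  have h0 : frD c 0 x = 1 := by
    show ‖ContinuousLinearMap.id ℝ (Ve D)‖⁻¹ = 1
    rw [c.N00_norm_id, inv_one]
  have hn0 : Nat.find hex ≠ 0 := by
    intro h
    have := Nat.find_spec hex
    rw [h, h0] at this
    linarith
  obtain ⟨k, hk⟩ := Nat.exists_eq_succ_of_ne_zero hn0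
  have h1 : t ≤ frD c k x := by
    by_contra hcon
    push Not at hcon
    have := Nat.find_min' hex hcon
    omega
  have h2 : frD c (k + 1) x < t := by
    have := Nat.find_spec hex
    rwa [hk] at this
  have hlam : 0 < ‖c.lam (S.g^[k] x)‖ := lt_of_lt_of_le (by norm_num) (c.lam_ge _)
  refine ⟨k, h1, ?_, ?_⟩
  · have h3 : frD c k x = ‖c.lam (S.g^[k] x)‖ * frD c (k + 1) x := by
      unfold frD
      rw [c.N00_Lp_succ, mul_inv, ← mul_assoc, mul_inv_cancel₀ hlam.ne', one_mul]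
    rw [h3]
    have h4 : 0 ≤ frD c (k + 1) x := by
      unfold frD; positivity
    calc ‖c.lam (S.g^[k] x)‖ * frD c (k + 1) x ≤ c.M * frD c (k + 1) x :=
          mul_le_mul_of_nonneg_right (c.lam_le _) h4
      _ ≤ c.M * t := mul_le_mul_of_nonneg_left h2.le (le_trans zero_le_one c.one_le_M)
  · have h5 := c.Lp_ge k x
    refine h5.trans ?_
    unfold frD at h1
    rw [one_div]
    rwa [le_inv_comm₀ ht (c.Lp_pos k x)] at h1

/-- Separation in terms of flat radii. -/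
theorem lc_sep_d (c : CFD S D) {p q q' : X} (h : UAsym S p q) (h' : UAsym S p q')
    (n : ℕ) : ‖c.lc (S.g^[n] q) (S.g^[n] q')‖ * (frD c n q / ‖c.tau p q‖) =
      ‖c.lc p q - c.lc p q'‖ := by
  have h1 := c.lc_iter (h.symm.trans h') n
  have h2 := c.base p q q' h h'
  have h3 := (c.Lp_pos n q).ne'
  have h4 : ‖c.tau p q‖ ≠ 0 := (c.tau_pos h).ne'
  rw [h1, h2, c.Lp_conf n q, c.tau_conf p q h, frD, norm_sub_rev (c.lc p q')]
  field_simp

/-- Flat radii and iteration. -/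
theorem flat_iter_d (c : CFD S D) {p q : X} (h : UAsym S p q) (m n : ℕ) :
    frD c n (S.g^[m] q) / ‖c.tau (S.g^[m] p) (S.g^[m] q)‖ =
      ‖c.Lp m p‖ * (frD c (n + m) q / ‖c.tau p q‖) := by
  have h1 := c.norm_Lp_add n m q
  have h2 := c.norm_tau_iter h m
  have h3 := (c.Lp_pos n (S.g^[m] q)).ne'
  have h4 : ‖c.tau p q‖ ≠ 0 := (c.tau_pos h).ne'
  have h5 := (c.Lp_pos m q).ne'
  have h6 := (c.Lp_pos m p).ne'
  have h7 : ‖c.tau (S.g^[m] p) (S.g^[m] q)‖ ≠ 0 := (c.tau_pos (h.iter m)).ne'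
  unfold frD
  rw [h1, mul_inv]
  field_simp
  linear_combination -h2

/-- Packing in the model space. -/
theorem packing_d (hD : 1 ≤ D) {Y : Type*} (Z : Finset Y) (f : Y → Ve D) (a : Ve D) (ρ r : ℝ)
    (hρ : 0 ≤ ρ) (hr : 0 < r) (h1 : ∀ x ∈ Z, ‖f x - a‖ ≤ ρ)
    (h2 : ∀ x ∈ Z, ∀ x' ∈ Z, x ≠ x' → r ≤ ‖f x - f x'‖) :
    (Z.card : ℝ) ≤ (2 * ρ / r + 1) ^ D := by
  have := N00_nt hD
  have hsub : (⋃ x ∈ Z, Metric.ball (f x) (r / 2)) ⊆ Metric.ball a (ρ + r / 2) := by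
    intro y hy
    simp only [Set.mem_iUnion] at hy
    obtain ⟨x, hx, hy⟩ := hy
    rw [Metric.mem_ball] at hy ⊢
    have := h1 x hx
    rw [← dist_eq_norm] at this
    calc dist y a ≤ dist y (f x) + dist (f x) a := dist_triangle _ _ _
      _ < r / 2 + ρ := by linarith
      _ = ρ + r / 2 := by ring
  have hdisj : (Z : Set Y).PairwiseDisjoint (fun x => Metric.ball (f x) (r / 2)) := by
    intro x hx x' hx' hne
    apply Metric.ball_disjoint_ball
    rw [dist_eq_norm]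
    have := h2 x hx x' hx' hne
    linarith
  have hvol : volume (⋃ x ∈ Z, Metric.ball (f x) (r / 2)) =
      ∑ x ∈ Z, volume (Metric.ball (f x) (r / 2)) :=
    measure_biUnion_finset hdisj (fun _ _ => measurableSet_ball)
  have h3 := measure_mono (μ := volume) hsub
  rw [hvol] at h3
  have hb : ∀ (x : Ve D) (s : ℝ), 0 < s → volume (Metric.ball x s) =
      ENNReal.ofReal (s ^ D) * volume (Metric.ball (0 : Ve D) 1) := by
    intro x s hs
    have := Measure.addHaar_ball_of_pos (μ := (volume : Measure (Ve D))) x hs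
    rwa [finrank_euclideanSpace_fin] at this
  rw [hb a _ (by linarith), Finset.sum_congr rfl (fun x _ => hb (f x) _ (by linarith)),
    Finset.sum_const, nsmul_eq_mul, ← mul_assoc] at h3
  have hne0 : volume (Metric.ball (0 : Ve D) 1) ≠ 0 :=
    (Metric.measure_ball_pos volume (0 : Ve D) one_pos).ne'
  have hnet : volume (Metric.ball (0 : Ve D) 1) ≠ ⊤ := measure_ball_lt_top.ne
  have h4 := (ENNReal.mul_le_mul_iff_left hne0 hnet).1 h3
  have h5 : (Z.card : ℝ) * (r / 2) ^ D ≤ (ρ + r / 2) ^ D := by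
    have h6 := ENNReal.toReal_mono ENNReal.ofReal_ne_top h4
    rw [ENNReal.toReal_mul, ENNReal.toReal_natCast, ENNReal.toReal_ofReal (by positivity),
      ENNReal.toReal_ofReal (by positivity)] at h6
    exact h6
  have h7 : (2 * ρ / r + 1) ^ D = (ρ + r / 2) ^ D / (r / 2) ^ D := by
    rw [← div_pow]
    congr 1
    field_simp
  rw [h7, le_div_iff₀ (by positivity)]
  exact h5

end Pool.Agent.H779R2.Nu
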