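import Pool.Agent.H779R2.Nu.NDef
import Pool.Agent.H779R2.An.CD

set_option autoImplicit false

namespace Pool.Agent.H779R2.Nu

open Pool.Agent.H721R2 Pool.Agent.H779R2.An Pool.Agent.H779R2.Li Filter Topology MeasureTheory
open scoped BigOperators

variable {X E : Type*} [MetricSpace X] [CompactSpace X] [NormedAddCommGroup E]
  [InnerProductSpace ℝ E] [FiniteDimensional ℝ E]

variable {S : HypSys X E} {D : ℕ}

/-- Uniform version of `cd`. -/
theorem cd_unif (F : Flat S) : ∃ ε > 0, ∀ η > 0, ∃ ρ > 0, ∀ w w' q q', S.SRel ε w w' →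
    S.URel ε w q → ‖F.Lc w q‖ ≤ ρ → S.SRel ε q q' → S.URel ε w' q' →
    ‖F.Lc w' q' - F.H w w' (F.Lc w q)‖ ≤ η * ‖F.Lc w q‖ := by
  have hε0 := F.geo.pos
  set ε₀ := F.ε₀ with hε₀def
  have hL1 := S.one_le_Lu
  set L := S.Lu with hLdef
  have hL0 : 0 < L := by linarith
  refine ⟨ε₀ / 8, by positivity, fun η hη => ?_⟩
  -- constants
  set K₁ := |F.K| + 1 with hK₁
  have hK₁0 : 0 < K₁ := by positivity
  set η₁ := min 1 (η / (36 * K₁)) with hη₁
  have hη₁0 : 0 < η₁ := lt_min one_pos (by positivity)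
  have hη₁1 : η₁ ≤ 1 := min_le_left _ _
  have hη₁2 : 36 * K₁ * η₁ ≤ η := by
    have : η₁ ≤ η / (36 * K₁) := min_le_right _ _
    rw [le_div_iff₀ (by positivity)] at this
    linarith
  obtain ⟨εL, hεL, hLc⟩ := F.Lc_near η₁ hη₁0
  obtain ⟨εH, hεH, hH⟩ := F.H_near η₁ hη₁0
  obtain ⟨ρs, hρs, hsm⟩ := F.small (min (ε₀ / 4) εL) (lt_min (by positivity) hεL)
  set ρ₁ := min ρs (εL / 4) with hρ₁
  have hρ₁0 : 0 < ρ₁ := lt_min hρs (by positivity)
  have hρ₁s : ρ₁ ≤ ρs := min_le_left _ _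
  have hρ₁L : ρ₁ ≤ εL / 4 := min_le_right _ _
  -- N
  have hlim : Tendsto (fun n : ℕ => (1 / 8 : ℝ) ^ n * ε₀) atTop (𝓝 0) := by
    have := (tendsto_pow_atTop_nhds_zero_of_lt_one (by norm_num : (0 : ℝ) ≤ 1 / 8)
      (by norm_num)).mul_const ε₀
    simpa using this
  have hpos : 0 < min (η₁ * (ρ₁ / L)) εH := lt_min (by positivity) hεH
  obtain ⟨N, hN⟩ := (Metric.tendsto_atTop.mp hlim) _ hpos
  have hN' : ∀ n, N ≤ n → (1 / 8 : ℝ) ^ n * ε₀ ≤ η₁ * (ρ₁ / L) ∧ (1 / 8 : ℝ) ^ n * ε₀ ≤ εH := by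
    intro n hn
    have h1 := hN n hn
    rw [Real.dist_eq, sub_zero, abs_of_nonneg (by positivity)] at h1
    exact ⟨h1.le.trans (min_le_left _ _), h1.le.trans (min_le_right _ _)⟩
  have hLN : 0 < L ^ N := by positivity
  refine ⟨ρ₁ / L ^ N, by positivity, fun w w' q q' hww hwq ha hqq hwq' => ?_⟩
  set a := F.Lc w q with hadef
  have hUwq : UAsym S w q := F.geo.uasym _ _ (hwq.mono (by linarith))
  have hUwq' : UAsym S w' q' := F.geo.uasym _ _ (hwq'.mono (by linarith))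
  have hSww : SAsym S w w' := F.geo.sasym _ _ (hww.mono (by linarith))
  have hSqq : SAsym S q q' := F.geo.sasym _ _ (hqq.mono (by linarith))
  have haV : a ∈ S.Vu w := F.Lc_mem _ _ hUwq
  have hHa : F.H w w' a ∈ S.Vu w' := F.H_mem _ _ hSww _ haV
  have hLc' : F.Lc w' q' ∈ S.Vu w' := F.Lc_mem _ _ hUwq'
  set δ := F.Lc w' q' - F.H w w' a with hδ
  have hδV : δ ∈ S.Vu w' := Submodule.sub_mem _ hLc' hHa
  by_cases ha0 : a = 0
  · have h1 : w = q := by
      apply F.inj w w q (UAsym.refl S w) hUwq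
      rw [F.Lc_self w]
      exact ha0.symm
    subst h1
    have h2 : w' = q' := by
      apply F.geo.uniq w' q'
      · have := hww.symm.trans hqq
        exact this.mono (by linarith)
      · exact hwq'.mono (by linarith)
    have h3 : δ = 0 := by
      rw [hδ, ha0, map_zero, sub_zero, ← h2, F.Lc_self]
    rw [h3, norm_zero]
    positivity
  have hapos : 0 < ‖a‖ := norm_pos_iff.mpr ha0
  -- existence of n
  have hex : ∃ n : ℕ, ρ₁ < ‖Dn S (n + 1) w a‖ := by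
    obtain ⟨k, hk⟩ := pow_unbounded_of_one_lt (ρ₁ / ‖a‖) (by norm_num : (1 : ℝ) < 16)
    refine ⟨k, ?_⟩
    have h1 := le_Dn S (k + 1) w haV
    rw [div_lt_iff₀ hapos] at hk
    have h2 : (16 : ℝ) ^ k * ‖a‖ ≤ 16 ^ (k + 1) * ‖a‖ := by
      apply mul_le_mul_of_nonneg_right _ hapos.le
      exact pow_le_pow_right₀ (by norm_num) (by omega)
    linarith
  classical
  let n := Nat.find hex
  have hn1 : ρ₁ < ‖Dn S (n + 1) w a‖ := Nat.find_spec hex
  have hnN : N ≤ n := by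
    by_contra hcon
    push Not at hcon
    have h1 := Dn_le S (n + 1) w haV
    have h2 : L ^ (n + 1) ≤ L ^ N := pow_le_pow_right₀ hL1 (by omega)
    have h3 : L ^ (n + 1) * ‖a‖ ≤ L ^ N * ‖a‖ := mul_le_mul_of_nonneg_right h2 hapos.le
    have h4 : L ^ N * ‖a‖ ≤ ρ₁ := by
      rw [le_div_iff₀ hLN] at ha
      linarith
    have h5 : ‖Dn S (n + 1) w a‖ ≤ L ^ (n + 1) * ‖a‖ := h1
    linarith
  have hn0 : ‖Dn S n w a‖ ≤ ρ₁ := by
    rcases Nat.eq_zero_or_pos n with h | h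
    · rw [h]
      have h1 : (1 : ℝ) ≤ L ^ N := one_le_pow₀ hL1
      have h2 : ρ₁ / L ^ N ≤ ρ₁ := div_le_self hρ₁0.le h1
      exact ha.trans h2
    · obtain ⟨m, hm⟩ := Nat.exists_eq_succ_of_ne_zero h.ne'
      have h1 : ¬ ρ₁ < ‖Dn S (m + 1) w a‖ := Nat.find_min hex (by omega)
      rw [hm]
      exact not_lt.mp h1
  set A := ‖Dn S n w a‖ with hA
  have hA1 : ρ₁ / L ≤ A := by
    have h1 : ‖Dn S (n + 1) w a‖ ≤ L * A := S.boundU _ _ (Dn_mem S n w haV)
    rw [div_le_iff₀ hL0]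
    linarith
  have hA0 : 0 < A := lt_of_lt_of_le (by positivity) hA1
  obtain ⟨ht1, ht2⟩ := hN' n hnN
  set t := (1 / 8 : ℝ) ^ n * ε₀ with ht
  have ht0 : 0 ≤ t := by positivity
  have ht3 : t ≤ η₁ * A := ht1.trans (mul_le_mul_of_nonneg_left hA1 hη₁0.le)
  have hη₁A : η₁ * A ≤ A := by
    have := mul_le_mul_of_nonneg_right hη₁1 hA0.le
    linarith
  -- points at time n
  set x := S.g^[n] w with hx
  set y := S.g^[n] q with hy
  set x' := S.g^[n] w' with hx'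
  set y' := S.g^[n] q' with hy'
  have hUxy : UAsym S x y := hUwq.iter n
  have hSxx : SAsym S x x' := hSww.iter n
  have hLcxy : F.Lc x y = Dn S n w a := F.toLin0.Lc_iter hUwq n
  have hLcxy' : F.Lc x' y' = Dn S n w' (F.Lc w' q') := F.toLin0.Lc_iter hUwq' n
  have hHxx : F.H x x' (Dn S n w a) = Dn S n w' (F.H w w' a) := F.toLin0.H_iter hSww n haV
  have hLcA : ‖F.Lc x y‖ = A := by rw [hLcxy]
  have hUR : S.URel (min (ε₀ / 4) εL) x y := hsm x y hUxy (by rw [hLcA]; linarith)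
  have hUR0 : S.URel ε₀ x y := hUR.mono ((min_le_left _ _).trans (by linarith))
  have hURL : S.URel εL x y := hUR.mono (min_le_right _ _)
  have hdxy : dist x y ≤ 2 * A := by
    have := F.dist_le x y hUR0
    rwa [hLcA] at this
  have hww0 : S.SRel ε₀ w w' := hww.mono (by linarith)
  have hqq0 : S.SRel ε₀ q q' := hqq.mono (by linarith)
  have hdxx : dist x x' ≤ t := by
    have h1 := F.geo.scontr w w' hww0 n
    have h2 : (1 / 8 : ℝ) ^ n * dist w w' ≤ (1 / 8 : ℝ) ^ n * ε₀ :=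
      mul_le_mul_of_nonneg_left hww0.dist_le (by positivity)
    exact h1.trans h2
  have hdyy : dist y y' ≤ t := by
    have h1 := F.geo.scontr q q' hqq0 n
    have h2 : (1 / 8 : ℝ) ^ n * dist q q' ≤ (1 / 8 : ℝ) ^ n * ε₀ :=
      mul_le_mul_of_nonneg_left hqq0.dist_le (by positivity)
    exact h1.trans h2
  have hUR' : S.URel ε₀ x' y' := by
    intro j
    rcases le_total j n with hj | hj
    · have h1 : dist (S.g.symm^[j] x) (S.g.symm^[j] x') ≤ ε₀ / 8 := by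
        rw [hx, hx', symm_iter_iter_le S hj, symm_iter_iter_le S hj]
        exact hww _
      have h2 : dist (S.g.symm^[j] y) (S.g.symm^[j] y') ≤ ε₀ / 8 := by
        rw [hy, hy', symm_iter_iter_le S hj, symm_iter_iter_le S hj]
        exact hqq _
      have h3 : dist (S.g.symm^[j] x) (S.g.symm^[j] y) ≤ ε₀ / 4 := (hUR j).trans (min_le_left _ _)
      have h4 := dist_triangle4 (S.g.symm^[j] x') (S.g.symm^[j] x) (S.g.symm^[j] y)
        (S.g.symm^[j] y')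
      rw [dist_comm (S.g.symm^[j] x') (S.g.symm^[j] x)] at h4
      linarith
    · rw [hx', hy', symm_iter_iter_ge S hj, symm_iter_iter_ge S hj]
      exact (hwq' _).trans (by linarith)
  have hdxy' : dist x' y' ≤ 4 * A := by
    have h4 := dist_triangle4 x' x y y'
    rw [dist_comm x' x] at h4
    linarith
  have hURL' : S.URel εL x' y' := (F.geo.URel_dist hUR').mono (by linarith)
  -- estimates
  have e1 : ‖F.Lc x' y' - (S.e y' - S.e x')‖ ≤ 4 * (η₁ * A) := by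
    have h1 := hLc x' y' hURL'
    have h2 : η₁ * dist x' y' ≤ η₁ * (4 * A) := mul_le_mul_of_nonneg_left hdxy' hη₁0.le
    linarith
  have e2 : ‖F.Lc x y - (S.e y - S.e x)‖ ≤ 2 * (η₁ * A) := by
    have h1 := hLc x y hURL
    have h2 : η₁ * dist x y ≤ η₁ * (2 * A) := mul_le_mul_of_nonneg_left hdxy hη₁0.le
    linarith
  have e3 : ‖F.H x x' (F.Lc x y) - F.Lc x y‖ ≤ η₁ * A := by
    have h1 : S.SRel εH x x' := by
      have := F.geo.SRel_dist (x := x) (y := x') (hww0.iter n)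
      exact this.mono (hdxx.trans ht2)
    have h2 := hH x x' h1 (F.Lc x y) (F.Lc_mem _ _ hUxy)
    rwa [hLcA] at h2
  have e4 : ‖S.e x - S.e x'‖ ≤ η₁ * A := by
    rw [← S.isom]; exact hdxx.trans ht3
  have e5 : ‖S.e y - S.e y'‖ ≤ η₁ * A := by
    rw [← S.isom]; exact hdyy.trans ht3
  have e6 : ‖F.Lc x' y' - F.H x x' (F.Lc x y)‖ ≤ 9 * (η₁ * A) := by
    have key : F.Lc x' y' - F.H x x' (F.Lc x y) =
        (F.Lc x' y' - (S.e y' - S.e x')) - (F.Lc x y - (S.e y - S.e x))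
        - (F.H x x' (F.Lc x y) - F.Lc x y) + (S.e x - S.e x') - (S.e y - S.e y') := by
      abel
    rw [key]
    have n1 := norm_sub_le ((F.Lc x' y' - (S.e y' - S.e x')) - (F.Lc x y - (S.e y - S.e x))
        - (F.H x x' (F.Lc x y) - F.Lc x y) + (S.e x - S.e x')) (S.e y - S.e y')
    have n2 := norm_add_le ((F.Lc x' y' - (S.e y' - S.e x')) - (F.Lc x y - (S.e y - S.e x))
        - (F.H x x' (F.Lc x y) - F.Lc x y)) (S.e x - S.e x')
    have n3 := norm_sub_le ((F.Lc x' y' - (S.e y' - S.e x')) - (F.Lc x y - (S.e y - S.e x)))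
        (F.H x x' (F.Lc x y) - F.Lc x y)
    have n4 := norm_sub_le (F.Lc x' y' - (S.e y' - S.e x')) (F.Lc x y - (S.e y - S.e x))
    linarith
  have e7 : Dn S n w' δ = F.Lc x' y' - F.H x x' (F.Lc x y) := by
    rw [hδ, map_sub, ← hLcxy', ← hHxx, hLcxy]
  have e8 : A ≤ 2 * ‖Dn S n w' (F.H w w' a)‖ := by
    rw [← hHxx]
    exact F.le_H x x' (hww0.iter n) _ (Dn_mem S n w haV)
  have e9 : ‖F.H w w' a‖ ≤ 2 * ‖a‖ := F.H_le w w' hww0 a haV
  have e10 := F.qc n w' _ hHa _ hδV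
  rw [e7] at e10
  have e11 : F.K * (‖F.Lc x' y' - F.H x x' (F.Lc x y)‖ * ‖F.H w w' a‖) ≤
      K₁ * ((9 * (η₁ * A)) * (2 * ‖a‖)) := by
    have h1 : F.K ≤ K₁ := by
      have := le_abs_self F.K
      linarith
    have h2 : ‖F.Lc x' y' - F.H x x' (F.Lc x y)‖ * ‖F.H w w' a‖ ≤ (9 * (η₁ * A)) * (2 * ‖a‖) :=
      mul_le_mul e6 e9 (norm_nonneg _) (by positivity)
    calc _ ≤ K₁ * (‖F.Lc x' y' - F.H x x' (F.Lc x y)‖ * ‖F.H w w' a‖) :=
          mul_le_mul_of_nonneg_right h1 (by positivity)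
      _ ≤ _ := mul_le_mul_of_nonneg_left h2 hK₁0.le
  have e12 : A * ‖δ‖ ≤ A * (η * ‖a‖) := by
    have h1 : A * ‖δ‖ ≤ 2 * ‖Dn S n w' (F.H w w' a)‖ * ‖δ‖ :=
      mul_le_mul_of_nonneg_right e8 (norm_nonneg _)
    have h2 : 36 * K₁ * η₁ * (A * ‖a‖) ≤ η * (A * ‖a‖) :=
      mul_le_mul_of_nonneg_right hη₁2 (by positivity)
    have h3 : K₁ * ((9 * (η₁ * A)) * (2 * ‖a‖)) = 36 * K₁ * η₁ * (A * ‖a‖) / 2 := by ring
    have h4 : A * (η * ‖a‖) = η * (A * ‖a‖) := by ring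
    rw [h4]
    rw [h3] at e11
    linarith
  exact le_of_mul_le_mul_left e12 hA0

end Pool.Agent.H779R2.Nu
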