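import Pool.Agent.H779R2.Nu.N01
import Pool.Agent.H779R2.Nu.N02
import Pool.Agent.H779R2.An.CCF
import Pool.Agent.H779R2.Li.V2

set_option autoImplicit false

namespace Pool.Agent.H779R2.Nu

open Pool.Agent.H721R2 Pool.Agent.H779R2.An Pool.Agent.H779R2.Li Filter Topology MeasureTheory
open scoped BigOperators

variable {X E : Type*} [MetricSpace X] [CompactSpace X] [NormedAddCommGroup E]
  [InnerProductSpace ℝ E] [FiniteDimensional ℝ E]

variable {S : HypSys X E} {D : ℕ}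

/-- Coordinates in which the conformal structure becomes the Euclidean one. -/
structure N03Cor (B₀ : CS0 S) (D : ℕ) where
  vec : X → Ve D →ₗ[ℝ] E
  co : X → E →ₗ[ℝ] Ve D
  m : X → ℝ
  K : ℝ
  one_le_K : 1 ≤ K
  m_pos : ∀ x, 0 < m x
  vec_mem : ∀ x u, vec x u ∈ S.Vu x
  co_vec : ∀ x u, co x (vec x u) = u
  vec_co : ∀ x, ∀ v ∈ S.Vu x, vec x (co x v) = v
  norm_sq : ∀ x, ∀ v ∈ S.Vu x, m x * ‖co x v‖ ^ 2 = B₀.B x v v
  le_co : ∀ x, ∀ v ∈ S.Vu x, ‖v‖ ≤ ‖co x v‖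
  co_le : ∀ x, ∀ v ∈ S.Vu x, ‖co x v‖ ≤ K * ‖v‖
  ex : ∀ x, ∃ v ∈ S.Vu x, v ≠ 0 ∧ ‖co x v‖ = ‖v‖

namespace N03

theorem upper (B₀ : CS0 S) : ∃ C > 0, ∀ x, ∀ v ∈ S.Vu x, B₀.B x v v ≤ C * ‖v‖ ^ 2 := by
  obtain ⟨r, hr, h⟩ := B₀.cont 1 one_pos
  refine ⟨1 / (2 * r + r ^ 2), by positivity, fun x v hv => ?_⟩
  have h1 := h x x (by simpa using hr) v hv ((1 + r) • v) (Submodule.smul_mem _ _ hv) (by
    have : v - (1 + r) • v = -(r • v) := by module
    rw [this, norm_neg, norm_smul, Real.norm_of_nonneg hr.le])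
  rw [map_smul, map_smul, LinearMap.smul_apply, smul_eq_mul, smul_eq_mul, one_mul] at h1
  have h2 := (abs_le.1 h1).1
  have h3 : 0 < 2 * r + r ^ 2 := by positivity
  rw [div_mul_eq_mul_div, one_mul, le_div_iff₀ h3]
  nlinarith

theorem cont_B (B₀ : CS0 S) (x : X) : Continuous fun v : E => B₀.B x v v := by
  let Bc : E →L[ℝ] E →L[ℝ] ℝ := LinearMap.toContinuousLinearMap
    ((LinearMap.toContinuousLinearMap : (E →ₗ[ℝ] ℝ) ≃ₗ[ℝ] (E →L[ℝ] ℝ)).toLinearMap ∘ₗ B₀.B x)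
  have h : Continuous fun v : E => Bc v v := Bc.continuous.clm_apply continuous_id
  exact h

theorem exists_min (B₀ : CS0 S) (x : X) (h : 0 < Module.finrank ℝ (S.Vu x)) :
    ∃ v ∈ S.Vu x, ‖v‖ = 1 ∧ 0 < B₀.B x v v ∧ ∀ w ∈ S.Vu x, B₀.B x v v * ‖w‖ ^ 2 ≤ B₀.B x w w := by
  obtain ⟨w, hw⟩ := (Module.finrank_pos_iff_exists_ne_zero).1 h
  have hw0 : (w : E) ≠ 0 := fun h => hw (Subtype.ext h)
  have hwn : 0 < ‖(w : E)‖ := norm_pos_iff.2 hw0
  have hcl : IsClosed (S.Vu x : Set E) := (S.Vu x).closed_of_finiteDimensional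
  have hK : IsCompact (Metric.sphere (0 : E) 1 ∩ (S.Vu x : Set E)) :=
    (isCompact_sphere (0 : E) 1).inter_right hcl
  have hne : (Metric.sphere (0 : E) 1 ∩ (S.Vu x : Set E)).Nonempty := by
    refine ⟨‖(w : E)‖⁻¹ • (w : E), ?_, (S.Vu x).smul_mem _ w.2⟩
    rw [mem_sphere_zero_iff_norm, norm_smul, norm_inv, norm_norm, inv_mul_cancel₀ hwn.ne']
  obtain ⟨v, hv, hmin⟩ := hK.exists_isMinOn hne (cont_B B₀ x).continuousOn
  have hv1 : ‖v‖ = 1 := mem_sphere_zero_iff_norm.1 hv.1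
  have hv0 : v ≠ 0 := fun h0 => by rw [h0, norm_zero] at hv1; exact zero_ne_one hv1
  refine ⟨v, hv.2, hv1, B₀.pos x v hv.2 hv0, fun u hu => ?_⟩
  rcases eq_or_ne u 0 with rfl | hu0
  · simp
  · have hun : 0 < ‖u‖ := norm_pos_iff.2 hu0
    have h1 : B₀.B x v v ≤ B₀.B x (‖u‖⁻¹ • u) (‖u‖⁻¹ • u) :=
      hmin (show ‖u‖⁻¹ • u ∈ Metric.sphere (0 : E) 1 ∩ (S.Vu x : Set E) from
      ⟨by rw [mem_sphere_zero_iff_norm, norm_smul, norm_inv, norm_norm, inv_mul_cancel₀ hun.ne'],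
        (S.Vu x).smul_mem _ hu⟩)
    simp only [map_smul, LinearMap.smul_apply, smul_eq_mul] at h1
    have h2 : B₀.B x u u = ‖u‖ ^ 2 * (‖u‖⁻¹ * (‖u‖⁻¹ * B₀.B x u u)) := by
      field_simp
    rw [h2, mul_comm]
    exact mul_le_mul_of_nonneg_left h1 (by positivity)

theorem lower (B₀ : CS0 S) (h2 : ∀ x, 0 < Module.finrank ℝ (S.Vu x)) :
    ∃ c > 0, ∀ x, ∀ v ∈ S.Vu x, c * ‖v‖ ^ 2 ≤ B₀.B x v v := by
  have hloc : ∀ x : X, ∃ t ∈ 𝓝 x, ∃ c > 0, ∀ y ∈ t, ∀ v ∈ S.Vu y, c * ‖v‖ ^ 2 ≤ B₀.B y v v := by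
    intro x
    obtain ⟨w, hw, hw1, hpos, hmin⟩ := exists_min B₀ x (h2 x)
    set m := B₀.B x w w with hm
    obtain ⟨r, hr, hc⟩ := B₀.cont (m / 8) (by positivity)
    obtain ⟨r', hr', hA⟩ := S.A3' (min r (1 / 2)) (lt_min hr (by norm_num))
    refine ⟨Metric.ball x (min r r'), Metric.ball_mem_nhds x (lt_min hr hr'), m / 8,
      by positivity, fun y hy v hv => ?_⟩
    rw [Metric.mem_ball, lt_min_iff] at hy
    obtain ⟨u, hu, huv⟩ := hA y x hy.2 v hv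
    have h3 : ‖v - u‖ ≤ r * ‖v‖ :=
      huv.trans (mul_le_mul_of_nonneg_right (min_le_left _ _) (norm_nonneg _))
    have h4 : ‖v - u‖ ≤ 1 / 2 * ‖v‖ :=
      huv.trans (mul_le_mul_of_nonneg_right (min_le_right _ _) (norm_nonneg _))
    have h5 := (abs_le.1 (hc y x hy.1 v hv u hu h3)).1
    have h6 : ‖v‖ / 2 ≤ ‖u‖ := by
      have := norm_sub_norm_le v u
      linarith
    have h7 : (‖v‖ / 2) ^ 2 ≤ ‖u‖ ^ 2 := pow_le_pow_left₀ (by positivity) h6 2
    have h8 := hmin u hu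
    have h9 := mul_le_mul_of_nonneg_left h7 hpos.le
    nlinarith
  choose t ht c hc hB using hloc
  rcases isEmpty_or_nonempty X with hX | hX
  · exact ⟨1, one_pos, fun x => hX.elim x⟩
  · obtain ⟨s, hs⟩ := (isCompact_univ : IsCompact (Set.univ : Set X)).elim_nhds_subcover t
      (fun x _ => ht x)
    have hsne : s.Nonempty := by
      obtain ⟨x⟩ := hX
      obtain ⟨y, hy, -⟩ := Set.mem_iUnion₂.1 (hs.2 (Set.mem_univ x))
      exact ⟨y, hy⟩
    refine ⟨s.inf' hsne c, (Finset.lt_inf'_iff hsne).2 fun i _ => hc i, fun x v hv => ?_⟩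
    obtain ⟨y, hy, hxy⟩ := Set.mem_iUnion₂.1 (hs.2 (Set.mem_univ x))
    exact (mul_le_mul_of_nonneg_right (Finset.inf'_le c hy) (by positivity)).trans
      (hB y x hxy v hv)

/-- Orthonormal coordinates for a positive definite form. -/
theorem exists_iso {V : Type*} [AddCommGroup V] [Module ℝ V] [FiniteDimensional ℝ V]
    (b : V →ₗ[ℝ] V →ₗ[ℝ] ℝ) (hs : ∀ v w, b v w = b w v) (hp : ∀ v, v ≠ 0 → 0 < b v v) {D : ℕ}
    (hd : Module.finrank ℝ V = D) : ∃ e : Ve D ≃ₗ[ℝ] V, ∀ u, b (e u) (e u) = ‖u‖ ^ 2 := by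
  let core : InnerProductSpace.Core ℝ V :=
    { inner := fun v w => b v w
      conj_inner_symm := fun v w => by simp [hs v w]
      re_inner_nonneg := fun v => by
        rcases eq_or_ne v 0 with rfl | hv
        · simp
        · simpa using (hp v hv).le
      add_left := fun u v w => by simp
      smul_left := fun u v r => by simp
      definite := fun v hv => by
        by_contra h0
        exact (hp v h0).ne' hv }
  letI : NormedAddCommGroup V := core.toNormedAddCommGroup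
  letI : InnerProductSpace ℝ V := InnerProductSpace.ofCore core.toCore
  let β := (stdOrthonormalBasis ℝ V).reindex (finCongr hd)
  refine ⟨β.repr.symm.toLinearEquiv, fun u => ?_⟩
  have h1 : b (β.repr.symm u) (β.repr.symm u) = inner ℝ (β.repr.symm u) (β.repr.symm u) := rfl
  have h2 : ‖β.repr.symm u‖ = ‖u‖ := β.repr.symm.norm_map u
  show b (β.repr.symm u) (β.repr.symm u) = ‖u‖ ^ 2
  rw [h1, real_inner_self_eq_norm_sq, h2]

theorem exists_cor (B₀ : CS0 S) (hD : 0 < D) (h2 : ∀ x, Module.finrank ℝ (S.Vu x) = D) :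
    Nonempty (N03Cor B₀ D) := by
  obtain ⟨C, hC, hup⟩ := upper B₀
  obtain ⟨c, hc, hlo⟩ := lower B₀ (fun x => by rw [h2 x]; exact hD)
  have hmin := fun x => exists_min B₀ x (by rw [h2 x]; exact hD)
  choose w hw hw1 hwpos hwmin using hmin
  have hiso : ∀ x, ∃ e : Ve D ≃ₗ[ℝ] S.Vu x, ∀ u,
      (B₀.B x (w x) (w x))⁻¹ * B₀.B x (e u) (e u) = ‖u‖ ^ 2 := by
    intro x
    have hm := hwpos x
    let b : S.Vu x →ₗ[ℝ] S.Vu x →ₗ[ℝ] ℝ :=
      (B₀.B x (w x) (w x))⁻¹ • (B₀.B x).compl₁₂ (S.Vu x).subtype (S.Vu x).subtype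
    have hb : ∀ v u, b v u = (B₀.B x (w x) (w x))⁻¹ * B₀.B x v u := fun v u => rfl
    obtain ⟨e, he⟩ := exists_iso b
      (fun v u => by rw [hb, hb, B₀.symm x v v.2 u u.2])
      (fun v hv => by
        rw [hb]
        exact mul_pos (inv_pos.2 hm) (B₀.pos x v v.2 (fun h => hv (Subtype.ext h)))) (h2 x)
    exact ⟨e, fun u => by rw [← he u, hb]⟩
  choose e he using hiso
  have hproj : ∀ x, ∀ v (hv : v ∈ S.Vu x), (S.Vu x).orthogonalProjectionOnto v = ⟨v, hv⟩ :=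
    fun x v hv => Submodule.orthogonalProjectionOnto_mem_subspace_eq_self (⟨v, hv⟩ : S.Vu x)
  have hns : ∀ x, ∀ v (hv : v ∈ S.Vu x),
      ‖(e x).symm ⟨v, hv⟩‖ ^ 2 = (B₀.B x (w x) (w x))⁻¹ * B₀.B x v v := by
    intro x v hv
    have h1 := he x ((e x).symm ⟨v, hv⟩)
    rw [LinearEquiv.apply_symm_apply] at h1
    exact h1.symm
  have hKpos : 0 < C / c := div_pos hC hc
  refine ⟨⟨fun x => (S.Vu x).subtype ∘ₗ (e x).toLinearMap,
    fun x => (e x).symm.toLinearMap ∘ₗ ((S.Vu x).orthogonalProjectionOnto).toLinearMap,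
    fun x => B₀.B x (w x) (w x), 1 + C / c, by linarith, hwpos, ?_, ?_, ?_, ?_, ?_, ?_, ?_⟩⟩
  · intro x u
    exact (e x u).2
  · intro x u
    show (e x).symm ((S.Vu x).orthogonalProjectionOnto ((e x u : S.Vu x) : E)) = u
    rw [hproj x _ (e x u).2]
    exact (e x).symm_apply_apply u
  · intro x v hv
    show ((e x ((e x).symm ((S.Vu x).orthogonalProjectionOnto v)) : S.Vu x) : E) = v
    rw [hproj x v hv, LinearEquiv.apply_symm_apply]
  · intro x v hv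
    show B₀.B x (w x) (w x) * ‖(e x).symm ((S.Vu x).orthogonalProjectionOnto v)‖ ^ 2 = _
    rw [hproj x v hv, hns x v hv, mul_inv_cancel_left₀ (hwpos x).ne']
  · intro x v hv
    show ‖v‖ ≤ ‖(e x).symm ((S.Vu x).orthogonalProjectionOnto v)‖
    rw [hproj x v hv]
    refine le_of_sq_le_sq ?_ (norm_nonneg _)
    rw [hns x v hv, inv_mul_eq_div, le_div_iff₀ (hwpos x), mul_comm]
    exact hwmin x v hv
  · intro x v hv
    show ‖(e x).symm ((S.Vu x).orthogonalProjectionOnto v)‖ ≤ (1 + C / c) * ‖v‖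
    rw [hproj x v hv]
    refine le_of_sq_le_sq ?_ (by positivity)
    rw [hns x v hv, inv_mul_eq_div, div_le_iff₀ (hwpos x)]
    have h3 := hup x v hv
    have h4 := hlo x (w x) (hw x)
    rw [hw1 x] at h4
    have h5 : C ≤ (1 + C / c) ^ 2 * B₀.B x (w x) (w x) := by
      calc C = C / c * c := by field_simp
        _ ≤ (1 + C / c) ^ 2 * c := by
          refine mul_le_mul_of_nonneg_right ?_ hc.le
          nlinarith
        _ ≤ (1 + C / c) ^ 2 * B₀.B x (w x) (w x) :=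
          mul_le_mul_of_nonneg_left (by linarith) (by positivity)
    calc B₀.B x v v ≤ C * ‖v‖ ^ 2 := h3
      _ ≤ (1 + C / c) ^ 2 * B₀.B x (w x) (w x) * ‖v‖ ^ 2 :=
        mul_le_mul_of_nonneg_right h5 (by positivity)
      _ = ((1 + C / c) * ‖v‖) ^ 2 * B₀.B x (w x) (w x) := by ring
  · intro x
    refine ⟨w x, hw x, fun h0 => ?_, ?_⟩
    · have := hw1 x
      rw [h0, norm_zero] at this
      exact zero_ne_one this
    · show ‖(e x).symm ((S.Vu x).orthogonalProjectionOnto (w x))‖ = ‖w x‖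
      rw [hproj x _ (hw x)]
      have h3 := hns x (w x) (hw x)
      rw [inv_mul_cancel₀ (hwpos x).ne'] at h3
      rw [hw1 x]
      nlinarith [norm_nonneg ((e x).symm ⟨w x, hw x⟩)]

section mat

variable {B₀ : CS0 S} (R : N03Cor B₀ D)

/-- The matrix of a linear map. -/
noncomputable def mat (x y : X) (L : E →ₗ[ℝ] E) : Ve D →L[ℝ] Ve D :=
  LinearMap.toContinuousLinearMap (R.co y ∘ₗ L ∘ₗ R.vec x)

omit [CompactSpace X] [FiniteDimensional ℝ E] in
theorem mat_apply (x y : X) (L : E →ₗ[ℝ] E) (u : Ve D) : mat R x y L u = R.co y (L (R.vec x u)) :=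
  rfl

omit [CompactSpace X] [FiniteDimensional ℝ E] in
theorem mat_co (x y : X) (L : E →ₗ[ℝ] E) {v : E} (hv : v ∈ S.Vu x) :
    R.co y (L v) = mat R x y L (R.co x v) := by
  rw [mat_apply, R.vec_co x v hv]

omit [CompactSpace X] [FiniteDimensional ℝ E] in
theorem vec_mat (x y : X) (L : E →ₗ[ℝ] E) (hL : ∀ v ∈ S.Vu x, L v ∈ S.Vu y) (u : Ve D) :
    R.vec y (mat R x y L u) = L (R.vec x u) := by
  rw [mat_apply, R.vec_co y _ (hL _ (R.vec_mem x u))]

omit [CompactSpace X] [FiniteDimensional ℝ E] in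
theorem norm_vec_le (x : X) (u : Ve D) : ‖R.vec x u‖ ≤ ‖u‖ := by
  have := R.le_co x _ (R.vec_mem x u)
  rwa [R.co_vec] at this

omit [CompactSpace X] [FiniteDimensional ℝ E] in
theorem mat_norm_le (x y : X) (L : E →ₗ[ℝ] E) (hL : ∀ v ∈ S.Vu x, L v ∈ S.Vu y) (k : ℝ)
    (hk : 0 ≤ k) (hLk : ∀ v ∈ S.Vu x, ‖L v‖ ≤ k * ‖v‖) : ‖mat R x y L‖ ≤ R.K * k := by
  have hK : 0 ≤ R.K := by linarith [R.one_le_K]
  refine ContinuousLinearMap.opNorm_le_bound _ (mul_nonneg hK hk) fun u => ?_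
  rw [mat_apply]
  have hm := R.vec_mem x u
  calc ‖R.co y (L (R.vec x u))‖ ≤ R.K * ‖L (R.vec x u)‖ := R.co_le y _ (hL _ hm)
    _ ≤ R.K * (k * ‖R.vec x u‖) := mul_le_mul_of_nonneg_left (hLk _ hm) hK
    _ ≤ R.K * (k * ‖u‖) :=
      mul_le_mul_of_nonneg_left (mul_le_mul_of_nonneg_left (norm_vec_le R x u) hk) hK
    _ = R.K * k * ‖u‖ := by ring

theorem conf_of (A : Ve D →L[ℝ] Ve D) (c : ℝ) (hc : 0 ≤ c) (h : ∀ v, ‖A v‖ = c * ‖v‖) :
    Conf A := by
  intro v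
  rcases eq_or_ne v 0 with rfl | hv
  · simp
  · have hn : 0 < ‖v‖ := norm_pos_iff.2 hv
    have h1 : ‖A‖ ≤ c := A.opNorm_le_bound hc fun w => (h w).le
    have h2 : c ≤ ‖A‖ := by
      have h3 := A.le_opNorm v
      rw [h v] at h3
      exact le_of_mul_le_mul_right h3 hn
    rw [h v, le_antisymm h1 h2]

omit [CompactSpace X] [FiniteDimensional ℝ E] in
theorem mat_conf (x y : X) (L : E →ₗ[ℝ] E) (hL : ∀ v ∈ S.Vu x, L v ∈ S.Vu y)
    (hκ : ∃ κ > 0, ∀ v ∈ S.Vu x, B₀.B y (L v) (L v) = κ * B₀.B x v v) : Conf (mat R x y L) := by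
  obtain ⟨κ, hκ, h⟩ := hκ
  refine conf_of _ (Real.sqrt (κ * R.m x / R.m y)) (Real.sqrt_nonneg _) fun u => ?_
  have hm := R.vec_mem x u
  have h1 := R.norm_sq y _ (hL _ hm)
  have h2 := R.norm_sq x _ hm
  rw [h _ hm, ← h2, R.co_vec, ← mat_apply] at h1
  have hy := R.m_pos y
  have hx := R.m_pos x
  have h3 : ‖mat R x y L u‖ ^ 2 = κ * R.m x / R.m y * ‖u‖ ^ 2 := by
    field_simp
    linarith
  rw [← Real.sqrt_sq (norm_nonneg (mat R x y L u)), h3, Real.sqrt_mul (by positivity),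
    Real.sqrt_sq (norm_nonneg u)]

end mat

/-- The data. -/
noncomputable def mk {B₀ : CS0 S} (R : N03Cor B₀ D) (hD : 2 ≤ D) (F : Flat S)
    (hτ : ∀ x y, UAsym S x y → ∃ κ > 0, ∀ v ∈ S.Vu x,
      ∀ w ∈ S.Vu x, B₀.B y (F.τ x y v) (F.τ x y w) = κ * B₀.B x v w)
    (hH : ∀ x y, SAsym S x y → ∃ κ > 0, ∀ v ∈ S.Vu x,
      ∀ w ∈ S.Vu x, B₀.B y (F.H x y v) (F.H x y w) = κ * B₀.B x v w)
    (ε : ℝ) (hε : 0 < ε) (hε' : ε ≤ F.ε₀)
    (hCD : ∀ η > 0, ∃ ρ > 0, ∀ w w' q q', S.SRel ε w w' →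
      S.URel ε w q → ‖F.Lc w q‖ ≤ ρ → S.SRel ε q q' → S.URel ε w' q' →
      ‖F.Lc w' q' - F.H w w' (F.Lc w q)‖ ≤ η * ‖F.Lc w q‖) : CFD S D where
  hD := hD
  ε₀ := ε
  geo := F.geo.mono hε hε'
  M := R.K * (S.Lu + 2)
  one_le_M := by
    have h1 := R.one_le_K
    have h3 := S.one_le_Lu
    nlinarith
  lam := fun x => mat R x (S.g x) (S.D x)
  lc := fun x y => R.co x (F.Lc x y)
  tau := fun x y => mat R x y (F.τ x y)
  eta := fun x y => mat R x y (F.H x y)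
  lam_conf := fun x => mat_conf R x (S.g x) (S.D x) (S.mapU x)
    ⟨B₀.a x, B₀.a_pos x, fun v hv => B₀.conf x v hv v hv⟩
  lam_ge := fun x => by
    obtain ⟨v, hv, hv0, hvn⟩ := R.ex x
    have hn : 0 < ‖v‖ := norm_pos_iff.2 hv0
    have h1 : 16 * ‖v‖ ≤ ‖S.D x v‖ := by
      have := le_Dn S 1 x hv
      rwa [pow_one, Dn_succ, Dn_zero, Function.iterate_zero, id] at this
    have h3 := R.le_co (S.g x) _ (S.mapU x v hv)
    rw [mat_co R x (S.g x) (S.D x) hv] at h3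
    have h4 := (mat R x (S.g x) (S.D x)).le_opNorm (R.co x v)
    rw [hvn] at h4
    exact le_of_mul_le_mul_right (h1.trans (h3.trans h4)) hn
  lam_le := fun x => by
    have h1 := mat_norm_le R x (S.g x) (S.D x) (S.mapU x) S.Lu
      (by linarith [S.one_le_Lu]) (S.boundU x)
    have h3 := R.one_le_K
    nlinarith
  tau_conf := fun x y hxy => mat_conf R x y (F.τ x y) (F.τ_mem x y hxy) (by
    obtain ⟨κ, hκ, h⟩ := hτ x y hxy
    exact ⟨κ, hκ, fun v hv => h v hv v hv⟩)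
  eta_conf := fun x y hxy => mat_conf R x y (F.H x y) (F.H_mem x y hxy) (by
    obtain ⟨κ, hκ, h⟩ := hH x y hxy
    exact ⟨κ, hκ, fun v hv => h v hv v hv⟩)
  lc_equi := fun x y h => by
    rw [F.Lc_equi x y h]
    exact mat_co R x (S.g x) (S.D x) (F.Lc_mem x y h)
  lc_self := fun x => by rw [F.Lc_self, map_zero]
  lc_le := fun x y h => by
    have h' := h.mono hε'
    have hm := F.Lc_mem x y (F.geo.uasym x y h')
    have h1 := R.co_le x _ hm
    have h3 := F.Lc_le x y h'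
    have h4 := R.one_le_K
    have h5 := S.one_le_Lu
    have h6 : 0 ≤ dist x y := dist_nonneg
    calc ‖R.co x (F.Lc x y)‖ ≤ R.K * ‖F.Lc x y‖ := h1
      _ ≤ R.K * (2 * dist x y) := mul_le_mul_of_nonneg_left h3 (by linarith)
      _ ≤ R.K * (S.Lu + 2) * dist x y := by
        rw [mul_assoc]
        exact mul_le_mul_of_nonneg_left (mul_le_mul_of_nonneg_right (by linarith) h6) (by linarith)
  dist_le := fun x y h => by
    have h' := h.mono hε'
    have hm := F.Lc_mem x y (F.geo.uasym x y h')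
    have h1 := R.le_co x _ hm
    have h3 := F.dist_le x y h'
    have h4 := R.one_le_K
    have h5 := S.one_le_Lu
    have h6 : 0 ≤ ‖R.co x (F.Lc x y)‖ := norm_nonneg _
    have h7 : 2 ≤ R.K * (S.Lu + 2) := by nlinarith
    calc dist x y ≤ 2 * ‖F.Lc x y‖ := h3
      _ ≤ 2 * ‖R.co x (F.Lc x y)‖ := by linarith
      _ ≤ _ := mul_le_mul_of_nonneg_right h7 h6
  inj := fun x y z hy hz h => F.inj x y z hy hz (by
    rw [← R.vec_co x _ (F.Lc_mem x y hy), ← R.vec_co x _ (F.Lc_mem x z hz)]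
    exact congrArg (R.vec x) h)
  surj := fun δ hδ => by
    obtain ⟨ρ, hρ, hs⟩ := F.surj δ hδ
    refine ⟨ρ, hρ, fun x u hu => ?_⟩
    obtain ⟨y, hy, hyv⟩ := hs x (R.vec x u) (R.vec_mem x u) ((norm_vec_le R x u).trans hu)
    exact ⟨y, hy, by rw [hyv, R.co_vec]⟩
  small := fun δ hδ => by
    obtain ⟨ρ, hρ, hs⟩ := F.small δ hδ
    exact ⟨ρ, hρ, fun x y hxy h => hs x y hxy ((R.le_co x _ (F.Lc_mem x y hxy)).trans h)⟩
  tau_self := fun x => by
    ext1 u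
    rw [mat_apply, F.τ_self x _ (R.vec_mem x u), R.co_vec]
    rfl
  tau_comp := fun x y z hxy hyz => by
    ext1 u
    have hm := R.vec_mem x u
    show mat R y z (F.τ y z) (mat R x y (F.τ x y) u) = mat R x z (F.τ x z) u
    rw [mat_apply, mat_apply, mat_apply, R.vec_co y _ (F.τ_mem x y hxy _ hm),
      F.τ_comp x y z hxy hyz _ hm]
  tau_equi := fun x y hxy => by
    ext1 u
    have hm := R.vec_mem x u
    show mat R (S.g x) (S.g y) (F.τ (S.g x) (S.g y)) (mat R x (S.g x) (S.D x) u) =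
      mat R y (S.g y) (S.D y) (mat R x y (F.τ x y) u)
    rw [mat_apply, mat_apply, mat_apply, mat_apply, R.vec_co _ _ (S.mapU x _ hm),
      R.vec_co y _ (F.τ_mem x y hxy _ hm), F.τ_equi x y hxy _ hm]
  tau_le := fun x y h => by
    have h' := h.mono hε'
    have h1 := mat_norm_le R x y (F.τ x y) (F.τ_mem x y (F.geo.uasym x y h')) 2
      (by norm_num) (F.τ_le x y h')
    have h3 := R.one_le_K
    have h4 := S.one_le_Lu
    nlinarith
  base := fun x y z hxy hxz => by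
    rw [F.base x y z hxy hxz, ← map_sub]
    exact mat_co R x y (F.τ x y) ((S.Vu x).sub_mem (F.Lc_mem x z hxz) (F.Lc_mem x y hxy))
  eta_self := fun x => by
    ext1 u
    rw [mat_apply, F.H_self x _ (R.vec_mem x u), R.co_vec]
    rfl
  eta_comp := fun x y z hxy hyz => by
    ext1 u
    have hm := R.vec_mem x u
    show mat R y z (F.H y z) (mat R x y (F.H x y) u) = mat R x z (F.H x z) u
    rw [mat_apply, mat_apply, mat_apply, R.vec_co y _ (F.H_mem x y hxy _ hm),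
      F.H_comp x y z hxy hyz _ hm]
  eta_equi := fun x y hxy => by
    ext1 u
    have hm := R.vec_mem x u
    show mat R (S.g x) (S.g y) (F.H (S.g x) (S.g y)) (mat R x (S.g x) (S.D x) u) =
      mat R y (S.g y) (S.D y) (mat R x y (F.H x y) u)
    rw [mat_apply, mat_apply, mat_apply, mat_apply, R.vec_co _ _ (S.mapU x _ hm),
      R.vec_co y _ (F.H_mem x y hxy _ hm), F.H_equi x y hxy _ hm]
  eta_le := fun x y h => by
    have h' := h.mono hε'
    have h1 := mat_norm_le R x y (F.H x y) (F.H_mem x y (F.geo.sasym x y h')) 2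
      (by norm_num) (F.H_le x y h')
    have h3 := R.one_le_K
    have h4 := S.one_le_Lu
    nlinarith
  cd := by
    refine ⟨ε, hε, le_rfl, fun η hη => ?_⟩
    have h3 := R.one_le_K
    obtain ⟨ρ, hρ, hcd⟩ := hCD (η / R.K) (by positivity)
    refine ⟨ρ, hρ, fun w w' q q' hw hq hqρ hqq' hq' => ?_⟩
    have hw' := F.geo.sasym w w' (hw.mono hε')
    have hqU := F.geo.uasym w q (hq.mono hε')
    have hq'U := F.geo.uasym w' q' (hq'.mono hε')
    have hm := F.Lc_mem w q hqU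
    have hm' := F.Lc_mem w' q' hq'U
    have hHm := F.H_mem w w' hw' _ hm
    have h4 := hcd w w' q q' hw hq ((R.le_co w _ hm).trans hqρ) hqq' hq'
    rw [← mat_co R w w' (F.H w w') hm, ← map_sub]
    have h5 := R.co_le w' _ ((S.Vu w').sub_mem hm' hHm)
    have h6 := R.le_co w _ hm
    calc ‖R.co w' (F.Lc w' q' - F.H w w' (F.Lc w q))‖
        ≤ R.K * ‖F.Lc w' q' - F.H w w' (F.Lc w q)‖ := h5
      _ ≤ R.K * (η / R.K * ‖F.Lc w q‖) := mul_le_mul_of_nonneg_left h4 (by linarith)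
      _ = η * ‖F.Lc w q‖ := by field_simp
      _ ≤ η * ‖R.co w (F.Lc w q)‖ := mul_le_mul_of_nonneg_left h6 hη.le

end N03

/-- Coordinates. -/
theorem exists_cfd (hD : 2 ≤ D) (F : Flat S) (B₀ : CS0 S)
    (hτ : ∀ x y, UAsym S x y → ∃ κ > 0, ∀ v ∈ S.Vu x,
      ∀ w ∈ S.Vu x, B₀.B y (F.τ x y v) (F.τ x y w) = κ * B₀.B x v w)
    (hH : ∀ x y, SAsym S x y → ∃ κ > 0, ∀ v ∈ S.Vu x,
      ∀ w ∈ S.Vu x, B₀.B y (F.H x y v) (F.H x y w) = κ * B₀.B x v w)
    (hcd : ∃ ε > 0, ∀ η > 0, ∃ ρ > 0, ∀ w w' q q', S.SRel ε w w' →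
      S.URel ε w q → ‖F.Lc w q‖ ≤ ρ → S.SRel ε q q' → S.URel ε w' q' →
      ‖F.Lc w' q' - F.H w w' (F.Lc w q)‖ ≤ η * ‖F.Lc w q‖)
    (h2 : ∀ x, Module.finrank ℝ (S.Vu x) = D) :
    ∃ c : CFD S D, (∀ B : UV S, ∃ C : ℝ, 0 < C ∧ ∀ k y, c.cw k y ≤ C * om S B k y) ∧
      ∃ (ξ : X → Ve D → E) (C : ℝ), 0 < C ∧ (∀ x y, UAsym S x y → ξ x (c.lc x y) = F.Lc x y) ∧
        (∀ x y, SAsym S x y → ∀ z, ξ y (c.eta x y z) = F.H x y (ξ x z)) ∧
        (∀ x z z', ‖ξ x z - ξ x z'‖ ≤ C * ‖z - z'‖) ∧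
        ∀ x z z', ‖z - z'‖ ≤ C * ‖ξ x z - ξ x z'‖ := by
  obtain ⟨R⟩ := N03.exists_cor B₀ (by omega : 0 < D) h2
  obtain ⟨ε, hε, hcd⟩ := hcd
  have hF := F.geo.pos
  have hK := R.one_le_K
  set c := N03.mk R hD F hτ hH (min ε F.ε₀) (lt_min hε hF) (min_le_right _ _)
    (fun η hη => by
      obtain ⟨ρ, hρ, h⟩ := hcd η hη
      exact ⟨ρ, hρ, fun w w' q q' h0 h1 h3 h4 h5 => h w w' q q' (h0.mono (min_le_left _ _))
        (h1.mono (min_le_left _ _)) h3 (h4.mono (min_le_left _ _))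
        (h5.mono (min_le_left _ _))⟩) with hc
  refine ⟨c, fun B => ⟨R.K, by linarith, fun k y => ?_⟩, fun x => R.vec x, R.K, by linarith,
    fun x y hxy => R.vec_co x _ (F.Lc_mem x y hxy),
    fun x y hxy z => N03.vec_mat R x y (F.H x y) (F.H_mem x y hxy) z, fun x z z' => ?_,
    fun x z z' => ?_⟩
  · have hLp : ∀ (n : ℕ) (x : X), ∀ v ∈ S.Vu x,
        R.co (S.g^[n] x) (Dn S n x v) = c.Lp n x (R.co x v) := by
      intro n x v hv
      induction n with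
      | zero => rfl
      | succ n ih =>
        rw [Dn_succ, Function.iterate_succ_apply',
          N03.mat_co R (S.g^[n] x) _ (S.D (S.g^[n] x)) (Dn_mem S n x hv), ih]
        rfl
    set x := S.g.symm^[k] y with hx
    have hxy : S.g^[k] x = y := iter_iter_symm S k y
    have hw : Dn S.symm k y (B.b y) ∈ S.Vu x := Dn_symm_mem S k y (B.mem y)
    have h3 : Dn S k x (Dn S.symm k y (B.b y)) = B.b y := Dn_Dn_symm S k y (B.mem y)
    have h4 := hLp k x _ hw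
    rw [h3, hxy] at h4
    have h6 := R.le_co y _ (B.mem y)
    rw [B.norm y, h4] at h6
    have h7 := R.co_le x _ hw
    have h8 : (1 : ℝ) ≤ ‖c.Lp k x‖ * (R.K * om S B k y) :=
      h6.trans (((c.Lp k x).le_opNorm _).trans (mul_le_mul_of_nonneg_left h7 (norm_nonneg _)))
    have h9 : 0 < ‖c.Lp k x‖ := by
      rcases (norm_nonneg (c.Lp k x)).lt_or_eq with h | h
      · exact h
      · rw [← h] at h8; norm_num at h8
    change ‖c.Lp k x‖⁻¹ ≤ _
    rw [inv_le_iff_one_le_mul₀' h9]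
    exact h8
  · rw [← map_sub]
    refine (N03.norm_vec_le R x (z - z')).trans ?_
    have := norm_nonneg (z - z')
    nlinarith
  · rw [← map_sub]
    have h3 := R.co_le x _ (R.vec_mem x (z - z'))
    rwa [R.co_vec] at h3

end Pool.Agent.H779R2.Nu
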