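import Pool.Agent.H779R2.Nu.N00

set_option autoImplicit false

namespace Pool.Agent.H779R2.Nu

open Pool.Agent.H721R2 Pool.Agent.H779R2.An Pool.Agent.H779R2.Li Filter Topology MeasureTheory
open scoped BigOperators

variable {X E : Type*} [MetricSpace X] [CompactSpace X] [NormedAddCommGroup E]
  [InnerProductSpace ℝ E] [FiniteDimensional ℝ E]

variable {S : HypSys X E} {D : ℕ}

private theorem n04_unit (hD : 0 < D) : ∃ v : Ve D, ‖v‖ = 1 :=
  ⟨EuclideanSpace.single (⟨0, hD⟩ : Fin D) (1 : ℝ), by simp⟩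

private theorem n04_comp (hD : 0 < D) {A B : Ve D →L[ℝ] Ve D} (hA : Conf A) (hB : Conf B) :
    Conf (A.comp B) ∧ ‖A.comp B‖ = ‖A‖ * ‖B‖ := by
  obtain ⟨v0, hv0⟩ := n04_unit hD
  have h1 : ‖A.comp B‖ = ‖A‖ * ‖B‖ := by
    apply le_antisymm (ContinuousLinearMap.opNorm_comp_le _ _)
    have h := (A.comp B).le_opNorm v0
    rw [ContinuousLinearMap.comp_apply, hA, hB, hv0, mul_one, mul_one] at h
    exact h
  refine ⟨fun v => ?_, h1⟩
  rw [ContinuousLinearMap.comp_apply, hA, hB, h1, mul_assoc]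

/-- an invertible map is nonzero -/
private theorem n04_ne (hD : 0 < D) {A B : Ve D →L[ℝ] Ve D}
    (h : B.comp A = ContinuousLinearMap.id ℝ (Ve D)) : A ≠ 0 ∧ B ≠ 0 := by
  obtain ⟨v0, hv0⟩ := n04_unit hD
  have h1 : B (A v0) = v0 := by
    have := congrArg (fun f : Ve D →L[ℝ] Ve D => f v0) h
    simpa using this
  constructor
  · rintro rfl
    simp only [ContinuousLinearMap.zero_apply, map_zero] at h1
    rw [← h1, norm_zero] at hv0
    exact zero_ne_one hv0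
  · rintro rfl
    simp only [ContinuousLinearMap.zero_apply] at h1
    rw [← h1, norm_zero] at hv0
    exact zero_ne_one hv0

/-- uniform differentiability implies continuity of the derivative -/
private theorem n04_cont (h : Ve D → Ve D) (L : Ve D → (Ve D →L[ℝ] Ve D)) (r : ℝ)
    (H : ∀ η > 0, ∃ ρ > 0, ∀ u0 u : Ve D, ‖u0‖ ≤ r → ‖u‖ ≤ r → ‖u - u0‖ ≤ ρ →
      ‖h u - h u0 - L u0 (u - u0)‖ ≤ η * ‖u - u0‖) :
    ContinuousOn L (Metric.ball 0 r) := by
  rw [Metric.continuousOn_iff]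
  intro u' hu' ε hε
  rw [mem_ball_zero_iff] at hu'
  obtain ⟨ρ, hρ, H⟩ := H (ε / 8) (by positivity)
  obtain ⟨t, ht0, ht1, ht2⟩ : ∃ t : ℝ, 0 < t ∧ 2 * t ≤ ρ ∧ 2 * t ≤ r - ‖u'‖ := by
    refine ⟨min (ρ / 2) ((r - ‖u'‖) / 2), lt_min (by positivity) (by linarith), ?_, ?_⟩
    · have := min_le_left (ρ / 2) ((r - ‖u'‖) / 2)
      linarith
    · have := min_le_right (ρ / 2) ((r - ‖u'‖) / 2)
      linarith
  refine ⟨t, ht0, fun u hu hd => ?_⟩
  rw [dist_eq_norm] at hd ⊢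
  rw [mem_ball_zero_iff] at hu
  have hL : ‖L u - L u'‖ ≤ ε / 2 := by
    refine ContinuousLinearMap.opNorm_le_of_unit_norm (by positivity) (fun w hw => ?_)
    have htw : ‖t • w‖ = t := by rw [norm_smul, hw, mul_one, Real.norm_of_nonneg ht0.le]
    have hu1 : ‖u‖ ≤ ‖u'‖ + t := by
      calc ‖u‖ = ‖u' + (u - u')‖ := by congr 1; abel
        _ ≤ ‖u'‖ + ‖u - u'‖ := norm_add_le _ _
        _ ≤ ‖u'‖ + t := by linarith
    have hu2 : ‖u + t • w‖ ≤ r := by
      have := norm_add_le u (t • w)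
      rw [htw] at this
      linarith
    have e1 : u + t • w - u' = (u - u') + t • w := by abel
    have hu3 : ‖u + t • w - u'‖ ≤ 2 * t := by
      rw [e1]
      have := norm_add_le (u - u') (t • w)
      rw [htw] at this
      linarith
    have a1 := H u' (u + t • w) hu'.le hu2 (hu3.trans ht1)
    have a2 := H u' u hu'.le hu.le (by linarith)
    have e2 : u + t • w - u = t • w := by abel
    have a3 := H u (u + t • w) hu.le hu2 (by rw [e2, htw]; linarith)
    rw [e2, htw] at a3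
    have e3 : t • ((L u - L u') w) = (h (u + t • w) - h u' - L u' (u + t • w - u')) -
        (h u - h u' - L u' (u - u')) - (h (u + t • w) - h u - L u (t • w)) := by
      rw [e1, map_add, map_smul, map_smul, ContinuousLinearMap.sub_apply, smul_sub]
      abel
    have e4 : t * ‖(L u - L u') w‖ ≤ t * (ε / 2) := by
      calc t * ‖(L u - L u') w‖ = ‖t • ((L u - L u') w)‖ := by
            rw [norm_smul, Real.norm_of_nonneg ht0.le]
        _ ≤ ‖h (u + t • w) - h u' - L u' (u + t • w - u')‖ + ‖h u - h u' - L u' (u - u')‖ +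
            ‖h (u + t • w) - h u - L u (t • w)‖ := by
            rw [e3]
            exact (norm_sub_le _ _).trans (add_le_add (norm_sub_le _ _) le_rfl)
        _ ≤ ε / 8 * (2 * t) + ε / 8 * t + ε / 8 * t := by
            refine add_le_add (add_le_add ?_ ?_) a3
            · exact a1.trans (mul_le_mul_of_nonneg_left hu3 (by positivity))
            · exact a2.trans (mul_le_mul_of_nonneg_left hd.le (by positivity))
        _ = t * (ε / 2) := by ring
    exact le_of_mul_le_mul_left e4 ht0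
  linarith

/-- The stable holonomy is a `C¹` conformal map. -/
theorem hol_d (c : CFD S D) : ∃ ρ₀ > 0, ∃ ε > 0, ε ≤ c.ε₀ ∧ ∀ z z', S.SRel ε z z' →
    ∃ h : Ve D → Ve D, CM ρ₀ h ∧ h 0 = 0 ∧ fderiv ℝ h 0 = c.eta z z' ∧
      ∀ p p', S.URel ε z p → S.SRel ε p p' → S.URel ε z' p' →
        ‖c.lc z p‖ < ρ₀ ∧ c.lc z' p' = h (c.lc z p) := by
  have hD0 : 0 < D := by have := c.hD; omega
  have hε₀ := c.geo.pos
  have hM := c.one_le_M
  have hM0 : 0 < c.M := by linarith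
  obtain ⟨εc, hεc, hεc0, hcd⟩ := c.cd
  obtain ⟨e2, he2, he2a⟩ : ∃ e2 : ℝ, 0 < e2 ∧ 8 * e2 ≤ εc :=
    ⟨εc / 8, by positivity, by linarith⟩
  obtain ⟨e1', he1', hcor⟩ := exists_corner S e2 he2
  obtain ⟨e1, he1, he1a, he1b⟩ : ∃ e1 : ℝ, 0 < e1 ∧ e1 ≤ e1' ∧ e1 ≤ e2 :=
    ⟨min e1' e2, lt_min he1' he2, min_le_left _ _, min_le_right _ _⟩
  obtain ⟨ρ0, hρ0, hsurj⟩ := c.surj e1 he1
  have key : ∀ (z z' : X) (u : Ve D), ∃ q q' : X, S.SRel e1 z z' → ‖u‖ ≤ ρ0 →
      S.URel e1 z q ∧ c.lc z q = u ∧ S.URel e2 z' q' ∧ S.SRel e2 q q' := by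
    intro z z' u
    by_cases hu : S.SRel e1 z z' ∧ ‖u‖ ≤ ρ0
    · obtain ⟨q, hq1, hq2⟩ := hsurj z u hu.2
      obtain ⟨q', hq3, hq4⟩ := hcor z z' q (hu.1.mono he1a) (hq1.mono he1a)
      exact ⟨q, q', fun _ _ => ⟨hq1, hq2, hq3, hq4⟩⟩
    · exact ⟨z, z, fun h1 h2 => absurd ⟨h1, h2⟩ hu⟩
  choose P P' hP using key
  have hε1 : min e1 (ρ0 / (2 * c.M)) ≤ e1 := min_le_left _ _
  have hε2 : min e1 (ρ0 / (2 * c.M)) ≤ ρ0 / (2 * c.M) := min_le_right _ _
  refine ⟨ρ0, hρ0, min e1 (ρ0 / (2 * c.M)), lt_min he1 (by positivity), by linarith, ?_⟩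
  intro z z' hzz
  have hzz1 : S.SRel e1 z z' := hzz.mono hε1
  have huas : ∀ u : Ve D, ‖u‖ ≤ ρ0 → UAsym S z (P z z' u) := fun u hn =>
    c.geo.uasym _ _ ((hP z z' u hzz1 hn).1.mono (by linarith))
  have huas' : ∀ u : Ve D, ‖u‖ ≤ ρ0 → UAsym S z' (P' z z' u) := fun u hn =>
    c.geo.uasym _ _ ((hP z z' u hzz1 hn).2.2.1.mono (by linarith))
  have hsas : ∀ u : Ve D, ‖u‖ ≤ ρ0 → SAsym S (P z z' u) (P' z z' u) := fun u hn =>
    c.geo.sasym _ _ ((hP z z' u hzz1 hn).2.2.2.mono (by linarith))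
  have h0ρ : ‖(0 : Ve D)‖ ≤ ρ0 := by rw [norm_zero]; exact hρ0.le
  have hP0 : P z z' 0 = z := by
    apply c.inj z (P z z' 0) z (huas 0 h0ρ) (UAsym.refl S z)
    rw [(hP z z' 0 hzz1 h0ρ).2.1, c.lc_self]
  have hP'0 : P' z z' 0 = z' := by
    have h1 := (hP z z' 0 hzz1 h0ρ).2.2.2
    rw [hP0] at h1
    exact (c.geo.uniq z' (P' z z' 0) ((hzz1.symm.trans h1).mono (by linarith))
      ((hP z z' 0 hzz1 h0ρ).2.2.1.mono (by linarith))).symm
  -- the derivative
  set L : Ve D → (Ve D →L[ℝ] Ve D) := fun u =>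
    (c.tau (P' z z' u) z').comp ((c.eta (P z z' u) (P' z z' u)).comp (c.tau z (P z z' u)))
    with hLdef
  -- the basic estimate
  have est : ∀ η > 0, ∃ ρ > 0, ∀ u0 u : Ve D, ‖u0‖ ≤ ρ0 → ‖u‖ ≤ ρ0 →
      ‖u - u0‖ ≤ ρ → ‖c.lc z' (P' z z' u) - c.lc z' (P' z z' u0) - L u0 (u - u0)‖ ≤
        η * ‖u - u0‖ := by
    intro η hη
    obtain ⟨ρ', hρ', hcd'⟩ := hcd (η / c.M ^ 2) (by positivity)
    refine ⟨ρ' / c.M, by positivity, fun u0 u hn0 hn hd => ?_⟩
    obtain ⟨k1, k2, k3, k4⟩ := hP z z' u0 hzz1 hn0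
    obtain ⟨l1, l2, l3, l4⟩ := hP z z' u hzz1 hn
    have b1 : c.lc (P z z' u0) (P z z' u) = c.tau z (P z z' u0) (u - u0) := by
      rw [c.base z (P z z' u0) (P z z' u) (huas u0 hn0) (huas u hn), l2, k2]
    have b2 : c.lc (P' z z' u0) (P' z z' u) =
        c.tau z' (P' z z' u0) (c.lc z' (P' z z' u) - c.lc z' (P' z z' u0)) :=
      c.base z' (P' z z' u0) (P' z z' u) (huas' u0 hn0) (huas' u hn)
    have b3 : ‖c.lc (P z z' u0) (P z z' u)‖ ≤ c.M * ‖u - u0‖ := by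
      rw [b1]
      refine (ContinuousLinearMap.le_opNorm _ _).trans ?_
      exact mul_le_mul_of_nonneg_right (c.tau_le z (P z z' u0) (k1.mono (by linarith)))
        (norm_nonneg _)
    have b3' : ‖c.lc (P z z' u0) (P z z' u)‖ ≤ ρ' := by
      refine b3.trans ?_
      rw [le_div_iff₀ hM0] at hd
      linarith
    have b4 := hcd' (P z z' u0) (P' z z' u0) (P z z' u) (P' z z' u) (k4.mono (by linarith))
      ((k1.symm.trans l1).mono (by linarith)) b3' (l4.mono (by linarith))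
      ((k3.symm.trans l3).mono (by linarith))
    have b5 : ∀ v : Ve D, c.tau (P' z z' u0) z' (c.tau z' (P' z z' u0) v) = v := by
      intro v
      have h1 := c.tau_comp z' (P' z z' u0) z' (huas' u0 hn0) (huas' u0 hn0).symm
      rw [c.tau_self] at h1
      have h2 := congrArg (fun f : Ve D →L[ℝ] Ve D => f v) h1
      simpa using h2
    have b6 : c.lc z' (P' z z' u) - c.lc z' (P' z z' u0) - L u0 (u - u0) =
        c.tau (P' z z' u0) z' (c.lc (P' z z' u0) (P' z z' u) -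
          c.eta (P z z' u0) (P' z z' u0) (c.lc (P z z' u0) (P z z' u))) := by
      rw [map_sub (c.tau (P' z z' u0) z'), b2, b5, b1]
      rfl
    rw [b6]
    refine (ContinuousLinearMap.le_opNorm _ _).trans ?_
    have b8 := c.tau_le (P' z z' u0) z' (k3.symm.mono (by linarith))
    calc _ ≤ c.M * (η / c.M ^ 2 * ‖c.lc (P z z' u0) (P z z' u)‖) :=
          mul_le_mul b8 b4 (norm_nonneg _) hM0.le
      _ ≤ c.M * (η / c.M ^ 2 * (c.M * ‖u - u0‖)) := by gcongr
      _ = η * ‖u - u0‖ := by field_simp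
  have hder : ∀ u0 : Ve D, ‖u0‖ < ρ0 →
      HasFDerivAt (fun u => c.lc z' (P' z z' u)) (L u0) u0 := by
    intro u0 hu0
    rw [hasFDerivAt_iff_isLittleO, Asymptotics.isLittleO_iff]
    intro η hη
    obtain ⟨ρ, hρ, h1⟩ := est η hη
    have h2 : 0 < min ρ (ρ0 - ‖u0‖) := lt_min hρ (by linarith)
    filter_upwards [Metric.ball_mem_nhds u0 h2] with u hu
    rw [Metric.mem_ball, dist_eq_norm, lt_min_iff] at hu
    have h3 : ‖u‖ ≤ ρ0 := by
      have : ‖u‖ ≤ ‖u - u0‖ + ‖u0‖ := by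
        calc ‖u‖ = ‖(u - u0) + u0‖ := by rw [sub_add_cancel]
          _ ≤ _ := norm_add_le _ _
      linarith [hu.2]
    exact h1 u0 u hu0.le h3 hu.1.le
  have hconf : ∀ u0 : Ve D, ‖u0‖ < ρ0 → Conf (L u0) ∧ L u0 ≠ 0 := by
    intro u0 hu0
    have t1 := c.tau_conf _ _ (huas' u0 hu0.le).symm
    have t2 := c.eta_conf _ _ (hsas u0 hu0.le)
    have t3 := c.tau_conf _ _ (huas u0 hu0.le)
    have n1 : c.tau (P' z z' u0) z' ≠ 0 := by
      have h1 := c.tau_comp z' (P' z z' u0) z' (huas' u0 hu0.le) (huas' u0 hu0.le).symm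
      rw [c.tau_self] at h1
      exact (n04_ne hD0 h1).2
    have n3 : c.tau z (P z z' u0) ≠ 0 := by
      have h1 := c.tau_comp z (P z z' u0) z (huas u0 hu0.le) (huas u0 hu0.le).symm
      rw [c.tau_self] at h1
      exact (n04_ne hD0 h1).1
    have n2 : c.eta (P z z' u0) (P' z z' u0) ≠ 0 := by
      have h1 := c.eta_comp (P z z' u0) (P' z z' u0) (P z z' u0) (hsas u0 hu0.le)
        (hsas u0 hu0.le).symm
      rw [c.eta_self] at h1
      exact (n04_ne hD0 h1).1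
    obtain ⟨q1, q2⟩ := n04_comp hD0 t2 t3
    obtain ⟨q3, q4⟩ := n04_comp hD0 t1 q1
    refine ⟨q3, ?_⟩
    rw [← norm_pos_iff]
    rw [hLdef]
    simp only
    rw [q4, q2]
    have := norm_pos_iff.2 n1
    have := norm_pos_iff.2 n2
    have := norm_pos_iff.2 n3
    positivity
  have hfd : ∀ u0 : Ve D, ‖u0‖ < ρ0 → fderiv ℝ (fun u => c.lc z' (P' z z' u)) u0 = L u0 :=
    fun u0 hu0 => (hder u0 hu0).fderiv
  refine ⟨fun u => c.lc z' (P' z z' u), ⟨?_, ?_, ?_⟩, ?_, ?_, ?_⟩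
  · rw [show (1 : WithTop ℕ∞) = 0 + 1 from (zero_add 1).symm,
      contDiffOn_succ_iff_fderiv_of_isOpen Metric.isOpen_ball]
    refine ⟨fun u hu => ?_, fun h => absurd h (by simp), ?_⟩
    · rw [mem_ball_zero_iff] at hu
      exact (hder u hu).differentiableAt.differentiableWithinAt
    · rw [contDiffOn_zero]
      refine (n04_cont _ L ρ0 est).congr (fun u hu => ?_)
      rw [mem_ball_zero_iff] at hu
      exact hfd u hu
  · intro u hu
    rw [mem_ball_zero_iff] at hu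
    rw [hfd u hu]
    exact (hconf u hu).1
  · intro u hu
    rw [mem_ball_zero_iff] at hu
    rw [hfd u hu]
    exact (hconf u hu).2
  · change c.lc z' (P' z z' 0) = 0
    rw [hP'0, c.lc_self]
  · rw [hfd 0 (by rwa [norm_zero])]
    simp only [hLdef, hP0, hP'0, c.tau_self]
    ext v
    simp
  · intro p p' hzp hpp hzp'
    have hzpu : UAsym S z p := c.geo.uasym _ _ (hzp.mono (by linarith))
    have hun : ‖c.lc z p‖ ≤ ρ0 / 2 := by
      have a1 := c.lc_le z p (hzp.mono (by linarith))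
      have a2 : dist z p ≤ ρ0 / (2 * c.M) := hzp.dist_le.trans hε2
      have a3 : c.M * dist z p ≤ c.M * (ρ0 / (2 * c.M)) := mul_le_mul_of_nonneg_left a2 hM0.le
      have a4 : c.M * (ρ0 / (2 * c.M)) = ρ0 / 2 := by field_simp
      linarith
    have hun0 : ‖c.lc z p‖ ≤ ρ0 := by linarith
    refine ⟨by linarith, ?_⟩
    obtain ⟨k1, k2, k3, k4⟩ := hP z z' (c.lc z p) hzz1 hun0
    have hPp : P z z' (c.lc z p) = p := c.inj z _ p (huas _ hun0) hzpu k2
    have hPp' : P' z z' (c.lc z p) = p' := by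
      rw [hPp] at k4
      exact (c.geo.uniq p' _ ((hpp.symm.trans k4).mono (by linarith))
        ((hzp'.symm.trans k3).mono (by linarith))).symm
    change c.lc z' p' = c.lc z' (P' z z' (c.lc z p))
    rw [hPp']

end Pool.Agent.H779R2.Nu
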