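import Pool.Agent.H779R2.Nu.N00

set_option autoImplicit false

namespace Pool.Agent.H779R2.Nu

open Pool.Agent.H721R2 Pool.Agent.H779R2.An Pool.Agent.H779R2.Li Filter Topology MeasureTheory
open scoped BigOperators

variable {X E : Type*} [MetricSpace X] [CompactSpace X] [NormedAddCommGroup E]
  [InnerProductSpace ℝ E] [FiniteDimensional ℝ E]

variable {S : HypSys X E} {D : ℕ}

namespace N06Aux

theorem den_ge {b u : Ve D} (h : ‖b‖ * ‖u‖ ≤ 1 / 2) : 1 / 4 ≤ den b u := by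
  unfold den
  have h1 := real_inner_le_norm b u
  have h2 : 0 ≤ ‖b‖ * ‖u‖ := by positivity
  nlinarith [sq_nonneg (1 / 2 - ‖b‖ * ‖u‖), mul_pow ‖b‖ ‖u‖ 2]

theorem den_zero_left (u : Ve D) : den (0 : Ve D) u = 1 := by
  simp [den]

theorem den_zero_right (b : Ve D) : den b (0 : Ve D) = 1 := by
  simp [den]

theorem den_line_cont (b u e : Ve D) : Continuous (fun t : ℝ => den b (u + t • e)) := by
  unfold den
  fun_prop

theorem conf_inj {A : Ve D →L[ℝ] Ve D} (hA : Conf A) (h0 : 0 < ‖A‖) {a b : Ve D}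
    (h : A a = A b) : a = b := by
  have h1 : ‖A (a - b)‖ = 0 := by
    rw [map_sub, h, sub_self, norm_zero]
  rw [hA] at h1
  have h2 : ‖a - b‖ = 0 := (mul_eq_zero.1 h1).resolve_left h0.ne'
  exact sub_eq_zero.1 (norm_eq_zero.1 h2)

/-- the comparison identity on a small disc -/
theorem key {c : CFD S D} (T : THD c) : ∃ ε > 0, ε ≤ T.ε ∧ ∃ ρ > 0, ∀ v w x x', S.SRel ε v w →
    S.URel ε v x → S.SRel ε x x' → S.URel ε w x' → ∀ e' : Ve D, ‖e'‖ = 1 → ∀ t : ℝ, 0 < t →
      ‖t • c.tau v x e'‖ ≤ ρ →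
      ‖c.eta x x'‖ * ‖c.tau v x‖ * (Real.sqrt (den (T.th v w) (c.lc v x)) *
        Real.sqrt (den (T.th v w) (c.lc v x + t • e'))) =
      ‖c.tau w x'‖ * ‖c.eta v w‖ * Real.sqrt (den (T.th x x') (t • c.tau v x e')) := by
  have hTε := T.ε_le
  have hTp := T.ε_pos
  obtain ⟨εc, hεc, hcor⟩ := exists_corner S (T.ε / 2) (by positivity)
  obtain ⟨ρ, hρ, hsurj⟩ := c.surj (min εc (T.ε / 2)) (lt_min hεc (by positivity))
  refine ⟨min εc (T.ε / 2), lt_min hεc (by positivity), (min_le_right _ _).trans (by linarith),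
    ρ, hρ, ?_⟩
  intro v w x x' hvw hvx hxx hwx e' he' t ht htρ
  have hvw1 : S.SRel T.ε v w := hvw.mono ((min_le_right _ _).trans (by linarith))
  have hvx1 : S.URel (T.ε / 2) v x := hvx.mono (min_le_right _ _)
  have hxx1 : S.SRel (T.ε / 2) x x' := hxx.mono (min_le_right _ _)
  have hwx1 : S.URel (T.ε / 2) w x' := hwx.mono (min_le_right _ _)
  have hu : UAsym S v x := c.geo.uasym _ _ (hvx1.mono (by linarith))
  have hu' : UAsym S w x' := c.geo.uasym _ _ (hwx1.mono (by linarith))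
  have hsv : SAsym S v w := c.geo.sasym _ _ (hvw1.mono (by linarith))
  have hsx : SAsym S x x' := c.geo.sasym _ _ (hxx1.mono (by linarith))
  obtain ⟨q, hq, hqa⟩ := hsurj x (t • c.tau v x e') htρ
  have hq1 : S.URel (T.ε / 2) x q := hq.mono (min_le_right _ _)
  obtain ⟨q', hq', hqq⟩ := hcor x x' q (hxx.mono (min_le_left _ _)) (hq.mono (min_le_left _ _))
  have huq : UAsym S x q := c.geo.uasym _ _ (hq1.mono (by linarith))
  have huq' : UAsym S x' q' := c.geo.uasym _ _ (hq'.mono (by linarith))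
  have hvq : S.URel T.ε v q := (hvx1.trans hq1).mono (by linarith)
  have hwq : S.URel T.ε w q' := (hwx1.trans hq').mono (by linarith)
  have h1 := T.mob v w x x' hvw1 (hvx1.mono (by linarith)) (hxx1.mono (by linarith))
    (hwx1.mono (by linarith))
  have h2 := T.mob v w q q' hvw1 hvq (hqq.mono (by linarith)) hwq
  have h3 := T.mob x x' q q' (hxx1.mono (by linarith)) (hq1.mono (by linarith))
    (hqq.mono (by linarith)) (hq'.mono (by linarith))
  have d1 := den_ge (T.half v w x hvw1 (hvx1.mono (by linarith)))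
  have d2 := den_ge (T.half v w q hvw1 hvq)
  have d3 := den_ge (T.half x x' q (hxx1.mono (by linarith)) (hq1.mono (by linarith)))
  have hbase := c.base v x q hu (hu.trans huq)
  have hbase' := c.base w x' q' hu' (hu'.trans huq')
  rw [hqa] at hbase h3 d3
  have hlq : c.lc v q = c.lc v x + t • e' := by
    have : c.tau v x (t • e') = c.tau v x (c.lc v q - c.lc v x) := by
      rw [← hbase, map_smul]
    have := conf_inj (c.tau_conf v x hu) (c.tau_pos hu) this
    rw [this]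
    abel
  rw [hlq] at h2 d2
  have h4 : ‖c.lc x' q'‖ = ‖c.tau w x'‖ * ‖mobD (c.eta v w) (T.th v w) (c.lc v x + t • e') -
      mobD (c.eta v w) (T.th v w) (c.lc v x)‖ := by
    rw [hbase', c.tau_conf w x' hu', h1, h2]
  rw [h3, mobD_norm (c.eta_conf x x' hsx) _ _ (by linarith [d3] : den _ _ ≠ 0),
    mobD_dist (c.eta_conf v w hsv) _ _ _ (by intro h0; linarith) (by intro h0; linarith),
    add_sub_cancel_left, norm_smul, norm_smul, c.tau_conf v x hu, he', mul_one, mul_one,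
    Real.norm_of_nonneg ht.le] at h4
  have p1 : 0 < Real.sqrt (den (T.th v w) (c.lc v x)) := Real.sqrt_pos.2 (by linarith)
  have p2 : 0 < Real.sqrt (den (T.th v w) (c.lc v x + t • e')) := Real.sqrt_pos.2 (by linarith)
  have p3 : 0 < Real.sqrt (den (T.th x x') (t • c.tau v x e')) := Real.sqrt_pos.2 (by linarith)
  rw [mul_div_assoc', div_eq_div_iff p3.ne' (mul_pos p2 p1).ne'] at h4
  refine mul_left_cancel₀ ht.ne' ?_
  linear_combination h4

end N06Aux

/-- Local Moebius quadrilaterals. -/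
theorem qd_loc_d {c : CFD S D} (T : THD c) : QdLocD T := by
  have hTε := T.ε_le
  have hTp := T.ε_pos
  obtain ⟨ε, hε, hεT, ρ, hρ, hkey⟩ := N06Aux.key T
  refine ⟨ε, hε, hεT, ?_⟩
  intro v w x x' hvw hvx hxx hwx
  have hu : UAsym S v x := c.geo.uasym _ _ (hvx.mono (by linarith))
  have hu' : UAsym S w x' := c.geo.uasym _ _ (hwx.mono (by linarith))
  have hsv : SAsym S v w := c.geo.sasym _ _ (hvw.mono (by linarith))
  have hsx : SAsym S x x' := c.geo.sasym _ _ (hxx.mono (by linarith))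
  have h1 := T.mob v w x x' (hvw.mono hεT) (hvx.mono hεT) (hxx.mono hεT) (hwx.mono hεT)
  have d1 := N06Aux.den_ge (T.half v w x (hvw.mono hεT) (hvx.mono hεT))
  have hτ := c.tau_pos hu
  have hτ' := c.tau_pos hu'
  have hη := c.eta_pos hsv
  have hηx := c.eta_pos hsx
  have hD := c.hD
  -- a unit vector
  obtain ⟨e₀, he₀⟩ : ∃ e : Ve D, ‖e‖ = 1 := by
    refine ⟨EuclideanSpace.single ⟨0, by omega⟩ (1 : ℝ), ?_⟩
    simp
  have hsmall : ∀ e : Ve D, ‖e‖ = 1 → ∀ t : ℝ, 0 < t → t ≤ ρ / ‖c.tau v x‖ →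
      ‖t • c.tau v x e‖ ≤ ρ := by
    intro e he t ht htρ
    rw [norm_smul, c.tau_conf v x hu, he, mul_one, Real.norm_of_nonneg ht.le]
    rwa [le_div_iff₀ hτ] at htρ
  have hlim : ‖c.eta x x'‖ * ‖c.tau v x‖ * den (T.th v w) (c.lc v x) =
      ‖c.tau w x'‖ * ‖c.eta v w‖ := by
    have l1 : Tendsto (fun t : ℝ => ‖c.eta x x'‖ * ‖c.tau v x‖ *
        (Real.sqrt (den (T.th v w) (c.lc v x)) *
        Real.sqrt (den (T.th v w) (c.lc v x + t • e₀)))) (𝓝[>] 0)
        (𝓝 (‖c.eta x x'‖ * ‖c.tau v x‖ * (Real.sqrt (den (T.th v w) (c.lc v x)) *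
        Real.sqrt (den (T.th v w) (c.lc v x + (0 : ℝ) • e₀))))) := by
      refine Tendsto.mono_left ?_ nhdsWithin_le_nhds
      refine Continuous.tendsto ?_ 0
      have := N06Aux.den_line_cont (T.th v w) (c.lc v x) e₀
      exact continuous_const.mul (continuous_const.mul this.sqrt)
    have l2 : Tendsto (fun t : ℝ => ‖c.tau w x'‖ * ‖c.eta v w‖ *
        Real.sqrt (den (T.th x x') (0 + t • c.tau v x e₀))) (𝓝[>] 0)
        (𝓝 (‖c.tau w x'‖ * ‖c.eta v w‖ *
          Real.sqrt (den (T.th x x') (0 + (0 : ℝ) • c.tau v x e₀)))) := by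
      refine Tendsto.mono_left ?_ nhdsWithin_le_nhds
      refine Continuous.tendsto ?_ 0
      have := N06Aux.den_line_cont (T.th x x') 0 (c.tau v x e₀)
      exact continuous_const.mul this.sqrt
    have h2 := tendsto_nhds_unique_of_eventuallyEq l1 l2 (by
      filter_upwards [Ioc_mem_nhdsGT (show (0 : ℝ) < ρ / ‖c.tau v x‖ by positivity)] with t ht
      rw [zero_add]
      exact hkey v w x x' hvw hvx hxx hwx e₀ he₀ t ht.1 (hsmall e₀ he₀ t ht.1 ht.2))
    rw [zero_smul, zero_smul, add_zero, add_zero, N06Aux.den_zero_right, Real.sqrt_one, mul_one,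
      Real.mul_self_sqrt (by linarith)] at h2
    exact h2
  refine ⟨⟨hsv, hu, hsx, hu', by intro h0; linarith, h1, hlim⟩, ?_⟩
  intro hth
  by_contra hne
  rw [hth, N06Aux.den_zero_left, mul_one] at hlim
  -- the denominator is constant
  have hconst : ∀ t : ℝ, 0 < t → t ≤ ρ / ‖c.tau v x‖ →
      -2 * inner ℝ (T.th x x') (c.tau v x e₀) +
        ‖T.th x x'‖ ^ 2 * (t * ‖c.tau v x e₀‖ ^ 2) = 0 := by
    intro t ht htρ
    have h2 := hkey v w x x' hvw hvx hxx hwx e₀ he₀ t ht (hsmall e₀ he₀ t ht htρ)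
    rw [hth, N06Aux.den_zero_left, N06Aux.den_zero_left, Real.sqrt_one, mul_one, mul_one,
      hlim] at h2
    have h3 : Real.sqrt (den (T.th x x') (t • c.tau v x e₀)) = 1 := by
      have h4 : 0 < ‖c.tau w x'‖ * ‖c.eta v w‖ := by positivity
      have h5 : ‖c.tau w x'‖ * ‖c.eta v w‖ * 1 =
        ‖c.tau w x'‖ * ‖c.eta v w‖ * Real.sqrt (den (T.th x x') (t • c.tau v x e₀)) := by
        rw [mul_one]; exact h2
      exact (mul_left_cancel₀ h4.ne' h5).symm
    rw [Real.sqrt_eq_one] at h3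
    unfold den at h3
    rw [inner_smul_right, norm_smul, Real.norm_of_nonneg ht.le] at h3
    refine mul_left_cancel₀ ht.ne' ?_
    rw [mul_zero]
    linear_combination h3
  set t₀ := ρ / ‖c.tau v x‖ with ht₀
  have ht₀p : 0 < t₀ := by positivity
  have k1 := hconst t₀ ht₀p le_rfl
  have k2 := hconst (t₀ / 2) (by positivity) (by linarith)
  have k3 : ‖T.th x x'‖ ^ 2 * (t₀ / 2 * ‖c.tau v x e₀‖ ^ 2) = 0 := by
    linear_combination k1 - k2
  have k4 : 0 < ‖T.th x x'‖ := norm_pos_iff.2 hne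
  have k5 : 0 < ‖c.tau v x e₀‖ := by
    rw [c.tau_conf v x hu, he₀, mul_one]
    exact hτ
  have k6 : 0 < ‖T.th x x'‖ ^ 2 * (t₀ / 2 * ‖c.tau v x e₀‖ ^ 2) := by positivity
  exact k6.ne' k3

end Pool.Agent.H779R2.Nu
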