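import Pool.Agent.H779R2.Nu.N00

set_option autoImplicit false

namespace Pool.Agent.H779R2.Nu

open Pool.Agent.H721R2 Pool.Agent.H779R2.An Pool.Agent.H779R2.Li Filter Topology MeasureTheory
open scoped BigOperators

variable {X E : Type*} [MetricSpace X] [CompactSpace X] [NormedAddCommGroup E]
  [InnerProductSpace ℝ E] [FiniteDimensional ℝ E]

variable {S : HypSys X E} {D : ℕ}

/-- the norm of a composition of conformal maps -/
private theorem n07_norm_comp (hD : 2 ≤ D) {A B : Ve D →L[ℝ] Ve D} (hA : Conf A)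
    (hB : Conf B) : ‖A.comp B‖ = ‖A‖ * ‖B‖ := by
  refine le_antisymm (A.opNorm_comp_le B) ?_
  have hne : 0 < D := by omega
  have hv : ‖(EuclideanSpace.single (⟨0, hne⟩ : Fin D) (1 : ℝ) : Ve D)‖ = 1 := by simp
  have h1 := (A.comp B).le_opNorm (EuclideanSpace.single (⟨0, hne⟩ : Fin D) (1 : ℝ) : Ve D)
  rw [ContinuousLinearMap.comp_apply, hA, hB, hv] at h1
  linarith

/-- the denominator and conformal maps -/
private theorem n07_den (A : Ve D →L[ℝ] Ve D) (hA : Conf A) (b u : Ve D) :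
    den b (A u) = den (ContinuousLinearMap.adjoint A b) u := by
  unfold den
  rw [ContinuousLinearMap.adjoint_inner_left, hA.norm_adjoint_apply, hA u]
  ring

private theorem n07_mob_comp {A L : Ve D →L[ℝ] Ve D} (hL : Conf L) (b u : Ve D) :
    mobD A b (L u) = mobD (A.comp L) (ContinuousLinearMap.adjoint L b) u := by
  have h0 : den (0 : Ve D) u = 1 := by simp [den]
  have h1 : mobD L 0 u = L u := by simp [mobD, h0]
  have h2 := mobD_comp (A' := A) hL 0 b u (by rw [h0]; exact one_ne_zero)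
  rw [h1, zero_add] at h2
  exact h2

private theorem n07_comp_mob (A L : Ve D →L[ℝ] Ve D) (b u : Ve D) :
    mobD (L.comp A) b u = L (mobD A b u) := by
  unfold mobD
  rw [map_smul, ContinuousLinearMap.comp_apply]

/-- Composition of Moebius quadrilaterals in the stable direction. -/
theorem QdMD.comp {c : CFD S D} {T : THD c} {v w w' x x' x'' : X}
    (h : QdMD T v w x x') (h' : QdMD T w w' x' x'') : QdMD T v w' x x'' := by
  have hth : T.th v w' = T.th v w + ContinuousLinearMap.adjoint (c.eta v w) (T.th w w') :=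
    T.th_comp _ _ _ h.vw h'.vw
  have hev : (c.eta w w').comp (c.eta v w) = c.eta v w' := c.eta_comp _ _ _ h.vw h'.vw
  have hex : (c.eta x' x'').comp (c.eta x x') = c.eta x x'' := c.eta_comp _ _ _ h.xx h'.xx
  have hC := c.eta_conf v w h.vw
  have hden : den (T.th v w') (c.lc v x) =
      den (T.th v w) (c.lc v x) * den (T.th w w') (c.lc w x') := by
    rw [hth, den_mobD hC _ _ _ h.ne, h.lc_eq]
  have hnv : ‖c.eta v w'‖ = ‖c.eta w w'‖ * ‖c.eta v w‖ := by
    rw [← hev]; exact n07_norm_comp c.hD (c.eta_conf _ _ h'.vw) hC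
  have hnx : ‖c.eta x x''‖ = ‖c.eta x' x''‖ * ‖c.eta x x'‖ := by
    rw [← hex]; exact n07_norm_comp c.hD (c.eta_conf _ _ h'.xx) (c.eta_conf _ _ h.xx)
  refine ⟨h.vw.trans h'.vw, h.vx, h.xx.trans h'.xx, h'.wx, ?_, ?_, ?_⟩
  · rw [hden]
    exact mul_ne_zero h.ne h'.ne
  · rw [h'.lc_eq, h.lc_eq, mobD_comp hC _ _ _ h.ne, hev, hth]
  · rw [hden, hnv, hnx]
    linear_combination (‖c.eta x' x''‖ * den (T.th w w') (c.lc w x')) * h.eta_eq +
      ‖c.eta v w‖ * h'.eta_eq

/-- Invariance of Moebius quadrilaterals. -/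
theorem QdMD.map_iff {c : CFD S D} {T : THD c} {v w x x' : X} (n : ℕ) :
    QdMD T (S.g^[n] v) (S.g^[n] w) (S.g^[n] x) (S.g^[n] x') ↔ QdMD T v w x x' := by
  have key : ∀ (hvw : SAsym S v w) (hvx : UAsym S v x) (hxx : SAsym S x x')
      (hwx : UAsym S w x'),
      QdMD T (S.g^[n] v) (S.g^[n] w) (S.g^[n] x) (S.g^[n] x') ↔ QdMD T v w x x' := by
    intro hvw hvx hxx hwx
    have a1 := c.lc_iter hvx n
    have a2 := c.lc_iter hwx n
    have a3 := c.norm_tau_iter hvx n
    have a4 := c.norm_tau_iter hwx n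
    have a5 := c.eta_iter hvw n
    have a5' := c.norm_eta_iter hvw n
    have a6 := c.norm_eta_iter hxx n
    have a7 := T.th_iter hvw n
    have nv := c.Lp_pos n v
    have nw := c.Lp_pos n w
    have nx' := c.Lp_pos n x'
    have cv := c.Lp_conf n v
    have cw := c.Lp_conf n w
    have hden : den (T.th (S.g^[n] v) (S.g^[n] w)) (c.lc (S.g^[n] v) (S.g^[n] x)) =
        den (T.th v w) (c.lc v x) := by
      rw [a1, n07_den _ cv, a7]
    have e1 : c.lc (S.g^[n] w) (S.g^[n] x') = mobD (c.eta (S.g^[n] v) (S.g^[n] w))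
        (T.th (S.g^[n] v) (S.g^[n] w)) (c.lc (S.g^[n] v) (S.g^[n] x)) ↔
        c.lc w x' = mobD (c.eta v w) (T.th v w) (c.lc v x) := by
      rw [a1, a2, n07_mob_comp cv, a7, a5, n07_comp_mob]
      constructor
      · intro h
        have h1 : c.Lp n w (c.lc w x' - mobD (c.eta v w) (T.th v w) (c.lc v x)) = 0 := by
          rw [map_sub, h, sub_self]
        have h2 := cw (c.lc w x' - mobD (c.eta v w) (T.th v w) (c.lc v x))
        rw [h1, norm_zero] at h2
        rcases mul_eq_zero.mp h2.symm with h3 | h3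
        · exact absurd h3 nw.ne'
        · exact sub_eq_zero.mp (norm_eq_zero.mp h3)
      · intro h
        rw [h]
    have e2 : ‖c.eta (S.g^[n] x) (S.g^[n] x')‖ * ‖c.tau (S.g^[n] v) (S.g^[n] x)‖ *
        den (T.th v w) (c.lc v x) =
        ‖c.tau (S.g^[n] w) (S.g^[n] x')‖ * ‖c.eta (S.g^[n] v) (S.g^[n] w)‖ ↔
        ‖c.eta x x'‖ * ‖c.tau v x‖ * den (T.th v w) (c.lc v x) =
        ‖c.tau w x'‖ * ‖c.eta v w‖ := by
      have b1 : ‖c.eta (S.g^[n] x) (S.g^[n] x')‖ * ‖c.tau (S.g^[n] v) (S.g^[n] x)‖ *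
          ‖c.Lp n v‖ = ‖c.Lp n x'‖ * (‖c.eta x x'‖ * ‖c.tau v x‖) := by
        linear_combination ‖c.eta (S.g^[n] x) (S.g^[n] x')‖ * a3 + ‖c.tau v x‖ * a6
      have b2 : ‖c.tau (S.g^[n] w) (S.g^[n] x')‖ * ‖c.eta (S.g^[n] v) (S.g^[n] w)‖ *
          ‖c.Lp n v‖ = ‖c.Lp n x'‖ * (‖c.tau w x'‖ * ‖c.eta v w‖) := by
        linear_combination ‖c.tau (S.g^[n] w) (S.g^[n] x')‖ * a5' + ‖c.eta v w‖ * a4
      constructor
      · intro h
        refine mul_left_cancel₀ nx'.ne' ?_
        linear_combination ‖c.Lp n v‖ * h - (den (T.th v w) (c.lc v x)) * b1 + b2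
      · intro h
        refine mul_right_cancel₀ nv.ne' ?_
        linear_combination ‖c.Lp n x'‖ * h + (den (T.th v w) (c.lc v x)) * b1 - b2
    constructor
    · intro h
      have hn := h.ne
      have h1 := h.lc_eq
      have h2 := h.eta_eq
      rw [hden] at hn h2
      exact ⟨hvw, hvx, hxx, hwx, hn, e1.1 h1, e2.1 h2⟩
    · intro h
      refine ⟨hvw.iter n, hvx.iter n, hxx.iter n, hwx.iter n, ?_, e1.2 h.lc_eq, ?_⟩
      · rw [hden]; exact h.ne
      · rw [hden]; exact e2.2 h.eta_eq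
  constructor
  · intro h
    exact (key (SAsym.of_iter n h.vw) (UAsym.of_iter n h.vx) (SAsym.of_iter n h.xx)
      (UAsym.of_iter n h.wx)).1 h
  · intro h
    exact (key h.vw h.vx h.xx h.wx).2 h

end Pool.Agent.H779R2.Nu
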