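import Pool.Agent.H779R2.Nu.N07

set_option autoImplicit false

namespace Pool.Agent.H779R2.Nu

open Pool.Agent.H721R2 Pool.Agent.H779R2.An Pool.Agent.H779R2.Li Filter Topology MeasureTheory
open scoped BigOperators

variable {X E : Type*} [MetricSpace X] [CompactSpace X] [NormedAddCommGroup E]
  [InnerProductSpace ℝ E] [FiniteDimensional ℝ E]

variable {S : HypSys X E} {D : ℕ}

/-- the trivial quadrilateral -/
private theorem n08_refl {c : CFD S D} (T : THD c) {v x : X} (h1 : SAsym S v v)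
    (h2 : UAsym S v x) (h3 : SAsym S x x) : QdMD T v v x x := by
  have hd : den (T.th v v) (c.lc v x) = 1 := by simp [den, T.th_self]
  refine ⟨h1, h2, h3, h2, ?_, ?_, ?_⟩
  · rw [hd]; exact one_ne_zero
  · unfold mobD
    rw [hd, T.th_self, c.eta_self]
    simp
  · rw [hd, c.eta_self, c.eta_self]; ring

/-- Tracking. -/
theorem track_d {c : CFD S D} (T : THD c) (h : QdLocD T) : TrackD T := by
  have hTp := T.ε_pos
  have hM : (0 : ℝ) < c.M := by linarith [c.one_le_M]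
  have hgeo := c.geo
  have hε₀ := hgeo.pos
  refine ⟨T.ε / 2, by positivity, by linarith, ?_⟩
  intro v γ hγ hγ0 hrel B hB ω hω
  obtain ⟨εm, hεm, hεmT, hmob⟩ := h
  obtain ⟨ε2, hε2, hcor⟩ := exists_corner S εm hεm
  set ε3 := min εm ε2 with hε3
  have hε3p : 0 < ε3 := lt_min hεm hε2
  obtain ⟨ρ, hρ, hsmall⟩ := c.small ε3 hε3p
  have hpair : ∀ t ∈ Set.Icc (0 : ℝ) 1, ∀ s ∈ Set.Icc (0 : ℝ) 1, S.SRel c.ε₀ (γ t) (γ s) := by
    intro t ht s hs
    have h1 := (hrel t ht).symm.trans (hrel s hs)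
    rw [add_halves] at h1
    exact h1.mono T.ε_le
  have hvt : ∀ t ∈ Set.Icc (0 : ℝ) 1, S.SRel c.ε₀ v (γ t) := fun t ht =>
    (hrel t ht).mono (by linarith [T.ε_le])
  set B' := c.M * B / ω with hB'
  have hB0 : 0 ≤ B' := by positivity
  -- level
  obtain ⟨n, hn⟩ : ∃ n : ℕ, B' * (1 / 16 : ℝ) ^ n ≤ ρ := by
    have h1 : Tendsto (fun k : ℕ => B' * (1 / 16 : ℝ) ^ k) atTop (𝓝 (B' * 0)) :=
      (tendsto_pow_atTop_nhds_zero_of_lt_one (by norm_num) (by norm_num)).const_mul B'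
    rw [mul_zero] at h1
    obtain ⟨n, hn⟩ := ((tendsto_order.mp h1).2 ρ hρ).exists
    exact ⟨n, hn.le⟩
  obtain ⟨δ, hδ, hlevel⟩ := SRel_level hgeo n ε3 hε3p
  -- uniform continuity
  have huc : UniformContinuousOn γ (Set.Icc 0 1) := isCompact_Icc.uniformContinuousOn_of_continuous hγ
  obtain ⟨r, hr, huc⟩ := Metric.uniformContinuousOn_iff.mp huc δ hδ
  obtain ⟨m, hm⟩ := exists_nat_gt (1 / r)
  have hm0 : (0 : ℝ) < m := lt_trans (by positivity) hm
  have hm1 : (1 : ℝ) / m < r := by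
    rw [div_lt_iff₀ hm0]
    rw [div_lt_iff₀ hr] at hm
    linarith
  have hti : ∀ i : ℕ, i ≤ m → (i : ℝ) / m ∈ Set.Icc (0 : ℝ) 1 := by
    intro i hi
    refine ⟨by positivity, ?_⟩
    rw [div_le_one hm0]
    exact_mod_cast hi
  -- the number of further iterates
  obtain ⟨n₀, hn₀⟩ : ∃ n₀ : ℕ, c.ε₀ * (1 / 8 : ℝ) ^ n₀ ≤ c.ε₀ / m := by
    have h1 : Tendsto (fun k : ℕ => c.ε₀ * (1 / 8 : ℝ) ^ k) atTop (𝓝 (c.ε₀ * 0)) :=
      (tendsto_pow_atTop_nhds_zero_of_lt_one (by norm_num) (by norm_num)).const_mul c.ε₀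
    rw [mul_zero] at h1
    obtain ⟨n, hn⟩ := ((tendsto_order.mp h1).2 (c.ε₀ / m) (by positivity)).exists
    exact ⟨n, hn.le⟩
  refine ⟨n₀, ?_⟩
  intro x hvx hxB hden
  have hstep : ∀ i : ℕ, i ≤ m → ∃ x', QdMD T v (γ ((i : ℝ) / m)) x x' ∧
      S.SRel (i * (c.ε₀ / m)) (S.g^[n₀] x) (S.g^[n₀] x') := by
    intro i
    induction i with
    | zero =>
      intro _
      rw [Nat.cast_zero, zero_div, hγ0]
      have hsv : SAsym S v v := by
        have h0 := hvt 0 ⟨le_rfl, zero_le_one⟩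
        rw [hγ0] at h0
        exact hgeo.sasym _ _ h0
      have hrr : ∀ z : X, S.SRel 0 z z := fun z k => by simp
      refine ⟨x, n08_refl T hsv hvx (hgeo.sasym _ _ ((hrr x).mono hε₀.le)), ?_⟩
      rw [zero_mul]
      exact hrr _
    | succ i ih =>
      intro hi
      obtain ⟨xi, hqi, hsi⟩ := ih (by omega)
      have ht := hti i (by omega)
      have hs := hti (i + 1) hi
      set t := (i : ℝ) / m with htdef
      set s := ((i + 1 : ℕ) : ℝ) / m with hsdef
      have hts : dist (γ t) (γ s) ≤ δ := by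
        refine (huc t ht s hs ?_).le
        rw [Real.dist_eq, htdef, hsdef, ← sub_div]
        push_cast
        rw [sub_add_cancel_left, abs_div, abs_neg, abs_one, abs_of_pos hm0]
        exact hm1
      have hww := hlevel _ _ (hpair t ht s hs) hts
      have hui := hqi.wx
      set w := S.g.symm^[n] (γ t) with hw
      set w' := S.g.symm^[n] (γ s) with hw'
      set y := S.g.symm^[n] xi with hy
      have hgw : S.g^[n] w = γ t := iter_iter_symm S n _
      have hgw' : S.g^[n] w' = γ s := iter_iter_symm S n _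
      have hgy : S.g^[n] y = xi := iter_iter_symm S n _
      have hwy : UAsym S w y := hui.symm_iter n
      have hlcn := c.lc_iter hwy n
      rw [hgw, hgy] at hlcn
      have hlcs : ‖c.lc w y‖ ≤ ρ := by
        have h1 : ‖c.lc (γ t) xi‖ ≤ B' := by
          rw [hqi.lc_eq, mobD_norm (c.eta_conf _ _ hqi.vw) _ _ hqi.ne]
          have h1 := c.eta_le _ _ (hvt t ht)
          exact div_le_div₀ (by positivity) (mul_le_mul h1 hxB (norm_nonneg _) hM.le) hω
            (hden t ht)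
        rw [hlcn, c.Lp_conf n w] at h1
        have h2 := c.Lp_ge n w
        have h3 : (16 : ℝ) ^ n * ‖c.lc w y‖ ≤ B' :=
          (mul_le_mul_of_nonneg_right h2 (norm_nonneg _)).trans h1
        have h4 : ‖c.lc w y‖ = (1 / 16 : ℝ) ^ n * (16 ^ n * ‖c.lc w y‖) := by
          rw [← mul_assoc, ← mul_pow]; norm_num
        rw [h4]
        calc _ ≤ (1 / 16 : ℝ) ^ n * B' := mul_le_mul_of_nonneg_left h3 (by positivity)
          _ = B' * (1 / 16 : ℝ) ^ n := mul_comm _ _
          _ ≤ ρ := hn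
      have hury := hsmall w y hwy hlcs
      obtain ⟨y', hy'1, hy'2⟩ := hcor w w' y (hww.mono (min_le_right _ _))
        (hury.mono (min_le_right _ _))
      have hεmc : εm ≤ c.ε₀ := hεmT.trans T.ε_le
      have hq := (hmob w w' y y' (hww.mono (min_le_left _ _)) (hury.mono (min_le_left _ _)) hy'2
        hy'1).1
      have hq2 := (QdMD.map_iff (T := T) n).2 hq
      rw [hgw, hgw', hgy] at hq2
      refine ⟨S.g^[n] y', hqi.comp hq2, ?_⟩
      have hss : S.SRel (c.ε₀ / m) (S.g^[n₀] xi) (S.g^[n₀] (S.g^[n] y')) := by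
        intro k
        rw [← hgy, ← Function.iterate_add_apply, ← Function.iterate_add_apply,
          ← Function.iterate_add_apply, ← Function.iterate_add_apply]
        have h1 := hgeo.scontr y y' (hy'2.mono hεmc) (k + n₀ + n)
        have h2 : dist y y' ≤ c.ε₀ := (hy'2.mono hεmc).dist_le
        have h3 : ((1 : ℝ) / 8) ^ (k + n₀ + n) ≤ (1 / 8) ^ n₀ :=
          pow_le_pow_of_le_one (by norm_num) (by norm_num) (by omega)
        calc _ ≤ (1 / 8 : ℝ) ^ (k + n₀ + n) * dist y y' := h1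
          _ ≤ (1 / 8 : ℝ) ^ n₀ * c.ε₀ := by gcongr
          _ = c.ε₀ * (1 / 8 : ℝ) ^ n₀ := mul_comm _ _
          _ ≤ _ := hn₀
      have h5 := hsi.trans hss
      have h6 : (i : ℝ) * (c.ε₀ / m) + c.ε₀ / m = ((i + 1 : ℕ) : ℝ) * (c.ε₀ / m) := by
        push_cast; ring
      rw [h6] at h5
      exact h5
  obtain ⟨x', h1, h2⟩ := hstep m le_rfl
  rw [div_self hm0.ne'] at h1
  refine ⟨x', h1, ?_⟩
  have h3 : (m : ℝ) * (c.ε₀ / m) = c.ε₀ := by field_simp
  rw [h3] at h2
  exact h2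

end Pool.Agent.H779R2.Nu
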