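import Pool.Agent.H779R2.Nu.N00

set_option autoImplicit false

namespace Pool.Agent.H779R2.Nu

open Pool.Agent.H721R2 Pool.Agent.H779R2.An Pool.Agent.H779R2.Li Filter Topology MeasureTheory
open scoped BigOperators

variable {X E : Type*} [MetricSpace X] [CompactSpace X] [NormedAddCommGroup E]
  [InnerProductSpace ℝ E] [FiniteDimensional ℝ E]

variable {S : HypSys X E} {D : ℕ}

/-- Boundedness of the sums. -/
theorem af_bdd_d (c : CFD S D) (s : ℝ) (hs : 0 < s) : BddD c s := by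
  intro n
  obtain ⟨C, hC, hτ⟩ := tau_bound_d c 1
  have hM := c.one_le_M
  have hMn : (1 : ℝ) ≤ c.M ^ n := one_le_pow₀ hM
  have hCM : 0 < C * c.M ^ n := by positivity
  have hD1 : 1 ≤ D := le_trans (by norm_num) c.hD
  refine ⟨(2 * 1 / (1 / (C * c.M ^ n)) + 1) ^ D, ?_⟩
  rintro t ⟨x, Q, hQ, rfl⟩
  have hcard := packing_d hD1 Q (c.lc x) 0 1 (1 / (C * c.M ^ n)) zero_le_one (by positivity)
    (fun q hq => by rw [sub_zero]; exact (hQ.mem q hq).2) (fun q hq q' hq' hne => by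
      have hxq := (hQ.mem q hq).1
      have hxq' := (hQ.mem q' hq').1
      have h1 := hQ.sep q hq q' hq' hne
      rw [c.lc_iter (hxq.symm.trans hxq') n, c.base x q q' hxq hxq', c.Lp_conf n q,
        c.tau_conf x q hxq] at h1
      have h2 := (hτ x q hxq (hQ.mem q hq).2).1
      have h3 := c.Lp_le n q
      rw [div_le_iff₀ hCM, norm_sub_rev]
      calc 1 ≤ ‖c.Lp n q‖ * (‖c.tau x q‖ * ‖c.lc x q' - c.lc x q‖) := h1
        _ ≤ c.M ^ n * (C * ‖c.lc x q' - c.lc x q‖) := by gcongr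
        _ = ‖c.lc x q' - c.lc x q‖ * (C * c.M ^ n) := by ring)
  refine le_trans ?_ hcard
  unfold dsumD
  calc ∑ q ∈ Q, frD c n q ^ s ≤ ∑ _q ∈ Q, (1 : ℝ) := Finset.sum_le_sum fun q _ => by
        apply Real.rpow_le_one (inv_nonneg.2 (norm_nonneg _)) _ hs.le
        have h4 : (1 : ℝ) ≤ ‖c.Lp n q‖ :=
          le_trans (one_le_pow₀ (by norm_num)) (c.Lp_ge n q)
        exact inv_le_one_of_one_le₀ h4
    _ = Q.card := by simp

end Pool.Agent.H779R2.Nu
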