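import Pool.Agent.H779R2.Nu.N00

set_option autoImplicit false

namespace Pool.Agent.H779R2.Nu

open Pool.Agent.H721R2 Pool.Agent.H779R2.An Pool.Agent.H779R2.Li Filter Topology MeasureTheory
open scoped BigOperators

/-- weighted greedy selection of an independent set -/
theorem greedy_d {Y : Type*} (w : Y → ℝ) (hw : ∀ q, 0 ≤ w q) (rel : Y → Y → Prop)
    (hrefl : ∀ q, rel q q) (hsymm : ∀ q q', rel q q' → rel q' q) (D : ℝ) (n : ℕ) :
    ∀ Q : Finset Y, Q.card = n →
      (∀ q ∈ Q, ∀ N : Finset Y, N ⊆ Q → (∀ q' ∈ N, rel q q') → (N.card : ℝ) ≤ D) →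
    ∃ Q' ⊆ Q, (∀ q ∈ Q', ∀ q' ∈ Q', q ≠ q' → ¬ rel q q') ∧
      ∑ q ∈ Q, w q ≤ D * ∑ q ∈ Q', w q := by
  classical
  induction n using Nat.strong_induction_on with
  | _ n ih =>
    intro Q hQ hD
    rcases Q.eq_empty_or_nonempty with rfl | hne
    · exact ⟨∅, by simp, by simp, by simp⟩
    obtain ⟨q₀, hq₀, hmax⟩ := Finset.exists_max_image Q w hne
    have hlt : (Q.filter (fun q => ¬ rel q₀ q)).card < n := by
      rw [← hQ]
      apply Finset.card_lt_card
      refine ⟨Finset.filter_subset _ _, fun h => ?_⟩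
      exact (Finset.mem_filter.1 (h hq₀)).2 (hrefl q₀)
    obtain ⟨Q', hQ', hind, hsum⟩ := ih _ hlt (Q.filter (fun q => ¬ rel q₀ q)) rfl
      (fun q hq N hN hr => hD q (Finset.mem_filter.1 hq).1 N
        (hN.trans (Finset.filter_subset _ _)) hr)
    have hq₀' : q₀ ∉ Q' := fun h => (Finset.mem_filter.1 (hQ' h)).2 (hrefl q₀)
    refine ⟨insert q₀ Q', ?_, ?_, ?_⟩
    · intro q hq
      rcases Finset.mem_insert.1 hq with rfl | h
      · exact hq₀
      · exact (Finset.mem_filter.1 (hQ' h)).1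
    · intro q hq q' hq' hne'
      rcases Finset.mem_insert.1 hq with h1 | h1
      · rcases Finset.mem_insert.1 hq' with h2 | h2
        · exact absurd (h1.trans h2.symm) hne'
        · rw [h1]; exact (Finset.mem_filter.1 (hQ' h2)).2
      · rcases Finset.mem_insert.1 hq' with h2 | h2
        · rw [h2]; intro h; exact (Finset.mem_filter.1 (hQ' h1)).2 (hsymm _ _ h)
        · exact hind q h1 q' h2 hne'
    · rw [Finset.sum_insert hq₀', mul_add,
        ← Finset.sum_filter_add_sum_filter_not Q (fun q => rel q₀ q) w]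
      refine add_le_add ?_ hsum
      calc ∑ q ∈ Q.filter (fun q => rel q₀ q), w q
          ≤ ∑ _q ∈ Q.filter (fun q => rel q₀ q), w q₀ :=
            Finset.sum_le_sum fun q hq => hmax q (Finset.mem_filter.1 hq).1
        _ = (Q.filter (fun q => rel q₀ q)).card * w q₀ := by
            rw [Finset.sum_const, nsmul_eq_mul]
        _ ≤ D * w q₀ := mul_le_mul_of_nonneg_right
            (hD q₀ hq₀ _ (Finset.filter_subset _ _) (fun q hq => (Finset.mem_filter.1 hq).2))
            (hw q₀)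

variable {X E : Type*} [MetricSpace X] [CompactSpace X] [NormedAddCommGroup E]
  [InnerProductSpace ℝ E] [FiniteDimensional ℝ E]

variable {S : HypSys X E} {D : ℕ}

theorem Lp_mono_d (c : CFD S D) (n m : ℕ) (x : X) : ‖c.Lp n x‖ ≤ ‖c.Lp (n + m) x‖ := by
  rw [Nat.add_comm n m, c.norm_Lp_add m n x]
  have h1 : (1 : ℝ) ≤ ‖c.Lp m (S.g^[n] x)‖ :=
    le_trans (one_le_pow₀ (by norm_num)) (c.Lp_ge m _)
  have h2 := norm_nonneg (c.Lp n x)
  nlinarith

/-- Selection of a separated subset at an earlier time. -/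
theorem dsel_d (c : CFD S D) (s : ℝ) (hs : 0 < s) : SelD c s := by
  intro ρ hρ θ hθ m
  obtain ⟨C₁, hC₁, hτ₁⟩ := tau_bound_d c 1
  have hM := c.one_le_M
  have hMm : (1 : ℝ) ≤ c.M ^ m := one_le_pow₀ hM
  have hA : 0 < c.M ^ m * C₁ := by positivity
  have hD1 : 1 ≤ D := le_trans (by norm_num) c.hD
  obtain ⟨C₂, hC₂, hτ₂⟩ := tau_bound_d c (c.M ^ m * C₁)
  refine ⟨(2 * (c.M ^ m * C₁) / (θ / C₂) + 1) ^ D, by positivity, ?_⟩
  intro n x Q hQ
  have hU : ∀ q ∈ Q, ∀ q' ∈ Q, UAsym S q q' := fun q hq q' hq' =>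
    (hQ.mem q hq).1.symm.trans (hQ.mem q' hq').1
  obtain ⟨Q', hQ', hind, hsum⟩ := greedy_d (fun q => frD c (n + m) q ^ s)
    (fun q => Real.rpow_nonneg (inv_nonneg.2 (norm_nonneg _)) _)
    (fun q q' => ‖c.lc (S.g^[n] q) (S.g^[n] q')‖ < 1 ∨ ‖c.lc (S.g^[n] q') (S.g^[n] q)‖ < 1)
    (fun q => by left; rw [c.lc_self, norm_zero]; exact one_pos)
    (fun q q' h => h.symm) ((2 * (c.M ^ m * C₁) / (θ / C₂) + 1) ^ D) Q.card Q rfl
    (by
      intro q hq N hN hr
      have hnear : ∀ q' ∈ N, ‖c.lc (S.g^[n + m] q) (S.g^[n + m] q')‖ ≤ c.M ^ m * C₁ := by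
        intro q' hq'
        have hu : UAsym S (S.g^[n] q) (S.g^[n] q') := (hU q hq q' (hN hq')).iter n
        have h1 : ‖c.lc (S.g^[n] q) (S.g^[n] q')‖ ≤ C₁ := by
          rcases hr q' hq' with h | h
          · exact h.le.trans hC₁
          · rw [c.base _ _ _ hu.symm (hu.symm.trans hu), c.lc_self, zero_sub,
              c.tau_conf _ _ hu.symm, norm_neg]
            have h2 := (hτ₁ _ _ hu.symm h.le).1
            calc _ ≤ C₁ * 1 := by gcongr
              _ = C₁ := mul_one _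
        rw [Nat.add_comm n m, Function.iterate_add_apply, Function.iterate_add_apply,
          c.lc_iter hu m, c.Lp_conf m]
        have h3 := c.Lp_le m (S.g^[n] q)
        gcongr
      refine packing_d hD1 N (fun q' => c.lc (S.g^[n + m] q) (S.g^[n + m] q')) 0 (c.M ^ m * C₁)
        (θ / C₂) hA.le (by positivity) (fun q' hq' => by rw [sub_zero]; exact hnear q' hq') ?_
      intro q' hq' q'' hq'' hne
      have h1 := hQ.sep q' (hN hq') q'' (hN hq'') hne
      have hu' : UAsym S (S.g^[n + m] q) (S.g^[n + m] q') := (hU q hq q' (hN hq')).iter _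
      have hu'' : UAsym S (S.g^[n + m] q) (S.g^[n + m] q'') := (hU q hq q'' (hN hq'')).iter _
      rw [c.base _ _ _ hu' hu'', c.tau_conf _ _ hu'] at h1
      have h2 := (hτ₂ _ _ hu' (hnear q' hq')).1
      rw [div_le_iff₀ (by positivity)]
      show θ ≤ ‖c.lc (S.g^[n + m] q) (S.g^[n + m] q') - c.lc (S.g^[n + m] q) (S.g^[n + m] q'')‖ * C₂
      rw [norm_sub_rev]
      calc θ ≤ _ := h1
        _ ≤ C₂ * ‖c.lc (S.g^[n + m] q) (S.g^[n + m] q'') - c.lc (S.g^[n + m] q) (S.g^[n + m] q')‖ := by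
            gcongr
        _ = _ := mul_comm _ _)
  refine ⟨Q', hQ', ⟨fun q hq => hQ.mem q (hQ' hq), fun q hq q' hq' hne => ?_⟩, ?_⟩
  · have h := hind q hq q' hq' hne
    push Not at h
    exact h.1
  · refine hsum.trans ?_
    apply mul_le_mul_of_nonneg_left _ (by positivity)
    unfold dsumD
    apply Finset.sum_le_sum
    intro q _
    apply Real.rpow_le_rpow (inv_nonneg.2 (norm_nonneg _)) _ hs.le
    exact inv_anti₀ (c.Lp_pos n q) (Lp_mono_d c n m q)

end Pool.Agent.H779R2.Nu
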