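import Pool.Agent.H779R2.Nu.N00

set_option autoImplicit false

namespace Pool.Agent.H779R2.Nu

open Pool.Agent.H721R2 Pool.Agent.H779R2.An Pool.Agent.H779R2.Li Filter Topology MeasureTheory
open scoped BigOperators

variable {X E : Type*} [MetricSpace X] [CompactSpace X] [NormedAddCommGroup E]
  [InnerProductSpace ℝ E] [FiniteDimensional ℝ E]

variable {S : HypSys X E} {D : ℕ}

namespace N11Aux

theorem frD_pos (c : CFD S D) (n : ℕ) (x : X) : 0 < frD c n x := inv_pos.2 (c.Lp_pos n x)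

theorem frD_le_one (c : CFD S D) (n : ℕ) (x : X) : frD c n x ≤ 1 :=
  inv_le_one_of_one_le₀ (le_trans (one_le_pow₀ (by norm_num)) (c.Lp_ge n x))

theorem dsumD_nonneg (c : CFD S D) (s : ℝ) (n : ℕ) (Q : Finset X) : 0 ≤ dsumD c s n Q :=
  Finset.sum_nonneg fun q _ => Real.rpow_nonneg (frD_pos c n q).le s

theorem AfD_nonneg (c : CFD S D) (s : ℝ) (n : ℕ) : 0 ≤ AfD c s n := by
  apply Real.sSup_nonneg
  rintro t ⟨x, Q, _, rfl⟩
  exact dsumD_nonneg c s n Q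

theorem sum_biUnion_le' {Y : Type*} [DecidableEq Y] (f : Y → ℝ) (hf : ∀ y, 0 ≤ f y)
    (W : Finset Y) (t : Y → Finset Y) : ∑ y ∈ W.biUnion t, f y ≤ ∑ w ∈ W, ∑ y ∈ t w, f y := by
  induction W using Finset.induction_on with
  | empty => simp
  | insert a W ha ih =>
    rw [Finset.biUnion_insert, Finset.sum_insert ha]
    have h1 := Finset.sum_union_inter (s₁ := t a) (s₂ := W.biUnion t) (f := f)
    have h2 : 0 ≤ ∑ y ∈ t a ∩ W.biUnion t, f y := Finset.sum_nonneg fun y _ => hf y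
    linarith

theorem frD_add (c : CFD S D) (k m : ℕ) (x : X) :
    frD c (m + k) x = frD c k x * frD c m (S.g^[k] x) := by
  unfold frD
  rw [c.norm_Lp_add, mul_inv, mul_comm]

/-- a finite set is the union of few classes of small diameter -/
theorem classes (hD : 1 ≤ D) {Y : Type*} (Q : Finset Y) (f : Y → Ve D) (a : Ve D) (ρ r : ℝ)
    (hρ : 0 ≤ ρ) (hr : 0 < r) (h1 : ∀ x ∈ Q, ‖f x - a‖ ≤ ρ) :
    ∃ W ⊆ Q, (W.card : ℝ) ≤ (2 * ρ / r + 1) ^ D ∧ ∀ x ∈ Q, ∃ y ∈ W, ‖f x - f y‖ < r := by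
  classical
  obtain ⟨P, hP⟩ : ∃ P : Finset Y → Prop,
    ∀ W, P W ↔ ∀ x ∈ W, ∀ x' ∈ W, x ≠ x' → r ≤ ‖f x - f x'‖ := ⟨_, fun _ => Iff.rfl⟩
  obtain ⟨W, hW, hmax⟩ := Finset.exists_max_image (Q.powerset.filter P) Finset.card
    ⟨∅, by rw [Finset.mem_filter, Finset.mem_powerset, hP]; simp⟩
  rw [Finset.mem_filter, Finset.mem_powerset, hP] at hW
  refine ⟨W, hW.1, packing_d hD W f a ρ r hρ hr (fun x hx => h1 x (hW.1 hx)) hW.2, ?_⟩
  intro x hx
  by_contra hcon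
  push Not at hcon
  have hxW : x ∉ W := fun h => by
    have := hcon x h
    simp at this
    linarith
  have := hmax (insert x W) (by
    rw [Finset.mem_filter, Finset.mem_powerset, hP]
    refine ⟨Finset.insert_subset hx hW.1, ?_⟩
    intro y hy y' hy' hne
    rcases Finset.mem_insert.mp hy with h1 | h1
    · rcases Finset.mem_insert.mp hy' with h3 | h3
      · exact absurd (h1.trans h3.symm) hne
      · rw [h1]; exact hcon y' h3
    · rcases Finset.mem_insert.mp hy' with h3 | h3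
      · rw [norm_sub_rev, h3]; exact hcon y h1
      · exact hW.2 y h1 y' h3 hne)
  rw [Finset.card_insert_of_notMem hxW] at this
  omega

/-- discs of radius `ρ` -/
theorem dsum_le (c : CFD S D) (s : ℝ) (hb : BddD c s) (hsel : SelD c s) (ρ θ : ℝ)
    (hρ : 0 < ρ) (hθ : 0 < θ) : ∃ C : ℝ, 0 < C ∧ ∀ (n : ℕ) (x : X) (Q : Finset X),
      DSepD c n x ρ θ Q → dsumD c s n Q ≤ C * AfD c s n := by
  classical
  obtain ⟨C₀, hC₀, htau⟩ := tau_bound_d c ρ
  obtain ⟨C₁, hC₁, hsel⟩ := hsel 1 one_pos θ hθ 0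
  have hC₀' : 0 < C₀ := lt_of_lt_of_le one_pos hC₀
  have hr : 0 < C₀⁻¹ := inv_pos.2 hC₀'
  refine ⟨(2 * ρ / C₀⁻¹ + 1) ^ D * C₁, by positivity, fun n x Q hQ => ?_⟩
  obtain ⟨W, hWQ, hWc, hcov⟩ := classes (le_trans (by norm_num) c.hD) Q (c.lc x) 0 ρ C₀⁻¹ hρ.le hr
    (fun q hq => by rw [sub_zero]; exact (hQ.mem q hq).2)
  have hcls : ∀ w ∈ W, dsumD c s n (Q.filter (fun q => ‖c.lc x q - c.lc x w‖ < C₀⁻¹)) ≤
      C₁ * AfD c s n := by
    intro w hw
    have hw1 := hQ.mem w (hWQ hw)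
    have hd : DSepD c (n + 0) w 1 θ (Q.filter (fun q => ‖c.lc x q - c.lc x w‖ < C₀⁻¹)) := by
      constructor
      · intro q hq
        rw [Finset.mem_filter] at hq
        have hq1 := hQ.mem q hq.1
        refine ⟨hw1.1.symm.trans hq1.1, ?_⟩
        rw [c.base x w q hw1.1 hq1.1]
        calc ‖c.tau x w (c.lc x q - c.lc x w)‖ ≤ ‖c.tau x w‖ * ‖c.lc x q - c.lc x w‖ :=
              ContinuousLinearMap.le_opNorm _ _
          _ ≤ C₀ * C₀⁻¹ :=
              mul_le_mul (htau x w hw1.1 hw1.2).1 hq.2.le (norm_nonneg _) hC₀'.le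
          _ = 1 := mul_inv_cancel₀ hC₀'.ne'
      · intro q hq q' hq' hne
        rw [Finset.mem_filter] at hq hq'
        exact hQ.sep q hq.1 q' hq'.1 hne
    obtain ⟨Q', hQ', hQ'd, hle⟩ := hsel n w _ hd
    rw [Nat.add_zero] at hle
    refine le_trans hle ?_
    apply mul_le_mul_of_nonneg_left _ hC₁.le
    exact le_csSup (hb n) ⟨w, Q', hQ'd, rfl⟩
  have hsub : Q ⊆ W.biUnion (fun w => Q.filter (fun q => ‖c.lc x q - c.lc x w‖ < C₀⁻¹)) := by
    intro q hq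
    obtain ⟨w, hw, hqw⟩ := hcov q hq
    exact Finset.mem_biUnion.mpr ⟨w, hw, Finset.mem_filter.mpr ⟨hq, hqw⟩⟩
  have hnn : ∀ q : X, 0 ≤ frD c n q ^ s := fun q => Real.rpow_nonneg (frD_pos c n q).le s
  calc dsumD c s n Q ≤ ∑ q ∈ W.biUnion (fun w => Q.filter
          (fun q => ‖c.lc x q - c.lc x w‖ < C₀⁻¹)), frD c n q ^ s :=
        Finset.sum_le_sum_of_subset_of_nonneg hsub (fun q _ _ => hnn q)
    _ ≤ ∑ w ∈ W, ∑ q ∈ Q.filter (fun q => ‖c.lc x q - c.lc x w‖ < C₀⁻¹), frD c n q ^ s :=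
        sum_biUnion_le' _ hnn _ _
    _ ≤ ∑ _w ∈ W, C₁ * AfD c s n := Finset.sum_le_sum hcls
    _ = (W.card : ℝ) * (C₁ * AfD c s n) := by rw [Finset.sum_const, nsmul_eq_mul]
    _ ≤ (2 * ρ / C₀⁻¹ + 1) ^ D * (C₁ * AfD c s n) :=
        mul_le_mul_of_nonneg_right hWc (mul_nonneg hC₁.le (AfD_nonneg c s n))
    _ = (2 * ρ / C₀⁻¹ + 1) ^ D * C₁ * AfD c s n := by ring

end N11Aux

/-- Small discs. -/
theorem dsum_small_d (c : CFD S D) (s : ℝ) (hs : 0 < s) (hb : BddD c s) (hsel : SelD c s) :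
    SmallD c s := by
  classical
  intro ρ hρ θ hθ
  obtain ⟨C₀, hC₀, htau⟩ := tau_bound_d c ρ
  obtain ⟨C₁, hC₁, hle⟩ := N11Aux.dsum_le c s hb hsel ρ θ hρ hθ
  have hC₀' : 0 < C₀ := lt_of_lt_of_le one_pos hC₀
  refine ⟨(C₀ * C₀) ^ s * C₁, by positivity, fun n k x Q hkn hQ => ?_⟩
  have hfrx := N11Aux.frD_pos c k x
  have hLx := c.Lp_pos k x
  have hinj : Function.Injective (fun q => S.g^[k] q) := S.g.injective.iterate k
  have hlck : ∀ q ∈ Q, ‖c.lc (S.g^[k] x) (S.g^[k] q)‖ ≤ ρ := by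
    intro q hq
    have h1 := hQ.mem q hq
    rw [c.lc_iter h1.1 k]
    calc ‖c.Lp k x (c.lc x q)‖ ≤ ‖c.Lp k x‖ * ‖c.lc x q‖ := ContinuousLinearMap.le_opNorm _ _
      _ ≤ ‖c.Lp k x‖ * (ρ * frD c k x) :=
          mul_le_mul_of_nonneg_left h1.2 hLx.le
      _ = ρ := by unfold frD; field_simp
  have hd : DSepD c (n - k) (S.g^[k] x) ρ θ (Q.image (fun q => S.g^[k] q)) := by
    constructor
    · intro y hy
      obtain ⟨q, hq, rfl⟩ := Finset.mem_image.mp hy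
      exact ⟨(hQ.mem q hq).1.iter k, hlck q hq⟩
    · intro y hy y' hy' hne
      obtain ⟨q, hq, rfl⟩ := Finset.mem_image.mp hy
      obtain ⟨q', hq', rfl⟩ := Finset.mem_image.mp hy'
      have hne' : q ≠ q' := fun h => hne (by rw [h])
      have h1 := hQ.sep q hq q' hq' hne'
      rw [← Function.iterate_add_apply, ← Function.iterate_add_apply, Nat.sub_add_cancel hkn]
      exact h1
  have hfr : ∀ q ∈ Q, frD c k q ≤ C₀ * C₀ * frD c k x := by
    intro q hq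
    have h1 := hQ.mem q hq
    have h2 : ‖c.lc x q‖ ≤ ρ := le_trans h1.2 (by
      have := N11Aux.frD_le_one c k x
      nlinarith)
    have h3 := (htau x q h1.1 h2).1
    have h4 := (htau _ _ (h1.1.iter k) (hlck q hq)).2
    have h5 := c.norm_tau_iter h1.1 k
    have hLq := c.Lp_pos k q
    unfold frD
    rw [← div_eq_mul_inv, le_div_iff₀ hLx, ← div_eq_inv_mul, div_le_iff₀ hLq]
    calc ‖c.Lp k x‖ ≤ (C₀ * ‖c.tau (S.g^[k] x) (S.g^[k] q)‖) * ‖c.Lp k x‖ := by nlinarith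
      _ = C₀ * (‖c.Lp k q‖ * ‖c.tau x q‖) := by rw [mul_assoc, h5]
      _ ≤ C₀ * (‖c.Lp k q‖ * C₀) := by gcongr
      _ = C₀ * C₀ * ‖c.Lp k q‖ := by ring
  have hterm : ∀ q ∈ Q, frD c n q ^ s ≤
      (C₀ * C₀ * frD c k x) ^ s * frD c (n - k) (S.g^[k] q) ^ s := by
    intro q hq
    have h1 : frD c n q = frD c k q * frD c (n - k) (S.g^[k] q) := by
      rw [← N11Aux.frD_add, Nat.sub_add_cancel hkn]
    have h2 := N11Aux.frD_pos c k q
    have h3 := N11Aux.frD_pos c (n - k) (S.g^[k] q)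
    rw [h1, Real.mul_rpow h2.le h3.le]
    apply mul_le_mul_of_nonneg_right _ (Real.rpow_nonneg h3.le s)
    exact Real.rpow_le_rpow h2.le (hfr q hq) hs.le
  have himg : dsumD c s (n - k) (Q.image (fun q => S.g^[k] q)) =
      ∑ q ∈ Q, frD c (n - k) (S.g^[k] q) ^ s := by
    unfold dsumD
    rw [Finset.sum_image (fun a _ b _ h => hinj h)]
  calc dsumD c s n Q ≤ ∑ q ∈ Q, (C₀ * C₀ * frD c k x) ^ s * frD c (n - k) (S.g^[k] q) ^ s :=
        Finset.sum_le_sum hterm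
    _ = (C₀ * C₀ * frD c k x) ^ s * dsumD c s (n - k) (Q.image (fun q => S.g^[k] q)) := by
        rw [himg, Finset.mul_sum]
    _ ≤ (C₀ * C₀ * frD c k x) ^ s * (C₁ * AfD c s (n - k)) :=
        mul_le_mul_of_nonneg_left (hle _ _ _ hd) (by positivity)
    _ = (C₀ * C₀) ^ s * C₁ * frD c k x ^ s * AfD c s (n - k) := by
        rw [Real.mul_rpow (by positivity) hfrx.le]
        ring

end Pool.Agent.H779R2.Nu
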