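import Pool.Agent.H779R2.Nu.N00

set_option autoImplicit false

namespace Pool.Agent.H779R2.Nu

open Pool.Agent.H721R2 Pool.Agent.H779R2.An Pool.Agent.H779R2.Li Filter Topology MeasureTheory
open scoped BigOperators

variable {X E : Type*} [MetricSpace X] [CompactSpace X] [NormedAddCommGroup E]
  [InnerProductSpace ℝ E] [FiniteDimensional ℝ E]

variable {S : HypSys X E} {D : ℕ}

private theorem dtD_mob_lower {A : Ve D →L[ℝ] Ve D} {b u : Ve D} {M : ℝ} (hM : 1 ≤ M)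
    (hAc : Conf A) (hA : 1 ≤ M * ‖A‖) (hb : ‖b‖ * ‖u‖ ≤ 1 / 2) :
    2 * ‖u‖ ≤ 3 * M * ‖mobD A b u‖ := by
  have h0 : 0 ≤ ‖b‖ * ‖u‖ := by positivity
  have habs : |inner ℝ b u| ≤ ‖b‖ * ‖u‖ := abs_real_inner_le_norm b u
  have hin := abs_le.1 habs
  have hd1 : 1 / 4 ≤ den b u := by
    unfold den
    nlinarith [hin.1, hin.2]
  have hd2 : den b u ≤ (3 / 2) ^ 2 := by
    unfold den
    nlinarith [hin.1, hin.2]
  have hne : den b u ≠ 0 := by linarith
  rw [mobD_norm hAc b u hne]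
  have hs1 : Real.sqrt (den b u) ≤ 3 / 2 := by
    rw [show (3 / 2 : ℝ) = Real.sqrt ((3 / 2) ^ 2) from (Real.sqrt_sq (by norm_num)).symm]
    exact Real.sqrt_le_sqrt hd2
  have hs0 : 0 < Real.sqrt (den b u) := Real.sqrt_pos.2 (by linarith)
  rw [mul_div_assoc', le_div_iff₀ hs0]
  have h4 : 2 * ‖u‖ * Real.sqrt (den b u) ≤ 2 * ‖u‖ * (3 / 2) :=
    mul_le_mul_of_nonneg_left hs1 (by positivity)
  have h5 : ‖u‖ * 1 ≤ ‖u‖ * (M * ‖A‖) := mul_le_mul_of_nonneg_left hA (norm_nonneg _)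
  calc _ ≤ 2 * ‖u‖ * (3 / 2) := h4
    _ = 3 * (‖u‖ * 1) := by ring
    _ ≤ 3 * (‖u‖ * (M * ‖A‖)) := by linarith
    _ = _ := by ring

/-- multipliers along close stable points are comparable -/
private theorem dtD_Lp (c : CFD S D) {x y : X} (h : S.SRel c.ε₀ x y) (n : ℕ) :
    ‖c.Lp n x‖ ≤ c.M ^ 2 * ‖c.Lp n y‖ := by
  have hM := c.one_le_M
  have hn : S.SRel c.ε₀ (S.g^[n] x) (S.g^[n] y) := by
    intro k
    rw [← Function.iterate_add_apply, ← Function.iterate_add_apply]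
    exact h (k + n)
  have h4 := CFD.norm_eta_iter c (c.geo.sasym _ _ h) n
  have h2 := CFD.one_le_eta c hn
  have h3 := c.eta_le x y h
  calc ‖c.Lp n x‖ = 1 * ‖c.Lp n x‖ := (one_mul _).symm
    _ ≤ c.M * ‖c.eta (S.g^[n] x) (S.g^[n] y)‖ * ‖c.Lp n x‖ :=
        mul_le_mul_of_nonneg_right h2 (norm_nonneg _)
    _ = c.M * (‖c.Lp n y‖ * ‖c.eta x y‖) := by rw [← h4]; ring
    _ ≤ c.M * (‖c.Lp n y‖ * c.M) := by
        apply mul_le_mul_of_nonneg_left _ (by linarith)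
        exact mul_le_mul_of_nonneg_left h3 (norm_nonneg _)
    _ = _ := by ring

/-- local transport of separated sets. -/
private theorem dtD_local {c : CFD S D} (T : THD c) (h : QdLocD T) (s : ℝ) (hs : 0 < s) :
    ∃ ε > 0, ∃ δ₁ > 0, ∃ C : ℝ, 1 ≤ C ∧ ∀ x x', dist x x' ≤ ε → ∀ (n : ℕ) (Q : Finset X),
      DSepD c n x δ₁ 1 Q → ∃ Q' : Finset X, DSepD c n x' 1 C⁻¹ Q' ∧
        dsumD c s n Q ≤ C * dsumD c s n Q' := by
  classical
  obtain ⟨e0, he0, he0T, hq⟩ := h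
  obtain ⟨ε₁, hε₁, hlp⟩ := S.local_product
  have hK := S.one_le_K
  have hM := c.one_le_M
  have hTε₀ := T.ε_le
  set K := S.K with hKdef
  set M := c.M with hMdef
  have hM0 : 0 < M := by linarith
  have hK0 : 0 < K := by linarith
  set e3 : ℝ := e0 / 2 with he3
  have he30 : 0 < e3 := by positivity
  obtain ⟨ρ, hρ, hsmall⟩ := c.small e3 he30
  set η : ℝ := min ε₁ (min (e0 / (18 * K)) (1 / (9 * K * M))) with hη
  have hη0 : 0 < η := lt_min hε₁ (lt_min (by positivity) (by positivity))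
  have hη1 : η ≤ ε₁ := min_le_left _ _
  have hη2 : 9 * K * η ≤ e0 / 2 := by
    have h1 : η ≤ e0 / (18 * K) := (min_le_right _ _).trans (min_le_left _ _)
    calc 9 * K * η ≤ 9 * K * (e0 / (18 * K)) := mul_le_mul_of_nonneg_left h1 (by positivity)
      _ = _ := by field_simp; norm_num
  have hη3 : M * (9 * K * η) ≤ 1 := by
    have h1 : η ≤ 1 / (9 * K * M) := (min_le_right _ _).trans (min_le_right _ _)
    calc M * (9 * K * η) ≤ M * (9 * K * (1 / (9 * K * M))) := by gcongr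
      _ = 1 := by field_simp
  have hC1 : 1 ≤ (M ^ 2) ^ s := Real.one_le_rpow (one_le_pow₀ hM) hs.le
  refine ⟨η / 2, by positivity, min ρ (η / (2 * M)), lt_min hρ (by positivity),
    2 * M ^ 3 + (M ^ 2) ^ s, ?_, ?_⟩
  · have h1 : 0 < M ^ 3 := by positivity
    linarith
  intro x y hxy n Q hQ
  have hCpos : 0 < 2 * M ^ 3 + (M ^ 2) ^ s := by positivity
  -- construction of the transported points
  have hcon : ∀ q : X, ∃ q' : X, q ∈ Q → (UAsym S y q' ∧ ‖c.lc y q'‖ ≤ 1 ∧ S.SRel e0 q q' ∧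
      S.URel (e0 / 2) y q' ∧ S.URel e3 x q) := by
    intro x'
    by_cases hx' : x' ∈ Q
    · obtain ⟨hx'U, hx'l⟩ := hQ.mem x' hx'
      have hu : S.URel e3 x x' := hsmall x x' hx'U (hx'l.trans (min_le_left _ _))
      have hu0 : S.URel c.ε₀ x x' := hu.mono (by linarith)
      have hδη : M * ‖c.lc x x'‖ ≤ η / 2 := by
        have h1 : ‖c.lc x x'‖ ≤ η / (2 * M) := hx'l.trans (min_le_right _ _)
        calc M * ‖c.lc x x'‖ ≤ M * (η / (2 * M)) := mul_le_mul_of_nonneg_left h1 hM0.le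
          _ = _ := by field_simp
      have hd1 : dist x x' ≤ η / 2 := (c.dist_le x x' hu0).trans hδη
      have hd3 : dist x' y ≤ η := by
        have := dist_triangle x' x y
        rw [dist_comm x' x] at this
        linarith
      obtain ⟨y', h1, h2⟩ := hlp x' y (hd3.trans hη1)
      have h9' : 9 * S.K * dist x' y ≤ 9 * K * η := mul_le_mul_of_nonneg_left hd3 (by positivity)
      have h9 : 9 * S.K * dist x' y ≤ e0 / 2 := by linarith
      have hy'U : S.URel (e0 / 2) y y' := (h2.mono h9).symm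
      have hy'U0 : S.URel c.ε₀ y y' := hy'U.mono (by linarith)
      refine ⟨y', fun _ => ⟨c.geo.uasym y y' hy'U0, ?_, h1.mono (by linarith), hy'U, hu⟩⟩
      have h3 : dist y y' ≤ 9 * K * η := by
        have h4 : dist y y' ≤ 9 * S.K * dist x' y := by
          have := h2.dist_le
          rwa [dist_comm] at this
        exact h4.trans h9'
      calc ‖c.lc y y'‖ ≤ M * dist y y' := c.lc_le y y' hy'U0
        _ ≤ M * (9 * K * η) := mul_le_mul_of_nonneg_left h3 hM0.le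
        _ ≤ 1 := hη3
    · exact ⟨x', fun h => absurd h hx'⟩
  choose f hf using hcon
  -- separation
  have key : ∀ x₁ ∈ Q, ∀ x₂ ∈ Q, x₁ ≠ x₂ →
      1 ≤ (2 * M ^ 3 + (M ^ 2) ^ s) * ‖c.lc (S.g^[n] (f x₁)) (S.g^[n] (f x₂))‖ := by
    intro x₁ h1 x₂ h2 hne
    obtain ⟨a2, a3, a4, a5, a6⟩ := hf x₁ h1
    obtain ⟨b2, b3, b4, b5, b6⟩ := hf x₂ h2
    have hU1 : UAsym S x x₁ := (hQ.mem x₁ h1).1
    have hU2 : UAsym S x x₂ := (hQ.mem x₂ h2).1
    have hU12 : S.URel (e3 + e3) x₁ x₂ := a6.symm.trans b6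
    have hU12' : S.URel e0 x₁ x₂ := hU12.mono (by linarith)
    have hUy : S.URel e0 (f x₁) (f x₂) := (a5.symm.trans b5).mono (by linarith)
    have hqd := (hq x₁ (f x₁) x₂ (f x₂) a4 hU12' b4 hUy).1
    have hhalf := T.half x₁ (f x₁) x₂ (a4.mono he0T) (hU12'.mono he0T)
    have he1 := CFD.one_le_eta c (a4.mono (he0T.trans hTε₀))
    have hcf := c.eta_conf _ _ hqd.vw
    have hmob := dtD_mob_lower hM hcf he1 hhalf
    rw [← hqd.lc_eq] at hmob
    have hLp := dtD_Lp c (a4.mono (he0T.trans hTε₀)) n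
    have hsep := hQ.sep x₁ h1 x₂ h2 hne
    rw [CFD.lc_iter c (hU1.symm.trans hU2), CFD.Lp_conf c n _ _] at hsep
    rw [CFD.lc_iter c (a2.symm.trans b2), CFD.Lp_conf c n _ _]
    have h3 : 0 ≤ ‖c.Lp n (f x₁)‖ * ‖c.lc (f x₁) (f x₂)‖ := by positivity
    have h4 : ‖c.Lp n x₁‖ * ‖c.lc x₁ x₂‖ ≤
        (M ^ 2 * ‖c.Lp n (f x₁)‖) * (3 / 2 * M * ‖c.lc (f x₁) (f x₂)‖) := by
      apply mul_le_mul hLp _ (norm_nonneg _) (by positivity)
      linarith
    have h5 : 1 ≤ 3 / 2 * (M ^ 3 * (‖c.Lp n (f x₁)‖ * ‖c.lc (f x₁) (f x₂)‖)) := by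
      calc (1 : ℝ) ≤ _ := hsep
        _ ≤ _ := h4
        _ = _ := by ring
    have h6 : 0 ≤ M ^ 3 * (‖c.Lp n (f x₁)‖ * ‖c.lc (f x₁) (f x₂)‖) := by positivity
    have h7 : 0 ≤ (M ^ 2) ^ s * (‖c.Lp n (f x₁)‖ * ‖c.lc (f x₁) (f x₂)‖) := by positivity
    linarith
  have hinj : Set.InjOn f Q := by
    intro x₁ h1 x₂ h2 heq
    by_contra hne
    have := key x₁ h1 x₂ h2 hne
    rw [heq, c.lc_self, norm_zero, mul_zero] at this
    linarith
  refine ⟨Q.image f, ⟨?_, ?_⟩, ?_⟩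
  · intro y' hy'
    obtain ⟨x', hx', rfl⟩ := Finset.mem_image.mp hy'
    obtain ⟨a2, a3, -⟩ := hf x' hx'
    exact ⟨a2, a3⟩
  · intro y₁ hy₁ y₂ hy₂ hne
    obtain ⟨x₁, h1, rfl⟩ := Finset.mem_image.mp hy₁
    obtain ⟨x₂, h2, rfl⟩ := Finset.mem_image.mp hy₂
    have hne' : x₁ ≠ x₂ := fun h => hne (by rw [h])
    have h3 := key x₁ h1 x₂ h2 hne'
    rw [inv_eq_one_div, div_le_iff₀ hCpos]
    linarith
  · unfold dsumD
    rw [Finset.sum_image (fun a ha b hb hab => hinj ha hb hab)]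
    have hterm : ∀ q ∈ Q, frD c n q ^ s ≤ (M ^ 2) ^ s * frD c n (f q) ^ s := by
      intro q hqQ
      obtain ⟨a2, a3, a4, a5, a6⟩ := hf q hqQ
      have hLp := dtD_Lp c (a4.mono (he0T.trans hTε₀)).symm n
      unfold frD
      rw [← Real.mul_rpow (by positivity) (by positivity)]
      apply Real.rpow_le_rpow (by positivity) _ hs.le
      have hp1 := CFD.Lp_pos c n q
      have hp2 := CFD.Lp_pos c n (f q)
      rw [inv_eq_one_div, ← div_eq_mul_inv, div_le_div_iff₀ hp1 hp2, one_mul]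
      exact hLp
    have hsum0 : 0 ≤ ∑ q ∈ Q, frD c n (f q) ^ s :=
      Finset.sum_nonneg fun q _ => Real.rpow_nonneg (inv_nonneg.2 (norm_nonneg _)) _
    calc ∑ q ∈ Q, frD c n q ^ s ≤ ∑ q ∈ Q, (M ^ 2) ^ s * frD c n (f q) ^ s :=
          Finset.sum_le_sum hterm
      _ = (M ^ 2) ^ s * ∑ q ∈ Q, frD c n (f q) ^ s := (Finset.mul_sum _ _ _).symm
      _ ≤ (2 * M ^ 3 + (M ^ 2) ^ s) * ∑ q ∈ Q, frD c n (f q) ^ s := by
          apply mul_le_mul_of_nonneg_right _ hsum0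
          have : 0 < M ^ 3 := by positivity
          linarith

/-- Transport of separated sets of a unit disc to nearby leaves. -/
theorem dtrans_d {c : CFD S D} (T : THD c) (h : QdLocD T) (s : ℝ) (hs : 0 < s) :
    ∃ ε > 0, ∃ C : ℝ, 1 ≤ C ∧ ∀ x x', dist x x' ≤ ε → ∀ (n : ℕ) (Q : Finset X),
      DSepD c n x 1 1 Q → ∃ Q' : Finset X, DSepD c n x' C C⁻¹ Q' ∧
        dsumD c s n Q ≤ C * dsumD c s n Q' := by
  classical
  obtain ⟨ε₁, hε₁, δ₁, hδ₁, C₁, hC₁, hloc⟩ := dtD_local T h s hs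
  have hM := c.one_le_M
  obtain ⟨m, hm⟩ := pow_unbounded_of_one_lt (δ₁⁻¹) (by norm_num : (1 : ℝ) < 16)
  have hcont : Continuous (S.g.symm^[m]) := S.g.symm.continuous.iterate m
  have huc : UniformContinuous (S.g.symm^[m]) := CompactSpace.uniformContinuous_of_continuous hcont
  obtain ⟨ε, hε, hεm⟩ := Metric.uniformContinuous_iff.1 huc ε₁ hε₁
  have hback : ∀ x : X, S.g^[m] (S.g.symm^[m] x) = x := fun x =>
    (Function.RightInverse.iterate (f := S.g) (g := S.g.symm)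
      (fun y => S.g.apply_symm_apply y) m) x
  have hMm : 1 ≤ c.M ^ m := one_le_pow₀ hM
  have hMms : 1 ≤ (c.M ^ m) ^ s := Real.one_le_rpow hMm hs.le
  set C : ℝ := c.M ^ m + C₁ * (c.M ^ m) ^ s with hC
  have hC₁s : C₁ ≤ C₁ * (c.M ^ m) ^ s := le_mul_of_one_le_right (by linarith) hMms
  have hCM : c.M ^ m ≤ C := by rw [hC]; linarith
  have hCC : C₁ * (c.M ^ m) ^ s ≤ C := by rw [hC]; linarith
  have hC1 : 1 ≤ C := hMm.trans hCM
  refine ⟨ε / 2, by positivity, C, hC1, ?_⟩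
  intro x x' hxx n Q hQ
  set y := S.g.symm^[m] x with hy
  set y' := S.g.symm^[m] x' with hy'
  have hdist : dist y y' ≤ ε₁ := (hεm (lt_of_le_of_lt hxx (by linarith))).le
  have hQm : DSepD c (n + m) y δ₁ 1 (Q.image (S.g.symm^[m])) := by
    refine ⟨?_, ?_⟩
    · intro z hz
      obtain ⟨q, hq, rfl⟩ := Finset.mem_image.1 hz
      obtain ⟨hq1, hq2⟩ := hQ.mem q hq
      have hU : UAsym S y (S.g.symm^[m] q) := hq1.symm_iter m
      refine ⟨hU, ?_⟩
      have h1 := CFD.lc_iter c hU m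
      rw [hy, hback x, hback q] at h1
      have h2 : ‖c.lc x q‖ = ‖c.Lp m (S.g.symm^[m] x)‖ *
          ‖c.lc (S.g.symm^[m] x) (S.g.symm^[m] q)‖ := by
        rw [h1]
        exact CFD.Lp_conf c m _ _
      have h3 := CFD.Lp_ge c m (S.g.symm^[m] x)
      have h4 : (16 : ℝ) ^ m * ‖c.lc (S.g.symm^[m] x) (S.g.symm^[m] q)‖ ≤ 1 := by
        calc _ ≤ ‖c.Lp m (S.g.symm^[m] x)‖ * ‖c.lc (S.g.symm^[m] x) (S.g.symm^[m] q)‖ :=
              mul_le_mul_of_nonneg_right h3 (norm_nonneg _)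
          _ ≤ 1 := by rw [← h2]; exact hq2
      have h5 : δ₁⁻¹ * ‖c.lc (S.g.symm^[m] x) (S.g.symm^[m] q)‖ ≤ 1 :=
        (mul_le_mul_of_nonneg_right hm.le (norm_nonneg _)).trans h4
      rw [inv_mul_le_iff₀ hδ₁] at h5
      rw [hy]
      linarith
    · intro z hz z' hz' hne
      obtain ⟨q, hq, rfl⟩ := Finset.mem_image.1 hz
      obtain ⟨q', hq', rfl⟩ := Finset.mem_image.1 hz'
      have hne' : q ≠ q' := fun h => hne (by rw [h])
      rw [Function.iterate_add_apply, Function.iterate_add_apply, hback, hback]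
      exact hQ.sep q hq q' hq' hne'
  obtain ⟨P, hP, hsum⟩ := hloc y y' hdist (n + m) _ hQm
  have hginj : Function.Injective (S.g^[m]) := S.g.injective.iterate m
  have hgsinj : Function.Injective (S.g.symm^[m]) := S.g.symm.injective.iterate m
  refine ⟨P.image (S.g^[m]), ⟨?_, ?_⟩, ?_⟩
  · intro z hz
    obtain ⟨q, hq, rfl⟩ := Finset.mem_image.1 hz
    obtain ⟨hq1, hq2⟩ := hP.mem q hq
    have hU := hq1.iter m
    rw [hy', hback x'] at hU
    refine ⟨hU, ?_⟩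
    have h1 := CFD.lc_iter c hq1 m
    rw [hy', hback x'] at h1
    rw [h1, CFD.Lp_conf c m _ _]
    calc _ ≤ c.M ^ m * 1 := by
          apply mul_le_mul (CFD.Lp_le c m _) hq2 (norm_nonneg _) (by positivity)
      _ ≤ C := by rw [mul_one]; exact hCM
  · intro z hz z' hz' hne
    obtain ⟨q, hq, rfl⟩ := Finset.mem_image.1 hz
    obtain ⟨q', hq', rfl⟩ := Finset.mem_image.1 hz'
    have hne' : q ≠ q' := fun h => hne (by rw [h])
    have h1 := hP.sep q hq q' hq' hne'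
    rw [Function.iterate_add_apply, Function.iterate_add_apply] at h1
    refine le_trans ?_ h1
    exact inv_anti₀ (by linarith) (hC₁s.trans hCC)
  · unfold dsumD
    rw [Finset.sum_image (fun a _ b _ hab => hginj hab)]
    unfold dsumD at hsum
    rw [Finset.sum_image (fun a _ b _ hab => hgsinj hab)] at hsum
    have hterm : ∀ q ∈ Q, frD c n q ^ s ≤
        (c.M ^ m) ^ s * frD c (n + m) (S.g.symm^[m] q) ^ s := by
      intro q _
      unfold frD
      rw [← Real.mul_rpow (by positivity) (by positivity)]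
      apply Real.rpow_le_rpow (by positivity) _ hs.le
      have h1 := CFD.norm_Lp_add c n m (S.g.symm^[m] q)
      rw [hback q] at h1
      have hp1 := CFD.Lp_pos c n q
      have hp2 := CFD.Lp_pos c m (S.g.symm^[m] q)
      have hp3 := CFD.Lp_le c m (S.g.symm^[m] q)
      rw [h1, mul_inv]
      have h6 : c.M ^ m * (‖c.Lp n q‖⁻¹ * (‖c.Lp m (S.g.symm^[m] q)‖)⁻¹) =
          ‖c.Lp n q‖⁻¹ * (c.M ^ m / ‖c.Lp m (S.g.symm^[m] q)‖) := by
        rw [div_eq_mul_inv]; ring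
      rw [h6]
      exact le_mul_of_one_le_right (by positivity) ((one_le_div hp2).2 hp3)
    have hterm2 : ∀ q ∈ P, frD c (n + m) q ^ s ≤ frD c n (S.g^[m] q) ^ s := by
      intro q _
      unfold frD
      apply Real.rpow_le_rpow (by positivity) _ hs.le
      have h1 := CFD.norm_Lp_add c n m q
      have hp1 := CFD.Lp_pos c n (S.g^[m] q)
      have hp3 := CFD.Lp_ge c m q
      have hp4 : (1 : ℝ) ≤ 16 ^ m := one_le_pow₀ (by norm_num)
      apply inv_anti₀ hp1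
      rw [h1]
      exact le_mul_of_one_le_right hp1.le (hp4.trans hp3)
    have hsum2 : ∑ q ∈ P, frD c (n + m) q ^ s ≤ ∑ q ∈ P, frD c n (S.g^[m] q) ^ s :=
      Finset.sum_le_sum hterm2
    have hsum3 : 0 ≤ ∑ q ∈ P, frD c n (S.g^[m] q) ^ s :=
      Finset.sum_nonneg fun q _ => Real.rpow_nonneg (inv_nonneg.2 (norm_nonneg _)) _
    calc ∑ q ∈ Q, frD c n q ^ s ≤ ∑ q ∈ Q, (c.M ^ m) ^ s * frD c (n + m) (S.g.symm^[m] q) ^ s :=
          Finset.sum_le_sum hterm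
      _ = (c.M ^ m) ^ s * ∑ q ∈ Q, frD c (n + m) (S.g.symm^[m] q) ^ s :=
          (Finset.mul_sum _ _ _).symm
      _ ≤ (c.M ^ m) ^ s * (C₁ * ∑ q ∈ P, frD c n (S.g^[m] q) ^ s) := by
          apply mul_le_mul_of_nonneg_left _ (by linarith)
          exact hsum.trans (mul_le_mul_of_nonneg_left hsum2 (by linarith))
      _ = (C₁ * (c.M ^ m) ^ s) * ∑ q ∈ P, frD c n (S.g^[m] q) ^ s := by ring
      _ ≤ C * ∑ q ∈ P, frD c n (S.g^[m] q) ^ s := mul_le_mul_of_nonneg_right hCC hsum3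

end Pool.Agent.H779R2.Nu
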