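import Pool.Agent.H779R2.Nu.N00

set_option autoImplicit false

namespace Pool.Agent.H779R2.Nu

open Pool.Agent.H721R2 Pool.Agent.H779R2.An Pool.Agent.H779R2.Li Filter Topology MeasureTheory
open scoped BigOperators

variable {X E : Type*} [MetricSpace X] [CompactSpace X] [NormedAddCommGroup E]
  [InnerProductSpace ℝ E] [FiniteDimensional ℝ E]

variable {S : HypSys X E} {D : ℕ}

theorem n13_mono {c : CFD S D} {n : ℕ} {x : X} {ρ ρ' θ : ℝ} {Q : Finset X}
    (h : DSepD c n x ρ θ Q) (hρ : ρ ≤ ρ') : DSepD c n x ρ' θ Q :=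
  ⟨fun q hq => ⟨(h.mem q hq).1, (h.mem q hq).2.trans hρ⟩, h.sep⟩

theorem n13_dsum_nonneg (c : CFD S D) (s : ℝ) (n : ℕ) (Q : Finset X) : 0 ≤ dsumD c s n Q := by
  unfold dsumD
  refine Finset.sum_nonneg fun q _ => ?_
  exact Real.rpow_nonneg (inv_nonneg.2 (norm_nonneg _)) _

/-- One step back. -/
theorem n13_step (c : CFD S D) (s : ℝ) (hs : 0 < s) (hsel : SelD c s) (ρ : ℝ) (hρ : 0 < ρ) :
    ∃ C : ℝ, 0 < C ∧ ∀ (n : ℕ) (x : X) (Q : Finset X), DSepD c n (S.g x) ρ 1 Q →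
      ∃ Q' : Finset X, DSepD c n x (ρ / 16) 1 Q' ∧ dsumD c s n Q ≤ C * dsumD c s n Q' := by
  obtain ⟨C, hC, h⟩ := hsel (ρ / 16) (by positivity) 1 one_pos 1
  have hM : (0 : ℝ) < c.M := lt_of_lt_of_le one_pos c.one_le_M
  have hMs : (0 : ℝ) < c.M ^ s := Real.rpow_pos_of_pos hM s
  refine ⟨c.M ^ s * C, by positivity, fun n x Q hQ => ?_⟩
  classical
  set Q₁ : Finset X := Q.image (fun q => S.g.symm q) with hQ₁
  have hsep : DSepD c (n + 1) x (ρ / 16) 1 Q₁ := by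
    refine ⟨?_, ?_⟩
    · intro q₁ hq₁
      obtain ⟨q, hq, rfl⟩ := Finset.mem_image.1 hq₁
      have hu := (hQ.mem q hq).1
      have hl := (hQ.mem q hq).2
      have hu' : UAsym S x (S.g.symm q) := by
        have := hu.symm_map
        simpa using this
      refine ⟨hu', ?_⟩
      have h1 := c.lc_equi x (S.g.symm q) hu'
      rw [S.g.apply_symm_apply] at h1
      rw [h1, c.lam_conf x] at hl
      have h2 := c.lam_ge x
      have h3 : (0 : ℝ) ≤ ‖c.lc x (S.g.symm q)‖ := norm_nonneg _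
      nlinarith [mul_le_mul_of_nonneg_right h2 h3]
    · intro a ha b hb hab
      obtain ⟨q, hq, rfl⟩ := Finset.mem_image.1 ha
      obtain ⟨q', hq', rfl⟩ := Finset.mem_image.1 hb
      have hne : q ≠ q' := fun h => hab (by rw [h])
      have := hQ.sep q hq q' hq' hne
      simpa [Function.iterate_succ_apply] using this
  obtain ⟨Q', hQ', h1, h2⟩ := h n x Q₁ hsep
  refine ⟨Q', h1, ?_⟩
  have h3 : dsumD c s n Q ≤ c.M ^ s * dsumD c s (n + 1) Q₁ := by
    unfold dsumD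
    rw [hQ₁, Finset.sum_image (fun a _ b _ hab => S.g.symm.injective hab), Finset.mul_sum]
    refine Finset.sum_le_sum fun q hq => ?_
    unfold frD
    rw [← Real.mul_rpow hM.le (inv_nonneg.2 (norm_nonneg _))]
    refine Real.rpow_le_rpow (inv_nonneg.2 (norm_nonneg _)) ?_ hs.le
    have h4 := c.norm_Lp_add n 1 (S.g.symm q)
    have h5 : S.g^[1] (S.g.symm q) = q := by simp
    rw [h5] at h4
    rw [h4, mul_inv]
    have h6 : 0 < ‖c.Lp n q‖ := c.Lp_pos n q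
    have h7 : 0 < ‖c.Lp 1 (S.g.symm q)‖ := c.Lp_pos 1 _
    have h8 : ‖c.Lp 1 (S.g.symm q)‖ ≤ c.M := by
      have := c.Lp_le 1 (S.g.symm q)
      simpa using this
    have h9 : 1 ≤ c.M * ‖c.Lp 1 (S.g.symm q)‖⁻¹ := by
      rw [← div_eq_mul_inv, le_div_iff₀ h7, one_mul]
      exact h8
    have h10 : 0 < ‖c.Lp n q‖⁻¹ := inv_pos.2 h6
    calc ‖c.Lp n q‖⁻¹ = ‖c.Lp n q‖⁻¹ * 1 := by ring
      _ ≤ ‖c.Lp n q‖⁻¹ * (c.M * ‖c.Lp 1 (S.g.symm q)‖⁻¹) := by
          exact mul_le_mul_of_nonneg_left h9 h10.le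
      _ = c.M * (‖c.Lp n q‖⁻¹ * ‖c.Lp 1 (S.g.symm q)‖⁻¹) := by ring
  calc dsumD c s n Q ≤ c.M ^ s * dsumD c s (n + 1) Q₁ := h3
    _ ≤ c.M ^ s * (C * dsumD c s n Q') := mul_le_mul_of_nonneg_left h2 hMs.le
    _ = c.M ^ s * C * dsumD c s n Q' := by ring

/-- Several steps back. -/
theorem n13_steps (c : CFD S D) (s : ℝ) (hs : 0 < s) (hsel : SelD c s) (j : ℕ) (ρ : ℝ)
    (hρ : 0 < ρ) :
    ∃ C : ℝ, 1 ≤ C ∧ ∀ (n : ℕ) (x : X) (Q : Finset X), DSepD c n x ρ 1 Q →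
      ∃ Q' : Finset X, DSepD c n (S.g.symm^[j] x) (ρ / 16 ^ j) 1 Q' ∧
        dsumD c s n Q ≤ C * dsumD c s n Q' := by
  induction j with
  | zero =>
    refine ⟨1, le_refl _, fun n x Q hQ => ⟨Q, ?_, by simp⟩⟩
    simpa using hQ
  | succ j ih =>
    obtain ⟨C, hC, h⟩ := ih
    obtain ⟨C', hC', h'⟩ := n13_step c s hs hsel (ρ / 16 ^ j) (by positivity)
    have hC0 : 0 < C := lt_of_lt_of_le one_pos hC
    refine ⟨max 1 (C * C'), le_max_left _ _, fun n x Q hQ => ?_⟩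
    obtain ⟨Q₁, h1, h2⟩ := h n x Q hQ
    have h3 : S.g (S.g.symm^[j + 1] x) = S.g.symm^[j] x := by
      rw [Function.iterate_succ_apply', S.g.apply_symm_apply]
    rw [← h3] at h1
    obtain ⟨Q₂, h4, h5⟩ := h' n _ Q₁ h1
    refine ⟨Q₂, ?_, ?_⟩
    · have : ρ / 16 ^ (j + 1) = ρ / 16 ^ j / 16 := by
        rw [pow_succ]; field_simp
      rw [this]
      exact h4
    · calc dsumD c s n Q ≤ C * dsumD c s n Q₁ := h2
        _ ≤ C * (C' * dsumD c s n Q₂) := mul_le_mul_of_nonneg_left h5 hC0.le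
        _ = C * C' * dsumD c s n Q₂ := by ring
        _ ≤ max 1 (C * C') * dsumD c s n Q₂ :=
          mul_le_mul_of_nonneg_right (le_max_right _ _) (n13_dsum_nonneg c s n Q₂)

/-- At most `J` steps back, with a common constant. -/
theorem n13_steps_le (c : CFD S D) (s : ℝ) (hs : 0 < s) (hsel : SelD c s) (J : ℕ) (ρ : ℝ)
    (hρ : 0 < ρ) :
    ∃ C : ℝ, 1 ≤ C ∧ ∀ j ≤ J, ∀ (n : ℕ) (x : X) (Q : Finset X), DSepD c n x ρ 1 Q →
      ∃ Q' : Finset X, DSepD c n (S.g.symm^[j] x) (ρ / 16 ^ j) 1 Q' ∧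
        dsumD c s n Q ≤ C * dsumD c s n Q' := by
  induction J with
  | zero =>
    obtain ⟨C, hC, h⟩ := n13_steps c s hs hsel 0 ρ hρ
    refine ⟨C, hC, fun j hj => ?_⟩
    obtain rfl : j = 0 := by omega
    exact h
  | succ J ih =>
    obtain ⟨C, hC, h⟩ := ih
    obtain ⟨C', hC', h'⟩ := n13_steps c s hs hsel (J + 1) ρ hρ
    refine ⟨max C C', hC.trans (le_max_left _ _), fun j hj n x Q hQ => ?_⟩
    rcases Nat.lt_or_ge j (J + 1) with hlt | hge
    · obtain ⟨Q', h1, h2⟩ := h j (by omega) n x Q hQ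
      exact ⟨Q', h1, h2.trans (mul_le_mul_of_nonneg_right (le_max_left _ _)
        (n13_dsum_nonneg c s n Q'))⟩
    · obtain rfl : j = J + 1 := by omega
      obtain ⟨Q', h1, h2⟩ := h' n x Q hQ
      exact ⟨Q', h1, h2.trans (mul_le_mul_of_nonneg_right (le_max_right _ _)
        (n13_dsum_nonneg c s n Q'))⟩

/-- Finite cover by small boxes. -/
theorem n13_boxes (X : Type*) [MetricSpace X] [CompactSpace X] (ε : ℝ) (hε : 0 < ε) :
    ∃ (L : ℕ) (f : X → Fin L), ∀ x y, f x = f y → dist x y ≤ ε := by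
  classical
  obtain ⟨t, -, ht, hcov⟩ := (isCompact_univ (X := X)).finite_cover_balls
    (show (0 : ℝ) < ε / 2 by linarith)
  have hex : ∀ x : X, ∃ a : ht.toFinset, x ∈ Metric.ball (a : X) (ε / 2) := by
    intro x
    have := hcov (Set.mem_univ x)
    rw [Set.mem_iUnion₂] at this
    obtain ⟨a, ha, hx⟩ := this
    exact ⟨⟨a, ht.mem_toFinset.2 ha⟩, hx⟩
  choose a ha using hex
  refine ⟨ht.toFinset.card, fun x => ht.toFinset.equivFin (a x), fun x y hxy => ?_⟩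
  have h1 : a x = a y := ht.toFinset.equivFin.injective hxy
  have h2 := ha x
  have h3 := ha y
  rw [← h1] at h3
  rw [Metric.mem_ball] at h2 h3
  have := dist_triangle_right x y (a x : X)
  linarith

/-- The sum of a disc is bounded by those of the discs along its backward orbit. -/
theorem back_unif (c : CFD S D) (s : ℝ) (hs : 0 < s) (hsel : SelD c s)
    (hdt : ∃ ε > 0, ∃ C : ℝ, 1 ≤ C ∧ ∀ x x', dist x x' ≤ ε → ∀ (n : ℕ) (Q : Finset X),
      DSepD c n x 1 1 Q → ∃ Q' : Finset X, DSepD c n x' C C⁻¹ Q' ∧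
        dsumD c s n Q ≤ C * dsumD c s n Q') :
    ∃ R : ℝ, 1 ≤ R ∧ ∃ C : ℝ, 0 < C ∧ ∀ (x p : X), dist x p ≤ R⁻¹ → ∀ (m n : ℕ) (Q : Finset X),
      DSepD c n x 1 1 Q → ∃ Q' : Finset X, DSepD c n (S.g.symm^[m] p) R 1 Q' ∧
        dsumD c s n Q ≤ C * dsumD c s n Q' := by
  classical
  obtain ⟨ε, hε, C₀, hC₀, hj⟩ := hdt
  have hC₀' : 0 < C₀ := lt_of_lt_of_le one_pos hC₀
  -- the jump
  have hjump : ∃ C₁ : ℝ, 1 ≤ C₁ ∧ ∀ x x', dist x x' ≤ ε → ∀ (n : ℕ) (Q : Finset X),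
      DSepD c n x 1 1 Q → ∃ Q' : Finset X, DSepD c n x' C₀ 1 Q' ∧
        dsumD c s n Q ≤ C₁ * dsumD c s n Q' := by
    obtain ⟨C, hC, h⟩ := hsel C₀ hC₀' C₀⁻¹ (inv_pos.2 hC₀') 0
    refine ⟨max 1 (C₀ * C), le_max_left _ _, fun x x' hxx n Q hQ => ?_⟩
    obtain ⟨Q₁, h1, h2⟩ := hj x x' hxx n Q hQ
    obtain ⟨Q₂, -, h3, h4⟩ := h n x' Q₁ h1
    refine ⟨Q₂, h3, ?_⟩
    calc dsumD c s n Q ≤ C₀ * dsumD c s n Q₁ := h2
      _ ≤ C₀ * (C * dsumD c s n Q₂) := mul_le_mul_of_nonneg_left h4 hC₀'.le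
      _ = C₀ * C * dsumD c s n Q₂ := by ring
      _ ≤ max 1 (C₀ * C) * dsumD c s n Q₂ :=
        mul_le_mul_of_nonneg_right (le_max_right _ _) (n13_dsum_nonneg c s n Q₂)
  obtain ⟨C₁, hC₁, hjump⟩ := hjump
  have hC₁' : 0 < C₁ := lt_of_lt_of_le one_pos hC₁
  -- the number of steps which bring the radius back to one
  obtain ⟨j₀, hj₀, hj₁⟩ : ∃ j₀ : ℕ, 1 ≤ j₀ ∧ C₀ ≤ 16 ^ j₀ := by
    obtain ⟨j, hj⟩ := pow_unbounded_of_one_lt C₀ (show (1 : ℝ) < 16 by norm_num)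
    refine ⟨j + 1, by omega, hj.le.trans ?_⟩
    exact pow_le_pow_right₀ (by norm_num) (by omega)
  obtain ⟨K, hK, hback⟩ := n13_steps_le c s hs hsel j₀ C₀ hC₀'
  have hK' : 0 < K := lt_of_lt_of_le one_pos hK
  obtain ⟨L, f, hf⟩ := n13_boxes X ε hε
  have hdiv : ∀ j : ℕ, C₀ / 16 ^ j ≤ C₀ := by
    intro j
    refine div_le_self hC₀'.le ?_
    exact one_le_pow₀ (by norm_num)
  have hdiv1 : C₀ / 16 ^ j₀ ≤ 1 := by
    rw [div_le_one (by positivity)]
    exact hj₁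
  -- one jump and the steps back, then a statement for the rest
  have key : ∀ k : ℕ, ∃ Ck : ℝ, 1 ≤ Ck ∧ ∀ (p : X) (m : ℕ),
      ((Finset.range (m + 1)).image (fun i => f (S.g.symm^[i] p))).card ≤ k →
      ∀ (n : ℕ) (Q : Finset X), DSepD c n p 1 1 Q →
        ∃ Q' : Finset X, DSepD c n (S.g.symm^[m] p) C₀ 1 Q' ∧
          dsumD c s n Q ≤ Ck * dsumD c s n Q' := by
    intro k
    induction k with
    | zero =>
      refine ⟨1, le_refl _, fun p m hcard => ?_⟩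
      exfalso
      have : ((Finset.range (m + 1)).image (fun i => f (S.g.symm^[i] p))).Nonempty :=
        Finset.Nonempty.image ⟨0, by simp⟩ _
      have := Finset.card_pos.2 this
      omega
    | succ k ih =>
      obtain ⟨Ck, hCk, ih⟩ := ih
      have hCk' : 0 < Ck := lt_of_lt_of_le one_pos hCk
      refine ⟨C₁ * K * Ck, ?_, fun p m hcard n Q hQ => ?_⟩
      · exact one_le_mul_of_one_le_of_one_le (one_le_mul_of_one_le_of_one_le hC₁ hK) hCk
      -- last visit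
      set A : Finset ℕ := (Finset.range (m + 1)).filter
        (fun i => f (S.g.symm^[i] p) = f p) with hA
      have hAne : A.Nonempty := ⟨0, by simp [hA]⟩
      set i₁ := A.max' hAne with hi₁
      have hi₁A : i₁ ∈ A := A.max'_mem hAne
      have hi₁m : i₁ ≤ m := by
        have := (Finset.mem_filter.1 hi₁A).1
        rw [Finset.mem_range] at this
        omega
      have hi₁f : f (S.g.symm^[i₁] p) = f p := (Finset.mem_filter.1 hi₁A).2
      have hlast : ∀ i, i₁ < i → i ≤ m → f (S.g.symm^[i] p) ≠ f p := by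
        intro i hi hi' hfi
        have : i ∈ A := by
          rw [hA, Finset.mem_filter, Finset.mem_range]
          exact ⟨by omega, hfi⟩
        have := A.le_max' i this
        omega
      obtain ⟨Q₁, h1, h2⟩ := hjump p (S.g.symm^[i₁] p) (hf _ _ hi₁f.symm) n Q hQ
      rcases Nat.lt_or_ge (m - i₁) j₀ with hlt | hge
      · obtain ⟨Q₂, h3, h4⟩ := hback (m - i₁) hlt.le n _ Q₁ h1
        rw [← Function.iterate_add_apply, Nat.sub_add_cancel hi₁m] at h3
        refine ⟨Q₂, n13_mono h3 (hdiv _), ?_⟩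
        calc dsumD c s n Q ≤ C₁ * dsumD c s n Q₁ := h2
          _ ≤ C₁ * (K * dsumD c s n Q₂) := mul_le_mul_of_nonneg_left h4 hC₁'.le
          _ = C₁ * K * 1 * dsumD c s n Q₂ := by ring
          _ ≤ C₁ * K * Ck * dsumD c s n Q₂ := by
            refine mul_le_mul_of_nonneg_right ?_ (n13_dsum_nonneg c s n Q₂)
            exact mul_le_mul_of_nonneg_left hCk (by positivity)
      · obtain ⟨Q₂, h3, h4⟩ := hback j₀ le_rfl n _ Q₁ h1
        have h5 : S.g.symm^[j₀] (S.g.symm^[i₁] p) = S.g.symm^[j₀ + i₁] p :=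
          (Function.iterate_add_apply _ _ _ _).symm
        rw [h5] at h3
        have h6 : S.g.symm^[m - i₁ - j₀] (S.g.symm^[j₀ + i₁] p) = S.g.symm^[m] p := by
          rw [← Function.iterate_add_apply]
          congr 1
          omega
        have hcard' : ((Finset.range (m - i₁ - j₀ + 1)).image
            (fun i => f (S.g.symm^[i] (S.g.symm^[j₀ + i₁] p)))).card ≤ k := by
          have hsub : (Finset.range (m - i₁ - j₀ + 1)).image
              (fun i => f (S.g.symm^[i] (S.g.symm^[j₀ + i₁] p))) ⊆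
              ((Finset.range (m + 1)).image (fun i => f (S.g.symm^[i] p))).erase (f p) := by
            intro b hb
            obtain ⟨i, hi, rfl⟩ := Finset.mem_image.1 hb
            rw [Finset.mem_range] at hi
            rw [Finset.mem_erase, ← Function.iterate_add_apply]
            refine ⟨hlast _ (by omega) (by omega), Finset.mem_image.2 ⟨i + (j₀ + i₁), ?_, rfl⟩⟩
            rw [Finset.mem_range]
            omega
          have h7 := Finset.card_le_card hsub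
          have h8 : f p ∈ (Finset.range (m + 1)).image (fun i => f (S.g.symm^[i] p)) :=
            Finset.mem_image.2 ⟨0, by simp, rfl⟩
          rw [Finset.card_erase_of_mem h8] at h7
          omega
        obtain ⟨Q₃, h9, h10⟩ := ih _ _ hcard' n Q₂ (n13_mono h3 hdiv1)
        rw [h6] at h9
        refine ⟨Q₃, h9, ?_⟩
        calc dsumD c s n Q ≤ C₁ * dsumD c s n Q₁ := h2
          _ ≤ C₁ * (K * dsumD c s n Q₂) := mul_le_mul_of_nonneg_left h4 hC₁'.le
          _ ≤ C₁ * (K * (Ck * dsumD c s n Q₃)) :=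
            mul_le_mul_of_nonneg_left (mul_le_mul_of_nonneg_left h10 hK'.le) hC₁'.le
          _ = C₁ * K * Ck * dsumD c s n Q₃ := by ring
  obtain ⟨CL, hCL, hfin⟩ := key L
  have hCL' : 0 < CL := lt_of_lt_of_le one_pos hCL
  have hR : ε⁻¹ ≤ max C₀ ε⁻¹ := le_max_right _ _
  refine ⟨max C₀ ε⁻¹, hC₀.trans (le_max_left _ _), C₁ * K * CL, by positivity,
    fun x p hxp m n Q hQ => ?_⟩
  have hxp' : dist x p ≤ ε := by
    refine hxp.trans ?_
    rw [inv_le_comm₀ (lt_of_lt_of_le hC₀' (le_max_left _ _)) hε]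
    exact hR
  obtain ⟨Q₁, h1, h2⟩ := hjump x p hxp' n Q hQ
  rcases Nat.lt_or_ge m j₀ with hlt | hge
  · obtain ⟨Q₂, h3, h4⟩ := hback m hlt.le n _ Q₁ h1
    refine ⟨Q₂, n13_mono h3 ((hdiv _).trans (le_max_left _ _)), ?_⟩
    calc dsumD c s n Q ≤ C₁ * dsumD c s n Q₁ := h2
      _ ≤ C₁ * (K * dsumD c s n Q₂) := mul_le_mul_of_nonneg_left h4 hC₁'.le
      _ = C₁ * K * 1 * dsumD c s n Q₂ := by ring
      _ ≤ C₁ * K * CL * dsumD c s n Q₂ := by
        refine mul_le_mul_of_nonneg_right ?_ (n13_dsum_nonneg c s n Q₂)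
        exact mul_le_mul_of_nonneg_left hCL (by positivity)
  · obtain ⟨Q₂, h3, h4⟩ := hback j₀ le_rfl n _ Q₁ h1
    have hcard : ((Finset.range (m - j₀ + 1)).image
        (fun i => f (S.g.symm^[i] (S.g.symm^[j₀] p)))).card ≤ L := by
      have := Finset.card_le_univ ((Finset.range (m - j₀ + 1)).image
        (fun i => f (S.g.symm^[i] (S.g.symm^[j₀] p))))
      simpa using this
    obtain ⟨Q₃, h5, h6⟩ := hfin _ _ hcard n Q₂ (n13_mono h3 hdiv1)
    rw [← Function.iterate_add_apply, Nat.sub_add_cancel hge] at h5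
    refine ⟨Q₃, n13_mono h5 (le_max_left _ _), ?_⟩
    calc dsumD c s n Q ≤ C₁ * dsumD c s n Q₁ := h2
      _ ≤ C₁ * (K * dsumD c s n Q₂) := mul_le_mul_of_nonneg_left h4 hC₁'.le
      _ ≤ C₁ * (K * (CL * dsumD c s n Q₃)) :=
        mul_le_mul_of_nonneg_left (mul_le_mul_of_nonneg_left h6 hK'.le) hC₁'.le
      _ = C₁ * K * CL * dsumD c s n Q₃ := by ring

end Pool.Agent.H779R2.Nu
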