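import Pool.Agent.H779R2.Nu.N00

set_option autoImplicit false

namespace Pool.Agent.H779R2.Nu

open Pool.Agent.H721R2 Pool.Agent.H779R2.An Pool.Agent.H779R2.Li Filter Topology MeasureTheory
open scoped BigOperators

variable {X E : Type*} [MetricSpace X] [CompactSpace X] [NormedAddCommGroup E]
  [InnerProductSpace ℝ E] [FiniteDimensional ℝ E]

variable {S : HypSys X E} {D : ℕ}

namespace N14

theorem frD_pos (c : CFD S D) (n : ℕ) (x : X) : 0 < frD c n x := inv_pos.2 (c.Lp_pos _ _)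

theorem frD_eq (c : CFD S D) (n : ℕ) (x : X) : (frD c n x)⁻¹ = ‖c.Lp n x‖ := inv_inv _

/-- maximal separated sets -/
theorem max_set (c : CFD S D) (s : ℝ) (hs : 0 < s) (k : ℕ) (x : X)
    (hb : BddAbove {t | ∃ x Q, DSepD c k x 1 1 Q ∧ t = dsumD c s k Q}) :
    ∃ Q, DSepD c k x (1 / 2) 1 Q ∧ ∀ y, UAsym S x y → ‖c.lc x y‖ ≤ 1 / 2 →
      ∃ q ∈ Q, ‖c.lc (S.g^[k] q) (S.g^[k] y)‖ < 1 ∨ ‖c.lc (S.g^[k] y) (S.g^[k] q)‖ < 1 := by
  classical
  obtain ⟨B, hB⟩ := hb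
  have hM := c.one_le_M
  have hMk : (0 : ℝ) < (c.M ^ k)⁻¹ ^ s := by positivity
  have hbd : BddAbove {m : ℕ | ∃ Q, DSepD c k x (1 / 2) 1 Q ∧ Q.card = m} := by
    refine ⟨⌈B / (c.M ^ k)⁻¹ ^ s⌉₊, ?_⟩
    rintro m ⟨Q, hQ, rfl⟩
    have h1 : dsumD c s k Q ≤ B := hB ⟨x, Q, ⟨fun q hq => ⟨(hQ.mem q hq).1,
      (hQ.mem q hq).2.trans (by norm_num)⟩, hQ.sep⟩, rfl⟩
    have h2 : (Q.card : ℝ) * (c.M ^ k)⁻¹ ^ s ≤ dsumD c s k Q := by
      unfold dsumD
      rw [← nsmul_eq_mul, ← Finset.sum_const]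
      apply Finset.sum_le_sum
      intro q _
      apply Real.rpow_le_rpow (by positivity) _ hs.le
      unfold frD
      have h3 := c.Lp_le k q
      have h4 := c.Lp_pos k q
      gcongr
    have h3 : (Q.card : ℝ) ≤ B / (c.M ^ k)⁻¹ ^ s := by
      rw [le_div_iff₀ hMk]
      exact h2.trans h1
    exact_mod_cast h3.trans (Nat.le_ceil _)
  have hne : {m : ℕ | ∃ Q, DSepD c k x (1 / 2) 1 Q ∧ Q.card = m}.Nonempty :=
    ⟨0, ∅, ⟨by simp, by simp⟩, by simp⟩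
  obtain ⟨Q, hQ, hcard⟩ := Nat.sSup_mem hne hbd
  refine ⟨Q, hQ, fun y hy hy1 => ?_⟩
  by_contra hcon
  push Not at hcon
  have hyQ : y ∉ Q := fun h => by
    have := (hcon y h).1
    rw [c.lc_self, norm_zero] at this
    linarith
  have hins : DSepD c k x (1 / 2) 1 (insert y Q) := by
    constructor
    · intro q hq
      rcases Finset.mem_insert.mp hq with h | h
      · rw [h]; exact ⟨hy, hy1⟩
      · exact hQ.mem q h
    · intro q hq q' hq' hne
      rcases Finset.mem_insert.mp hq with h | h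
      · rcases Finset.mem_insert.mp hq' with h' | h'
        · exact absurd (h.trans h'.symm) hne
        · rw [h]; exact (hcon q' h').2
      · rcases Finset.mem_insert.mp hq' with h' | h'
        · rw [h']; exact (hcon q h).1
        · exact hQ.sep q h q' h' hne
  have h1 := le_csSup hbd ⟨insert y Q, hins, rfl⟩
  rw [Finset.card_insert_of_notMem hyQ, ← hcard] at h1
  omega

/-- volumes -/
theorem vol {Y : Type*} (C₂ : ℝ) (hC : 0 < C₂) (Q : Finset Y) (f : Y → Ve D) (r : Y → ℝ)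
    (hr : ∀ q, 0 < r q) (h : ∀ u : Ve D, ‖u‖ ≤ 1 / 2 → ∃ q ∈ Q, ‖u - f q‖ ≤ C₂ * r q) :
    (1 / 2 : ℝ) ^ D ≤ C₂ ^ D * ∑ q ∈ Q, r q ^ D := by
  have hsub : Metric.closedBall (0 : Ve D) (1 / 2) ⊆
      ⋃ q ∈ Q, Metric.closedBall (f q) (C₂ * r q) := by
    intro u hu
    rw [mem_closedBall_zero_iff] at hu
    obtain ⟨q, hq, h1⟩ := h u hu
    simp only [Set.mem_iUnion]
    exact ⟨q, hq, by rw [Metric.mem_closedBall, dist_eq_norm]; exact h1⟩
  have h1 := (measure_mono (μ := (volume : Measure (Ve D))) hsub).trans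
    (measure_biUnion_finset_le Q fun q => Metric.closedBall (f q) (C₂ * r q))
  set V := (volume : Measure (Ve D)) (Metric.ball 0 1) with hV
  have hV0 : V ≠ 0 := (Metric.measure_ball_pos _ _ one_pos).ne'
  have hVt : V ≠ ⊤ := measure_ball_lt_top.ne
  have hfr : Module.finrank ℝ (Ve D) = D := by simp
  have h2 : (volume : Measure (Ve D)) (Metric.closedBall 0 (1 / 2)) =
      ENNReal.ofReal ((1 / 2 : ℝ) ^ D) * V := by
    rw [Measure.addHaar_closedBall _ _ (by norm_num), hfr]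
  have h3 : ∑ q ∈ Q, (volume : Measure (Ve D)) (Metric.closedBall (f q) (C₂ * r q)) =
      ENNReal.ofReal (C₂ ^ D * ∑ q ∈ Q, r q ^ D) * V := by
    rw [Finset.mul_sum, ENNReal.ofReal_sum_of_nonneg (fun q _ => by have := hr q; positivity),
      Finset.sum_mul]
    refine Finset.sum_congr rfl fun q _ => ?_
    rw [Measure.addHaar_closedBall _ _ (by have := hr q; positivity), hfr, mul_pow]
  rw [h2, h3] at h1
  have h4 : ENNReal.ofReal ((1 / 2 : ℝ) ^ D) ≤ ENNReal.ofReal (C₂ ^ D * ∑ q ∈ Q, r q ^ D) :=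
    (ENNReal.mul_le_mul_iff_left hV0 hVt).1 h1
  rwa [ENNReal.ofReal_le_ofReal_iff
    (mul_nonneg (by positivity) (Finset.sum_nonneg fun q _ => by have := hr q; positivity))] at h4

end N14

open N14 in
/-- Exponential growth of the sums. -/
theorem af_low_d [Nonempty X] (c : CFD S D) (s : ℝ) (hs : 0 < s) (hs2 : s < D) (hb : BddD c s) :
    ∃ a > 0, ∀ n : ℕ, a * ((16 : ℝ) ^ n) ^ ((D : ℝ) - s) ≤ AfD c s n := by
  classical
  obtain ⟨x⟩ := (inferInstance : Nonempty X)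
  obtain ⟨C₁, hC1, htau⟩ := tau_bound_d c 1
  have hC0 : (0 : ℝ) < C₁ := by linarith
  set C₂ : ℝ := C₁ ^ 2 with hC2
  have hC2pos : 0 < C₂ := by positivity
  refine ⟨(1 / 2) ^ D / C₂ ^ D, by positivity, fun k => ?_⟩
  obtain ⟨Q, hQ, hcov⟩ := max_set c s hs k x (hb k)
  have hfk := fun q => frD_pos c k q
  have harea : (1 / 2 : ℝ) ^ D ≤ C₂ ^ D * ∑ q ∈ Q, frD c k q ^ D := by
    apply vol C₂ hC2pos Q (fun q => c.lc x q) (fun q => frD c k q) hfk
    intro u hu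
    obtain ⟨y, hy, hyu⟩ := surj_all_d c x u
    rw [← hyu] at hu
    obtain ⟨q, hq, hqy⟩ := hcov y hy hu
    refine ⟨q, hq, ?_⟩
    have hxq := (hQ.mem q hq).1
    have hqyU : UAsym S q y := hxq.symm.trans hy
    have hb1 : ‖c.lc (S.g^[k] q) (S.g^[k] y)‖ ≤ C₁ := by
      rcases hqy with h | h
      · linarith
      · have h1 := c.base (S.g^[k] y) (S.g^[k] q) (S.g^[k] y) (hqyU.symm.iter k) (UAsym.refl S _)
        rw [c.lc_self, zero_sub] at h1
        rw [h1, c.tau_conf _ _ (hqyU.symm.iter k), norm_neg]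
        have h2 := (htau _ _ (hqyU.symm.iter k) h.le).1
        calc _ ≤ C₁ * 1 := by gcongr
          _ = C₁ := mul_one _
    rw [c.lc_iter hqyU k, c.base x q y hxq hy, c.Lp_conf k q, c.tau_conf x q hxq] at hb1
    have h3 := (htau x q hxq ((hQ.mem q hq).2.trans (by norm_num))).2
    have h4 := c.Lp_pos k q
    have h5 : ‖c.lc x y - c.lc x q‖ ≤ C₁ * (‖c.tau x q‖ * ‖c.lc x y - c.lc x q‖) := by
      calc ‖c.lc x y - c.lc x q‖ = 1 * ‖c.lc x y - c.lc x q‖ := (one_mul _).symm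
        _ ≤ (C₁ * ‖c.tau x q‖) * ‖c.lc x y - c.lc x q‖ := by gcongr
        _ = _ := by ring
    have h6 : ‖c.tau x q‖ * ‖c.lc x y - c.lc x q‖ ≤ C₁ * frD c k q := by
      unfold frD
      rw [← div_eq_mul_inv, le_div_iff₀ h4]
      linarith
    rw [← hyu]
    calc ‖c.lc x y - c.lc x q‖ ≤ C₁ * (‖c.tau x q‖ * ‖c.lc x y - c.lc x q‖) := h5
      _ ≤ C₁ * (C₁ * frD c k q) := by gcongr
      _ = C₂ * frD c k q := by rw [hC2]; ring
  have hpow : (1 / 2) ^ D / C₂ ^ D * ((16 : ℝ) ^ k) ^ ((D : ℝ) - s) ≤ ∑ q ∈ Q, frD c k q ^ s := by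
    have h1 : (1 / 2 : ℝ) ^ D / C₂ ^ D ≤ ∑ q ∈ Q, frD c k q ^ D := by
      rw [div_le_iff₀ (by positivity)]
      linarith
    calc (1 / 2) ^ D / C₂ ^ D * ((16 : ℝ) ^ k) ^ ((D : ℝ) - s)
        ≤ (∑ q ∈ Q, frD c k q ^ D) * ((16 : ℝ) ^ k) ^ ((D : ℝ) - s) := by gcongr
      _ = ∑ q ∈ Q, frD c k q ^ D * ((16 : ℝ) ^ k) ^ ((D : ℝ) - s) := Finset.sum_mul _ _ _
      _ ≤ ∑ q ∈ Q, frD c k q ^ s := by
        apply Finset.sum_le_sum
        intro q _
        have h2 := hfk q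
        have h3 : frD c k q ^ s = frD c k q ^ D * ‖c.Lp k q‖ ^ ((D : ℝ) - s) := by
          rw [← frD_eq, ← Real.rpow_natCast (frD c k q) D, Real.inv_rpow h2.le,
            ← Real.rpow_neg h2.le, ← Real.rpow_add h2]
          congr 1
          ring
        rw [h3]
        have h4 := c.Lp_ge k q
        have h5 : 0 ≤ (D : ℝ) - s := by linarith
        gcongr
  refine hpow.trans (le_csSup (hb k) ⟨x, Q, ⟨fun q hq => ⟨(hQ.mem q hq).1,
    (hQ.mem q hq).2.trans (by norm_num)⟩, hQ.sep⟩, rfl⟩)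

end Pool.Agent.H779R2.Nu
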