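import Pool.Agent.H779R2.Nu.N00

set_option autoImplicit false

namespace Pool.Agent.H779R2.Nu

open Pool.Agent.H721R2 Pool.Agent.H779R2.An Pool.Agent.H779R2.Li Filter Topology MeasureTheory
open scoped BigOperators

variable {X E : Type*} [MetricSpace X] [CompactSpace X] [NormedAddCommGroup E]
  [InnerProductSpace ℝ E] [FiniteDimensional ℝ E]

variable {S : HypSys X E} {D : ℕ}

/-- Existence of good points. -/
theorem exists_good [Nonempty X] (c : CFD S D) (s : ℝ) (hs : 0 < s) (hs2 : s < D) (hb : BddD c s)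
    (hlow : ∃ a > 0, ∀ n : ℕ, a * ((16 : ℝ) ^ n) ^ ((D : ℝ) - s) ≤ AfD c s n)
    (hback : ∃ R : ℝ, 1 ≤ R ∧ ∃ C : ℝ, 0 < C ∧ ∀ (x p : X), dist x p ≤ R⁻¹ →
      ∀ (m n : ℕ) (Q : Finset X), DSepD c n x 1 1 Q →
        ∃ Q' : Finset X, DSepD c n (S.g.symm^[m] p) R 1 Q' ∧
          dsumD c s n Q ≤ C * dsumD c s n Q') :
    ∃ β > 1, ∃ R ≥ 1, ∃ a > 0, ∃ p, GoodD c s β R a p := by
  obtain ⟨a, ha, hlow⟩ := hlow
  obtain ⟨R, hR, C, hC, hback⟩ := hback
  have hR0 : 0 < R := by linarith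
  have hDs : 0 < ((D : ℝ) - s) / 2 := by linarith
  set β : ℝ := (16 : ℝ) ^ (((D : ℝ) - s) / 2) with hβdef
  have hβ : 1 < β := Real.one_lt_rpow (by norm_num) hDs
  have hβ0 : 0 < β := by linarith
  refine ⟨β, hβ, R, hR, 1 / (2 * C), by positivity, ?_⟩
  have hpow : ∀ n : ℕ, β ^ n * β ^ n = ((16 : ℝ) ^ n) ^ ((D : ℝ) - s) := by
    intro n
    have h1 : β * β = (16 : ℝ) ^ ((D : ℝ) - s) := by
      rw [hβdef, ← Real.rpow_add (by norm_num)]
      congr 1
      ring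
    rw [← mul_pow, h1, ← Real.rpow_natCast, ← Real.rpow_mul (by norm_num),
      ← Real.rpow_natCast (16 : ℝ) n, ← Real.rpow_mul (by norm_num)]
    congr 1
    ring
  have hApos : ∀ n, 0 < AfD c s n := by
    intro n
    exact lt_of_lt_of_le (by positivity) (hlow n)
  have key : ∀ n : ℕ, a * β ^ n ≤ AfD c s n / β ^ n := by
    intro n
    rw [le_div_iff₀ (by positivity)]
    refine le_trans (le_of_eq ?_) (hlow n)
    rw [mul_assoc, hpow]
  have htend : Tendsto (fun n : ℕ => AfD c s n / β ^ n) atTop atTop :=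
    tendsto_atTop_mono key ((tendsto_pow_atTop_atTop_of_one_lt hβ).const_mul_atTop ha)
  have hrec : ∀ j : ℕ, ∃ N ≥ j, ∀ k < N, AfD c s k / β ^ k < AfD c s N / β ^ N :=
    Filter.high_scores htend
  choose φ hφ hφ2 using hrec
  have hx : ∀ j, ∃ x Q, DSepD c (φ j) x 1 1 Q ∧ AfD c s (φ j) / 2 ≤ dsumD c s (φ j) Q := by
    intro j
    have hne : {t | ∃ x Q, DSepD c (φ j) x 1 1 Q ∧ t = dsumD c s (φ j) Q}.Nonempty := by
      obtain ⟨x⟩ := (inferInstance : Nonempty X)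
      exact ⟨_, x, ∅, ⟨by simp, by simp⟩, rfl⟩
    have hlt : AfD c s (φ j) / 2 < sSup {t | ∃ x Q, DSepD c (φ j) x 1 1 Q ∧
        t = dsumD c s (φ j) Q} := by
      have := hApos (φ j)
      show AfD c s (φ j) / 2 < AfD c s (φ j)
      linarith
    obtain ⟨t, ⟨x, Q, hQ, rfl⟩, ht⟩ := exists_lt_of_lt_csSup hne hlt
    exact ⟨x, Q, hQ, ht.le⟩
  choose x Q hQ hdQ using hx
  obtain ⟨p, -, ψ, hψ, hlim⟩ := isCompact_univ.tendsto_subseq (x := x) (fun _ => Set.mem_univ _)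
  refine ⟨p, fun N₀ => ?_⟩
  obtain ⟨J, hJ⟩ := Metric.tendsto_atTop.1 hlim R⁻¹ (by positivity)
  have hd := hJ (max J N₀) (le_max_left _ _)
  generalize hj : ψ (max J N₀) = j at *
  have hd' : dist (x j) p ≤ R⁻¹ := by
    have h := hd.le
    simpa [Function.comp, hj] using h
  have hjN : N₀ ≤ φ j := by
    have h1 : max J N₀ ≤ ψ (max J N₀) := hψ.id_le _
    have h2 : j ≤ φ j := hφ j
    have h3 : N₀ ≤ max J N₀ := le_max_right _ _
    omega
  refine ⟨φ j, hjN, fun k hk => ?_, fun m => ?_⟩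
  · rcases Nat.eq_zero_or_pos k with rfl | hk0
    · simp
    · have h := (hφ2 j (φ j - k) (by omega)).le
      rw [div_le_div_iff₀ (by positivity) (by positivity)] at h
      have h3 : β ^ (φ j) = β ^ (φ j - k) * β ^ k := by
        rw [← pow_add]
        congr 1
        omega
      have h4 : 0 < β ^ (φ j - k) := by positivity
      rw [h3] at h
      refine le_of_mul_le_mul_right ?_ h4
      linarith
  · obtain ⟨Q', hQ', hle⟩ := hback (x j) p hd' m (φ j) (Q j) (hQ j)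
    refine ⟨Q', hQ', ?_⟩
    have h1 := hdQ j
    have h2 : AfD c s (φ j) / 2 ≤ C * dsumD c s (φ j) Q' := h1.trans hle
    rw [one_div, inv_mul_le_iff₀ (by positivity)]
    linarith

end Pool.Agent.H779R2.Nu
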