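import Pool.Agent.H779R2.Nu.N00
import Pool.Agent.H779R2.Mo.MNear

set_option autoImplicit false

namespace Pool.Agent.H779R2.Nu

open Pool.Agent.H721R2 Pool.Agent.H779R2.An Pool.Agent.H779R2.Li Filter Topology MeasureTheory
open scoped BigOperators

variable {X E : Type*} [MetricSpace X] [CompactSpace X] [NormedAddCommGroup E]
  [InnerProductSpace ℝ E] [FiniteDimensional ℝ E]

variable {S : HypSys X E} {D : ℕ}

theorem N16.cw_split (c : CFD S D) {j k : ℕ} (h : j ≤ k) (e : X) :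
    c.cw k e = c.cw j e * c.cw (k - j) (S.g.symm^[j] e) := by
  obtain ⟨i, rfl⟩ := Nat.exists_eq_add_of_le h
  rw [Nat.add_sub_cancel_left]
  unfold CFD.cw
  have h1 : S.g^[i] (S.g.symm^[j + i] e) = S.g.symm^[j] e := by
    rw [Nat.add_comm j i, Function.iterate_add_apply, iter_iter_symm]
  rw [c.norm_Lp_add j i, h1, ← Function.iterate_add_apply, mul_inv, Nat.add_comm i j]

theorem N16.cw_comp (c : CFD S D) (j : ℕ) {x e : X}
    (h : S.SRel c.ε₀ (S.g.symm^[j] x) (S.g.symm^[j] e)) : c.cw j e ≤ c.M ^ 2 * c.cw j x := by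
  have hs := c.geo.sasym _ _ h
  have h4 := c.norm_eta_iter hs j
  rw [iter_iter_symm, iter_iter_symm] at h4
  have h0 : S.SRel c.ε₀ x e := SRel_fwd j h
  have hx := c.Lp_pos j (S.g.symm^[j] x)
  have he := c.Lp_pos j (S.g.symm^[j] e)
  have hM := c.one_le_M
  have h5 := c.one_le_eta h0
  have h6 : ‖c.eta (S.g.symm^[j] x) (S.g.symm^[j] e)‖ ≤ c.M := c.eta_le _ _ h
  have h7 : ‖c.Lp j (S.g.symm^[j] x)‖ ≤ c.M ^ 2 * ‖c.Lp j (S.g.symm^[j] e)‖ := by
    calc ‖c.Lp j (S.g.symm^[j] x)‖ ≤ (c.M * ‖c.eta x e‖) * ‖c.Lp j (S.g.symm^[j] x)‖ :=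
          le_mul_of_one_le_left hx.le h5
      _ = c.M * (‖c.Lp j (S.g.symm^[j] e)‖ * ‖c.eta (S.g.symm^[j] x) (S.g.symm^[j] e)‖) := by
          rw [← h4]; ring
      _ ≤ c.M * (‖c.Lp j (S.g.symm^[j] e)‖ * c.M) := by gcongr
      _ = _ := by ring
  unfold CFD.cw
  rw [inv_le_iff_one_le_mul₀ he]
  calc (1 : ℝ) = ‖c.Lp j (S.g.symm^[j] x)‖ * ‖c.Lp j (S.g.symm^[j] x)‖⁻¹ := by
        field_simp
    _ ≤ (c.M ^ 2 * ‖c.Lp j (S.g.symm^[j] e)‖) * ‖c.Lp j (S.g.symm^[j] x)‖⁻¹ := by gcongr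
    _ = _ := by ring

/-- Sums over small stable discs. -/
theorem sum_near_d (c : CFD S D) (B : UV S)
    (hcw : ∃ C : ℝ, 0 < C ∧ ∀ k y, c.cw k y ≤ C * om S B k y) (hsum : SumB S B D) :
    ∀ κ > 0, ∃ ρ > 0, ∃ C : ℝ, 0 < C ∧ ∀ (j k : ℕ) (x : X) (A : Finset X), j ≤ k →
      (∀ e ∈ A, S.SRel ρ (S.g.symm^[j] x) (S.g.symm^[j] e)) →
      (∀ e ∈ A, ∀ e' ∈ A, e ≠ e' → ¬ S.SRel κ (S.g.symm^[k] e) (S.g.symm^[k] e')) →
      ∑ e ∈ A, c.cw k e ^ D ≤ C * c.cw j x ^ D := by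
  classical
  obtain ⟨C₀, hC₀, hcw⟩ := hcw
  intro κ hκ
  obtain ⟨ρ, hρ, C, hC⟩ := hsum κ hκ
  have hε := c.geo.pos
  refine ⟨min ρ c.ε₀, lt_min hρ hε, (c.M ^ 2) ^ D * (C₀ ^ D * (|C| + 1)), ?_, ?_⟩
  · have := c.one_le_M
    positivity
  · intro j k x A hjk hA hsep
    have hinj : Function.Injective (S.g.symm^[j]) := S.g.symm.injective.iterate j
    have hx0 := (c.cw_pos j x).le
    have hM := c.one_le_M
    have h1 := hC (k - j) (S.g.symm^[j] x) (A.image (S.g.symm^[j])) ?_ ?_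
    · rw [Finset.sum_image (fun a _ b _ h => hinj h)] at h1
      calc ∑ e ∈ A, c.cw k e ^ D
          ≤ ∑ e ∈ A, (c.M ^ 2 * c.cw j x) ^ D * (C₀ ^ D * om S B (k - j) (S.g.symm^[j] e) ^ D) := by
            refine Finset.sum_le_sum fun e he => ?_
            rw [N16.cw_split c hjk e, mul_pow]
            have h2 := N16.cw_comp c j ((hA e he).mono (min_le_right _ _))
            have h3 := hcw (k - j) (S.g.symm^[j] e)
            have h4 := (c.cw_pos j e).le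
            have h5 := (c.cw_pos (k - j) (S.g.symm^[j] e)).le
            rw [← mul_pow C₀]
            gcongr
        _ = (c.M ^ 2) ^ D * (C₀ ^ D * ∑ e ∈ A, om S B (k - j) (S.g.symm^[j] e) ^ D) *
            c.cw j x ^ D := by
            rw [← Finset.mul_sum, ← Finset.mul_sum]; ring
        _ ≤ (c.M ^ 2) ^ D * (C₀ ^ D * (|C| + 1)) * c.cw j x ^ D := by
            gcongr
            linarith [le_abs_self C]
    · intro y hy
      obtain ⟨e, he, rfl⟩ := Finset.mem_image.1 hy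
      exact (hA e he).mono (min_le_left _ _)
    · intro y hy y' hy' hne
      obtain ⟨e, he, rfl⟩ := Finset.mem_image.1 hy
      obtain ⟨e', he', rfl⟩ := Finset.mem_image.1 hy'
      rw [← Function.iterate_add_apply, ← Function.iterate_add_apply, Nat.sub_add_cancel hjk]
      exact hsep e he e' he' (fun h => hne (by rw [h]))

end Pool.Agent.H779R2.Nu
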