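import Pool.Agent.H779R2.Nu.N00

set_option autoImplicit false

namespace Pool.Agent.H779R2.Nu

open Pool.Agent.H721R2 Pool.Agent.H779R2.An Pool.Agent.H779R2.Li Filter Topology MeasureTheory
open scoped BigOperators

variable {X E : Type*} [MetricSpace X] [CompactSpace X] [NormedAddCommGroup E]
  [InnerProductSpace ℝ E] [FiniteDimensional ℝ E]

variable {S : HypSys X E} {D : ℕ}

/-- Paths on which `th` has small `s`-content. -/
theorem path_d {c : CFD S D} (T : THD c) (s : ℝ) (hs : 0 < s) (h : ArcD c s) : PathD T s := by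
  intro ρ hρ
  have hε₀ : 0 < c.ε₀ := c.geo.pos
  obtain ⟨ρ', hρ', H⟩ := h T.ε T.ε_pos (min ρ c.ε₀) (lt_min hρ hε₀)
  refine ⟨ρ', hρ', ?_⟩
  intro x x' hx δ hδ
  have hM : 0 < c.M := lt_of_lt_of_le one_pos c.one_le_M
  have hMC : 0 < c.M * T.C := mul_pos hM T.C_pos
  have hMCs : 0 < (c.M * T.C) ^ s := Real.rpow_pos_of_pos hMC s
  obtain ⟨k, γ, A, hc, h0, h1, hγ, hA, hcov, hsum⟩ := H x x' hx (δ / (c.M * T.C) ^ s)
    (div_pos hδ hMCs)
  refine ⟨γ, A, fun e => T.th x e, fun e => c.M * T.C * c.cw k e, hc, h0, h1, ?_, ?_, ?_, ?_⟩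
  · intro t ht
    exact (hγ t ht).mono (min_le_left _ _)
  · intro e _
    exact mul_pos hMC (c.cw_pos k e)
  · have e1 : ∑ e ∈ A, (c.M * T.C * c.cw k e) ^ s =
        (c.M * T.C) ^ s * ∑ e ∈ A, c.cw k e ^ s := by
      rw [Finset.mul_sum]
      refine Finset.sum_congr rfl fun e _ => ?_
      rw [Real.mul_rpow hMC.le (c.cw_pos k e).le]
    rw [e1]
    calc (c.M * T.C) ^ s * ∑ e ∈ A, c.cw k e ^ s ≤
          (c.M * T.C) ^ s * (δ / (c.M * T.C) ^ s) := mul_le_mul_of_nonneg_left hsum hMCs.le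
      _ = δ := by field_simp
  · intro t ht
    obtain ⟨e, he, hce⟩ := hcov t ht
    refine ⟨e, he, ?_⟩
    have hxe : S.SRel c.ε₀ x e := (hA e he).mono (min_le_right _ _)
    have hxt : S.SRel c.ε₀ x (γ t) := (hγ t ht).mono (min_le_right _ _)
    have axe : SAsym S x e := c.geo.sasym _ _ hxe
    have axt : SAsym S x (γ t) := c.geo.sasym _ _ hxt
    have aet : SAsym S e (γ t) := axe.symm.trans axt
    have hlev := T.lev k e (γ t) hce.symm
    rw [T.th_comp x e (γ t) axe aet, add_sub_cancel_left,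
      (c.eta_conf x e axe).norm_adjoint_apply]
    calc ‖c.eta x e‖ * ‖T.th e (γ t)‖ ≤ c.M * (T.C * c.cw k e) :=
          mul_le_mul (c.eta_le x e hxe) hlev (norm_nonneg _) hM.le
      _ = c.M * T.C * c.cw k e := by ring

end Pool.Agent.H779R2.Nu
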