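import Pool.Agent.H779R2.Nu.N00

set_option autoImplicit false

namespace Pool.Agent.H779R2.Nu

open Pool.Agent.H721R2 Pool.Agent.H779R2.An Pool.Agent.H779R2.Li Filter Topology MeasureTheory
open scoped BigOperators

variable {X E : Type*} [MetricSpace X] [CompactSpace X] [NormedAddCommGroup E]
  [InnerProductSpace ℝ E] [FiniteDimensional ℝ E]

variable {S : HypSys X E} {D : ℕ}

private theorem y19_symm_add (S : HypSys X E) (k m : ℕ) (hk : k ≤ m) (p : X) :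
    S.g.symm^[m] (S.g^[k] p) = S.g.symm^[m - k] p := by
  obtain ⟨j, rfl⟩ := Nat.exists_eq_add_of_le' hk
  rw [Nat.add_sub_cancel, Function.iterate_add_apply]
  congr 1
  exact Function.LeftInverse.iterate
    (show Function.LeftInverse S.g.symm S.g from S.g.symm_apply_apply) k p

/-- Many separated points in a large annulus around a good point. -/
theorem ann_sum_d (c : CFD S D) (s : ℝ) (hs : 0 < s) (hpos : ∀ n, 0 < AfD c s n)
    (hle : SmallD c s) (β R a : ℝ) (hβ : 1 < β) (hR : 1 ≤ R) (ha : 0 < a) (p₀ : X)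
    (hp : GoodD c s β R a p₀) (k : ℕ) :
    ∃ ρ > 0, ∃ a' > 0, ∀ m ≥ k, ∀ N₀ : ℕ, ∃ N ≥ N₀, m ≤ N ∧
      (∀ k ≤ N, β ^ k * AfD c s (N - k) ≤ AfD c s N) ∧ ∃ Q : Finset X,
      (∀ q ∈ Q, UAsym S (S.g^[k] p₀) q ∧
        ρ * ‖c.Lp m (S.g.symm^[m] (S.g^[k] p₀))‖ ≤ ‖c.lc (S.g^[k] p₀) q‖ ∧
        ‖c.lc (S.g^[k] p₀) q‖ ≤ R * ‖c.Lp m (S.g.symm^[m] (S.g^[k] p₀))‖) ∧
      (∀ q ∈ Q, ∀ q' ∈ Q, q ≠ q' → 1 ≤ ‖c.lc (S.g^[N - m] q) (S.g^[N - m] q')‖) ∧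
      a' * ‖c.Lp m (S.g.symm^[m] (S.g^[k] p₀))‖ ^ s * AfD c s N ≤
        ∑ q ∈ Q, (frD c (N - m) q / ‖c.tau (S.g^[k] p₀) q‖) ^ s := by
  classical
  obtain ⟨C₁, hC₁, hsm⟩ := hle 1 one_pos 1 one_pos
  obtain ⟨C₀, hC₀, htau⟩ := tau_bound_d c R
  have hC₀' : 0 < C₀ := by linarith
  have hM := c.one_le_M
  have hM0 : 0 < c.M := by linarith
  -- choice of `ρ`
  obtain ⟨ρ, hρ, hρ1, hρs⟩ : ∃ ρ : ℝ, 0 < ρ ∧ ρ ≤ 1 ∧ C₁ * (c.M * ρ) ^ s ≤ a / 2 := by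
    have h1 : Tendsto (fun ρ : ℝ => C₁ * (c.M * ρ) ^ s) (𝓝[>] 0) (𝓝 0) := by
      have h2 : Tendsto (fun ρ : ℝ => C₁ * (c.M * ρ) ^ s) (𝓝 0) (𝓝 (C₁ * (c.M * 0) ^ s)) := by
        apply ContinuousAt.tendsto
        apply ContinuousAt.mul continuousAt_const
        apply ContinuousAt.rpow_const
        · fun_prop
        · right; exact hs.le
      rw [mul_zero, Real.zero_rpow hs.ne', mul_zero] at h2
      exact h2.mono_left nhdsWithin_le_nhds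
    have h3 : ∀ᶠ ρ in 𝓝[>] (0 : ℝ), C₁ * (c.M * ρ) ^ s < a / 2 :=
      h1.eventually (gt_mem_nhds (by positivity))
    have h4 : ∀ᶠ ρ in 𝓝[>] (0 : ℝ), ρ ∈ Set.Ioo (0 : ℝ) 1 := Ioo_mem_nhdsGT one_pos
    obtain ⟨ρ, h5, h6⟩ := (h3.and h4).exists
    exact ⟨ρ, h6.1, h6.2.le, h5.le⟩
  obtain ⟨n₁, hn₁⟩ : ∃ n₁ : ℕ, 1 / ρ < (16 : ℝ) ^ n₁ := pow_unbounded_of_one_lt _ (by norm_num)
  refine ⟨ρ, hρ, (C₀⁻¹) ^ s * (a / 2), by positivity, ?_⟩
  intro m hm N₀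
  obtain ⟨N, hN, hrec, hgood⟩ := hp (max N₀ (max m n₁))
  have hNm : m ≤ N := by omega
  have hNn : n₁ ≤ N := by omega
  refine ⟨N, by omega, hNm, hrec, ?_⟩
  set p := S.g^[k] p₀ with hpdef
  set x := S.g.symm^[m] p with hx
  have hxp : x = S.g.symm^[m - k] p₀ := y19_symm_add S k m hm p₀
  have hgx : S.g^[m] x = p :=
    Function.LeftInverse.iterate
      (show Function.LeftInverse S.g S.g.symm from S.g.apply_symm_apply) m p
  obtain ⟨Q₀, hQ₀, hsum⟩ := hgood (m - k)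
  rw [← hxp] at hQ₀
  have hL : 0 < ‖c.Lp m x‖ := c.Lp_pos m x
  have hinj : Function.Injective (S.g^[m]) := S.g.injective.iterate m
  -- the central part has a small sum
  have hcen : dsumD c s N (Q₀.filter fun q => ‖c.lc x q‖ < ρ) ≤ a / 2 * AfD c s N := by
    obtain ⟨k₁, hk1, hk2, hk3⟩ := pick_k_d c x ρ hρ hρ1
    have hk₁N : k₁ ≤ N := by
      have h3 : (16 : ℝ) ^ k₁ < (16 : ℝ) ^ n₁ := hk3.trans_lt hn₁
      have h4 : k₁ < n₁ := (pow_lt_pow_iff_right₀ (by norm_num)).1 h3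
      omega
    have hds : DSepD c N x (1 * frD c k₁ x) 1 (Q₀.filter fun q => ‖c.lc x q‖ < ρ) := by
      constructor
      · intro q hq
        rw [Finset.mem_filter] at hq
        refine ⟨(hQ₀.mem q hq.1).1, ?_⟩
        rw [one_mul]
        exact hq.2.le.trans hk1
      · intro q hq q' hq' hne
        exact hQ₀.sep q (Finset.mem_filter.1 hq).1 q' (Finset.mem_filter.1 hq').1 hne
    have h1 := hsm N k₁ x _ hk₁N hds
    have h2 : AfD c s (N - k₁) ≤ AfD c s N := by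
      refine le_trans ?_ (hrec k₁ hk₁N)
      have h3 : (1 : ℝ) ≤ β ^ k₁ := one_le_pow₀ hβ.le
      nlinarith [hpos (N - k₁)]
    have h0 : 0 ≤ frD c k₁ x := hρ.le.trans hk1
    have h3 : frD c k₁ x ^ s ≤ (c.M * ρ) ^ s := Real.rpow_le_rpow h0 hk2 hs.le
    have hA := hpos N
    have hA' := hpos (N - k₁)
    calc dsumD c s N (Q₀.filter fun q => ‖c.lc x q‖ < ρ)
        ≤ C₁ * frD c k₁ x ^ s * AfD c s (N - k₁) := h1
      _ ≤ C₁ * (c.M * ρ) ^ s * AfD c s N := by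
          apply mul_le_mul (mul_le_mul_of_nonneg_left h3 hC₁.le) h2 hA'.le
          positivity
      _ ≤ a / 2 * AfD c s N := mul_le_mul_of_nonneg_right hρs hA.le
  set Q₁ := Q₀.filter fun q => ¬ ‖c.lc x q‖ < ρ with hQ₁
  have hbig : a / 2 * AfD c s N ≤ dsumD c s N Q₁ := by
    have h1 : dsumD c s N (Q₀.filter fun q => ‖c.lc x q‖ < ρ) + dsumD c s N Q₁ =
        dsumD c s N Q₀ := by
      unfold dsumD
      exact Finset.sum_filter_add_sum_filter_not _ _ _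
    linarith
  have hmem : ∀ q ∈ Q₁, UAsym S x q ∧ ρ ≤ ‖c.lc x q‖ ∧ ‖c.lc x q‖ ≤ R := by
    intro q hq
    rw [hQ₁, Finset.mem_filter] at hq
    obtain ⟨h1, h2⟩ := hQ₀.mem q hq.1
    exact ⟨h1, not_lt.1 hq.2, h2⟩
  refine ⟨Q₁.image (S.g^[m]), ?_, ?_, ?_⟩
  · intro q hq
    obtain ⟨q', hq', rfl⟩ := Finset.mem_image.1 hq
    obtain ⟨h1, h2, h3⟩ := hmem q' hq'
    have h4 := h1.iter m
    rw [hgx] at h4
    have h5 := c.lc_iter h1 m
    rw [hgx] at h5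
    refine ⟨h4, ?_, ?_⟩
    · rw [h5, c.Lp_conf m x, mul_comm]
      exact mul_le_mul_of_nonneg_left h2 hL.le
    · rw [h5, c.Lp_conf m x, mul_comm]
      exact mul_le_mul_of_nonneg_right h3 hL.le
  · intro q1 hq1 q2 hq2 hne
    obtain ⟨q1', hq1', rfl⟩ := Finset.mem_image.1 hq1
    obtain ⟨q2', hq2', rfl⟩ := Finset.mem_image.1 hq2
    have hne' : q1' ≠ q2' := fun h => hne (by rw [h])
    rw [← Function.iterate_add_apply, ← Function.iterate_add_apply, Nat.sub_add_cancel hNm]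
    exact hQ₀.sep _ (Finset.mem_filter.1 hq1').1 _ (Finset.mem_filter.1 hq2').1 hne'
  · rw [Finset.sum_image (fun x _ y _ h => hinj h)]
    have h1 : ∀ q ∈ Q₁, ‖c.Lp m x‖ ^ s * ((C₀⁻¹) ^ s * frD c N q ^ s) ≤
        (frD c (N - m) (S.g^[m] q) / ‖c.tau p (S.g^[m] q)‖) ^ s := by
      intro q hq
      obtain ⟨h1, h2, h3⟩ := hmem q hq
      have h4 := flat_iter_d c h1 m (N - m)
      rw [hgx, Nat.sub_add_cancel hNm] at h4
      rw [h4]
      have hfr : 0 ≤ frD c N q := inv_nonneg.2 (norm_nonneg _)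
      have hτq : 0 < ‖c.tau x q‖ := c.tau_pos h1
      have h5 : C₀⁻¹ * frD c N q ≤ frD c N q / ‖c.tau x q‖ := by
        rw [div_eq_mul_inv, mul_comm]
        exact mul_le_mul_of_nonneg_left (inv_anti₀ hτq (htau x q h1 h3).1) hfr
      rw [Real.mul_rpow hL.le (by positivity), ← Real.mul_rpow (by positivity) hfr]
      exact mul_le_mul_of_nonneg_left (Real.rpow_le_rpow (by positivity) h5 hs.le)
        (by positivity)
    have h2 : ∑ q ∈ Q₁, ‖c.Lp m x‖ ^ s * ((C₀⁻¹) ^ s * frD c N q ^ s) =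
        ‖c.Lp m x‖ ^ s * ((C₀⁻¹) ^ s * dsumD c s N Q₁) := by
      unfold dsumD
      rw [Finset.mul_sum, Finset.mul_sum]
    refine le_trans ?_ (Finset.sum_le_sum h1)
    rw [h2]
    calc (C₀⁻¹) ^ s * (a / 2) * ‖c.Lp m x‖ ^ s * AfD c s N
        = ‖c.Lp m x‖ ^ s * ((C₀⁻¹) ^ s * (a / 2 * AfD c s N)) := by
          ring
      _ ≤ _ := by
          apply mul_le_mul_of_nonneg_left _ (by positivity)
          exact mul_le_mul_of_nonneg_left hbig (by positivity)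

end Pool.Agent.H779R2.Nu
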