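import Pool.Agent.H779R2.Nu.N00

set_option autoImplicit false

namespace Pool.Agent.H779R2.Nu

open Pool.Agent.H721R2 Pool.Agent.H779R2.An Pool.Agent.H779R2.Li Filter Topology MeasureTheory
open scoped BigOperators

variable {X E : Type*} [MetricSpace X] [CompactSpace X] [NormedAddCommGroup E]
  [InnerProductSpace ℝ E] [FiniteDimensional ℝ E]

variable {S : HypSys X E} {D : ℕ}

private theorem n20_den (b u : Ve D) : 1 - ‖b‖ * ‖u‖ ≤ Real.sqrt (den b u) := by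
  apply Real.le_sqrt_of_sq_le
  have h := real_inner_le_norm b u
  unfold den
  nlinarith

private theorem n20_den_eq (b u : Ve D) (hb : b ≠ 0) :
    Real.sqrt (den b u) = ‖b‖ * ‖u - (‖b‖ ^ 2)⁻¹ • b‖ := by
  rw [den_eq b u hb, ← mul_pow, Real.sqrt_sq (mul_nonneg (norm_nonneg _) (norm_nonneg _))]

/-- Few separated points near a pole. -/
theorem bad_sum_d (c : CFD S D) (s : ℝ) (hs : 0 < s) (hle : SmallD c s)
    (p : X) (R : ℝ) (hR : 0 < R) :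
    ∃ C : ℝ, 0 < C ∧ ∀ ω : ℝ, 0 < ω → ω ≤ 1 → 4 * ω * R ≤ 1 → ∃ n₁ : ℕ, ∀ n ≥ n₁,
      ∀ B : ℝ, (∀ k ≤ n, AfD c s (n - k) ≤ B) →
      ∀ (β : Ve D) (Q : Finset X), (∀ q ∈ Q, UAsym S p q ∧ ‖c.lc p q‖ ≤ R) →
      (∀ q ∈ Q, ∀ q' ∈ Q, q ≠ q' → 1 ≤ ‖c.lc (S.g^[n] q) (S.g^[n] q')‖) →
      (∀ q ∈ Q, Real.sqrt (den β (c.lc p q)) ≤ 2 * ω * R) → 0 ≤ B →
      ∑ q ∈ Q, (frD c n q / ‖c.tau p q‖) ^ s ≤ C * ω ^ s * B := by
  obtain ⟨CR, hCR1, hCR⟩ := tau_bound_d c R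
  have hCR0 : 0 < CR := by linarith
  have hM := c.one_le_M
  have hM0 : 0 < c.M := by linarith
  obtain ⟨C₁, hC₁, hle⟩ := hle (8 * CR * R ^ 2) (by positivity) 1 one_pos
  refine ⟨CR ^ s * C₁ * c.M ^ s, by positivity, ?_⟩
  intro ω hω hω1 hωR
  obtain ⟨n₁, hn₁⟩ : ∃ n₁ : ℕ, 1 / ω < (16 : ℝ) ^ n₁ := pow_unbounded_of_one_lt _ (by norm_num)
  refine ⟨n₁, ?_⟩
  intro n hn B hB β Q hQ hsep hβ hB0
  rcases Q.eq_empty_or_nonempty with rfl | ⟨q₁, hq₁⟩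
  · rw [Finset.sum_empty]
    positivity
  obtain ⟨k, hk1, hk2, hk3⟩ := pick_k_d c q₁ ω hω hω1
  have hkn : k ≤ n := by
    have h3 : (16 : ℝ) ^ k < (16 : ℝ) ^ n₁ := hk3.trans_lt hn₁
    have h4 : k < n₁ := (pow_lt_pow_iff_right₀ (by norm_num)).1 h3
    omega
  -- estimates
  have hβu : ∀ q ∈ Q, 1 / 2 ≤ ‖β‖ * ‖c.lc p q‖ := by
    intro q hq
    have h1 := hβ q hq
    have h2 := n20_den β (c.lc p q)
    linarith
  have hβR : 1 ≤ ‖β‖ * (2 * R) := by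
    have h1 := hβu q₁ hq₁
    have h2 : ‖β‖ * ‖c.lc p q₁‖ ≤ ‖β‖ * R := mul_le_mul_of_nonneg_left (hQ q₁ hq₁).2 (norm_nonneg _)
    linarith
  have hβ0 : β ≠ 0 := by
    intro h0
    rw [h0, norm_zero, zero_mul] at hβR
    linarith
  have hnear : ∀ q ∈ Q, ‖β‖ * ‖c.lc p q - (‖β‖ ^ 2)⁻¹ • β‖ ≤ 2 * ω * R := by
    intro q hq
    rw [← n20_den_eq β (c.lc p q) hβ0]
    exact hβ q hq
  have hdist : ∀ q ∈ Q, ‖c.lc p q - c.lc p q₁‖ ≤ 8 * ω * R ^ 2 := by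
    intro q hq
    have h1 : ‖β‖ * ‖c.lc p q - c.lc p q₁‖ ≤ 4 * ω * R := by
      have h2 : c.lc p q - c.lc p q₁ = (c.lc p q - (‖β‖ ^ 2)⁻¹ • β) -
          (c.lc p q₁ - (‖β‖ ^ 2)⁻¹ • β) := by abel
      have h3 : ‖c.lc p q - c.lc p q₁‖ ≤ ‖c.lc p q - (‖β‖ ^ 2)⁻¹ • β‖ +
          ‖c.lc p q₁ - (‖β‖ ^ 2)⁻¹ • β‖ := by
        conv_lhs => rw [h2]
        exact norm_sub_le _ _
      have h4 := mul_le_mul_of_nonneg_left h3 (norm_nonneg β)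
      rw [mul_add] at h4
      linarith [hnear q hq, hnear q₁ hq₁]
    have h3 : 0 ≤ ‖c.lc p q - c.lc p q₁‖ := norm_nonneg _
    calc ‖c.lc p q - c.lc p q₁‖ = 1 * ‖c.lc p q - c.lc p q₁‖ := (one_mul _).symm
      _ ≤ (‖β‖ * (2 * R)) * ‖c.lc p q - c.lc p q₁‖ := mul_le_mul_of_nonneg_right hβR h3
      _ = 2 * R * (‖β‖ * ‖c.lc p q - c.lc p q₁‖) := by ring
      _ ≤ 2 * R * (4 * ω * R) := mul_le_mul_of_nonneg_left h1 (by positivity)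
      _ = _ := by ring
  have hds : DSepD c n q₁ (8 * CR * R ^ 2 * frD c k q₁) 1 Q := by
    refine ⟨fun q hq => ⟨(hQ q₁ hq₁).1.symm.trans (hQ q hq).1, ?_⟩, hsep⟩
    rw [c.base p q₁ q (hQ q₁ hq₁).1 (hQ q hq).1, c.tau_conf p q₁ (hQ q₁ hq₁).1]
    calc ‖c.tau p q₁‖ * ‖c.lc p q - c.lc p q₁‖ ≤ CR * (8 * ω * R ^ 2) :=
          mul_le_mul (hCR p q₁ (hQ q₁ hq₁).1 (hQ q₁ hq₁).2).1 (hdist q hq) (norm_nonneg _) hCR0.le
      _ = 8 * CR * R ^ 2 * ω := by ring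
      _ ≤ 8 * CR * R ^ 2 * frD c k q₁ := mul_le_mul_of_nonneg_left hk1 (by positivity)
  have hfr : ∀ n x, 0 < frD c n x := fun n x => inv_pos.2 (c.Lp_pos n x)
  have h1 := hle n k q₁ Q hkn hds
  have h2 := hB k hkn
  have h3 : frD c k q₁ ^ s ≤ c.M ^ s * ω ^ s := by
    rw [← Real.mul_rpow hM0.le hω.le]
    exact Real.rpow_le_rpow (hfr k q₁).le hk2 hs.le
  have h4 : ∑ q ∈ Q, (frD c n q / ‖c.tau p q‖) ^ s ≤ CR ^ s * dsumD c s n Q := by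
    unfold dsumD
    rw [Finset.mul_sum]
    refine Finset.sum_le_sum fun q hq => ?_
    rw [← Real.mul_rpow hCR0.le (hfr n q).le]
    have hτ : 0 < ‖c.tau p q‖ := c.tau_pos (hQ q hq).1
    refine Real.rpow_le_rpow (div_nonneg (hfr n q).le hτ.le) ?_ hs.le
    rw [div_le_iff₀ hτ]
    have h5 := (hCR p q (hQ q hq).1 (hQ q hq).2).2
    have h6 := hfr n q
    calc frD c n q = frD c n q * 1 := (mul_one _).symm
      _ ≤ frD c n q * (CR * ‖c.tau p q‖) := mul_le_mul_of_nonneg_left h5 h6.le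
      _ = CR * frD c n q * ‖c.tau p q‖ := by ring
  have hωs : 0 < ω ^ s := Real.rpow_pos_of_pos hω s
  have hMs : 0 < c.M ^ s := Real.rpow_pos_of_pos hM0 s
  have hCRs : 0 < CR ^ s := Real.rpow_pos_of_pos hCR0 s
  have hfs : 0 ≤ frD c k q₁ ^ s := Real.rpow_nonneg (hfr k q₁).le s
  calc ∑ q ∈ Q, (frD c n q / ‖c.tau p q‖) ^ s ≤ CR ^ s * dsumD c s n Q := h4
    _ ≤ CR ^ s * (C₁ * frD c k q₁ ^ s * AfD c s (n - k)) :=
        mul_le_mul_of_nonneg_left h1 hCRs.le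
    _ ≤ CR ^ s * (C₁ * frD c k q₁ ^ s * B) := by
        refine mul_le_mul_of_nonneg_left ?_ hCRs.le
        exact mul_le_mul_of_nonneg_left h2 (mul_nonneg hC₁.le hfs)
    _ ≤ CR ^ s * (C₁ * (c.M ^ s * ω ^ s) * B) := by
        refine mul_le_mul_of_nonneg_left ?_ hCRs.le
        refine mul_le_mul_of_nonneg_right ?_ hB0
        exact mul_le_mul_of_nonneg_left h3 hC₁.le
    _ = _ := by ring

end Pool.Agent.H779R2.Nu
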