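import Pool.Agent.H779R2.Nu.N00

set_option autoImplicit false

namespace Pool.Agent.H779R2.Nu

open Pool.Agent.H721R2 Pool.Agent.H779R2.An Pool.Agent.H779R2.Li Filter Topology MeasureTheory
open scoped BigOperators

variable {X E : Type*} [MetricSpace X] [CompactSpace X] [NormedAddCommGroup E]
  [InnerProductSpace ℝ E] [FiniteDimensional ℝ E]

variable {S : HypSys X E} {D : ℕ}

theorem n21_den_bounds (b u : Ve D) (h : 2 ≤ ‖b‖ * ‖u‖) :
    ‖b‖ * ‖u‖ / 2 ≤ Real.sqrt (den b u) ∧ Real.sqrt (den b u) ≤ 2 * (‖b‖ * ‖u‖) := by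
  have h1 := abs_le.1 (abs_real_inner_le_norm b u)
  constructor
  · refine Real.le_sqrt_of_sq_le ?_
    unfold den
    nlinarith [h1.2, norm_nonneg b, norm_nonneg u]
  · rw [Real.sqrt_le_left (by positivity)]
    unfold den
    nlinarith [h1.1, norm_nonneg b, norm_nonneg u]

/-- pointwise facts on one transported point -/
theorem n21_pt {c : CFD S D} (T : THD c) {p y q q' : X} (n : ℕ) (hq : QdMD T p y q q') :
    frD c n q' / ‖c.tau y q'‖ * (‖c.eta (S.g^[n] q) (S.g^[n] q')‖ *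
      den (T.th p y) (c.lc p q)) = frD c n q / ‖c.tau p q‖ * ‖c.eta p y‖ := by
  have e1 := c.norm_eta_iter hq.xx n
  have e2 := hq.eta_eq
  have t1 : 0 < ‖c.tau y q'‖ := c.tau_pos hq.wx
  have t2 : 0 < ‖c.tau p q‖ := c.tau_pos hq.vx
  have L1 := c.Lp_pos n q
  have L2 := c.Lp_pos n q'
  unfold frD
  rw [div_mul_eq_mul_div, div_mul_eq_mul_div, div_eq_div_iff t1.ne' t2.ne']
  have k1 : ‖c.Lp n q'‖⁻¹ * ‖c.eta (S.g^[n] q) (S.g^[n] q')‖ =
      ‖c.Lp n q‖⁻¹ * ‖c.eta q q'‖ := by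
    rw [inv_mul_eq_div, inv_mul_eq_div, div_eq_div_iff L2.ne' L1.ne']
    linarith
  calc ‖c.Lp n q'‖⁻¹ * (‖c.eta (S.g^[n] q) (S.g^[n] q')‖ *
        den (T.th p y) (c.lc p q)) * ‖c.tau p q‖
      = (‖c.Lp n q'‖⁻¹ * ‖c.eta (S.g^[n] q) (S.g^[n] q')‖) *
        (den (T.th p y) (c.lc p q) * ‖c.tau p q‖) := by ring
    _ = (‖c.Lp n q‖⁻¹ * ‖c.eta q q'‖) * (den (T.th p y) (c.lc p q) * ‖c.tau p q‖) := by rw [k1]
    _ = ‖c.Lp n q‖⁻¹ * (‖c.eta q q'‖ * ‖c.tau p q‖ * den (T.th p y) (c.lc p q)) := by ring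
    _ = ‖c.Lp n q‖⁻¹ * (‖c.tau y q'‖ * ‖c.eta p y‖) := by rw [e2]
    _ = _ := by ring

/-- Upper bound for the points of a large annulus which can be transported to the leaf of `y`. -/
theorem good_sum_d {c : CFD S D} (T : THD c) (s : ℝ) (hs : 0 < s) (hle : SmallD c s)
    (p y : X) (hpy : SAsym S p y) (hb : T.th p y ≠ 0) (ρ R : ℝ) (hρ : 0 < ρ) (hR : ρ ≤ R) :
    ∃ C : ℝ, 0 < C ∧ ∀ L : ℝ, 1 ≤ L → 2 ≤ ‖T.th p y‖ * (ρ * L) → ∃ n₂ : ℕ, ∀ n ≥ n₂,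
      ∀ B : ℝ, (∀ k ≤ n, AfD c s (n - k) ≤ B) → 0 ≤ B →
      ∀ (Q : Finset X) (star : X → X),
      (∀ q ∈ Q, UAsym S p q ∧ ρ * L ≤ ‖c.lc p q‖ ∧ ‖c.lc p q‖ ≤ R * L) →
      (∀ q ∈ Q, ∀ q' ∈ Q, q ≠ q' → 1 ≤ ‖c.lc (S.g^[n] q) (S.g^[n] q')‖) →
      (∀ q ∈ Q, QdMD T p y q (star q) ∧ S.SRel c.ε₀ (S.g^[n] q) (S.g^[n] (star q))) →
      ∑ q ∈ Q, (frD c n q / ‖c.tau p q‖) ^ s ≤ C * L ^ s * B := by
  classical
  have hM := c.one_le_M
  have hM0 : 0 < c.M := by linarith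
  have hR0 : 0 < R := lt_of_lt_of_le hρ hR
  set b : Ve D := T.th p y with hbdef
  set η : Ve D →L[ℝ] Ve D := c.eta p y with hηdef
  have hbp : 0 < ‖b‖ := norm_pos_iff.2 hb
  have hηp : 0 < ‖η‖ := c.eta_pos hpy
  have hηc : Conf η := c.eta_conf p y hpy
  set ω₁ : ℝ := ‖b‖ * ρ / 2 with hω₁
  set ω₂ : ℝ := 2 * ‖b‖ * R with hω₂
  have hω₁p : 0 < ω₁ := by positivity
  have hω₂p : 0 < ω₂ := by positivity
  obtain ⟨CB, hCB1, hCB⟩ := tau_bound_d c (‖η‖ * R / ω₁)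
  have hCB0 : 0 < CB := by linarith
  set K₃ : ℝ := CB * (2 * ‖η‖ * R / ω₁ ^ 2) with hK₃
  have hK₃p : 0 < K₃ := by positivity
  set θ : ℝ := ω₁ / (ω₂ * c.M) with hθ
  have hθp : 0 < θ := by positivity
  obtain ⟨C₁, hC₁, hle'⟩ := hle K₃ hK₃p θ hθp
  set K₄ : ℝ := c.M * ω₂ ^ 2 * CB / ‖η‖ with hK₄
  have hK₄p : 0 < K₄ := by positivity
  refine ⟨K₄ ^ s * C₁ * c.M ^ s, by positivity, ?_⟩
  intro L hL hbL
  have hLp : 0 < L := by linarith
  obtain ⟨n₂, hn₂⟩ : ∃ n₂ : ℕ, L < (16 : ℝ) ^ n₂ := pow_unbounded_of_one_lt _ (by norm_num)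
  refine ⟨n₂, ?_⟩
  intro n hn B' hB' hB0 Q star hQ hsep hst
  rcases Q.eq_empty_or_nonempty with hQe | ⟨q₁, hq₁⟩
  · subst hQe
    simp only [Finset.sum_empty]
    positivity
  set w : X → ℝ := fun q => Real.sqrt (den b (c.lc p q)) with hw
  have hwb : ∀ q ∈ Q, ω₁ * L ≤ w q ∧ w q ≤ ω₂ * L := by
    intro q hq
    obtain ⟨-, h1, h2⟩ := hQ q hq
    have h3 : 2 ≤ ‖b‖ * ‖c.lc p q‖ := hbL.trans (mul_le_mul_of_nonneg_left h1 hbp.le)
    obtain ⟨h4, h5⟩ := n21_den_bounds b (c.lc p q) h3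
    constructor
    · refine le_trans ?_ h4
      have := mul_le_mul_of_nonneg_left h1 hbp.le
      rw [hω₁]
      nlinarith
    · refine h5.trans ?_
      have := mul_le_mul_of_nonneg_left h2 hbp.le
      rw [hω₂]
      nlinarith
  have hwpos : ∀ q ∈ Q, 0 < w q := fun q hq => lt_of_lt_of_le (by positivity) (hwb q hq).1
  have hwsq : ∀ q ∈ Q, den b (c.lc p q) = w q ^ 2 := fun q hq =>
    (Real.sq_sqrt (den_nonneg _ _)).symm
  have hden : ∀ q ∈ Q, den b (c.lc p q) ≠ 0 := fun q hq => (hst q hq).1.ne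
  have hpt := fun q (hq : q ∈ Q) => n21_pt T n (hst q hq).1
  simp only [← hbdef, ← hηdef] at hpt
  have hen : ∀ q ∈ Q, ‖c.eta (S.g^[n] q) (S.g^[n] (star q))‖ ≤ c.M ∧
      1 ≤ c.M * ‖c.eta (S.g^[n] q) (S.g^[n] (star q))‖ := fun q hq =>
    ⟨c.eta_le _ _ (hst q hq).2, c.one_le_eta (hst q hq).2⟩
  have hτy : ∀ q ∈ Q, 0 < ‖c.tau y (star q)‖ := fun q hq => c.tau_pos (hst q hq).1.wx
  have hτp : ∀ q ∈ Q, 0 < ‖c.tau p q‖ := fun q hq => c.tau_pos (hst q hq).1.vx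
  have hfr : ∀ (m : ℕ) (x : X), 0 < frD c m x := fun m x => inv_pos.2 (c.Lp_pos m x)
  have hrs : ∀ q ∈ Q, 0 < frD c n (star q) / ‖c.tau y (star q)‖ := fun q hq =>
    div_pos (hfr n _) (hτy q hq)
  have hr : ∀ q ∈ Q, 0 < frD c n q / ‖c.tau p q‖ := fun q hq =>
    div_pos (hfr n _) (hτp q hq)
  have hv : ∀ q ∈ Q, c.lc y (star q) = mobD η b (c.lc p q) := fun q hq => (hst q hq).1.lc_eq
  have hvn : ∀ q ∈ Q, ‖c.lc y (star q)‖ ≤ ‖η‖ * R / ω₁ := by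
    intro q hq
    rw [hv q hq, mobD_norm hηc b _ (hden q hq)]
    have h1 := (hwb q hq).1
    have h2 := (hQ q hq).2.2
    calc ‖η‖ * ‖c.lc p q‖ / w q ≤ ‖η‖ * (R * L) / (ω₁ * L) := by gcongr
      _ = ‖η‖ * R / ω₁ := by field_simp
  have hvd : ∀ q ∈ Q, ∀ q' ∈ Q, ‖c.lc y (star q) - c.lc y (star q')‖ * (w q * w q') =
      ‖η‖ * ‖c.lc p q - c.lc p q'‖ := by
    intro q hq q' hq'
    rw [hv q hq, hv q' hq', mobD_dist hηc b _ _ (hden q hq) (hden q' hq')]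
    have a1 := (hwpos q hq).ne'
    have a2 := (hwpos q' hq').ne'
    exact div_mul_cancel₀ _ (mul_ne_zero a1 a2)
  have hvd' : ∀ q ∈ Q, ∀ q' ∈ Q, ‖c.lc y (star q) - c.lc y (star q')‖ ≤
      2 * ‖η‖ * R / ω₁ ^ 2 * (1 / L) := by
    intro q hq q' hq'
    have h1 := hvd q hq q' hq'
    have h2 : ‖c.lc p q - c.lc p q'‖ ≤ 2 * (R * L) := by
      refine (norm_sub_le _ _).trans ?_
      linarith [(hQ q hq).2.2, (hQ q' hq').2.2]
    have h3 : (ω₁ * L) * (ω₁ * L) ≤ w q * w q' :=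
      mul_le_mul (hwb q hq).1 (hwb q' hq').1 (by positivity) (hwpos q hq).le
    have h4 : ‖c.lc y (star q) - c.lc y (star q')‖ * ((ω₁ * L) * (ω₁ * L)) ≤
        ‖η‖ * (2 * (R * L)) := by
      calc _ ≤ ‖c.lc y (star q) - c.lc y (star q')‖ * (w q * w q') :=
            mul_le_mul_of_nonneg_left h3 (norm_nonneg _)
        _ = ‖η‖ * ‖c.lc p q - c.lc p q'‖ := h1
        _ ≤ _ := mul_le_mul_of_nonneg_left h2 hηp.le
    rw [← le_div_iff₀ (by positivity)] at h4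
    refine h4.trans (le_of_eq ?_)
    field_simp
  -- separation of the transported points
  have hsep' : ∀ q ∈ Q, ∀ q' ∈ Q, q ≠ q' →
      θ ≤ ‖c.lc (S.g^[n] (star q)) (S.g^[n] (star q'))‖ := by
    intro q hq q' hq' hne
    have h1 := lc_sep_d c (hst q hq).1.wx (hst q' hq').1.wx n
    have h2 := lc_sep_d c (hst q hq).1.vx (hst q' hq').1.vx n
    have h3 : frD c n q / ‖c.tau p q‖ ≤ ‖c.lc p q - c.lc p q'‖ := by
      rw [← h2]
      calc frD c n q / ‖c.tau p q‖ = 1 * (frD c n q / ‖c.tau p q‖) := (one_mul _).symm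
        _ ≤ _ := mul_le_mul_of_nonneg_right (hsep q hq q' hq' hne) (hr q hq).le
    have h5 := hvd q hq q' hq'
    have h6 := hpt q hq
    rw [hwsq q hq] at h6
    set ηn := ‖c.eta (S.g^[n] q) (S.g^[n] (star q))‖ with hηn
    set ls := ‖c.lc (S.g^[n] (star q)) (S.g^[n] (star q'))‖ with hls
    set rs := frD c n (star q) / ‖c.tau y (star q)‖ with hrs'
    have hrsp : 0 < rs := hrs q hq
    have h7 : rs * (ηn * w q ^ 2) ≤ ls * rs * (w q * w q') := by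
      rw [h1, h5, h6, mul_comm ‖η‖]
      exact mul_le_mul_of_nonneg_right h3 hηp.le
    have hwq := hwpos q hq
    have h8 : ηn * w q ≤ ls * w q' := by
      refine le_of_mul_le_mul_left ?_ (mul_pos hrsp hwq)
      calc rs * w q * (ηn * w q) = rs * (ηn * w q ^ 2) := by ring
        _ ≤ ls * rs * (w q * w q') := h7
        _ = rs * w q * (ls * w q') := by ring
    have h9 : ω₁ * L ≤ c.M * (ls * (ω₂ * L)) := by
      calc ω₁ * L ≤ w q := (hwb q hq).1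
        _ = 1 * w q := (one_mul _).symm
        _ ≤ c.M * ηn * w q := mul_le_mul_of_nonneg_right (hen q hq).2 hwq.le
        _ = c.M * (ηn * w q) := by ring
        _ ≤ c.M * (ls * w q') := mul_le_mul_of_nonneg_left h8 hM0.le
        _ ≤ c.M * (ls * (ω₂ * L)) := by
            have : ls * w q' ≤ ls * (ω₂ * L) :=
              mul_le_mul_of_nonneg_left (hwb q' hq').2 (norm_nonneg _)
            exact mul_le_mul_of_nonneg_left this hM0.le
    have h10 : ω₁ ≤ ls * (ω₂ * c.M) := by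
      refine le_of_mul_le_mul_right ?_ hLp
      calc ω₁ * L ≤ c.M * (ls * (ω₂ * L)) := h9
        _ = ls * (ω₂ * c.M) * L := by ring
    rw [hθ, div_le_iff₀ (by positivity)]
    exact h10
  have hinj : Set.InjOn star (Q : Set X) := by
    intro q hq q' hq' he
    by_contra hne
    have h1 := hsep' q hq q' hq' hne
    rw [he, c.lc_self, norm_zero] at h1
    linarith
  -- the centre
  set xi : X := star q₁ with hxi
  obtain ⟨k, hk1, hk2, hk3⟩ := pick_k_d c xi (1 / L) (by positivity) (by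
    rw [div_le_one hLp]; exact hL)
  have hkn : k ≤ n := by
    rw [one_div_one_div] at hk3
    have h3 : (16 : ℝ) ^ k < (16 : ℝ) ^ n₂ := hk3.trans_lt hn₂
    have h4 : k < n₂ := (pow_lt_pow_iff_right₀ (by norm_num)).1 h3
    omega
  have hxi1 : UAsym S y xi := (hst q₁ hq₁).1.wx
  have hτi : ‖c.tau y xi‖ ≤ CB := (hCB y xi hxi1 (hvn q₁ hq₁)).1
  have hds : DSepD c n xi (K₃ * frD c k xi) θ (Q.image star) := by
    refine ⟨?_, ?_⟩
    · intro z hz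
      obtain ⟨q, hq, rfl⟩ := Finset.mem_image.1 hz
      refine ⟨hxi1.symm.trans (hst q hq).1.wx, ?_⟩
      rw [c.base y xi (star q) hxi1 (hst q hq).1.wx, (c.tau_conf y xi hxi1) _]
      calc ‖c.tau y xi‖ * ‖c.lc y (star q) - c.lc y xi‖ ≤
            CB * (2 * ‖η‖ * R / ω₁ ^ 2 * (1 / L)) :=
            mul_le_mul hτi (hvd' q hq q₁ hq₁) (norm_nonneg _) hCB0.le
        _ = K₃ * (1 / L) := by rw [hK₃]; ring
        _ ≤ _ := mul_le_mul_of_nonneg_left hk1 hK₃p.le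
    · intro z hz z' hz' hne
      obtain ⟨q, hq, rfl⟩ := Finset.mem_image.1 hz
      obtain ⟨q', hq', rfl⟩ := Finset.mem_image.1 hz'
      exact hsep' q hq q' hq' (fun h => hne (by rw [h]))
  have h1 := hle' n k xi (Q.image star) hkn hds
  have h3 : frD c k xi ^ s ≤ c.M ^ s * (1 / L) ^ s := by
    rw [← Real.mul_rpow hM0.le (by positivity)]
    exact Real.rpow_le_rpow (hfr k xi).le hk2 hs.le
  have h3' : (0 : ℝ) ≤ frD c k xi ^ s := Real.rpow_nonneg (hfr k xi).le s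
  have h1' : dsumD c s n (Q.image star) ≤ C₁ * (c.M ^ s * (1 / L) ^ s) * B' := by
    calc dsumD c s n (Q.image star) ≤ C₁ * frD c k xi ^ s * AfD c s (n - k) := h1
      _ ≤ C₁ * frD c k xi ^ s * B' :=
          mul_le_mul_of_nonneg_left (hB' k hkn) (mul_nonneg hC₁.le h3')
      _ ≤ C₁ * (c.M ^ s * (1 / L) ^ s) * B' :=
          mul_le_mul_of_nonneg_right (mul_le_mul_of_nonneg_left h3 hC₁.le) hB0
  -- comparison of the sums
  have h4 : ∀ q ∈ Q, frD c n q / ‖c.tau p q‖ ≤ K₄ * L ^ 2 * frD c n (star q) := by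
    intro q hq
    have hτB := (hCB y (star q) (hst q hq).1.wx (hvn q hq)).2
    have e5 : frD c n (star q) / ‖c.tau y (star q)‖ ≤ CB * frD c n (star q) := by
      rw [div_le_iff₀ (hτy q hq)]
      have h6 := hfr n (star q)
      calc frD c n (star q) = frD c n (star q) * 1 := (mul_one _).symm
        _ ≤ frD c n (star q) * (CB * ‖c.tau y (star q)‖) := mul_le_mul_of_nonneg_left hτB h6.le
        _ = _ := by ring
    have e6 := hpt q hq
    rw [hwsq q hq] at e6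
    have e7 : ‖c.eta (S.g^[n] q) (S.g^[n] (star q))‖ * w q ^ 2 ≤ c.M * (ω₂ * L) ^ 2 :=
      mul_le_mul (hen q hq).1 (pow_le_pow_left₀ (hwpos q hq).le (hwb q hq).2 2) (by positivity)
        hM0.le
    have e8 : frD c n q / ‖c.tau p q‖ * ‖η‖ ≤ CB * frD c n (star q) * (c.M * (ω₂ * L) ^ 2) := by
      rw [← e6]
      exact mul_le_mul e5 e7 (by positivity) (mul_nonneg hCB0.le (hfr n _).le)
    rw [← le_div_iff₀ hηp] at e8
    refine e8.trans (le_of_eq ?_)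
    rw [hK₄]
    ring
  have h5 : ∑ q ∈ Q, (frD c n q / ‖c.tau p q‖) ^ s ≤
      (K₄ * L ^ 2) ^ s * dsumD c s n (Q.image star) := by
    unfold dsumD
    rw [Finset.sum_image hinj, Finset.mul_sum]
    refine Finset.sum_le_sum fun q hq => ?_
    rw [← Real.mul_rpow (by positivity) (hfr n _).le]
    exact Real.rpow_le_rpow (hr q hq).le (h4 q hq) hs.le
  have hLs : 0 < L ^ s := Real.rpow_pos_of_pos hLp s
  have h6 : (K₄ * L ^ 2) ^ s = K₄ ^ s * (L ^ s * L ^ s) := by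
    rw [Real.mul_rpow hK₄p.le (by positivity), sq, Real.mul_rpow hLp.le hLp.le]
  have h7 : (1 / L) ^ s = (L ^ s)⁻¹ := by
    rw [one_div, Real.inv_rpow hLp.le]
  calc ∑ q ∈ Q, (frD c n q / ‖c.tau p q‖) ^ s
      ≤ (K₄ * L ^ 2) ^ s * dsumD c s n (Q.image star) := h5
    _ ≤ (K₄ * L ^ 2) ^ s * (C₁ * (c.M ^ s * (1 / L) ^ s) * B') :=
        mul_le_mul_of_nonneg_left h1' (by positivity)
    _ = K₄ ^ s * C₁ * c.M ^ s * L ^ s * B' := by
        rw [h6, h7]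
        field_simp

end Pool.Agent.H779R2.Nu
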