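import Pool.Agent.H779R2.Nu.N19
import Pool.Agent.H779R2.Nu.N20
import Pool.Agent.H779R2.Nu.N21

set_option autoImplicit false

namespace Pool.Agent.H779R2.Nu

open Pool.Agent.H721R2 Pool.Agent.H779R2.An Pool.Agent.H779R2.Li Filter Topology MeasureTheory
open scoped BigOperators

variable {X E : Type*} [MetricSpace X] [CompactSpace X] [NormedAddCommGroup E]
  [InnerProductSpace ℝ E] [FiniteDimensional ℝ E]

variable {S : HypSys X E} {D : ℕ}

private theorem n22_sqrt (b u : Ve D) :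
    Real.sqrt (den b u) * ‖u‖ = ‖u - ‖u‖ ^ 2 • b‖ := by
  have h1 := norm_sub_sq_smul b u
  have h2 := den_nonneg b u
  have h3 : (Real.sqrt (den b u) * ‖u‖) ^ 2 = ‖u - ‖u‖ ^ 2 • b‖ ^ 2 := by
    rw [mul_pow, Real.sq_sqrt h2, h1]
    ring
  exact (sq_eq_sq₀ (by positivity) (norm_nonneg _)).mp h3

private theorem n22_lip (b b' u : Ve D) :
    Real.sqrt (den b u) ≤ Real.sqrt (den b' u) + ‖b - b'‖ * ‖u‖ := by
  by_cases hu : u = 0
  · subst hu
    have e : ∀ b : Ve D, den b 0 = 1 := by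
      intro b
      simp [den]
    rw [e, e]
    simp
  · have hu' : 0 < ‖u‖ := norm_pos_iff.mpr hu
    have h1 := n22_sqrt b u
    have h2 := n22_sqrt b' u
    have h3 : ‖u - ‖u‖ ^ 2 • b‖ ≤ ‖u - ‖u‖ ^ 2 • b'‖ + ‖u‖ ^ 2 * ‖b - b'‖ := by
      have e : u - ‖u‖ ^ 2 • b = (u - ‖u‖ ^ 2 • b') - ‖u‖ ^ 2 • (b - b') := by
        rw [smul_sub]; abel
      rw [e]
      refine (norm_sub_le _ _).trans ?_
      rw [norm_smul, Real.norm_of_nonneg (by positivity : (0 : ℝ) ≤ ‖u‖ ^ 2)]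
    have h4 : Real.sqrt (den b u) * ‖u‖ ≤
        (Real.sqrt (den b' u) + ‖b - b'‖ * ‖u‖) * ‖u‖ := by
      rw [h1, add_mul, h2]
      refine h3.trans (le_of_eq ?_)
      ring
    exact le_of_mul_le_mul_right h4 hu'

private theorem n22_biUnion {Y : Type*} [DecidableEq Y] (I : Finset Y) (W : Y → Finset Y)
    (f : Y → ℝ) (hf : ∀ q, 0 ≤ f q) :
    ∑ q ∈ I.biUnion W, f q ≤ ∑ i ∈ I, ∑ q ∈ W i, f q := by
  classical
  induction I using Finset.induction_on with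
  | empty => simp
  | insert i I hi ih =>
    rw [Finset.biUnion_insert, Finset.sum_insert hi]
    calc ∑ q ∈ W i ∪ I.biUnion W, f q
        ≤ ∑ q ∈ W i, f q + ∑ q ∈ I.biUnion W, f q := by
          rw [← Finset.sum_union_inter]
          exact le_add_of_nonneg_right (Finset.sum_nonneg fun q _ => hf q)
      _ ≤ _ := add_le_add le_rfl ih

/-- The nonlinearity vanishes along the stable leaf of a good point. -/
theorem th_good {c : CFD S D} (T : THD c) (s : ℝ) (hs : 0 < s)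
    (hsp : PathD T s) (htr : TrackD T) (hpos : ∀ n, 0 < AfD c s n) (hle : SmallD c s)
    (β R a : ℝ) (hβ : 1 < β) (hR : 1 ≤ R) (ha : 0 < a) (p₀ : X) (hp : GoodD c s β R a p₀) :
    ∀ y, SAsym S p₀ y → T.th p₀ y = 0 := by
  classical
  intro y₀ hy₀
  obtain ⟨ε₁, hε₁, -, htr'⟩ := htr
  obtain ⟨ρ', hρ', hsp'⟩ := hsp ε₁ hε₁
  obtain ⟨k, hk⟩ := hy₀.eventually (lt_min hρ' c.geo.pos)
  have hpy := hk k le_rfl
  obtain ⟨ρ, hρ, a', ha', hann⟩ := ann_sum_d c s hs hpos hle β R a hβ hR ha p₀ hp k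
  rw [← T.th_iter hy₀ k]
  set p : X := S.g^[k] p₀ with hpdef
  set y : X := S.g^[k] y₀ with hydef
  have hpyS : SAsym S p y := hy₀.iter k
  have hpy' : S.SRel ρ' p y := hpy.mono (min_le_left _ _)
  suffices hsuff : T.th p y = 0 by
    rw [hsuff, map_zero]
  by_contra hb
  obtain ⟨C, hC, hgood⟩ := good_sum_d T s hs hle p y hpyS hb ρ (max R ρ) hρ (le_max_right _ _)
  have hbn : 0 < ‖T.th p y‖ := norm_pos_iff.mpr hb
  -- choice of `m`
  obtain ⟨m, hmk, hm1, hm2⟩ : ∃ m : ℕ, k ≤ m ∧ 2 * C / a' < β ^ m ∧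
      2 ≤ ‖T.th p y‖ * (ρ * (16 : ℝ) ^ m) := by
    have t1 : Tendsto (fun m : ℕ => β ^ m) atTop atTop := tendsto_pow_atTop_atTop_of_one_lt hβ
    have t2 : Tendsto (fun m : ℕ => (16 : ℝ) ^ m) atTop atTop :=
      tendsto_pow_atTop_atTop_of_one_lt (by norm_num)
    have t3 := (t2.const_mul_atTop hρ).const_mul_atTop hbn
    obtain ⟨m, hm⟩ := ((eventually_ge_atTop k).and
      ((t1.eventually_gt_atTop (2 * C / a')).and (t3.eventually_ge_atTop 2))).exists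
    exact ⟨m, hm.1, hm.2.1, hm.2.2⟩
  set L : ℝ := ‖c.Lp m (S.g.symm^[m] p)‖ with hL
  have hL16 : (16 : ℝ) ^ m ≤ L := CFD.Lp_ge c _ _
  have hL1 : 1 ≤ L := (one_le_pow₀ (by norm_num)).trans hL16
  have hL0 : 0 < L := by linarith
  have hbL : 2 ≤ ‖T.th p y‖ * (ρ * L) :=
    hm2.trans (mul_le_mul_of_nonneg_left (mul_le_mul_of_nonneg_left hL16 hρ.le) hbn.le)
  obtain ⟨n₂, hn₂⟩ := hgood L hL1 hbL
  set R₂ : ℝ := R * L with hR₂
  have hR₂1 : 1 ≤ R₂ := by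
    rw [hR₂]
    nlinarith
  have hR₂0 : 0 < R₂ := by linarith
  obtain ⟨Cb, hCb, hbad⟩ := bad_sum_d c s hs hle p R₂ hR₂0
  have hLs : 0 < L ^ s := Real.rpow_pos_of_pos hL0 _
  have hβ0 : 0 < β := by linarith
  have hβm : 0 < β ^ m := pow_pos hβ0 m
  set t₀ : ℝ := 1 / (4 * R₂) with ht₀
  have ht₀pos : 0 < t₀ := by positivity
  have ht₀s : 0 < t₀ ^ s := Real.rpow_pos_of_pos ht₀pos _
  have h4t : 4 * t₀ * R₂ = 1 := by
    rw [ht₀]; field_simp
  have ht₀1 : t₀ ≤ 1 := by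
    rw [ht₀, div_le_one (by positivity)]
    linarith
  set δ : ℝ := min (a' * L ^ s / (2 * Cb)) (t₀ ^ s) with hδ
  have hδpos : 0 < δ := lt_min (by positivity) ht₀s
  obtain ⟨γ, I, βs, ω, hγc, hγ0, hγ1, hγrel, hωpos, hωsum, hγcov⟩ := hsp' p y hpy' δ hδpos
  have hωle : ∀ i ∈ I, ω i ≤ t₀ := by
    intro i hi
    by_contra hcon
    push Not at hcon
    have h1 : t₀ ^ s < ω i ^ s := Real.rpow_lt_rpow ht₀pos.le hcon hs
    have h2 : ω i ^ s ≤ ∑ i ∈ I, ω i ^ s :=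
      Finset.single_le_sum (f := fun i => ω i ^ s)
        (fun k hk => Real.rpow_nonneg (hωpos k hk).le _) hi
    have h3 : δ ≤ t₀ ^ s := min_le_right _ _
    linarith
  have hIne : I.Nonempty := by
    obtain ⟨i, hi, -⟩ := hγcov 0 (by constructor <;> norm_num)
    exact ⟨i, hi⟩
  obtain ⟨i₀, hi₀, hmin⟩ := Finset.exists_min_image I ω hIne
  have hω₀ : 0 < ω i₀ := hωpos i₀ hi₀
  obtain ⟨n₀, hn₀⟩ := htr' p γ hγc hγ0 hγrel R₂ hR₂0 (ω i₀ * R₂) (by positivity)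
  have hbad' : ∀ i ∈ I, ∃ n₁ : ℕ, ∀ n ≥ n₁,
      ∀ B : ℝ, (∀ k ≤ n, AfD c s (n - k) ≤ B) →
      ∀ (β : Ve D) (Q : Finset X), (∀ q ∈ Q, UAsym S p q ∧ ‖c.lc p q‖ ≤ R₂) →
      (∀ q ∈ Q, ∀ q' ∈ Q, q ≠ q' → 1 ≤ ‖c.lc (S.g^[n] q) (S.g^[n] q')‖) →
      (∀ q ∈ Q, Real.sqrt (den β (c.lc p q)) ≤ 2 * ω i * R₂) → 0 ≤ B →
      ∑ q ∈ Q, (frD c n q / ‖c.tau p q‖) ^ s ≤ Cb * ω i ^ s * B := by
    intro i hi
    refine hbad (ω i) (hωpos i hi) ((hωle i hi).trans ht₀1) ?_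
    have := mul_le_mul_of_nonneg_right (hωle i hi) (by positivity : (0 : ℝ) ≤ 4 * R₂)
    nlinarith
  choose! n₁ hn₁ using hbad'
  obtain ⟨N, hN, hmN, hrec, Q, hQ1, hQ2, hQ3⟩ :=
    hann m hmk (m + max n₀ (max n₂ (I.sup n₁)))
  set n : ℕ := N - m with hn
  have hn0 : n₀ ≤ n := by
    have := le_max_left n₀ (max n₂ (I.sup n₁))
    omega
  have hn2 : n₂ ≤ n := by
    have := (le_max_left n₂ (I.sup n₁)).trans (le_max_right n₀ (max n₂ (I.sup n₁)))
    omega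
  have hn1 : ∀ i ∈ I, n₁ i ≤ n := by
    intro i hi
    have h1 := (le_max_right n₂ (I.sup n₁)).trans (le_max_right n₀ (max n₂ (I.sup n₁)))
    have h2 : n₁ i ≤ I.sup n₁ := Finset.le_sup hi
    omega
  have hAf := hpos N
  have hrec' : ∀ k ≤ n, AfD c s (n - k) ≤ AfD c s N / β ^ m := by
    intro k' hk'
    have h1 := hrec (m + k') (by omega)
    have h2 : N - (m + k') = n - k' := by omega
    rw [h2] at h1
    rw [le_div_iff₀ hβm]
    have h3 : β ^ m ≤ β ^ (m + k') := pow_le_pow_right₀ hβ.le (by omega)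
    have h4 := hpos (n - k')
    nlinarith
  have hrec2 : ∀ k ≤ n, AfD c s (n - k) ≤ AfD c s N := by
    intro k' hk'
    refine (hrec' k' hk').trans ?_
    apply div_le_self hAf.le
    exact one_le_pow₀ hβ.le
  set G : Finset X := Q.filter
    (fun q => ∀ i ∈ I, 2 * ω i * R₂ < Real.sqrt (den (βs i) (c.lc p q))) with hG
  set W : X → Finset X := fun i => Q.filter
    (fun q => Real.sqrt (den (βs i) (c.lc p q)) ≤ 2 * ω i * R₂) with hW
  have hcov : Q ⊆ G ∪ I.biUnion W := by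
    intro q hq
    by_cases h : ∀ i ∈ I, 2 * ω i * R₂ < Real.sqrt (den (βs i) (c.lc p q))
    · exact Finset.mem_union_left _ (Finset.mem_filter.mpr ⟨hq, h⟩)
    · push Not at h
      obtain ⟨i, hi, h⟩ := h
      exact Finset.mem_union_right _
        (Finset.mem_biUnion.mpr ⟨i, hi, Finset.mem_filter.mpr ⟨hq, h⟩⟩)
  have hfnn : ∀ q, 0 ≤ (frD c n q / ‖c.tau p q‖) ^ s := fun q => by
    unfold frD; positivity
  have hsum1 : ∑ q ∈ Q, (frD c n q / ‖c.tau p q‖) ^ s ≤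
      ∑ q ∈ G, (frD c n q / ‖c.tau p q‖) ^ s +
        ∑ i ∈ I, ∑ q ∈ W i, (frD c n q / ‖c.tau p q‖) ^ s := by
    calc ∑ q ∈ Q, (frD c n q / ‖c.tau p q‖) ^ s
        ≤ ∑ q ∈ G ∪ I.biUnion W, (frD c n q / ‖c.tau p q‖) ^ s :=
          Finset.sum_le_sum_of_subset_of_nonneg hcov (fun q _ _ => hfnn q)
      _ ≤ ∑ q ∈ G, (frD c n q / ‖c.tau p q‖) ^ s +
            ∑ q ∈ I.biUnion W, (frD c n q / ‖c.tau p q‖) ^ s := by
          rw [← Finset.sum_union_inter]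
          exact le_add_of_nonneg_right (Finset.sum_nonneg fun q _ => hfnn q)
      _ ≤ _ := by
          refine add_le_add le_rfl ?_
          exact n22_biUnion I W _ hfnn
  have hbadsum : ∀ i ∈ I, ∑ q ∈ W i, (frD c n q / ‖c.tau p q‖) ^ s ≤
      Cb * ω i ^ s * AfD c s N := by
    intro i hi
    refine hn₁ i hi n (hn1 i hi) (AfD c s N) hrec2 (βs i) (W i) ?_ ?_ ?_ hAf.le
    · intro q hq
      have := hQ1 q (Finset.mem_filter.mp hq).1
      exact ⟨this.1, this.2.2⟩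
    · intro q hq q' hq' hne
      exact hQ2 q (Finset.mem_filter.mp hq).1 q' (Finset.mem_filter.mp hq').1 hne
    · intro q hq
      exact (Finset.mem_filter.mp hq).2
  have hbadtot : ∑ i ∈ I, ∑ q ∈ W i, (frD c n q / ‖c.tau p q‖) ^ s ≤
      a' * L ^ s / 2 * AfD c s N := by
    calc _ ≤ ∑ i ∈ I, Cb * ω i ^ s * AfD c s N := Finset.sum_le_sum hbadsum
      _ = Cb * (∑ i ∈ I, ω i ^ s) * AfD c s N := by
          rw [Finset.mul_sum, Finset.sum_mul]
      _ ≤ Cb * δ * AfD c s N := by gcongr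
      _ ≤ Cb * (a' * L ^ s / (2 * Cb)) * AfD c s N := by
          gcongr
          exact min_le_left _ _
      _ = a' * L ^ s / 2 * AfD c s N := by
          field_simp
  -- good points
  have hgoodpt : ∀ q ∈ G, ∃ q', QdMD T p y q q' ∧ S.SRel c.ε₀ (S.g^[n] q) (S.g^[n] q') := by
    intro q hq
    obtain ⟨hqQ, hqg⟩ := Finset.mem_filter.mp hq
    obtain ⟨h1, h2, h3⟩ := hQ1 q hqQ
    obtain ⟨q', hq1, hq2⟩ := hn₀ q h1 h3 (by
      intro t ht
      obtain ⟨i, hi, hti⟩ := hγcov t ht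
      have h4 := hqg i hi
      have h5 := n22_lip (βs i) (T.th p (γ t)) (c.lc p q)
      have h6 : ‖βs i - T.th p (γ t)‖ * ‖c.lc p q‖ ≤ ω i * R₂ := by
        rw [norm_sub_rev]
        exact mul_le_mul hti h3 (norm_nonneg _) (hωpos i hi).le
      have h7 : ω i₀ * R₂ ≤ ω i * R₂ :=
        mul_le_mul_of_nonneg_right (hmin i hi) hR₂0.le
      linarith)
    refine ⟨q', ?_, ?_⟩
    · rw [hγ1] at hq1
      exact hq1
    · obtain ⟨m', hm'⟩ := Nat.exists_eq_add_of_le hn0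
      rw [hm', add_comm n₀ m', Function.iterate_add_apply, Function.iterate_add_apply]
      exact hq2.iter m'
  choose! star hstar using hgoodpt
  have hgs := hn₂ n hn2 (AfD c s N / β ^ m) hrec' (by positivity) G star
    (fun q hq => by
      obtain ⟨h1, h2, h3⟩ := hQ1 q (Finset.mem_filter.mp hq).1
      exact ⟨h1, h2, h3.trans (mul_le_mul_of_nonneg_right (le_max_left _ _) hL0.le)⟩)
    (fun q hq q' hq' hne => hQ2 q (Finset.mem_filter.mp hq).1 q' (Finset.mem_filter.mp hq').1 hne)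
    hstar
  have hfin : a' * L ^ s * AfD c s N ≤
      C * L ^ s * (AfD c s N / β ^ m) + a' * L ^ s / 2 * AfD c s N :=
    (hQ3.trans hsum1).trans (add_le_add hgs hbadtot)
  have hfin2 : L ^ s * AfD c s N * (a' / 2) ≤ L ^ s * AfD c s N * (C / β ^ m) := by
    have e : C * L ^ s * (AfD c s N / β ^ m) = L ^ s * AfD c s N * (C / β ^ m) := by ring
    rw [e] at hfin
    linarith
  have hfin3 : a' / 2 ≤ C / β ^ m := le_of_mul_le_mul_left hfin2 (by positivity)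
  rw [le_div_iff₀ hβm] at hfin3
  rw [div_lt_iff₀ ha'] at hm1
  nlinarith

end Pool.Agent.H779R2.Nu
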