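import Pool.Agent.H779R2.Nu.N00

set_option autoImplicit false

namespace Pool.Agent.H779R2.Nu

open Pool.Agent.H721R2 Pool.Agent.H779R2.An Pool.Agent.H779R2.Li Filter Topology MeasureTheory
open scoped BigOperators

variable {X E : Type*} [MetricSpace X] [CompactSpace X] [NormedAddCommGroup E]
  [InnerProductSpace ℝ E] [FiniteDimensional ℝ E]

variable {S : HypSys X E} {D : ℕ}

namespace N23aux

theorem adj_inj {A : Ve D →L[ℝ] Ve D} (hA : Conf A) (h0 : 0 < ‖A‖) {v : Ve D}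
    (h : ContinuousLinearMap.adjoint A v = 0) : v = 0 := by
  have hinj : Function.Injective (A : Ve D →ₗ[ℝ] Ve D) := by
    rw [injective_iff_map_eq_zero]
    intro u hu
    have h1 := hA u
    have h2 : A u = 0 := hu
    rw [h2, norm_zero] at h1
    have h3 : ‖u‖ = 0 := by
      rcases mul_eq_zero.mp h1.symm with h4 | h4
      · exact absurd h4 h0.ne'
      · exact h4
    exact norm_eq_zero.mp h3
  obtain ⟨u, hu⟩ := (LinearMap.injective_iff_surjective.mp hinj) v
  have hu' : A u = v := hu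
  have h1 : inner ℝ (A u) v = inner ℝ u (ContinuousLinearMap.adjoint A v) :=
    (ContinuousLinearMap.adjoint_inner_right A u v).symm
  rw [h, inner_zero_right, hu', real_inner_self_eq_norm_sq] at h1
  exact norm_eq_zero.mp (pow_eq_zero_iff (two_ne_zero)|>.mp h1)

theorem den_zero (u : Ve D) : den (0 : Ve D) u = 1 := by
  simp [den]

theorem mobD_zero (A : Ve D →L[ℝ] Ve D) (u : Ve D) : mobD A 0 u = A u := by
  simp [mobD, den_zero]

/-- forward invariance of the vanishing -/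
theorem zero_fwd {c : CFD S D} (T : THD c) (n : ℕ) {x : X}
    (hx : ∀ y, SAsym S x y → T.th x y = 0) : ∀ y, SAsym S (S.g^[n] x) y →
      T.th (S.g^[n] x) y = 0 := by
  intro y hy
  have h1 : SAsym S x (S.g.symm^[n] y) := by
    have := hy.symm_iter n
    rwa [iter_symm_iter] at this
  have h2 := T.th_iter h1 n
  rw [iter_iter_symm, hx _ h1] at h2
  exact adj_inj (c.Lp_conf n x) (c.Lp_pos n x) h2

/-- backward invariance of the vanishing -/
theorem zero_bwd {c : CFD S D} (T : THD c) (n : ℕ) {x : X}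
    (hx : ∀ y, SAsym S x y → T.th x y = 0) : ∀ y, SAsym S (S.g.symm^[n] x) y →
      T.th (S.g.symm^[n] x) y = 0 := by
  intro y hy
  have h2 := T.th_iter hy n
  rw [iter_iter_symm] at h2
  have h3 : SAsym S x (S.g^[n] y) := by
    have := hy.iter n
    rwa [iter_iter_symm] at this
  rw [hx _ h3, map_zero] at h2
  exact h2.symm

/-- Claim A -/
theorem claimA {c : CFD S D} (T : THD c) (hq : QdLocD T) : ∃ ε₁ > 0, ∀ B : ℝ, ∃ n : ℕ, ∀ v z : X,
    UAsym S v z → ‖c.lc v z‖ ≤ B → (∀ y, SAsym S z y → T.th z y = 0) →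
    ∀ y, S.SRel ε₁ (S.g.symm^[n] v) (S.g.symm^[n] y) → T.th v y = 0 := by
  obtain ⟨ε, hε, hεT, hqd⟩ := hq
  obtain ⟨e, he, hcor⟩ := exists_corner S ε hε
  refine ⟨min e ε, lt_min he hε, fun B => ?_⟩
  obtain ⟨ρ, hρ, hsm⟩ := c.small (min e ε) (lt_min he hε)
  obtain ⟨n, hn⟩ := pow_unbounded_of_one_lt (|B| / ρ) (show (1 : ℝ) < 16 by norm_num)
  refine ⟨n, fun v z hvz hB hz y hy => ?_⟩
  have h1 : ‖c.lc (S.g.symm^[n] v) (S.g.symm^[n] z)‖ ≤ ρ := by
    have h2 := c.lc_iter (hvz.symm_iter n) n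
    rw [iter_iter_symm, iter_iter_symm] at h2
    have h3 := c.Lp_conf n (S.g.symm^[n] v) (c.lc (S.g.symm^[n] v) (S.g.symm^[n] z))
    rw [← h2] at h3
    have h4 := c.Lp_ge n (S.g.symm^[n] v)
    have h5 : (16 : ℝ) ^ n * ‖c.lc (S.g.symm^[n] v) (S.g.symm^[n] z)‖ ≤ |B| := by
      calc _ ≤ ‖c.Lp n (S.g.symm^[n] v)‖ * ‖c.lc (S.g.symm^[n] v) (S.g.symm^[n] z)‖ :=
            mul_le_mul_of_nonneg_right h4 (norm_nonneg _)
        _ = ‖c.lc v z‖ := h3.symm
        _ ≤ B := hB
        _ ≤ |B| := le_abs_self B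
    have h6 : |B| < 16 ^ n * ρ := by
      rwa [div_lt_iff₀ hρ] at hn
    have h7 : (0 : ℝ) < 16 ^ n := by positivity
    by_contra hcon
    push Not at hcon
    have := mul_lt_mul_of_pos_left hcon h7
    linarith
  have hU := hsm _ _ (hvz.symm_iter n) h1
  obtain ⟨q, hq1, hq2⟩ := hcor _ _ _ (hy.mono (min_le_left _ _)) (hU.mono (min_le_left _ _))
  have h2 := (hqd (S.g.symm^[n] z) q (S.g.symm^[n] v) (S.g.symm^[n] y) hq2
    ((hU.mono (min_le_right _ _)).symm) (hy.mono (min_le_right _ _)) hq1.symm).2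
  have hqs : SAsym S (S.g.symm^[n] z) q :=
    c.geo.sasym _ _ (hq2.mono (hεT.trans T.ε_le))
  have h3 := h2 (zero_bwd T n hz q hqs)
  have hvy : SAsym S (S.g.symm^[n] v) (S.g.symm^[n] y) :=
    c.geo.sasym _ _ (hy.mono ((min_le_right _ _).trans (hεT.trans T.ε_le)))
  have h4 := T.th_iter hvy n
  rw [iter_iter_symm, iter_iter_symm, h3] at h4
  exact adj_inj (c.Lp_conf n _) (c.Lp_pos n _) h4

theorem cw_le_pow (c : CFD S D) (k : ℕ) (y : X) : c.cw k y ≤ (1 / 16 : ℝ) ^ k := by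
  unfold CFD.cw
  rw [one_div, inv_pow]
  exact inv_anti₀ (by positivity) (c.Lp_ge k _)

/-- continuity of `th` along paths in plaques -/
theorem th_path_cont {c : CFD S D} (T : THD c) (v : X) (γ : ℝ → X)
    (hγ : ContinuousOn γ (Set.Icc 0 1))
    (hrel : ∀ t ∈ Set.Icc (0 : ℝ) 1, S.SRel (c.ε₀ / 2) v (γ t)) :
    ContinuousOn (fun t => T.th v (γ t)) (Set.Icc 0 1) := by
  have hM : 0 < c.M := lt_of_lt_of_le one_pos c.one_le_M
  have hC := T.C_pos
  rw [Metric.continuousOn_iff]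
  intro a ha η hη
  obtain ⟨k, hk⟩ := exists_pow_lt_of_lt_one (show 0 < η / (c.M * T.C) by positivity)
    (show (1 / 16 : ℝ) < 1 by norm_num)
  obtain ⟨δ₁, hδ₁, hlevel⟩ := SRel_level c.geo k T.ε T.ε_pos
  obtain ⟨δ, hδ, hcont⟩ := Metric.continuousOn_iff.mp hγ a ha δ₁ hδ₁
  refine ⟨δ, hδ, ?_⟩
  intro b hb hab
  have r1 : S.SRel c.ε₀ v (γ a) := (hrel a ha).mono (by have := c.geo.pos; linarith)
  have r2 : S.SRel c.ε₀ (γ a) (γ b) :=
    ((hrel a ha).symm.trans (hrel b hb)).mono (by linarith)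
  have hd : dist (γ a) (γ b) ≤ δ₁ := by
    have := hcont b hb hab
    rw [dist_comm] at this
    exact this.le
  have h3 := T.lev k (γ a) (γ b) (hlevel _ _ r2 hd)
  have h4 := T.th_comp v (γ a) (γ b) (c.geo.sasym _ _ r1) (c.geo.sasym _ _ r2)
  show dist (T.th v (γ b)) (T.th v (γ a)) < η
  rw [dist_eq_norm, h4, add_sub_cancel_left]
  have h5 : ‖ContinuousLinearMap.adjoint (c.eta v (γ a)) (T.th (γ a) (γ b))‖ ≤
      ‖c.eta v (γ a)‖ * ‖T.th (γ a) (γ b)‖ := by
    have := (ContinuousLinearMap.adjoint (c.eta v (γ a))).le_opNorm (T.th (γ a) (γ b))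
    rwa [LinearIsometryEquiv.norm_map] at this
  calc _ ≤ ‖c.eta v (γ a)‖ * ‖T.th (γ a) (γ b)‖ := h5
    _ ≤ c.M * (T.C * (1 / 16) ^ k) :=
        mul_le_mul (c.eta_le _ _ r1)
          (h3.trans (mul_le_mul_of_nonneg_left (cw_le_pow c k _) hC.le)) (norm_nonneg _) hM.le
    _ < c.M * (T.C * (η / (c.M * T.C))) := by gcongr
    _ = η := by field_simp

end N23aux

open N23aux in
/-- Vanishing of `th` propagates along unstable leaves. -/
theorem th_zero_u {c : CFD S D} (T : THD c) (hq : QdLocD T) (htr : TrackD T)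
    (hpath : ∀ ρ > 0, ∃ ρ' > 0, ∀ x x', S.SRel ρ' x x' → ∃ γ : ℝ → X,
      ContinuousOn γ (Set.Icc 0 1) ∧ γ 0 = x ∧ γ 1 = x' ∧
      ∀ t ∈ Set.Icc (0 : ℝ) 1, S.SRel ρ x (γ t))
    (x : X) (hx : ∀ y, SAsym S x y → T.th x y = 0) (w : X) (hw : UAsym S x w) :
    ∀ y, SAsym S w y → T.th w y = 0 := by
  obtain ⟨ε₁, hε₁, hA⟩ := claimA T hq
  obtain ⟨εt, hεt, hεtT, htrack⟩ := htr
  have hε₀ := c.geo.pos
  obtain ⟨ρ', hρ', hpa⟩ := hpath (min εt (c.ε₀ / 2)) (lt_min hεt (by positivity))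
  -- Claim B
  have hB : ∀ x w : X, (∀ y, SAsym S x y → T.th x y = 0) → UAsym S x w →
      ∀ y, S.SRel ρ' w y → T.th w y = 0 := by
    intro x w hx hw y hy
    obtain ⟨γ, hγc, hγ0, hγ1, hγr⟩ := hpa w y hy
    have hrel : ∀ t ∈ Set.Icc (0 : ℝ) 1, S.SRel (c.ε₀ / 2) w (γ t) := fun t ht =>
      (hγr t ht).mono (min_le_right _ _)
    have hrel' : ∀ t ∈ Set.Icc (0 : ℝ) 1, S.SRel c.ε₀ w (γ t) := fun t ht =>
      (hrel t ht).mono (by linarith)
    have hcont := th_path_cont T w γ hγc hrel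
    have hsub : Set.Icc (0 : ℝ) 1 ⊆ {t | ∀ s ∈ Set.Icc (0 : ℝ) t, T.th w (γ s) = 0} := by
      apply IsClosed.Icc_subset_of_forall_mem_nhdsWithin
      · -- closed
        apply isClosed_of_closure_subset
        intro t ht
        have htI : t ∈ Set.Icc (0 : ℝ) 1 :=
          isClosed_Icc.closure_subset_iff.mpr Set.inter_subset_right ht
        have hlt : ∀ s, 0 ≤ s → s < t → T.th w (γ s) = 0 := by
          intro s hs0 hst
          obtain ⟨b, hb, hbt⟩ := Metric.mem_closure_iff.mp ht (t - s) (by linarith)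
          rw [Real.dist_eq, abs_lt] at hbt
          exact hb.1 s ⟨hs0, by linarith⟩
        refine ⟨?_, htI⟩
        intro s hs
        rcases hs.2.lt_or_eq with h | h
        · exact hlt s hs.1 h
        · subst h
          rcases htI.1.lt_or_eq with h0 | h0
          · by_contra hne
            have hpos : 0 < ‖T.th w (γ s)‖ := norm_pos_iff.mpr hne
            obtain ⟨δ, hδ, hc⟩ := Metric.continuousOn_iff.mp hcont s htI _ hpos
            set s' := max 0 (s - δ / 2) with hs'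
            have hs'0 : 0 ≤ s' := le_max_left _ _
            have hs's : s' < s := max_lt h0 (by linarith)
            have hs'd : s - δ / 2 ≤ s' := le_max_right _ _
            have h1 := hc s' ⟨hs'0, by linarith [htI.2]⟩ (by
              rw [Real.dist_eq, abs_lt]
              constructor <;> linarith)
            simp only [hlt s' hs'0 hs's, dist_zero_left] at h1
            exact lt_irrefl _ h1
          · rw [← h0, hγ0, T.th_self]
      · intro s hs
        have : s = 0 := le_antisymm hs.2 hs.1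
        rw [this, hγ0, T.th_self]
      · rintro t ⟨ht, ht1⟩
        have htI : t ∈ Set.Icc (0 : ℝ) 1 := ⟨ht1.1, ht1.2.le⟩
        have hzt : ∀ s ∈ Set.Icc (0 : ℝ) 1, T.th w (γ (t * s)) = 0 := fun s hs =>
          ht (t * s) ⟨mul_nonneg htI.1 hs.1, by nlinarith [hs.2, htI.1]⟩
        have hmem : ∀ s ∈ Set.Icc (0 : ℝ) 1, t * s ∈ Set.Icc (0 : ℝ) 1 := fun s hs =>
          ⟨mul_nonneg htI.1 hs.1, by nlinarith [hs.2, hs.1, htI.1, htI.2]⟩
        obtain ⟨n₀, hn₀⟩ := htrack w (fun s => γ (t * s))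
          (hγc.comp (by fun_prop) (fun s hs => hmem s hs)) (by simp [hγ0])
          (fun s hs => (hγr _ (hmem s hs)).mono (min_le_left _ _))
          (‖c.lc w x‖ + 1) (by positivity) 1 one_pos
        obtain ⟨x', hQ, hsx⟩ := hn₀ x hw.symm (by linarith) (fun s hs => by
          rw [hzt s hs, den_zero, Real.sqrt_one])
        simp only [mul_one] at hQ
        have hγt : T.th w (γ t) = 0 := ht t ⟨htI.1, le_rfl⟩
        have hwt : S.SRel c.ε₀ w (γ t) := hrel' t htI
        -- vanishing at x'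
        have hx' : ∀ y, SAsym S x' y → T.th x' y = 0 := by
          intro y hy
          have h1 := T.th_comp x x' y hQ.xx hy
          rw [hx _ (hQ.xx.trans hy), hx _ hQ.xx, zero_add] at h1
          exact adj_inj (c.eta_conf _ _ hQ.xx) (c.eta_pos hQ.xx) h1.symm
        have hlc : ‖c.lc (γ t) x'‖ ≤ c.M * ‖c.lc w x‖ := by
          rw [hQ.lc_eq, hγt, mobD_zero, c.eta_conf _ _ hQ.vw]
          exact mul_le_mul_of_nonneg_right (c.eta_le _ _ hwt) (norm_nonneg _)
        obtain ⟨n, hn⟩ := hA (c.M * ‖c.lc w x‖)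
        obtain ⟨δ₁, hδ₁, hlevel⟩ := SRel_level c.geo n ε₁ hε₁
        obtain ⟨δ, hδ, hcγ⟩ := Metric.continuousOn_iff.mp hγc t htI δ₁ hδ₁
        rw [mem_nhdsWithin]
        refine ⟨Set.Iio (t + min δ (1 - t)), isOpen_Iio, ?_, ?_⟩
        · have : 0 < min δ (1 - t) := lt_min hδ (by linarith [ht1.2])
          exact Set.mem_Iio.mpr (by linarith)
        · rintro s ⟨hs1, hs2⟩
          rw [Set.mem_Iio] at hs1
          rw [Set.mem_Ioi] at hs2
          intro r hr
          rcases le_or_gt r t with hrt | hrt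
          · exact ht r ⟨hr.1, hrt⟩
          · have h1 : min δ (1 - t) ≤ δ := min_le_left _ _
            have h2 : min δ (1 - t) ≤ 1 - t := min_le_right _ _
            have hrI : r ∈ Set.Icc (0 : ℝ) 1 := ⟨hr.1, by linarith [hr.2]⟩
            have h3 := hcγ r hrI (by
              rw [Real.dist_eq, abs_lt]
              constructor <;> linarith [hr.2])
            have r2 : S.SRel c.ε₀ (γ t) (γ r) :=
              ((hrel t htI).symm.trans (hrel r hrI)).mono (by linarith)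
            have h4 := hn (γ t) x' hQ.wx hlc hx' (γ r) (hlevel _ _ r2 (by
              rw [dist_comm]; exact h3.le))
            rw [T.th_comp w (γ t) (γ r) (c.geo.sasym _ _ hwt) (c.geo.sasym _ _ r2), hγt, h4,
              map_zero, zero_add]
    have := hsub (Set.right_mem_Icc.mpr zero_le_one) 1 (Set.right_mem_Icc.mpr zero_le_one)
    rwa [hγ1] at this
  intro y hy
  obtain ⟨n, hn⟩ := hy.eventually hρ'
  have h1 := hB (S.g^[n] x) (S.g^[n] w) (zero_fwd T n hx) (hw.iter n) (S.g^[n] y) (hn n le_rfl)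
  have h2 := T.th_iter hy n
  rw [h1, map_zero] at h2
  exact h2.symm

end Pool.Agent.H779R2.Nu
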