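import Pool.Agent.H779R2.Nu.N23

set_option autoImplicit false

namespace Pool.Agent.H779R2.Nu

open Pool.Agent.H721R2 Pool.Agent.H779R2.An Pool.Agent.H779R2.Li Filter Topology MeasureTheory
open scoped BigOperators

variable {X E : Type*} [MetricSpace X] [CompactSpace X] [NormedAddCommGroup E]
  [InnerProductSpace ℝ E] [FiniteDimensional ℝ E]

variable {S : HypSys X E} {D : ℕ}

/-- Vanishing of `th` at one point implies vanishing everywhere. -/
theorem th_zero_d [PreconnectedSpace X] {c : CFD S D} (T : THD c)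
    (hu : ∀ x, (∀ y, SAsym S x y → T.th x y = 0) → ∀ w, UAsym S x w →
      ∀ y, SAsym S w y → T.th w y = 0)
    (p : X) (hp : ∀ y, SAsym S p y → T.th p y = 0) : ∀ x y, SAsym S x y → T.th x y = 0 := by
  -- saturation by stable leaves
  have hs : ∀ x, (∀ y, SAsym S x y → T.th x y = 0) → ∀ x', SAsym S x x' →
      ∀ y, SAsym S x' y → T.th x' y = 0 := by
    intro x hx x' hxx' y hy
    have e1 := T.th_comp x' x y hxx'.symm (hxx'.trans hy)
    rw [hx y (hxx'.trans hy), map_zero, add_zero] at e1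
    have e2 := T.th_comp x' x x' hxx'.symm hxx'
    rw [hx x' hxx', map_zero, add_zero, T.th_self] at e2
    rw [e1, ← e2]
  obtain ⟨ε, hε, hb⟩ := exists_bracket S c.ε₀ c.geo.pos
  let Z : Set X := {x | ∀ y, SAsym S x y → T.th x y = 0}
  have key : ∀ x ∈ Z, ∀ y, dist x y ≤ ε → y ∈ Z := by
    intro x hx y hxy
    obtain ⟨w, h1, h2⟩ := hb x y hxy
    have hw : w ∈ Z := hs x hx w (c.geo.sasym _ _ h1)
    exact hu w hw y (c.geo.uasym _ _ h2)
  have hopen : IsOpen Z := by
    rw [Metric.isOpen_iff]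
    intro x hx
    refine ⟨ε, hε, fun y hy => key x hx y ?_⟩
    rw [Metric.mem_ball, dist_comm] at hy
    exact hy.le
  have hclosed : IsClosed Z := by
    rw [← isOpen_compl_iff, Metric.isOpen_iff]
    intro x hx
    refine ⟨ε, hε, fun y hy hyZ => hx (key y hyZ x ?_)⟩
    rw [Metric.mem_ball] at hy
    exact hy.le
  have huniv : Z = Set.univ := IsClopen.eq_univ ⟨hclosed, hopen⟩ ⟨p, hp⟩
  intro x
  have hx : x ∈ Z := by rw [huniv]; exact Set.mem_univ x
  exact hx

end Pool.Agent.H779R2.Nu
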