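import Pool.Agent.H779R2.Nu.NDef
import Pool.Agent.H779R2.An.LGlob
import Pool.Agent.H779R2.An.CChart

set_option autoImplicit false

namespace Pool.Agent.H779R2.Nu

open Pool.Agent.H721R2 Pool.Agent.H779R2.An Pool.Agent.H779R2.Li Filter Topology MeasureTheory
open scoped BigOperators

variable {X E : Type*} [MetricSpace X] [CompactSpace X] [NormedAddCommGroup E]
  [InnerProductSpace ℝ E] [FiniteDimensional ℝ E]

variable {S : HypSys X E} {D : ℕ}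

/-- Every stable leaf meets every unstable leaf, in a bounded part. -/
theorem meet_all [PreconnectedSpace X] (F : Flat S) (hG : QuadGlob F) :
    ∃ R : ℝ, ∀ x y, ∃ w, UAsym S x w ∧ SAsym S y w ∧ ‖F.Lc x w‖ ≤ R := by
  obtain ⟨δ, hδ, hbr⟩ := exists_bracket S F.ε₀ F.geo.pos
  have hbd : ∀ A : E →ₗ[ℝ] E, ∃ C : ℝ, 0 ≤ C ∧ ∀ v, ‖A v‖ ≤ C * ‖v‖ := by
    intro A
    exact ⟨‖LinearMap.toContinuousLinearMap A‖, norm_nonneg _,
      fun v => (LinearMap.toContinuousLinearMap A).le_opNorm v⟩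
  -- moving `y`
  have hA : ∀ y₀ w₀, SAsym S y₀ w₀ → ∃ C : ℝ, ∀ y, dist y y₀ ≤ δ →
      ∃ w, UAsym S w₀ w ∧ SAsym S y w ∧ ‖F.Lc w₀ w‖ ≤ C := by
    intro y₀ w₀ h0
    obtain ⟨C, hC0, hC⟩ := hbd (F.H y₀ w₀)
    refine ⟨C * (2 * F.ε₀), fun y hy => ?_⟩
    obtain ⟨y', h1, h2⟩ := hbr y y₀ hy
    obtain ⟨w, -, -, h3, h4, h5, -⟩ := hG y₀ w₀ y' h0 (F.geo.uasym _ _ h2.symm)
    refine ⟨w, h4, (F.geo.sasym _ _ h1).trans h3, ?_⟩
    rw [h5]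
    refine (hC _).trans (mul_le_mul_of_nonneg_left ?_ hC0)
    have h6 := F.Lc_le y₀ y' h2.symm
    have h7 := h2.symm.dist_le
    linarith
  have hmeet : ∀ x y, ∃ w, UAsym S x w ∧ SAsym S y w := by
    intro x
    have hstep : ∀ y₀ y, (∃ w, UAsym S x w ∧ SAsym S y₀ w) → dist y y₀ ≤ δ →
        ∃ w, UAsym S x w ∧ SAsym S y w := by
      rintro y₀ y ⟨w₀, h1, h2⟩ hy
      obtain ⟨C, hC⟩ := hA y₀ w₀ h2
      obtain ⟨w, h3, h4, -⟩ := hC y hy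
      exact ⟨w, h1.trans h3, h4⟩
    have hcl : IsClopen {y | ∃ w, UAsym S x w ∧ SAsym S y w} := by
      constructor
      · rw [← isOpen_compl_iff, Metric.isOpen_iff]
        intro y₀ hy₀
        refine ⟨δ, hδ, fun y hy hy' => hy₀ ?_⟩
        refine hstep y y₀ hy' ?_
        rw [dist_comm]
        exact (Metric.mem_ball.1 hy).le
      · rw [Metric.isOpen_iff]
        intro y₀ hy₀
        exact ⟨δ, hδ, fun y hy => hstep y₀ y hy₀ (Metric.mem_ball.1 hy).le⟩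
    have hne : {y | ∃ w, UAsym S x w ∧ SAsym S y w} = Set.univ := by
      rcases isClopen_iff.1 hcl with h | h
      · exfalso
        have : x ∈ {y | ∃ w, UAsym S x w ∧ SAsym S y w} :=
          ⟨x, UAsym.refl S x, SAsym.refl S x⟩
        rw [h] at this
        exact this
      · exact h
    intro y
    have : y ∈ {y | ∃ w, UAsym S x w ∧ SAsym S y w} := by rw [hne]; exact Set.mem_univ _
    exact this
  -- local uniformity
  have hloc : ∀ q : X × X, ∃ C : ℝ, ∀ x y, dist x q.1 ≤ δ → dist y q.2 ≤ δ →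
      ∃ w, UAsym S x w ∧ SAsym S y w ∧ ‖F.Lc x w‖ ≤ C := by
    rintro ⟨x₀, y₀⟩
    obtain ⟨w₀, h1, h2⟩ := hmeet x₀ y₀
    obtain ⟨C, hC⟩ := hA y₀ w₀ h2
    obtain ⟨C', hC'0, hC'⟩ := hbd (F.τ w₀ x₀)
    refine ⟨2 * (2 * (C' * (C + ‖F.Lc w₀ x₀‖)) + 2 * F.ε₀), fun x y hx hy => ?_⟩
    obtain ⟨w₁, h3, h4, h5⟩ := hC y hy
    have hb1 : ‖F.Lc x₀ w₁‖ ≤ C' * (C + ‖F.Lc w₀ x₀‖) := by
      rw [F.base w₀ x₀ w₁ h1.symm h3]
      refine (hC' _).trans (mul_le_mul_of_nonneg_left ?_ hC'0)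
      exact (norm_sub_le _ _).trans (by linarith)
    have hx' : dist x₀ x ≤ δ := by rw [dist_comm]; exact hx
    obtain ⟨x₁, h6, h7⟩ := hbr x₀ x hx'
    have h01 : UAsym S x₀ w₁ := h1.trans h3
    obtain ⟨w₂, -, -, h8, h9, h10, -⟩ := hG x₀ x₁ w₁ (F.geo.sasym _ _ h6) h01
    have hx1 : UAsym S x₁ x := F.geo.uasym _ _ h7
    refine ⟨w₂, hx1.symm.trans h9, h4.trans h8, ?_⟩
    rw [F.base x₁ x w₂ hx1 h9]
    have hm : F.Lc x₁ w₂ - F.Lc x₁ x ∈ S.Vu x₁ :=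
      Submodule.sub_mem _ (F.Lc_mem _ _ h9) (F.Lc_mem _ _ hx1)
    refine (F.τ_le x₁ x h7 _ hm).trans ?_
    have h11 : ‖F.Lc x₁ w₂‖ ≤ 2 * ‖F.Lc x₀ w₁‖ := by
      rw [h10]
      exact F.H_le x₀ x₁ h6 _ (F.Lc_mem _ _ h01)
    have h12 := F.Lc_le x₁ x h7
    have h13 := h7.dist_le
    have h14 := norm_sub_le (F.Lc x₁ w₂) (F.Lc x₁ x)
    linarith
  choose C hC using hloc
  obtain ⟨t, -, ht⟩ := (isCompact_univ (X := X × X)).elim_nhds_subcover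
    (fun q => Metric.ball q δ) (fun q _ => Metric.ball_mem_nhds q hδ)
  refine ⟨∑ q ∈ t, |C q|, fun x y => ?_⟩
  obtain ⟨q, hq, hxy⟩ := Set.mem_iUnion₂.1 (ht (Set.mem_univ (x, y)))
  have hd : dist (x, y) q < δ := hxy
  rw [Prod.dist_eq, max_lt_iff] at hd
  obtain ⟨w, h1, h2, h3⟩ := hC q x y hd.1.le hd.2.le
  refine ⟨w, h1, h2, h3.trans ((le_abs_self _).trans ?_)⟩
  exact Finset.single_le_sum (f := fun q => |C q|) (fun _ _ => abs_nonneg _) hq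

/-- Paths in stable plaques. -/
theorem path_of_chart {d : ℕ} (hch : ChartProp S d) :
    ∀ ρ > 0, ∃ ρ' > 0, ∀ x x', S.SRel ρ' x x' → ∃ γ : ℝ → X,
      ContinuousOn γ (Set.Icc 0 1) ∧ γ 0 = x ∧ γ 1 = x' ∧
      ∀ t ∈ Set.Icc (0 : ℝ) 1, S.SRel ρ x (γ t) := by
  intro ρ hρ
  obtain ⟨ρ₁, hρ₁, ρ', hρ', h⟩ := hch ρ hρ
  refine ⟨ρ', hρ', fun x x' hx => ?_⟩
  obtain ⟨ψ, hψ, hb⟩ := h x
  obtain ⟨b, hb1, hb2⟩ := hb x' hx
  have hbn : ∀ t ∈ Set.Icc (0 : ℝ) 1, ‖t • b‖ ≤ ρ₁ := by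
    intro t ht
    rw [norm_smul, Real.norm_eq_abs, abs_of_nonneg ht.1]
    calc t * ‖b‖ ≤ 1 * ‖b‖ := mul_le_mul_of_nonneg_right ht.2 (norm_nonneg _)
      _ ≤ ρ₁ := by linarith
  refine ⟨fun t => ψ (t • b), ?_, ?_, ?_, fun t ht => hψ.rel _ (hbn t ht)⟩
  · have hcont : ContinuousOn ψ (Metric.closedBall 0 ρ₁) := by
      have hl : LipschitzOnWith 2 ψ (Metric.closedBall 0 ρ₁) := by
        refine LipschitzOnWith.of_dist_le_mul fun a ha a' ha' => ?_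
        rw [dist_eq_norm a a']
        exact hψ.le a a' (mem_closedBall_zero_iff.1 ha) (mem_closedBall_zero_iff.1 ha')
      exact hl.continuousOn
    refine hcont.comp (f := fun t : ℝ => t • b) (by fun_prop) ?_
    intro t ht
    exact mem_closedBall_zero_iff.2 (hbn t ht)
  · simp only [zero_smul]
    exact hψ.zero
  · simp only [one_smul]
    exact hb2

end Pool.Agent.H779R2.Nu
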