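import Pool.Agent.H779R2.Nu.NDef
import Pool.Agent.H779R2.An.CMinR
import Pool.Agent.H779R2.An.TransNT
import Pool.Agent.H779R2.An.CAssembly

set_option autoImplicit false

namespace Pool.Agent.H779R2.Nu

open Pool.Agent.H721R2 Pool.Agent.H779R2.An Pool.Agent.H779R2.Li Filter Topology MeasureTheory
open scoped BigOperators

variable {X E : Type*} [MetricSpace X] [CompactSpace X] [NormedAddCommGroup E]
  [InnerProductSpace ℝ E] [FiniteDimensional ℝ E]

variable {S : HypSys X E} {D : ℕ}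

omit [CompactSpace X] [FiniteDimensional ℝ E] in
/-- Every stable leaf is dense. -/
private theorem dense_sleaf (F : Flat S)
    (hm : ∃ R : ℝ, ∀ x y, ∃ w, UAsym S x w ∧ SAsym S y w ∧ ‖F.Lc x w‖ ≤ R)
    (x z : X) (ε : ℝ) (hε : 0 < ε) : ∃ w, SAsym S x w ∧ dist z w ≤ ε := by
  obtain ⟨R, hR⟩ := hm
  obtain ⟨ρ, hρ, hsm⟩ := F.small ε hε
  have hR0 : 0 ≤ max R 0 := le_max_right _ _
  have hlim : Tendsto (fun n : ℕ => ((1 : ℝ) / 16) ^ n * max R 0) atTop (𝓝 0) := by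
    have := (tendsto_pow_atTop_nhds_zero_of_lt_one (r := (1 : ℝ) / 16) (by norm_num)
      (by norm_num)).mul_const (max R 0)
    simpa using this
  obtain ⟨n, hn⟩ := (hlim.eventually (gt_mem_nhds hρ)).exists
  obtain ⟨w, hw1, hw2, hw3⟩ := hR (S.g^[n] z) (S.g^[n] x)
  have hu : UAsym S z (S.g.symm^[n] w) := by
    have := hw1.symm_iter n
    rwa [iter_symm_iter] at this
  refine ⟨S.g.symm^[n] w, ?_, ?_⟩
  · have := hw2.symm_iter n
    rwa [iter_symm_iter] at this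
  · have h1 : F.Lc z (S.g.symm^[n] w) = Dn S.symm n (S.g^[n] z) (F.Lc (S.g^[n] z) w) := by
      have := F.toLin0.Lc_back hw1 n
      rwa [iter_symm_iter] at this
    have h2 : ‖F.Lc z (S.g.symm^[n] w)‖ ≤ ρ := by
      rw [h1]
      have h3 := Dn_symm_le S n (S.g^[n] z) (F.Lc_mem _ _ hw1)
      have h4 : ((1 : ℝ) / 16) ^ n * ‖F.Lc (S.g^[n] z) w‖ ≤ (1 / 16) ^ n * max R 0 :=
        mul_le_mul_of_nonneg_left (hw3.trans (le_max_left _ _)) (by positivity)
      linarith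
    exact (hsm _ _ hu h2).dist_le

/-- Stable leaves are dense, hence transitivity. -/
theorem trans_of_meet [PreconnectedSpace X] (F : Flat S)
    (hm : ∃ R : ℝ, ∀ x y, ∃ w, UAsym S x w ∧ SAsym S y w ∧ ‖F.Lc x w‖ ≤ R)
    (U V : Set X) (hU : IsOpen U) (hUn : U.Nonempty) (hV : IsOpen V) (hVn : V.Nonempty) :
    ∃ n : ℕ, (S.g^[n] '' U ∩ V).Nonempty := by
  apply transitive_of_no_trap S _ U V hU hUn hV hVn
  intro W hW hne htrap
  by_contra hnu
  obtain ⟨R, hR2, hRW⟩ := exists_minR2 S W hW hne hnu htrap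
  have hR := hR2.toMinR
  obtain ⟨x, hx⟩ := hR.nonempty
  obtain ⟨z, hz⟩ := hne
  have hzR : z ∈ R := by
    rw [← hR.closed.closure_eq, Metric.mem_closure_iff]
    intro ε hε
    obtain ⟨w, hw1, hw2⟩ := dense_sleaf F hm x z (ε / 2) (by positivity)
    exact ⟨w, hR.sat x hx w hw1, by linarith⟩
  have : z ∈ R ∩ W := ⟨hzR, hz⟩
  rw [hRW] at this
  exact this

end Pool.Agent.H779R2.Nu
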