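import Pool.Agent.H779R2.Nu.N03
import Pool.Agent.H779R2.Nu.N04
import Pool.Agent.H779R2.Nu.N05
import Pool.Agent.H779R2.Nu.N06
import Pool.Agent.H779R2.Nu.N07
import Pool.Agent.H779R2.Nu.N08
import Pool.Agent.H779R2.Nu.N09
import Pool.Agent.H779R2.Nu.N10
import Pool.Agent.H779R2.Nu.N11
import Pool.Agent.H779R2.Nu.N12
import Pool.Agent.H779R2.Nu.N13
import Pool.Agent.H779R2.Nu.N14
import Pool.Agent.H779R2.Nu.N15
import Pool.Agent.H779R2.Nu.N16
import Pool.Agent.H779R2.Nu.N17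
import Pool.Agent.H779R2.Nu.N18
import Pool.Agent.H779R2.Nu.N19
import Pool.Agent.H779R2.Nu.N20
import Pool.Agent.H779R2.Nu.N21
import Pool.Agent.H779R2.Nu.N22
import Pool.Agent.H779R2.Nu.N23
import Pool.Agent.H779R2.Nu.N24
import Pool.Agent.H779R2.Nu.N25
import Pool.Agent.H779R2.Nu.N26
import Pool.Agent.H779R2.Nu.N27
import Pool.Agent.H779R2.Mo.MArc0
import Pool.Agent.H779R2.An.LCov
import Pool.Agent.H779R2.An.LQS
import Pool.Agent.H779R2.An.LComm
import Pool.Agent.H779R2.An.CSeg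

set_option autoImplicit false

namespace Pool.Agent.H779R2.Nu

open Pool.Agent.H721R2 Pool.Agent.H779R2.An Pool.Agent.H779R2.Li Filter Topology MeasureTheory
open scoped BigOperators

variable {X E : Type*} [MetricSpace X] [CompactSpace X] [NormedAddCommGroup E]
  [InnerProductSpace ℝ E] [FiniteDimensional ℝ E]

open Pool.Agent.H789R2.GP Pool.Agent.H789R2.AN

/-- From exactly Moebius holonomies to affine ones. -/
theorem lin_of_data [PreconnectedSpace X] [Nonempty X] {S : HypSys X E} {D d : ℕ} (hD : 2 ≤ D)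
    (hd : 2 ≤ d) (hfs : ∀ x, Module.finrank ℝ (S.Vs x) = d) (F : Flat S) (B : UV S)
    (c : CFD S D) (hc : ∃ C : ℝ, 0 < C ∧ ∀ k y, c.cw k y ≤ C * om S B k y) (hsum : SumB S B D)
    (ξ : X → Ve D → E) (h1 : ∀ x y, UAsym S x y → ξ x (c.lc x y) = F.Lc x y)
    (h2 : ∀ x y, SAsym S x y → ∀ z, ξ y (c.eta x y z) = F.H x y (ξ x z))
    (T : THD c) : LinProp F Set.univ ∧ CommLoc F ∧ QuadGlob F := by
  have hchart := chart_prop S d hfs
  have hseg := seg_of_chart hchart
  have hpath := path_of_chart hchart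
  obtain ⟨s₀, hs₀, harc⟩ := arc_prop_d c d hd hchart (Pool.Agent.H779R2.Mo.arc_choice d hd)
    (sum_near_d c B hc hsum) (Pool.Agent.H779R2.Mo.back_lip S)
  have hqd := qd_loc_d T
  have htrack := track_d T hqd
  have hD0 : (0 : ℝ) < D := by
    have : 0 < D := by omega
    exact_mod_cast this
  obtain ⟨s, hs1, hs2⟩ := exists_between (max_lt hs₀ hD0)
  have hs0 : 0 < s := lt_of_le_of_lt (le_max_right _ _) hs1
  have hsp := path_d T s hs0 (harc s (lt_of_le_of_lt (le_max_left _ _) hs1) hs2.le)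
  have hb := af_bdd_d c s hs0
  have hsel := dsel_d c s hs0
  have hle := dsum_small_d c s hs0 hb hsel
  have hlow := af_low_d c s hs0 hs2 hb
  have hpos : ∀ n, 0 < AfD c s n := by
    intro n
    obtain ⟨a, ha, h⟩ := hlow
    exact lt_of_lt_of_le (by positivity) (h n)
  obtain ⟨β, hβ, R, hR, a, ha, p, hp⟩ := exists_good c s hs0 hs2 hb hlow
    (back_unif c s hs0 hsel (dtrans_d T hqd s hs0))
  have hz := th_good T s hs0 hsp htrack hpos hle β R a hβ hR ha p hp
  have hz' := th_zero_d T (th_zero_u T hqd htrack hpath) p hz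
  have hlin := lin_of_thd F T hz' ξ h1 h2
  have hcomm := comm_loc F hlin
  exact ⟨hlin, hcomm, quad_glob F hlin hcomm hseg⟩

end Pool.Agent.H779R2.Nu
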