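import Pool.Agent.H779R2.Li.VDef
import Pool.Agent.H779R2.An.LDefs
import Pool.Agent.H779R2.An.CDefs

set_option autoImplicit false

namespace Pool.Agent.H779R2.Nu

open Pool.Agent.H721R2 Pool.Agent.H779R2.An Pool.Agent.H779R2.Li Filter Topology MeasureTheory
open scoped BigOperators

variable {X E : Type*} [MetricSpace X] [CompactSpace X] [NormedAddCommGroup E]
  [InnerProductSpace ℝ E] [FiniteDimensional ℝ E]

/-- An invariant continuous conformal structure on the unstable bundle: `B x v v` is the square of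
a Euclidean norm on `Vu x`. -/
structure CS0 (S : HypSys X E) where
  B : X → E →ₗ[ℝ] E →ₗ[ℝ] ℝ
  a : X → ℝ
  symm : ∀ x, ∀ v ∈ S.Vu x, ∀ w ∈ S.Vu x, B x v w = B x w v
  pos : ∀ x, ∀ v ∈ S.Vu x, v ≠ 0 → 0 < B x v v
  a_pos : ∀ x, 0 < a x
  conf : ∀ x, ∀ v ∈ S.Vu x, ∀ w ∈ S.Vu x, B (S.g x) (S.D x v) (S.D x w) = a x * B x v w
  cont : ∀ η > 0, ∃ r > 0, ∀ x y, dist x y < r → ∀ v ∈ S.Vu x, ∀ w ∈ S.Vu y,
    ‖v - w‖ ≤ r * ‖v‖ → |B x v v - B y w w| ≤ η * ‖v‖ ^ 2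

/-- Linearization data along an unstable bundle of rank `D ≥ 2` with an invariant conformal
structure: all maps between unstable spaces become conformal linear maps of `ℝ^D`. -/
structure CFD (S : HypSys X E) (D : ℕ) where
  hD : 2 ≤ D
  ε₀ : ℝ
  geo : Geo S ε₀
  M : ℝ
  one_le_M : 1 ≤ M
  lam : X → (Ve D →L[ℝ] Ve D)
  lc : X → X → Ve D
  tau : X → X → (Ve D →L[ℝ] Ve D)
  eta : X → X → (Ve D →L[ℝ] Ve D)
  lam_conf : ∀ x, Conf (lam x)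
  lam_ge : ∀ x, 16 ≤ ‖lam x‖
  lam_le : ∀ x, ‖lam x‖ ≤ M
  tau_conf : ∀ x y, UAsym S x y → Conf (tau x y)
  eta_conf : ∀ x y, SAsym S x y → Conf (eta x y)
  lc_equi : ∀ x y, UAsym S x y → lc (S.g x) (S.g y) = lam x (lc x y)
  lc_self : ∀ x, lc x x = 0
  lc_le : ∀ x y, S.URel ε₀ x y → ‖lc x y‖ ≤ M * dist x y
  dist_le : ∀ x y, S.URel ε₀ x y → dist x y ≤ M * ‖lc x y‖
  inj : ∀ x y z, UAsym S x y → UAsym S x z → lc x y = lc x z → y = z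
  surj : ∀ ε > 0, ∃ ρ > 0, ∀ x, ∀ u : Ve D, ‖u‖ ≤ ρ → ∃ y, S.URel ε x y ∧ lc x y = u
  small : ∀ ε > 0, ∃ ρ > 0, ∀ x y, UAsym S x y → ‖lc x y‖ ≤ ρ → S.URel ε x y
  tau_self : ∀ x, tau x x = ContinuousLinearMap.id ℝ (Ve D)
  tau_comp : ∀ x y z, UAsym S x y → UAsym S y z → (tau y z).comp (tau x y) = tau x z
  tau_equi : ∀ x y, UAsym S x y →
    (tau (S.g x) (S.g y)).comp (lam x) = (lam y).comp (tau x y)
  tau_le : ∀ x y, S.URel ε₀ x y → ‖tau x y‖ ≤ M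
  base : ∀ x y z, UAsym S x y → UAsym S x z → lc y z = tau x y (lc x z - lc x y)
  eta_self : ∀ x, eta x x = ContinuousLinearMap.id ℝ (Ve D)
  eta_comp : ∀ x y z, SAsym S x y → SAsym S y z → (eta y z).comp (eta x y) = eta x z
  eta_equi : ∀ x y, SAsym S x y →
    (eta (S.g x) (S.g y)).comp (lam x) = (lam y).comp (eta x y)
  eta_le : ∀ x y, S.SRel ε₀ x y → ‖eta x y‖ ≤ M
  cd : ∃ ε > 0, ε ≤ ε₀ ∧ ∀ η > 0, ∃ ρ > 0, ∀ w w' q q', S.SRel ε w w' → S.URel ε w q →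
    ‖lc w q‖ ≤ ρ → S.SRel ε q q' → S.URel ε w' q' → ‖lc w' q' - eta w w' (lc w q)‖ ≤ η * ‖lc w q‖

section defs

variable {S : HypSys X E} {D : ℕ}

/-- Multiplier of `g^n` at `x`. -/
noncomputable def CFD.Lp (c : CFD S D) : ℕ → X → (Ve D →L[ℝ] Ve D)
  | 0, _ => ContinuousLinearMap.id ℝ (Ve D)
  | n + 1, x => (c.lam (S.g^[n] x)).comp (CFD.Lp c n x)

/-- The size at time `-k` of a unit disc at `y`. -/
noncomputable def CFD.cw (c : CFD S D) (k : ℕ) (y : X) : ℝ := ‖c.Lp k (S.g.symm^[k] y)‖⁻¹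

/-- Size at `x` of the unit disc at time `n`. -/
noncomputable def frD (c : CFD S D) (n : ℕ) (x : X) : ℝ := ‖c.Lp n x‖⁻¹

/-- `Q` is a finite subset of the unstable disc of radius `ρ` at `x`, `θ`-separated at time `n`. -/
structure DSepD (c : CFD S D) (n : ℕ) (x : X) (ρ θ : ℝ) (Q : Finset X) : Prop where
  mem : ∀ q ∈ Q, UAsym S x q ∧ ‖c.lc x q‖ ≤ ρ
  sep : ∀ q ∈ Q, ∀ q' ∈ Q, q ≠ q' → θ ≤ ‖c.lc (S.g^[n] q) (S.g^[n] q')‖

/-- The `s`-sum of a finite set at time `n`. -/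
noncomputable def dsumD (c : CFD S D) (s : ℝ) (n : ℕ) (Q : Finset X) : ℝ :=
  ∑ q ∈ Q, frD c n q ^ s

/-- The largest `s`-sum of a unit disc at time `n`. -/
noncomputable def AfD (c : CFD S D) (s : ℝ) (n : ℕ) : ℝ :=
  sSup {t | ∃ x Q, DSepD c n x 1 1 Q ∧ t = dsumD c s n Q}

/-- Boundedness of the sums. -/
def BddD (c : CFD S D) (s : ℝ) : Prop :=
  ∀ n, BddAbove {t | ∃ x Q, DSepD c n x 1 1 Q ∧ t = dsumD c s n Q}

/-- The upper bound for small discs. -/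
def SmallD (c : CFD S D) (s : ℝ) : Prop :=
  ∀ ρ > 0, ∀ θ > 0, ∃ C : ℝ, 0 < C ∧ ∀ (n k : ℕ) (x : X) (Q : Finset X), k ≤ n →
    DSepD c n x (ρ * frD c k x) θ Q → dsumD c s n Q ≤ C * frD c k x ^ s * AfD c s (n - k)

/-- Selection of a separated subset at an earlier time. -/
def SelD (c : CFD S D) (s : ℝ) : Prop :=
  ∀ ρ > 0, ∀ θ > 0, ∀ m : ℕ, ∃ C : ℝ, 0 < C ∧ ∀ (n : ℕ) (x : X) (Q : Finset X),
    DSepD c (n + m) x ρ θ Q → ∃ Q' ⊆ Q, DSepD c n x ρ 1 Q' ∧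
      dsumD c s (n + m) Q ≤ C * dsumD c s n Q'

/-- Exact Moebius form of the stable holonomy, with the nonlinearity cocycle `th`. -/
structure THD (c : CFD S D) where
  ε : ℝ
  ε_pos : 0 < ε
  ε_le : ε ≤ c.ε₀
  C : ℝ
  C_pos : 0 < C
  th : X → X → Ve D
  th_self : ∀ x, th x x = 0
  th_equi : ∀ x y, SAsym S x y →
    ContinuousLinearMap.adjoint (c.lam x) (th (S.g x) (S.g y)) = th x y
  th_comp : ∀ x y z, SAsym S x y → SAsym S y z →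
    th x z = th x y + ContinuousLinearMap.adjoint (c.eta x y) (th y z)
  th_le : ∀ x y, S.SRel ε x y → ‖th x y‖ ≤ C
  half : ∀ z z' p, S.SRel ε z z' → S.URel ε z p → ‖th z z'‖ * ‖c.lc z p‖ ≤ 1 / 2
  mob : ∀ z z' p p', S.SRel ε z z' → S.URel ε z p → S.SRel ε p p' → S.URel ε z' p' →
    c.lc z' p' = mobD (c.eta z z') (th z z') (c.lc z p)

/-- Moebius quadrilaterals: `v → w`, `x → x'` stable, `v → x`, `w → x'` unstable. -/
structure QdMD {c : CFD S D} (T : THD c) (v w x x' : X) : Prop where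
  vw : SAsym S v w
  vx : UAsym S v x
  xx : SAsym S x x'
  wx : UAsym S w x'
  ne : den (T.th v w) (c.lc v x) ≠ 0
  lc_eq : c.lc w x' = mobD (c.eta v w) (T.th v w) (c.lc v x)
  eta_eq : ‖c.eta x x'‖ * ‖c.tau v x‖ * den (T.th v w) (c.lc v x) = ‖c.tau w x'‖ * ‖c.eta v w‖

/-- Local quadrilaterals are Moebius; vanishing of `th` propagates. -/
def QdLocD {c : CFD S D} (T : THD c) : Prop :=
  ∃ ε > 0, ε ≤ T.ε ∧ ∀ v w x x', S.SRel ε v w → S.URel ε v x → S.SRel ε x x' →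
    S.URel ε w x' → QdMD T v w x x' ∧ (T.th v w = 0 → T.th x x' = 0)

/-- Transport of an unstable point along a stable path avoiding the poles, uniformly. -/
def TrackD {c : CFD S D} (T : THD c) : Prop :=
  ∃ ε > 0, ε ≤ T.ε ∧ ∀ (v : X) (γ : ℝ → X), ContinuousOn γ (Set.Icc 0 1) → γ 0 = v →
    (∀ t ∈ Set.Icc (0 : ℝ) 1, S.SRel ε v (γ t)) → ∀ B > 0, ∀ ω > 0, ∃ n₀ : ℕ,
    ∀ x, UAsym S v x → ‖c.lc v x‖ ≤ B →
      (∀ t ∈ Set.Icc (0 : ℝ) 1, ω ≤ Real.sqrt (den (T.th v (γ t)) (c.lc v x))) →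
      ∃ x', QdMD T v (γ 1) x x' ∧ S.SRel c.ε₀ (S.g^[n₀] x) (S.g^[n₀] x')

/-- Arcs in stable plaques covered by cells of level `k` with a small `s`-sum. -/
def ArcD (c : CFD S D) (s : ℝ) : Prop :=
  ∀ κ > 0, ∀ ρ > 0, ∃ ρ' > 0, ∀ x x', S.SRel ρ' x x' → ∀ δ > 0,
    ∃ (k : ℕ) (γ : ℝ → X) (A : Finset X), ContinuousOn γ (Set.Icc 0 1) ∧ γ 0 = x ∧ γ 1 = x' ∧
      (∀ t ∈ Set.Icc (0 : ℝ) 1, S.SRel ρ x (γ t)) ∧ (∀ e ∈ A, S.SRel ρ x e) ∧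
      (∀ t ∈ Set.Icc (0 : ℝ) 1, ∃ e ∈ A, S.SRel κ (S.g.symm^[k] (γ t)) (S.g.symm^[k] e)) ∧
      ∑ e ∈ A, c.cw k e ^ s ≤ δ

/-- Paths in stable plaques along which `th` takes values in a set of small `s`-content. -/
def PathD {c : CFD S D} (T : THD c) (s : ℝ) : Prop :=
  ∀ ρ > 0, ∃ ρ' > 0, ∀ x x', S.SRel ρ' x x' → ∀ δ > 0,
    ∃ (γ : ℝ → X) (I : Finset X) (β : X → Ve D) (ω : X → ℝ), ContinuousOn γ (Set.Icc 0 1) ∧
      γ 0 = x ∧ γ 1 = x' ∧ (∀ t ∈ Set.Icc (0 : ℝ) 1, S.SRel ρ x (γ t)) ∧ (∀ i ∈ I, 0 < ω i) ∧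
      ∑ i ∈ I, ω i ^ s ≤ δ ∧ ∀ t ∈ Set.Icc (0 : ℝ) 1, ∃ i ∈ I, ‖T.th x (γ t) - β i‖ ≤ ω i

/-- Good points: along the backward orbit of `p` the unstable discs have almost maximal sums, for
infinitely many times `N`, which are record times for the growth of `AfD`. -/
def GoodD (c : CFD S D) (s β R a : ℝ) (p : X) : Prop :=
  ∀ N₀ : ℕ, ∃ N ≥ N₀, (∀ k ≤ N, β ^ k * AfD c s (N - k) ≤ AfD c s N) ∧
    ∀ m, ∃ Q, DSepD c N (S.g.symm^[m] p) R 1 Q ∧ a * AfD c s N ≤ dsumD c s N Q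

end defs

end Pool.Agent.H779R2.Nu
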