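import Pool.Agent.H779R2.Nu.NMDef
import Pool.Agent.H779R2.An.CJ0M

set_option autoImplicit false
set_option linter.unusedSectionVars false

open scoped Manifold ContDiff Topology Bundle
open Set Filter Bundle

namespace Pool.Agent.H779R2.Nu

open Pool.Agent.H721R2 Pool.Agent.H779R2.An

section aux

variable {E₀ : Type*} [NormedAddCommGroup E₀] [NormedSpace ℝ E₀] [FiniteDimensional ℝ E₀]
  {M : Type*} [MetricSpace M] [CompactSpace M] [ChartedSpace E₀ M] [IsManifold 𝓘(ℝ, E₀) 1 M]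
  {F : Type*} [NormedAddCommGroup F] [NormedSpace ℝ F]

private theorem nm_cpt {e : M → F} (he : ContMDiff 𝓘(ℝ, E₀) 𝓘(ℝ, F) 1 e)
    (hinj : ∀ x, Function.Injective (dm E₀ e x)) {x : ℕ → M} {x₀ : M} {v : ℕ → E₀} {B : ℝ}
    (hx : Tendsto x atTop (𝓝 x₀)) (hB : ∀ n, ‖dm E₀ e (x n) (v n)‖ ≤ B) :
    ∃ v₀ : E₀, ∃ φ : ℕ → ℕ, StrictMono φ ∧
      Tendsto (fun n => (⟨x (φ n), v (φ n)⟩ : TangentBundle 𝓘(ℝ, E₀) M)) atTop
        (𝓝 (⟨x₀, v₀⟩ : TangentBundle 𝓘(ℝ, E₀) M)) := by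
  obtain ⟨t, ht⟩ : ∃ t, t = trivializationAt E₀ (TangentSpace 𝓘(ℝ, E₀) : M → Type _) x₀ := ⟨_, rfl⟩
  have hlin : t.IsLinear ℝ := by rw [ht]; infer_instance
  have hb₀ : x₀ ∈ t.baseSet := by
    rw [ht]; exact FiberBundle.mem_baseSet_trivializationAt' x₀
  have hbase : ∀ᶠ x in 𝓝 x₀, x ∈ t.baseSet := t.open_baseSet.mem_nhds hb₀
  have hA : ∀ x ∈ t.baseSet, ∀ v : E₀,
      (t.symmL ℝ x : E₀ → E₀) (dm E₀ (extChartAt 𝓘(ℝ, E₀) x₀) x v) = v := by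
    intro x hx v
    have hx' : x ∈ (chartAt E₀ x₀).source := by
      rwa [ht, TangentBundle.trivializationAt_baseSet] at hx
    have h1 : (trivializationAt E₀ (TangentSpace 𝓘(ℝ, E₀) : M → Type _) x₀).continuousLinearMapAt
        ℝ x v = dm E₀ (extChartAt 𝓘(ℝ, E₀) x₀) x v := by
      rw [TangentBundle.continuousLinearMapAt_trivializationAt hx']
      rfl
    rw [← h1]
    subst ht
    exact (trivializationAt E₀ (TangentSpace 𝓘(ℝ, E₀) : M → Type _)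
      x₀).symmL_continuousLinearMapAt hx v
  obtain ⟨⟨C, hC, h1⟩, -⟩ := local_all e he hinj e he x₀
  have hev := hx.eventually (hbase.and h1)
  set w : ℕ → E₀ := fun n => dm E₀ (extChartAt 𝓘(ℝ, E₀) x₀) (x n) (v n) with hw
  have hfr : ∃ᶠ n in atTop, w n ∈ Metric.closedBall (0 : E₀) (C * B) := by
    apply Filter.Eventually.frequently
    filter_upwards [hev] with n hn
    rw [mem_closedBall_zero_iff]
    exact ((hn.2 (v n)).1).trans (mul_le_mul_of_nonneg_left (hB n) hC.le)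
  obtain ⟨a, -, φ, hφ, hlim⟩ := (isCompact_closedBall (0 : E₀) (C * B)).tendsto_subseq' hfr
  refine ⟨t.symmL ℝ x₀ a, φ, hφ, ?_⟩
  have hcont : ContinuousAt (fun z : M × E₀ =>
      (⟨z.1, t.symmL ℝ z.1 z.2⟩ : TangentBundle 𝓘(ℝ, E₀) M)) (x₀, a) := by
    have h2 : ContinuousOn (fun z : M × E₀ =>
      (⟨z.1, t.symmL ℝ z.1 z.2⟩ : TangentBundle 𝓘(ℝ, E₀) M)) (t.baseSet ×ˢ univ) := by
      refine (t.continuousOn_symm).congr (fun z hz => ?_)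
      rw [t.symmL_apply hz.1]
    exact h2.continuousAt ((t.open_baseSet.prod isOpen_univ).mem_nhds ⟨hb₀, trivial⟩)
  have hl2 : Tendsto (fun n => (x (φ n), w (φ n))) atTop (𝓝 (x₀, a)) :=
    (hx.comp hφ.tendsto_atTop).prodMk_nhds hlim
  have h3 := hcont.tendsto.comp hl2
  refine h3.congr' ?_
  have hev2 := hφ.tendsto_atTop.eventually hev
  filter_upwards [hev2] with n hn
  show (⟨x (φ n), t.symmL ℝ (x (φ n)) (w (φ n))⟩ : TangentBundle 𝓘(ℝ, E₀) M) = _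
  rw [hw]
  have := hA (x (φ n)) hn.1 (v (φ n))
  exact congrArg (fun z => (⟨x (φ n), z⟩ : TangentBundle 𝓘(ℝ, E₀) M)) this

private theorem nm_phi {e : M → F} (he : ContMDiff 𝓘(ℝ, E₀) 𝓘(ℝ, F) 1 e) :
    Continuous (fun p : TangentBundle 𝓘(ℝ, E₀) M => dm E₀ e p.1 p.2) := by
  have h1 := he.continuous_tangentMap (le_refl 1)
  have h2 := (tangentBundleModelSpaceHomeomorph 𝓘(ℝ, F)).continuous.comp h1
  exact continuous_snd.comp h2

private theorem nm_closed {e : M → F} (he : ContMDiff 𝓘(ℝ, E₀) 𝓘(ℝ, F) 1 e)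
    (hinj : ∀ x, Function.Injective (dm E₀ e x))
    {f : M ≃ₜ M} {Es Eu : M → Submodule ℝ E₀} {C a b Ls Lu : ℝ}
    (h : EAnosov e f Es Eu C a b Ls Lu)
    {p : ℕ → TangentBundle 𝓘(ℝ, E₀) M} {q : TangentBundle 𝓘(ℝ, E₀) M}
    (hp : Tendsto p atTop (𝓝 q)) (hm : ∀ n, (p n).2 ∈ Eu (p n).1) : q.2 ∈ Eu q.1 := by
  have hφ := ((nm_phi he).tendsto q).comp hp
  have hx : Tendsto (fun n => (p n).1) atTop (𝓝 q.1) :=
    ((FiberBundle.continuous_proj E₀ (TangentSpace 𝓘(ℝ, E₀) : M → Type _)).tendsto q).comp hp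
  set V : Submodule ℝ F := (Eu q.1).map (dm E₀ e q.1).toLinearMap with hV
  have hVc : IsClosed (V : Set F) := Submodule.closed_of_finiteDimensional V
  have hmem : dm E₀ e q.1 q.2 ∈ (V : Set F) := by
    rw [← hVc.closure_eq, Metric.mem_closure_iff]
    intro ε hε
    set B := ‖dm E₀ e q.1 q.2‖ + 1 with hB
    have hB0 : 0 < B := by positivity
    obtain ⟨r, hr, h1⟩ := h.symm.contS he hinj (ε / (2 * B)) (by positivity)
    have e1 : ∀ᶠ n in atTop, dist (p n).1 q.1 < r := (Metric.tendsto_nhds.mp hx) r hr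
    have e2 : ∀ᶠ n in atTop, dist (dm E₀ e (p n).1 (p n).2) (dm E₀ e q.1 q.2) < min 1 (ε / 2) :=
      (Metric.tendsto_nhds.mp hφ) _ (lt_min one_pos (by positivity))
    obtain ⟨n, hn1, hn2⟩ := (e1.and e2).exists
    obtain ⟨u, hu, hu2⟩ := h1 _ _ hn1 _ (hm n)
    refine ⟨dm E₀ e q.1 u, ⟨u, hu, rfl⟩, ?_⟩
    have h3 : ‖dm E₀ e (p n).1 (p n).2‖ ≤ B := by
      have h4 := norm_sub_norm_le (dm E₀ e (p n).1 (p n).2) (dm E₀ e q.1 q.2)
      rw [← dist_eq_norm] at h4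
      have h5 := hn2.le.trans (min_le_left _ _)
      linarith
    have h4 : ε / (2 * B) * ‖dm E₀ e (p n).1 (p n).2‖ ≤ ε / 2 := by
      calc _ ≤ ε / (2 * B) * B := mul_le_mul_of_nonneg_left h3 (by positivity)
        _ = ε / 2 := by field_simp
    have h5 := hn2.trans_le (min_le_right _ _)
    rw [dist_comm] at h5
    have h6 := dist_triangle (dm E₀ e q.1 q.2) (dm E₀ e (p n).1 (p n).2) (dm E₀ e q.1 u)
    rw [dist_eq_norm (dm E₀ e (p n).1 (p n).2) (dm E₀ e q.1 u)] at h6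
    linarith
  obtain ⟨u, hu, hu2⟩ := hmem
  have := hinj q.1 hu2
  rw [← this]
  exact hu

private theorem nm_cont {e : M → F} (he : ContMDiff 𝓘(ℝ, E₀) 𝓘(ℝ, F) 1 e)
    (hinj : ∀ x, Function.Injective (dm E₀ e x))
    {f : M ≃ₜ M} {Es Eu : M → Submodule ℝ E₀} {C a b Ls Lu : ℝ}
    (h : EAnosov e f Es Eu C a b Ls Lu)
    (G : M → E₀ →ₗ[ℝ] E₀ →ₗ[ℝ] ℝ)
    (hG : ContinuousOn (fun p : TangentBundle 𝓘(ℝ, E₀) M => G p.1 p.2 p.2) {p | p.2 ∈ Eu p.1})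
    (η : ℝ) (hη : 0 < η) :
    ∃ r > 0, ∀ x y, dist x y < r → ∀ v ∈ Eu x, ∀ w ∈ Eu y,
      ‖dm E₀ e x v - dm E₀ e y w‖ ≤ r * ‖dm E₀ e x v‖ →
      |G x v v - G y w w| ≤ η * ‖dm E₀ e x v‖ ^ 2 := by
  by_contra hcon
  push Not at hcon
  -- normalised violating sequences
  have hseq : ∀ n : ℕ, ∃ x y : M, ∃ v w : E₀, dist x y < 1 / ((n : ℝ) + 1) ∧ v ∈ Eu x ∧
      w ∈ Eu y ∧ ‖dm E₀ e x v‖ = 1 ∧ ‖dm E₀ e x v - dm E₀ e y w‖ ≤ 1 / ((n : ℝ) + 1) ∧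
      η < |G x v v - G y w w| := by
    intro n
    obtain ⟨x, y, hxy, v, hv, w, hw, h1, h2⟩ := hcon (1 / ((n : ℝ) + 1)) (by positivity)
    have hn0 : 0 < ‖dm E₀ e x v‖ := by
      rcases (norm_nonneg (dm E₀ e x v)).lt_or_eq with h3 | h3
      · exact h3
      · exfalso
        have h4 : dm E₀ e x v = 0 := norm_eq_zero.mp h3.symm
        have h5 : v = 0 := hinj x (by rw [h4, map_zero])
        rw [← h3, mul_zero, h4, zero_sub, norm_neg] at h1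
        have h6 : dm E₀ e y w = 0 := norm_eq_zero.mp (le_antisymm h1 (norm_nonneg _))
        have h7 : w = 0 := hinj y (by rw [h6, map_zero])
        subst h5
        subst h7
        rw [← h3] at h2
        simp at h2
    set c := ‖dm E₀ e x v‖⁻¹ with hc
    have hc0 : 0 < c := inv_pos.mpr hn0
    refine ⟨x, y, c • v, c • w, hxy, Submodule.smul_mem _ _ hv, Submodule.smul_mem _ _ hw,
      ?_, ?_, ?_⟩
    · rw [map_smul, norm_smul, Real.norm_of_nonneg hc0.le, hc, inv_mul_cancel₀ hn0.ne']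
    · rw [map_smul, map_smul, ← smul_sub, norm_smul, Real.norm_of_nonneg hc0.le, hc,
        inv_mul_le_iff₀ hn0]
      linarith
    · have h3 : G x (c • v) (c • v) = c ^ 2 * G x v v := by
        rw [map_smul, map_smul, LinearMap.smul_apply, smul_eq_mul, smul_eq_mul]; ring
      have h4 : G y (c • w) (c • w) = c ^ 2 * G y w w := by
        rw [map_smul, map_smul, LinearMap.smul_apply, smul_eq_mul, smul_eq_mul]; ring
      rw [h3, h4, ← mul_sub, abs_mul, abs_of_pos (by positivity), hc, inv_pow,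
        lt_inv_mul_iff₀ (by positivity)]
      linarith
  choose x y v w hxy hv hw hv1 hvw hJJ using hseq
  obtain ⟨x₀, -, φ, hφ, hx⟩ := (isCompact_univ (X := M)).tendsto_subseq (fun n => mem_univ (x n))
  obtain ⟨v₀, φ₁, hφ₁, hp⟩ := nm_cpt he hinj (v := v ∘ φ) (B := 1) hx
    (fun n => (hv1 (φ n)).le)
  have h0 : Tendsto (fun n : ℕ => 1 / ((n : ℝ) + 1)) atTop (𝓝 0) := tendsto_one_div_add_atTop_nhds_zero_nat
  have hy : Tendsto (fun n => y (φ (φ₁ n))) atTop (𝓝 x₀) := by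
    have h1 : Tendsto (fun n => x (φ (φ₁ n))) atTop (𝓝 x₀) := hx.comp hφ₁.tendsto_atTop
    have h2 : Tendsto (fun n => dist (x (φ (φ₁ n))) (y (φ (φ₁ n)))) atTop (𝓝 0) := by
      refine squeeze_zero (fun n => dist_nonneg) (fun n => (hxy _).le)
        ((h0.comp (hφ.comp hφ₁).tendsto_atTop))
    exact (tendsto_iff_of_dist h2).mp h1
  obtain ⟨w₀, φ₂, hφ₂, hq⟩ := nm_cpt he hinj (x := fun n => y (φ (φ₁ n)))
    (v := fun n => w (φ (φ₁ n))) (B := 2) hy (fun n => by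
      have h1 := hvw (φ (φ₁ n))
      have h2 := hv1 (φ (φ₁ n))
      have h3 : (1 : ℝ) / (((φ (φ₁ n) : ℕ) : ℝ) + 1) ≤ 1 := by
        rw [div_le_one (by positivity)]
        have : (0 : ℝ) ≤ ((φ (φ₁ n) : ℕ) : ℝ) := by positivity
        linarith
      have h4 := norm_sub_norm_le (dm E₀ e (y (φ (φ₁ n))) (w (φ (φ₁ n))))
        (dm E₀ e (x (φ (φ₁ n))) (v (φ (φ₁ n))))
      rw [norm_sub_rev] at h4
      linarith)
  have hp' := hp.comp hφ₂.tendsto_atTop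
  -- the index sequence
  set ψ : ℕ → ℕ := fun n => φ (φ₁ (φ₂ n)) with hψ
  have hψm : StrictMono ψ := (hφ.comp hφ₁).comp hφ₂
  have hp2 : Tendsto (fun n => (⟨x (ψ n), v (ψ n)⟩ : TangentBundle 𝓘(ℝ, E₀) M)) atTop
      (𝓝 ⟨x₀, v₀⟩) := hp'
  have hq2 : Tendsto (fun n => (⟨y (ψ n), w (ψ n)⟩ : TangentBundle 𝓘(ℝ, E₀) M)) atTop
      (𝓝 ⟨x₀, w₀⟩) := hq
  have hΦ := nm_phi (E₀ := E₀) he
  have t1 := (hΦ.tendsto _).comp hp2
  have t2 := (hΦ.tendsto _).comp hq2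
  have t3 : Tendsto (fun n => dm E₀ e (x (ψ n)) (v (ψ n)) - dm E₀ e (y (ψ n)) (w (ψ n))) atTop
      (𝓝 0) := by
    refine squeeze_zero_norm (fun n => hvw (ψ n)) (h0.comp hψm.tendsto_atTop)
  have hvw0 : v₀ = w₀ := by
    have t4 := t1.sub t2
    have t5 := tendsto_nhds_unique t4 t3
    exact hinj x₀ (sub_eq_zero.mp t5)
  subst hvw0
  have hmem : v₀ ∈ Eu x₀ := nm_closed he hinj h hp2 (fun n => hv _)
  have hJc := hG (⟨x₀, v₀⟩ : TangentBundle 𝓘(ℝ, E₀) M) hmem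
  have j1 := hJc.tendsto.comp (tendsto_nhdsWithin_iff.mpr ⟨hp2, Eventually.of_forall fun n => hv _⟩)
  have j2 := hJc.tendsto.comp (tendsto_nhdsWithin_iff.mpr ⟨hq2, Eventually.of_forall fun n => hw _⟩)
  have k3 := (j1.sub j2).abs
  rw [sub_self, abs_zero] at k3
  have k4 := (tendsto_order.mp k3).2 η hη
  obtain ⟨n, hn⟩ := k4.exists
  exact absurd hn (not_lt.mpr (hJJ (ψ n)).le)

private theorem nm_iter {f : M ≃ₜ M} {Es Eu : M → Submodule ℝ E₀} {e : M → F}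
    {C a b Ls Lu : ℝ} (h : EAnosov e f Es Eu C a b Ls Lu)
    (G : M → E₀ →ₗ[ℝ] E₀ →ₗ[ℝ] ℝ)
    (hG : ∀ x, ∃ a : ℝ, 0 < a ∧ ∀ v ∈ Eu x, G (f x) (dg E₀ f x v) (dg E₀ f x v) = a * G x v v)
    (n : ℕ) (x : M) :
    ∃ a : ℝ, 0 < a ∧ ∀ v ∈ Eu x,
      G (f^[n] x) (dg E₀ (f^[n]) x v) (dg E₀ (f^[n]) x v) = a * G x v v := by
  induction n with
  | zero =>
    have h1 : ∀ u : E₀, dg E₀ (f^[0]) x u = u := by
      intro u
      show mfderiv 𝓘(ℝ, E₀) 𝓘(ℝ, E₀) id x u = u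
      rw [mfderiv_id]; rfl
    refine ⟨1, one_pos, fun v _ => ?_⟩
    rw [h1, one_mul]
    rfl
  | succ n ih =>
    obtain ⟨a, ha, h1⟩ := ih
    obtain ⟨a', ha', h2⟩ := hG (f^[n] x)
    refine ⟨a' * a, mul_pos ha' ha, fun v hv => ?_⟩
    rw [Function.iterate_succ']
    rw [dg_comp _ _ (iter_smooth f h.smooth n) h.smooth, mul_assoc, ← h1 v hv]
    exact h2 _ (h.mapU n x v hv)

end aux

variable {E₀ : Type*} [NormedAddCommGroup E₀] [NormedSpace ℝ E₀] [FiniteDimensional ℝ E₀]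
  {M : Type*} [MetricSpace M] [CompactSpace M] [ChartedSpace E₀ M] [IsManifold 𝓘(ℝ, E₀) ∞ M]
  {F : Type*} [NormedAddCommGroup F] [InnerProductSpace ℝ F]

/-- Y28 -/
theorem cs0_of_realizes {e : M → F} (hiso : ∀ x y, dist x y = ‖e x - e y‖)
    (he : ContMDiff 𝓘(ℝ, E₀) 𝓘(ℝ, F) 1 e) (hinj : ∀ x, Function.Injective (dm E₀ e x))
    {f : M ≃ₜ M} {Es Eu : M → Submodule ℝ E₀} {C a b Ls Lu : ℝ}
    (h : EAnosov e f Es Eu C a b Ls Lu)
    (G : ∀ x : M, TangentSpace 𝓘(ℝ, E₀) x →ₗ[ℝ] TangentSpace 𝓘(ℝ, E₀) x →ₗ[ℝ] ℝ)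
    (hG : InvConfOn f Eu G) {S : HypSys M F} {N : ℕ}
    (hS : Realizes S e f Es Eu N) : Nonempty (CS0 S) := by
  have hleft : ∀ x, ∃ L : F →ₗ[ℝ] E₀, ∀ v, L (dm E₀ e x v) = v := by
    intro x
    obtain ⟨L, hL⟩ := LinearMap.exists_leftInverse_of_injective (dm E₀ e x).toLinearMap
      (LinearMap.ker_eq_bot.mpr (hinj x))
    exact ⟨L, fun v => LinearMap.congr_fun hL v⟩
  choose L hL using hleft
  let G₀ : M → E₀ →ₗ[ℝ] E₀ →ₗ[ℝ] ℝ := fun x => G x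
  have hsymm : ∀ x, ∀ v ∈ Eu x, ∀ w ∈ Eu x, G₀ x v w = G₀ x w v := hG.symm
  have hpos : ∀ x, ∀ v ∈ Eu x, v ≠ 0 → 0 < G₀ x v v := hG.pos
  let B : M → F →ₗ[ℝ] F →ₗ[ℝ] ℝ := fun x => (G₀ x).compl₁₂ (L x) (L x)
  have hB : ∀ x v w, B x (dm E₀ e x v) (dm E₀ e x w) = G₀ x v w := by
    intro x v w
    show G₀ x (L x (dm E₀ e x v)) (L x (dm E₀ e x w)) = _
    rw [hL, hL]
  have hmem : ∀ x w, w ∈ S.Vu x ↔ ∃ v ∈ Eu x, dm E₀ e x v = w := by
    intro x w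
    rw [hS.Vu_eq]
    exact Iff.rfl
  have hit := nm_iter h G₀ hG.conf N
  choose α hα hconf using hit
  -- polarisation
  have hconf2 : ∀ x, ∀ v ∈ Eu x, ∀ w ∈ Eu x,
      G₀ (f^[N] x) (dg E₀ (f^[N]) x v) (dg E₀ (f^[N]) x w) = α x * G₀ x v w := by
    intro x v hv w hw
    have h1 := hconf x v hv
    have h2 := hconf x w hw
    have h3 := hconf x (v + w) (Submodule.add_mem _ hv hw)
    have h4 := hsymm x v hv w hw
    have h5 := hsymm (f^[N] x) _ (h.mapU N x v hv) _ (h.mapU N x w hw)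
    rw [map_add (dg E₀ (f^[N]) x)] at h3
    simp only [map_add, LinearMap.add_apply] at h3
    rw [← h4, ← h5, h1, h2] at h3
    linarith
  refine ⟨⟨B, α, ?_, ?_, hα, ?_, ?_⟩⟩
  · intro x w hw w' hw'
    rw [hmem] at hw hw'
    obtain ⟨v, hv, rfl⟩ := hw
    obtain ⟨v', hv', rfl⟩ := hw'
    rw [hB, hB]
    exact hsymm x v hv v' hv'
  · intro x w hw hw0
    rw [hmem] at hw
    obtain ⟨v, hv, rfl⟩ := hw
    rw [hB]
    refine hpos x v hv ?_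
    rintro rfl
    exact hw0 (map_zero _)
  · intro x w hw w' hw'
    rw [hmem] at hw hw'
    obtain ⟨v, hv, rfl⟩ := hw
    obtain ⟨v', hv', rfl⟩ := hw'
    have hg : S.g x = f^[N] x := by rw [hS.g_eq]; rfl
    rw [hS.D_eq, hS.D_eq, hg, hB, hB]
    exact hconf2 x v hv v' hv'
  · intro η hη
    obtain ⟨r, hr, h1⟩ := nm_cont he hinj h G₀ hG.continuousOn η hη
    refine ⟨r, hr, ?_⟩
    intro x y hxy v hv w hw hvw
    rw [hmem] at hv hw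
    obtain ⟨v, hv, rfl⟩ := hv
    obtain ⟨w, hw, rfl⟩ := hw
    rw [hB, hB]
    exact h1 x y hxy v hv w hw hvw

/-- Y28 -/
theorem invConfOn_symm {e : M → F} {f : M ≃ₜ M} {Es Eu : M → Submodule ℝ E₀}
    {C a b Ls Lu : ℝ} (h : EAnosov e f Es Eu C a b Ls Lu)
    {G : ∀ x : M, TangentSpace 𝓘(ℝ, E₀) x →ₗ[ℝ] TangentSpace 𝓘(ℝ, E₀) x →ₗ[ℝ] ℝ}
    (hG : InvConfOn f Es G) : InvConfOn f.symm Es G := by
  refine ⟨hG.continuousOn, hG.symm, hG.pos, ?_⟩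
  have key : ∀ (G₀ : M → E₀ →ₗ[ℝ] E₀ →ₗ[ℝ] ℝ),
      (∀ x, ∃ a : ℝ, 0 < a ∧ ∀ v ∈ Es x, G₀ (f x) (dg E₀ f x v) (dg E₀ f x v) = a * G₀ x v v) →
      ∀ x, ∃ a : ℝ, 0 < a ∧ ∀ v ∈ Es x,
        G₀ (f.symm x) (dg E₀ f.symm x v) (dg E₀ f.symm x v) = a * G₀ x v v := by
    intro G₀ hc x
    obtain ⟨a, ha, h1⟩ := hc (f.symm x)
    refine ⟨a⁻¹, inv_pos.mpr ha, fun v hv => ?_⟩
    have h2 : dg E₀ f (f.symm x) (dg E₀ f.symm x v) = v :=
      dg_inv f.symm f h.smooth' h.smooth (fun x => f.apply_symm_apply x) x v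
    have h3 := h1 (dg E₀ f.symm x v) (h.mapS' 1 x v hv)
    rw [h2, f.apply_symm_apply] at h3
    rw [h3, inv_mul_cancel_left₀ ha.ne']
  exact key G hG.conf

end Pool.Agent.H779R2.Nu
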