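import Pool.Agent.H779R2.Nu.NDef
import Pool.Agent.H779R2.An.DefsB

set_option autoImplicit false
set_option linter.unusedSectionVars false

open scoped Manifold ContDiff Topology Bundle
open Set Filter Bundle

namespace Pool.Agent.H779R2.Nu

open Pool.Agent.H721R2 Pool.Agent.H779R2.An

section

variable {E : Type*} [NormedAddCommGroup E] [NormedSpace ℝ E]
  {M : Type*} [TopologicalSpace M] [ChartedSpace E M]

/-- `G` restricts to a continuous field of Euclidean scalar products on the field of subspaces `V`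
and `Df` is conformal on `V` with respect to `G`. -/
structure InvConfOn [IsManifold 𝓘(ℝ, E) 1 M] (f : M → M)
    (V : ∀ x : M, Submodule ℝ (TangentSpace 𝓘(ℝ, E) x))
    (G : ∀ x : M, TangentSpace 𝓘(ℝ, E) x →ₗ[ℝ] TangentSpace 𝓘(ℝ, E) x →ₗ[ℝ] ℝ) : Prop where
  continuousOn : ContinuousOn (fun p : TangentBundle 𝓘(ℝ, E) M => G p.1 p.2 p.2) {p | p.2 ∈ V p.1}
  symm : ∀ x, ∀ v ∈ V x, ∀ w ∈ V x, G x v w = G x w v
  pos : ∀ x, ∀ v ∈ V x, v ≠ 0 → 0 < G x v v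
  conf : ∀ x, ∃ a : ℝ, 0 < a ∧ ∀ v ∈ V x,
    G (f x) (mfderiv 𝓘(ℝ, E) 𝓘(ℝ, E) f x v) (mfderiv 𝓘(ℝ, E) 𝓘(ℝ, E) f x v) = a * G x v v

end

end Pool.Agent.H779R2.Nu
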