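import Pool.Agent.H779R2.Nu.N00

set_option autoImplicit false

namespace Pool.Agent.H779R2.Nu

open Pool.Agent.H721R2 Pool.Agent.H779R2.An Pool.Agent.H779R2.Li Filter Topology MeasureTheory
open scoped BigOperators

variable {X E : Type*} [MetricSpace X] [CompactSpace X] [NormedAddCommGroup E]
  [InnerProductSpace ℝ E] [FiniteDimensional ℝ E]

variable {S : HypSys X E} {D : ℕ}

/-- The nonlinearity cocycle of the stable holonomy and the cubic Moebius estimate. -/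
structure THQ (c : CFD S D) where
  ε : ℝ
  ε_pos : 0 < ε
  ε_le : ε ≤ c.ε₀
  C : ℝ
  C_pos : 0 < C
  th : X → X → Ve D
  th_self : ∀ x, th x x = 0
  th_equi : ∀ x y, SAsym S x y →
    ContinuousLinearMap.adjoint (c.lam x) (th (S.g x) (S.g y)) = th x y
  th_comp : ∀ x y z, SAsym S x y → SAsym S y z →
    th x z = th x y + ContinuousLinearMap.adjoint (c.eta x y) (th y z)
  th_le : ∀ x y, S.SRel ε x y → ‖th x y‖ ≤ C
  half : ∀ z z' p, S.SRel ε z z' → S.URel ε z p → ‖th z z'‖ * ‖c.lc z p‖ ≤ 1 / 2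
  cubic : ∀ z z' p p', S.SRel ε z z' → S.URel ε z p → S.SRel ε p p' → S.URel ε z' p' →
    ‖c.lc z' p' - mobD (c.eta z z') (th z z') (c.lc z p)‖ ≤ C * ‖c.lc z p‖ ^ 3

/-- Level-`k` versions. -/
def LevQ {c : CFD S D} (T : THQ c) : Prop :=
  ∃ C > 0, ∃ ε > 0, ε ≤ T.ε ∧ (∀ (k : ℕ) (y y' : X), S.SRel ε (S.g.symm^[k] y) (S.g.symm^[k] y') →
      ‖T.th y y'‖ ≤ C * c.cw k y) ∧
    ∀ (k : ℕ) (y y' q q' : X), S.SRel ε (S.g.symm^[k] y) (S.g.symm^[k] y') → S.URel ε y q →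
      S.URel ε y' q' → S.SRel ε q q' →
      ‖c.lc y' q' - mobD (c.eta y y') (T.th y y') (c.lc y q)‖ ≤ C * c.cw k y ^ 2 * ‖c.lc y q‖ ^ 3

/-- Chains along stable plaques with small square sums. -/
def ChainQ (c : CFD S D) : Prop :=
  ∀ ε > 0, ∀ ρ > 0, ∃ ρ' > 0, ∀ x x', S.SRel ρ' x x' → ∀ δ > 0, ∃ (k m : ℕ) (e : ℕ → X),
    e 0 = x ∧ e m = x' ∧ (∀ i ≤ m, S.SRel ρ x (e i)) ∧
    (∀ i < m, S.SRel ε (S.g.symm^[k] (e i)) (S.g.symm^[k] (e (i + 1)))) ∧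
    ∑ i ∈ Finset.range m, c.cw k (e i) ^ 2 ≤ δ

end Pool.Agent.H779R2.Nu
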